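import Mathlib

-- part Pool.Agent.Lib.MP_f92ad0_an.Weights
section

/-! A convex family of Tsirelson-type weights and its repeated averages. -/

namespace Pool.Agent.Lib.MP_f92ad0_an

open Classical

/-- `Wt F k w`: the weight `w` is built from `k` admissible weights by maxima and convex
combinations. -/
inductive Wt (F : ℕ → ℕ) : ℕ → (ℕ → ℝ) → Prop
  | zero (k : ℕ) : Wt F k (fun _ => 0)
  | base (j : ℕ) : Wt F 1 (fun i => if i = j then 1 else 0)
  | max {k l : ℕ} {u v : ℕ → ℝ} : Wt F k u → Wt F l v → Wt F (k + l) (fun i => max (u i) (v i))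
  | conv {k : ℕ} {u v : ℕ → ℝ} (c : ℝ) : 0 ≤ c → c ≤ 1 → Wt F k u → Wt F k v →
      Wt F k (fun i => c * u i + (1 - c) * v i)
  | tail {k : ℕ} {u : ℕ → ℝ} (p : ℕ) : Wt F k u → k ≤ F p →
      Wt F 1 (fun i => if p ≤ i then u i / 4 else 0)

variable {F : ℕ → ℕ}

theorem Wt.bounds {k : ℕ} {w : ℕ → ℝ} (h : Wt F k w) (i : ℕ) : 0 ≤ w i ∧ w i ≤ 1 := by
  induction h with
  | zero => simp
  | base j => dsimp only; split_ifs <;> simp
  | max _ _ h1 h2 => exact ⟨le_max_of_le_left h1.1, max_le h1.2 h2.2⟩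
  | conv c h0 h1 _ _ h2 h3 =>
    dsimp only
    constructor
    · exact add_nonneg (mul_nonneg h0 h2.1) (mul_nonneg (by linarith) h3.1)
    · nlinarith [h2.2, h3.2]
  | tail p _ _ h1 => dsimp only; split_ifs <;> constructor <;> linarith [h1.1, h1.2]

theorem Wt.fin {k : ℕ} {w : ℕ → ℝ} (h : Wt F k w) : ∃ N, ∀ i, N ≤ i → w i = 0 := by
  induction h with
  | zero => exact ⟨0, fun _ _ => rfl⟩
  | base j => exact ⟨j + 1, fun i hi => if_neg (by omega)⟩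
  | max _ _ h1 h2 =>
    obtain ⟨N, h1⟩ := h1
    obtain ⟨M, h2⟩ := h2
    exact ⟨N + M, fun i hi => by simp [h1 i (by omega), h2 i (by omega)]⟩
  | conv c _ _ _ _ h1 h2 =>
    obtain ⟨N, h1⟩ := h1
    obtain ⟨M, h2⟩ := h2
    exact ⟨N + M, fun i hi => by simp [h1 i (by omega), h2 i (by omega)]⟩
  | tail p _ _ h1 =>
    obtain ⟨N, h1⟩ := h1
    exact ⟨N, fun i hi => by simp [h1 i hi]⟩

theorem Wt.mono {k l : ℕ} {w : ℕ → ℝ} (h : Wt F k w) (hkl : k ≤ l) : Wt F l w := by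
  have := h.max (Wt.zero (l - k))
  rw [Nat.add_sub_cancel' hkl] at this
  have e : (fun i => Max.max (w i) 0) = w := funext fun i => max_eq_left (h.bounds i).1
  rwa [e] at this

theorem Wt.exists_max {α : Type*} (A : Finset α) (w : α → ℕ → ℝ) (hw : ∀ a, Wt F 1 (w a)) :
    ∃ u, Wt F A.card u ∧ ∀ a ∈ A, ∀ j, w a j ≤ u j := by
  induction A using Finset.induction_on with
  | empty => exact ⟨_, Wt.zero _, by simp⟩
  | insert a A ha ih =>
    obtain ⟨u, hu, hle⟩ := ih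
    refine ⟨_, by rw [Finset.card_insert_of_notMem ha]; exact hu.max (hw a), ?_⟩
    intro b hb j
    rcases Finset.mem_insert.1 hb with rfl | hb
    · exact le_max_right _ _
    · exact le_max_of_le_left (hle b hb j)

theorem ind_sum_le {N : ℕ → ℕ} (hN : Monotone N) (j m : ℕ) :
    ∑ s ∈ Finset.range m, (if N s ≤ j ∧ j < N (s + 1) then (1 : ℝ) else 0) ≤ 1 := by
  rw [Finset.sum_boole]
  have : (Finset.filter (fun s => N s ≤ j ∧ j < N (s + 1)) (Finset.range m)).card ≤ 1 := by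
    refine Finset.card_le_one.2 fun a ha b hb => ?_
    have h1 := (Finset.mem_filter.1 ha).2
    have h2 := (Finset.mem_filter.1 hb).2
    rcases lt_trichotomy a b with h | h | h
    · have := hN (show a + 1 ≤ b from h); omega
    · exact h
    · have := hN (show b + 1 ≤ a from h); omega
  exact_mod_cast this

theorem Wt.decomp {N G : ℕ → ℕ} (hN : Monotone N) (hG : ∀ s p, p ≤ N s → F p ≤ G s)
    {k : ℕ} {w : ℕ → ℝ} (h : Wt F k w) :
    ∃ e : ℕ → ℝ, (∀ s, 0 ≤ e s) ∧ (∀ m, ∑ s ∈ Finset.range m, e s ≤ k) ∧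
      ∀ s, ∃ u, Wt F (k * G s) u ∧ ∀ i, N s ≤ i → i < N (s + 1) → w i ≤ e s + u i / 4 := by
  induction h with
  | zero k => exact ⟨fun _ => 0, fun _ => le_rfl, by simp, fun s => ⟨_, Wt.zero _, by simp⟩⟩
  | base j =>
    refine ⟨fun s => if N s ≤ j ∧ j < N (s + 1) then 1 else 0,
      fun s => by dsimp only; split_ifs <;> norm_num,
      fun m => by simpa using ind_sum_le hN j m, fun s => ⟨_, Wt.zero _, fun i h1 h2 => ?_⟩⟩
    by_cases hij : i = j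
    · subst hij; simp [h1, h2]
    · simp only [if_neg hij]; split_ifs <;> norm_num
  | @max k l u v _ _ h1 h2 =>
    obtain ⟨e, he0, he, hu⟩ := h1
    obtain ⟨e', he0', he', hv⟩ := h2
    refine ⟨fun s => e s + e' s, fun s => add_nonneg (he0 s) (he0' s), fun m => ?_, fun s => ?_⟩
    · rw [Finset.sum_add_distrib]; push_cast; linarith [he m, he' m]
    · obtain ⟨u', hu1, hu2⟩ := hu s
      obtain ⟨v', hv1, hv2⟩ := hv s
      refine ⟨_, by rw [add_mul]; exact hu1.max hv1, fun i h1 h2 => max_le ?_ ?_⟩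
      · linarith [hu2 i h1 h2, le_max_left (u' i) (v' i), he0' s]
      · linarith [hv2 i h1 h2, le_max_right (u' i) (v' i), he0 s]
  | @conv k u v c c0 c1 _ _ h1 h2 =>
    obtain ⟨e, he0, he, hu⟩ := h1
    obtain ⟨e', he0', he', hv⟩ := h2
    have c2 : 0 ≤ 1 - c := by linarith
    refine ⟨fun s => c * e s + (1 - c) * e' s,
      fun s => add_nonneg (mul_nonneg c0 (he0 s)) (mul_nonneg c2 (he0' s)), fun m => ?_,
      fun s => ?_⟩
    · rw [Finset.sum_add_distrib, ← Finset.mul_sum, ← Finset.mul_sum]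
      nlinarith [mul_le_mul_of_nonneg_left (he m) c0, mul_le_mul_of_nonneg_left (he' m) c2]
    · obtain ⟨u', hu1, hu2⟩ := hu s
      obtain ⟨v', hv1, hv2⟩ := hv s
      refine ⟨_, hu1.conv c c0 c1 hv1, fun i h1 h2 => ?_⟩
      nlinarith [mul_le_mul_of_nonneg_left (hu2 i h1 h2) c0,
        mul_le_mul_of_nonneg_left (hv2 i h1 h2) c2]
  | @tail k u p hu hk _ =>
    refine ⟨fun s => if N s ≤ p ∧ p < N (s + 1) then 1 else 0,
      fun s => by dsimp only; split_ifs <;> norm_num,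
      fun m => by simpa using ind_sum_le hN p m, fun s => ?_⟩
    by_cases hp : p ≤ N s
    · refine ⟨u, hu.mono (by rw [one_mul]; exact hk.trans (hG s p hp)), fun i h1 h2 => ?_⟩
      have := (hu.bounds i).1
      dsimp only
      split_ifs <;> linarith
    · refine ⟨_, Wt.zero _, fun i h1 h2 => ?_⟩
      have := (hu.bounds i).2
      dsimp only
      split_ifs with h3 h4 h5
      · linarith
      · omega
      · norm_num
      · norm_num

/-- Probability vectors in every tail on which all `k`-fold weights are small. -/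
def Small (F : ℕ → ℕ) (c : ℝ) : Prop :=
  ∀ p k : ℕ, ∃ (q : ℕ) (a : ℕ → ℝ), p ≤ q ∧ (∀ i, 0 ≤ a i) ∧ ∑ i ∈ Finset.Ico p q, a i = 1 ∧
    ∀ w, Wt F k w → ∑ i ∈ Finset.Ico p q, w i * a i ≤ c

theorem small_one : Small F 1 := fun p _ =>
  ⟨p + 1, fun _ => 1, by omega, by simp, by simp, fun w hw => by simpa using (hw.bounds p).2⟩

theorem Small.step {c : ℝ} (h : Small F c) {ε : ℝ} (hε : 0 < ε) : Small F (c / 4 + ε) := by
  intro p k
  choose q a hq ha0 ha1 ha using h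
  obtain ⟨m, hm⟩ := exists_nat_gt ((k : ℝ) / ε)
  have hm0 : (0 : ℝ) < m := lt_of_le_of_lt (by positivity) hm
  let G0 : ℕ → ℕ := fun n => ∑ i ∈ Finset.range (n + 1), F i
  let N : ℕ → ℕ := fun s => Nat.rec p (fun _ n => q n (k * G0 n)) s
  have hN1 : ∀ s, N (s + 1) = q (N s) (k * G0 (N s)) := fun _ => rfl
  have hN : Monotone N := monotone_nat_of_le_succ fun s => by rw [hN1]; exact hq _ _
  let b : ℕ → ℕ → ℝ := fun s => a (N s) (k * G0 (N s))
  have hsum : ∀ φ : ℕ → ℝ, ∑ i ∈ Finset.Ico p (N m), φ i *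
      ((∑ s ∈ Finset.range m, if i ∈ Finset.Ico (N s) (N (s + 1)) then b s i else 0) / m) =
      (∑ s ∈ Finset.range m, ∑ i ∈ Finset.Ico (N s) (N (s + 1)), φ i * b s i) / m := by
    intro φ
    simp only [← mul_div_assoc, ← Finset.sum_div, Finset.mul_sum, mul_ite, mul_zero]
    rw [Finset.sum_comm]
    congr 1
    refine Finset.sum_congr rfl fun s hs => ?_
    rw [Finset.sum_ite_mem, Finset.inter_eq_right.2]
    exact Finset.Ico_subset_Ico (hN (Nat.zero_le s)) (hN (Finset.mem_range.1 hs))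
  refine ⟨N m, fun i => (∑ s ∈ Finset.range m,
    if i ∈ Finset.Ico (N s) (N (s + 1)) then b s i else 0) / m, hN (Nat.zero_le m),
    fun i => div_nonneg (Finset.sum_nonneg fun s _ => ?_) hm0.le, ?_, fun w hw => ?_⟩
  · split_ifs
    · exact ha0 _ _ _
    · exact le_rfl
  · have := hsum fun _ => 1
    simp only [one_mul] at this
    rw [this, Finset.sum_congr rfl fun s _ => ha1 (N s) (k * G0 (N s))]
    simp [hm0.ne']
  · rw [hsum, div_le_iff₀ hm0]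
    obtain ⟨e, he0, he, hu⟩ := hw.decomp (G := fun s => G0 (N s)) hN fun s r hr =>
      Finset.single_le_sum (f := F) (fun _ _ => Nat.zero_le _)
        (Finset.mem_range.2 (Nat.lt_succ_of_le hr))
    have h1 : ∀ s, ∑ i ∈ Finset.Ico (N s) (N (s + 1)), w i * b s i ≤ e s + c / 4 := by
      intro s
      obtain ⟨u, hu1, hu2⟩ := hu s
      have h2 := ha (N s) _ u hu1
      have h3 := ha1 (N s) (k * G0 (N s))
      calc _ ≤ ∑ i ∈ Finset.Ico (N s) (N (s + 1)), (e s + u i / 4) * b s i :=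
            Finset.sum_le_sum fun i hi => mul_le_mul_of_nonneg_right
              (hu2 i (Finset.mem_Ico.1 hi).1 (Finset.mem_Ico.1 hi).2) (ha0 _ _ _)
        _ = e s * ∑ i ∈ Finset.Ico (N s) (N (s + 1)), b s i +
            (∑ i ∈ Finset.Ico (N s) (N (s + 1)), u i * b s i) / 4 := by
            rw [Finset.mul_sum, Finset.sum_div, ← Finset.sum_add_distrib]
            exact Finset.sum_congr rfl fun i _ => by ring
        _ ≤ _ := by
            have h3' : ∑ i ∈ Finset.Ico (N s) (N (s + 1)), b s i = 1 := h3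
            have h2' : ∑ i ∈ Finset.Ico (N s) (N (s + 1)), u i * b s i ≤ c := h2
            rw [h3']; linarith
    refine (Finset.sum_le_sum fun s _ => h1 s).trans ?_
    rw [Finset.sum_add_distrib, Finset.sum_const, Finset.card_range, nsmul_eq_mul]
    rw [div_lt_iff₀ hε] at hm
    nlinarith [he m]

theorem small_pow (n : ℕ) : Small F ((1 / 2) ^ n) := by
  induction n with
  | zero => simpa using small_one
  | succ n ih =>
    have := ih.step (ε := (1 / 2) ^ n / 4) (by positivity)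
    have e : (1 / 2 : ℝ) ^ n / 4 + (1 / 2) ^ n / 4 = (1 / 2) ^ (n + 1) := by ring
    rwa [e] at this

end Pool.Agent.Lib.MP_f92ad0_an
end

-- part Pool.Agent.Lib.MP_f92ad0_an.Space
section

/-! The normed sequence space with squared norm the infimum of `∑ |x j|^2 / √(w j)`. -/

namespace Pool.Agent.Lib.MP_f92ad0_an

open Classical

variable {𝕜 : Type} [RCLike 𝕜] {F : ℕ → ℕ}

/-- `x` has cost at most `r` for some admissible weight. -/
def Rep (F : ℕ → ℕ) (x : ℕ → 𝕜) (r : ℝ) : Prop :=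
  ∃ w h : ℕ → ℝ, Wt F 1 w ∧ (∀ j, 0 ≤ h j) ∧ (∀ j, ‖x j‖ ^ 2 ≤ √(w j) * h j) ∧
    ∀ n, ∑ j ∈ Finset.range n, h j ≤ r

theorem Rep.nonneg {x : ℕ → 𝕜} {r : ℝ} (h : Rep F x r) : 0 ≤ r := by
  obtain ⟨_, _, _, _, _, h⟩ := h
  simpa using h 0

theorem Rep.mono {x : ℕ → 𝕜} {r s : ℝ} (h : Rep F x r) (hrs : r ≤ s) : Rep F x s := by
  obtain ⟨w, h, h1, h2, h3, h4⟩ := h
  exact ⟨w, h, h1, h2, h3, fun n => (h4 n).trans hrs⟩

theorem Rep.solid {x y : ℕ → 𝕜} {r : ℝ} (h : Rep F x r) (hxy : ∀ j, ‖y j‖ ≤ ‖x j‖) :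
    Rep F y r := by
  obtain ⟨w, h, h1, h2, h3, h4⟩ := h
  exact ⟨w, h, h1, h2, fun j => (pow_le_pow_left₀ (norm_nonneg _) (hxy j) 2).trans (h3 j), h4⟩

theorem Rep.smul {x : ℕ → 𝕜} {r : ℝ} (h : Rep F x r) (c : 𝕜) : Rep F (c • x) (‖c‖ ^ 2 * r) := by
  obtain ⟨w, h, h1, h2, h3, h4⟩ := h
  refine ⟨w, fun j => ‖c‖ ^ 2 * h j, h1, fun j => mul_nonneg (sq_nonneg _) (h2 j), fun j => ?_,
    fun n => ?_⟩
  · rw [Pi.smul_apply, norm_smul, mul_pow, mul_left_comm]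
    exact mul_le_mul_of_nonneg_left (h3 j) (sq_nonneg _)
  · rw [← Finset.mul_sum]
    exact mul_le_mul_of_nonneg_left (h4 n) (sq_nonneg _)

theorem Rep.coord {x : ℕ → 𝕜} {r : ℝ} (h : Rep F x r) (j : ℕ) : ‖x j‖ ^ 2 ≤ r := by
  obtain ⟨w, h, h1, h2, h3, h4⟩ := h
  have e1 : √(w j) ≤ 1 := Real.sqrt_le_one.2 (h1.bounds j).2
  have e2 := h4 (j + 1)
  rw [Finset.sum_range_succ] at e2
  have e3 : 0 ≤ ∑ i ∈ Finset.range j, h i := Finset.sum_nonneg fun i _ => h2 i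
  nlinarith [h3 j, h2 j]

theorem Rep.add {x y : ℕ → 𝕜} {a b : ℝ} (ha : 0 < a) (hb : 0 < b) (hx : Rep F x (a ^ 2))
    (hy : Rep F y (b ^ 2)) : Rep F (x + y) ((a + b) ^ 2) := by
  obtain ⟨w, h, h1, h2, h3, h4⟩ := hx
  obtain ⟨w', h', h1', h2', h3', h4'⟩ := hy
  have hab : 0 < a + b := by positivity
  set c := a / (a + b) with hc
  have c0 : 0 < c := by positivity
  have c2 : 1 - c = b / (a + b) := by rw [hc]; field_simp; ring
  have c3 : 0 < 1 - c := by rw [c2]; positivity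
  refine ⟨_, fun j => h j / c + h' j / (1 - c), h1.conv c c0.le (by linarith) h1',
    fun j => by have := h2 j; have := h2' j; positivity, fun j => ?_, fun n => ?_⟩
  · have e1 : c * √(w j) + (1 - c) * √(w' j) ≤ √(c * w j + (1 - c) * w' j) := by
      refine Real.le_sqrt_of_sq_le ?_
      have s1 := Real.sq_sqrt (h1.bounds j).1
      have s2 := Real.sq_sqrt (h1'.bounds j).1
      nlinarith [mul_nonneg (mul_nonneg c0.le c3.le) (sq_nonneg (√(w j) - √(w' j)))]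
    have hh : 0 ≤ h j / c + h' j / (1 - c) := by have := h2 j; have := h2' j; positivity
    refine le_trans ?_ (mul_le_mul_of_nonneg_right e1 hh)
    have e2 : ‖(x + y) j‖ ^ 2 ≤ (‖x j‖ + ‖y j‖) ^ 2 :=
      pow_le_pow_left₀ (norm_nonneg _) (norm_add_le _ _) 2
    refine e2.trans ?_
    set P := c * √(w j) * (h' j / (1 - c)) with hP
    set Q := (1 - c) * √(w' j) * (h j / c) with hQ
    have hP0 : 0 ≤ P := by have := h2' j; positivity
    have hQ0 : 0 ≤ Q := by have := h2 j; positivity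
    have e3 : (c * √(w j) + (1 - c) * √(w' j)) * (h j / c + h' j / (1 - c)) =
        √(w j) * h j + √(w' j) * h' j + (P + Q) := by
      rw [hP, hQ]; field_simp; ring
    have e4 : P * Q = (√(w j) * h j) * (√(w' j) * h' j) := by
      rw [hP, hQ]; field_simp
    have e5 : (‖x j‖ * ‖y j‖) ^ 2 ≤ P * Q := by
      rw [e4, mul_pow]
      exact mul_le_mul (h3 j) (h3' j) (sq_nonneg _) ((sq_nonneg _).trans (h3 j))
    have e6 : 2 * (‖x j‖ * ‖y j‖) ≤ P + Q :=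
      abs_le_of_sq_le_sq' (by nlinarith [sq_nonneg (P - Q)]) (by positivity) |>.2
    rw [e3]
    nlinarith [h3 j, h3' j]
  · rw [Finset.sum_add_distrib, ← Finset.sum_div, ← Finset.sum_div]
    calc _ ≤ a ^ 2 / c + b ^ 2 / (1 - c) := by gcongr; exacts [h4 n, h4' n]
      _ = (a + b) ^ 2 := by rw [c2, hc]; field_simp

theorem sum_range_le_of_zero {h : ℕ → ℝ} (h0 : ∀ j, 0 ≤ h j) {N : ℕ} (hz : ∀ j, N ≤ j → h j = 0)
    (n : ℕ) : ∑ j ∈ Finset.range n, h j ≤ ∑ j ∈ Finset.range N, h j := by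
  rw [← Finset.sum_filter_of_ne (p := fun l => l < N)
    (fun l _ hl => by by_contra h; exact hl (hz l (not_lt.1 h)))]
  exact Finset.sum_le_sum_of_subset_of_nonneg
    (fun l hl => Finset.mem_range.2 (Finset.mem_filter.1 hl).2) fun l _ _ => h0 l

theorem rep_cost {w : ℕ → ℝ} (hw : Wt F 1 w) {N : ℕ} (hN : ∀ j, N ≤ j → w j = 0) {x : ℕ → 𝕜}
    (hx : ∀ j, w j = 0 → x j = 0) : Rep F x (∑ j ∈ Finset.range N, ‖x j‖ ^ 2 / √(w j)) := by
  refine ⟨w, fun j => ‖x j‖ ^ 2 / √(w j), hw, fun j => by positivity, fun j => ?_,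
    sum_range_le_of_zero (fun j => by positivity) fun j hj => by simp [hN j hj]⟩
  by_cases h : w j = 0
  · simp [hx j h, h]
  · have : 0 < √(w j) := Real.sqrt_pos.2 (lt_of_le_of_ne (hw.bounds j).1 (Ne.symm h))
    rw [mul_div_cancel₀ _ this.ne']

theorem uc_real {v₁ v₂ v x y : ℝ} (h1 : 0 < v₁) (h2 : 0 < v₂) (hv : 0 < v)
    (h : v ^ 2 = 1 / 2 * v₁ ^ 2 + (1 - 1 / 2) * v₂ ^ 2) :
    2 * (x ^ 2 / v) + 2 / 3 * (y ^ 2 / v) ≤ (x + y) ^ 2 / v₁ + (x - y) ^ 2 / v₂ := by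
  set s := x / v + y / (3 * v) with hs
  set t := x / v - y / (3 * v) with ht
  have a1 : 2 * (x + y) * s - v₁ * s ^ 2 ≤ (x + y) ^ 2 / v₁ := by
    rw [le_div_iff₀ h1]; nlinarith [sq_nonneg (x + y - v₁ * s)]
  have a2 : 2 * (x - y) * t - v₂ * t ^ 2 ≤ (x - y) ^ 2 / v₂ := by
    rw [le_div_iff₀ h2]; nlinarith [sq_nonneg (x - y - v₂ * t)]
  set ξ := x / v
  set η := y / (3 * v)
  have a3 : v₁ * s ^ 2 + v₂ * t ^ 2 ≤ v * (2 * ξ ^ 2 + 6 * η ^ 2) := by
    refine abs_le_of_sq_le_sq' ?_ (by positivity) |>.2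
    have b1 : (v₁ * s ^ 2 + v₂ * t ^ 2) ^ 2 ≤ (v₁ ^ 2 + v₂ ^ 2) * (s ^ 4 + t ^ 4) := by
      nlinarith [sq_nonneg (v₁ * t ^ 2 - v₂ * s ^ 2)]
    have b2 : s ^ 4 + t ^ 4 ≤ (2 * ξ ^ 2 + 6 * η ^ 2) ^ 2 / 2 := by
      rw [hs, ht]; nlinarith [sq_nonneg (η ^ 2)]
    have b3 : v₁ ^ 2 + v₂ ^ 2 = 2 * v ^ 2 := by linarith
    calc _ ≤ (v₁ ^ 2 + v₂ ^ 2) * ((2 * ξ ^ 2 + 6 * η ^ 2) ^ 2 / 2) :=
          b1.trans (mul_le_mul_of_nonneg_left b2 (by positivity))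
      _ = _ := by rw [b3]; ring
  have a4 : 2 * (x ^ 2 / v) + 2 / 3 * (y ^ 2 / v) =
      2 * (x + y) * s + 2 * (x - y) * t - v * (2 * ξ ^ 2 + 6 * η ^ 2) := by
    simp only [s, t, ξ, η]; field_simp; ring
  linarith

theorem uc_point {v₁ v₂ v h₁ h₂ : ℝ} {x y : 𝕜} (h1 : 0 ≤ v₁) (h2 : 0 ≤ v₂) (hv : 0 ≤ v)
    (h : v ^ 2 = 1 / 2 * v₁ ^ 2 + (1 - 1 / 2) * v₂ ^ 2) (hh1 : 0 ≤ h₁) (hh2 : 0 ≤ h₂)
    (ha : ‖x + y‖ ^ 2 ≤ v₁ * h₁) (hb : ‖x - y‖ ^ 2 ≤ v₂ * h₂) :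
    2 * (‖x‖ ^ 2 / v) + 2 / 3 * (‖y‖ ^ 2 / v) ≤ h₁ + h₂ := by
  rcases hv.eq_or_lt with rfl | hv
  · simp; positivity
  have par := parallelogram_law_with_norm 𝕜 x y
  rcases h1.eq_or_lt with rfl | h1
  · have e1 : ‖x + y‖ = 0 := by nlinarith [norm_nonneg (x + y), sq_nonneg ‖x + y‖]
    have e2 : y = -x := eq_neg_of_add_eq_zero_right (norm_eq_zero.1 e1)
    have e3 : ‖y‖ = ‖x‖ := by rw [e2, norm_neg]
    have e4 : v₂ ≤ 3 / 2 * v := abs_le_of_sq_le_sq' (by nlinarith) (by positivity) |>.2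
    rw [e1, e3] at par
    have e5 : ‖x‖ ^ 2 / v ≤ 3 / 8 * h₂ := by
      rw [div_le_iff₀ hv]; nlinarith [mul_le_mul_of_nonneg_right e4 hh2]
    rw [e3]; linarith
  rcases h2.eq_or_lt with rfl | h2
  · have e1 : ‖x - y‖ = 0 := by nlinarith [norm_nonneg (x - y), sq_nonneg ‖x - y‖]
    have e2 : y = x := (sub_eq_zero.1 (norm_eq_zero.1 e1)).symm
    have e3 : ‖y‖ = ‖x‖ := by rw [e2]
    have e4 : v₁ ≤ 3 / 2 * v := abs_le_of_sq_le_sq' (by nlinarith) (by positivity) |>.2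
    rw [e1, e3] at par
    have e5 : ‖x‖ ^ 2 / v ≤ 3 / 8 * h₁ := by
      rw [div_le_iff₀ hv]; nlinarith [mul_le_mul_of_nonneg_right e4 hh1]
    rw [e3]; linarith
  have r1 := uc_real (x := RCLike.re x) (y := RCLike.re y) h1 h2 hv h
  have r2 := uc_real (x := RCLike.im x) (y := RCLike.im y) h1 h2 hv h
  have n : ∀ z : 𝕜, ‖z‖ ^ 2 = RCLike.re z ^ 2 + RCLike.im z ^ 2 := fun z => by
    rw [RCLike.norm_sq_eq_def]; ring
  have a1 : ‖x + y‖ ^ 2 / v₁ ≤ h₁ := by rw [div_le_iff₀ h1]; linarith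
  have a2 : ‖x - y‖ ^ 2 / v₂ ≤ h₂ := by rw [div_le_iff₀ h2]; linarith
  rw [n, map_add, map_add, add_div] at a1
  rw [n, map_sub, map_sub, add_div] at a2
  rw [n x, n y, add_div, add_div]
  linarith

theorem Rep.uc {x y : ℕ → 𝕜} {r s : ℝ} (k1 : Rep F (x + y) r) (k2 : Rep F (x - y) s) :
    ∃ r' s', Rep F x r' ∧ Rep F y s' ∧ 2 * r' + 2 / 3 * s' ≤ r + s := by
  obtain ⟨w, h, h1, h2, h3, h4⟩ := k1
  obtain ⟨w', h', h1', h2', h3', h4'⟩ := k2
  have hw := h1.conv (1 / 2) (by norm_num) (by norm_num) h1'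
  obtain ⟨N, hN⟩ := hw.fin
  have hz : ∀ j, 1 / 2 * w j + (1 - 1 / 2) * w' j = 0 → x j = 0 ∧ y j = 0 := by
    intro j hj
    have e1 : w j = 0 := by linarith [(h1.bounds j).1, (h1'.bounds j).1]
    have e2 : w' j = 0 := by linarith [(h1.bounds j).1, (h1'.bounds j).1]
    have a := h3 j
    have b := h3' j
    simp only [e1, e2, Real.sqrt_zero, zero_mul, Pi.add_apply, Pi.sub_apply] at a b
    have a' : x j + y j = 0 := norm_eq_zero.1 (pow_eq_zero_iff two_ne_zero |>.1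
      (le_antisymm a (sq_nonneg _)))
    have b' : x j - y j = 0 := norm_eq_zero.1 (pow_eq_zero_iff two_ne_zero |>.1
      (le_antisymm b (sq_nonneg _)))
    constructor
    · linear_combination (1 / 2 : 𝕜) * a' + (1 / 2 : 𝕜) * b'
    · linear_combination (1 / 2 : 𝕜) * a' - (1 / 2 : 𝕜) * b'
  refine ⟨_, _, rep_cost hw hN fun j hj => (hz j hj).1, rep_cost hw hN fun j hj => (hz j hj).2, ?_⟩
  refine le_trans ?_ (add_le_add (h4 N) (h4' N))
  rw [Finset.mul_sum, Finset.mul_sum, ← Finset.sum_add_distrib, ← Finset.sum_add_distrib]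
  refine Finset.sum_le_sum fun j _ => uc_point (Real.sqrt_nonneg (w j)) (Real.sqrt_nonneg (w' j))
    (Real.sqrt_nonneg _) ?_ (h2 j) (h2' j) (h3 j) (h3' j)
  rw [Real.sq_sqrt (hw.bounds j).1, Real.sq_sqrt (h1.bounds j).1, Real.sq_sqrt (h1'.bounds j).1]

theorem rep_zero : Rep F (0 : ℕ → 𝕜) 0 :=
  ⟨_, fun _ => 0, Wt.zero 1, by simp, by simp, by simp⟩

theorem Rep.exists_sq {x : ℕ → 𝕜} {r : ℝ} (h : Rep F x r) : ∃ a, 0 < a ∧ Rep F x (a ^ 2) :=
  ⟨r + 1, by linarith [h.nonneg], h.mono (by nlinarith [h.nonneg])⟩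

variable (𝕜 F) in
/-- The sequences of finite cost. -/
def Sub : Submodule 𝕜 (ℕ → 𝕜) where
  carrier := {x | ∃ r, Rep F x r}
  add_mem' := fun ⟨_, hx⟩ ⟨_, hy⟩ => by
    obtain ⟨a, ha, hx⟩ := hx.exists_sq
    obtain ⟨b, hb, hy⟩ := hy.exists_sq
    exact ⟨_, hx.add ha hb hy⟩
  zero_mem' := ⟨0, rep_zero⟩
  smul_mem' := fun c _ ⟨_, hx⟩ => ⟨_, hx.smul c⟩

variable (𝕜 F) in
/-- Type synonym carrying the new norm. -/
def Sp : Type := Sub 𝕜 F

noncomputable instance : AddCommGroup (Sp 𝕜 F) := inferInstanceAs (AddCommGroup (Sub 𝕜 F))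
noncomputable instance : Module 𝕜 (Sp 𝕜 F) := inferInstanceAs (Module 𝕜 (Sub 𝕜 F))

/-- The underlying sequence. -/
noncomputable def Sp.val : Sp 𝕜 F →ₗ[𝕜] (ℕ → 𝕜) := (Sub 𝕜 F).subtype

theorem Sp.val_inj {x y : Sp 𝕜 F} (h : Sp.val x = Sp.val y) : x = y := Subtype.ext h

theorem Sp.rep (x : Sp 𝕜 F) : ∃ r, Rep F (Sp.val x) r := x.2

/-- The norm. -/
noncomputable def nrm (x : Sp 𝕜 F) : ℝ := sInf {a | 0 < a ∧ Rep F (Sp.val x) (a ^ 2)}

theorem nrm_nonneg (x : Sp 𝕜 F) : 0 ≤ nrm x := Real.sInf_nonneg fun _ h => h.1.le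

theorem nrm_le {x : Sp 𝕜 F} {a : ℝ} (ha : 0 ≤ a) (h : Rep F (Sp.val x) (a ^ 2)) : nrm x ≤ a :=
  le_of_forall_pos_le_add fun ε hε => csInf_le ⟨0, fun _ h => h.1.le⟩
    ⟨by linarith, h.mono (by nlinarith)⟩

theorem rep_of_lt {x : Sp 𝕜 F} {a : ℝ} (h : nrm x < a) : Rep F (Sp.val x) (a ^ 2) := by
  obtain ⟨r, hr⟩ := x.rep
  obtain ⟨b, ⟨hb, hb'⟩, hba⟩ := exists_lt_of_csInf_lt hr.exists_sq h
  exact hb'.mono (by nlinarith)

theorem nrm_smul_le (c : 𝕜) (x : Sp 𝕜 F) : nrm (c • x) ≤ ‖c‖ * nrm x := by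
  refine le_of_forall_pos_le_add fun ε hε => ?_
  have h := (rep_of_lt (x := x) (a := nrm x + ε / (‖c‖ + 1))
    (lt_add_of_pos_right _ (by positivity))).smul c
  rw [← map_smul, ← mul_pow] at h
  have h0 := nrm_nonneg x
  refine (nrm_le (by positivity) h).trans ?_
  rw [mul_add]
  gcongr
  rw [← mul_div_assoc, div_le_iff₀ (by positivity)]
  nlinarith

noncomputable instance : SeminormedAddCommGroup (Sp 𝕜 F) :=
  AddGroupSeminorm.toSeminormedAddCommGroup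
    { toFun := nrm
      map_zero' := le_antisymm (nrm_le le_rfl (by simpa using rep_zero)) (nrm_nonneg _)
      add_le' := fun x y => le_of_forall_pos_le_add fun ε hε => by
        have hx := nrm_nonneg x
        have hy := nrm_nonneg y
        have h := (rep_of_lt (x := x) (a := nrm x + ε / 2) (by linarith)).add (by linarith)
          (by linarith) (rep_of_lt (x := y) (a := nrm y + ε / 2) (by linarith))
        rw [← map_add] at h
        linarith [nrm_le (by linarith) h]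
      neg' := fun x => by
        have h1 := nrm_smul_le (-1 : 𝕜) x
        have h2 := nrm_smul_le (-1 : 𝕜) (-x)
        simp only [neg_smul, one_smul, norm_neg, norm_one, one_mul, neg_neg] at h1 h2
        exact le_antisymm h1 h2 }

noncomputable instance : NormedSpace 𝕜 (Sp 𝕜 F) where
  norm_smul_le := nrm_smul_le

theorem Sp.norm_sq_le {x : Sp 𝕜 F} {r : ℝ} (h : Rep F (Sp.val x) r) : ‖x‖ ^ 2 ≤ r := by
  have h1 : nrm x ≤ √r := nrm_le (Real.sqrt_nonneg r) (by rwa [Real.sq_sqrt h.nonneg])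
  calc ‖x‖ ^ 2 ≤ √r ^ 2 := pow_le_pow_left₀ (norm_nonneg _) h1 2
    _ = r := Real.sq_sqrt h.nonneg

theorem Sp.rep_of_lt {x : Sp 𝕜 F} {r : ℝ} (h : ‖x‖ ^ 2 < r) : Rep F (Sp.val x) r := by
  have hr : 0 ≤ r := (sq_nonneg _).trans h.le
  have := MP_f92ad0_an.rep_of_lt (x := x) (a := √r) (Real.lt_sqrt_of_sq_lt h)
  rwa [Real.sq_sqrt hr] at this

theorem Sp.uc (u v : Sp 𝕜 F) : 2 * ‖u‖ ^ 2 + 2 / 3 * ‖v‖ ^ 2 ≤ ‖u + v‖ ^ 2 + ‖u - v‖ ^ 2 := by
  refine le_of_forall_pos_le_add fun ε hε => ?_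
  have h1 := Sp.rep_of_lt (x := u + v) (r := ‖u + v‖ ^ 2 + ε / 2) (by linarith)
  have h2 := Sp.rep_of_lt (x := u - v) (r := ‖u - v‖ ^ 2 + ε / 2) (by linarith)
  rw [map_add] at h1
  rw [map_sub] at h2
  obtain ⟨r, s, hr, hs, h⟩ := h1.uc h2
  linarith [Sp.norm_sq_le hr, Sp.norm_sq_le hs]

theorem Sp.norm_le_of_solid {x y : Sp 𝕜 F} (h : ∀ j, ‖Sp.val y j‖ ≤ ‖Sp.val x j‖) :
    ‖y‖ ≤ ‖x‖ := by
  refine abs_le_of_sq_le_sq' (le_of_forall_pos_le_add fun ε hε => ?_) (norm_nonneg _) |>.2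
  exact Sp.norm_sq_le ((Sp.rep_of_lt (x := x) (by linarith)).solid h)

theorem Sp.coord_le (x : Sp 𝕜 F) (j : ℕ) : ‖Sp.val x j‖ ≤ ‖x‖ := by
  refine abs_le_of_sq_le_sq' (le_of_forall_pos_le_add fun ε hε => ?_) (norm_nonneg _) |>.2
  exact (Sp.rep_of_lt (x := x) (by linarith)).coord j

theorem rep_single (j : ℕ) : Rep F (Pi.single j (1 : 𝕜) : ℕ → 𝕜) 1 := by
  refine ⟨_, fun i => if i = j then 1 else 0, Wt.base j, fun i => by dsimp only; split_ifs <;> norm_num,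
    fun i => ?_, fun n => ?_⟩
  · by_cases h : i = j
    · subst h; simp
    · simp [h]
  · rw [Finset.sum_ite_eq']; split_ifs <;> norm_num

variable (𝕜 F) in
/-- The unit vectors. -/
noncomputable def ee (j : ℕ) : Sp 𝕜 F := ⟨Pi.single j 1, 1, rep_single j⟩

theorem val_ee (j : ℕ) : Sp.val (ee 𝕜 F j) = Pi.single j 1 := rfl

theorem norm_ee (j : ℕ) : ‖ee 𝕜 F j‖ ^ 2 ≤ 1 := Sp.norm_sq_le (rep_single j)

variable (𝕜 F) in
/-- The coordinate functionals. -/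
noncomputable def crd (j : ℕ) : Sp 𝕜 F →L[𝕜] 𝕜 :=
  LinearMap.mkContinuous (LinearMap.proj j ∘ₗ Sp.val) 1 fun x => by
    rw [one_mul]; exact x.coord_le j

theorem crd_apply (j : ℕ) (x : Sp 𝕜 F) : crd 𝕜 F j x = Sp.val x j := rfl

end Pool.Agent.Lib.MP_f92ad0_an
end
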