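import Mathlib
import Pool.Agent.Lib.MP_f92ad0_an.Space

-- part Pool.Agent.Lib.MP_f92ad0_an.Trace
section

/-! A trace comparison for two quadratic forms that are comparable on a subspace of
small codimension. -/

namespace Pool.Agent.Lib.MP_f92ad0_an

open scoped InnerProductSpace

theorem sum_sq_inner_sub {E : Type*} [NormedAddCommGroup E] [InnerProductSpace ℝ E]
    [FiniteDimensional ℝ E] (U : Submodule ℝ E) {n : Type*} [Fintype n]
    (b : OrthonormalBasis n ℝ U) (u : E) :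
    ∑ i, (inner ℝ (b i : E) u) ^ 2 = ‖U.orthogonalProjectionOnto u‖ ^ 2 := by
  rw [← b.sum_sq_inner_right]
  refine Finset.sum_congr rfl fun i _ => ?_
  rw [Submodule.inner_orthogonalProjectionOnto_eq_of_mem_left]

theorem trace_le {I K S : Type*} [Fintype I] [Fintype K] [Fintype S] (ρ : I → ℝ) (σ : ℝ)
    (hσ : 0 ≤ σ) (hρ : ∀ l, ρ l ≤ σ) (γ : K → I → ℝ) (β : S → I → ℝ)
    (h : ∀ c : I → ℝ, (∀ k, ∑ l, γ k l * c l = 0) →
      ∑ l, ρ l * c l ^ 2 ≤ ∑ j, (∑ l, β j l * c l) ^ 2) :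
    ∑ l, ρ l ≤ Fintype.card K * σ + ∑ j, ∑ l, β j l ^ 2 := by
  classical
  let E := EuclideanSpace ℝ I
  let g : K → E := fun k => WithLp.toLp 2 (γ k)
  let U : Submodule ℝ E := Submodule.span ℝ (Set.range g)
  have hU : Module.finrank ℝ U ≤ Fintype.card K := finrank_range_le_card g
  let b := stdOrthonormalBasis ℝ U
  let b' := stdOrthonormalBasis ℝ Uᗮ
  have key : ∀ u : E, ‖u‖ ^ 2 =
      ∑ i, (inner ℝ (b i : E) u) ^ 2 + ∑ i, (inner ℝ (b' i : E) u) ^ 2 := by
    intro u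
    rw [sum_sq_inner_sub U b, sum_sq_inner_sub Uᗮ b']
    exact U.norm_sq_eq_add_norm_sq_projection u
  have hone : ∀ l, (1 : ℝ) = ∑ i, ((b i : E) l) ^ 2 + ∑ i, ((b' i : E) l) ^ 2 := by
    intro l
    have := key (EuclideanSpace.single l (1 : ℝ))
    have e1 : ∀ u : E, inner ℝ u (EuclideanSpace.single l (1 : ℝ) : E) = u l := by
      intro u
      have := EuclideanSpace.inner_single_right (𝕜 := ℝ) l (1 : ℝ) u
      simpa using this
    have e2 : ‖(EuclideanSpace.single l (1 : ℝ) : E)‖ = 1 := by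
      simp
    simp only [e1, e2] at this
    rw [← this]; norm_num
  have h1 : ∀ i, ∑ l, ρ l * ((b i : E) l) ^ 2 ≤ σ := by
    intro i
    have hn : ‖(b i : E)‖ = 1 := b.orthonormal.1 i
    have hs : ∑ l, ((b i : E) l) ^ 2 = 1 := by
      have := EuclideanSpace.real_norm_sq_eq (b i : E)
      rw [← this, hn]; norm_num
    calc ∑ l, ρ l * ((b i : E) l) ^ 2 ≤ ∑ l, σ * ((b i : E) l) ^ 2 :=
          Finset.sum_le_sum fun l _ => mul_le_mul_of_nonneg_right (hρ l) (sq_nonneg _)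
      _ = σ := by rw [← Finset.mul_sum, hs, mul_one]
  have hin : ∀ (v : I → ℝ) (u : E), inner ℝ u (WithLp.toLp 2 v : E) = ∑ l, v l * u l := by
    intro v u
    simp [E, PiLp.inner_apply]
  have h2 : ∀ i, ∑ l, ρ l * ((b' i : E) l) ^ 2 ≤
      ∑ j, (inner ℝ (b' i : E) (WithLp.toLp 2 (β j) : E)) ^ 2 := by
    intro i
    simp only [hin]
    refine h _ fun k => ?_
    have hm : (b' i : E) ∈ Uᗮ := (b' i).2
    have := (Submodule.mem_orthogonal' U _).1 hm (g k) (Submodule.subset_span ⟨k, rfl⟩)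
    rw [← hin]; exact this
  have h3 : ∀ j, ∑ i, (inner ℝ (b' i : E) (WithLp.toLp 2 (β j) : E)) ^ 2 ≤ ∑ l, β j l ^ 2 := by
    intro j
    have k1 := key (WithLp.toLp 2 (β j))
    have k2 := EuclideanSpace.real_norm_sq_eq (WithLp.toLp 2 (β j) : E)
    have k3 : 0 ≤ ∑ i, (inner ℝ (b i : E) (WithLp.toLp 2 (β j) : E)) ^ 2 :=
      Finset.sum_nonneg fun _ _ => sq_nonneg _
    simp only at k2
    linarith
  calc ∑ l, ρ l = ∑ l, ρ l * (∑ i, ((b i : E) l) ^ 2 + ∑ i, ((b' i : E) l) ^ 2) :=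
        Finset.sum_congr rfl fun l _ => by rw [← hone l, mul_one]
    _ = ∑ i, ∑ l, ρ l * ((b i : E) l) ^ 2 + ∑ i, ∑ l, ρ l * ((b' i : E) l) ^ 2 := by
        simp only [mul_add, Finset.sum_add_distrib, Finset.mul_sum]
        rw [Finset.sum_comm, Finset.sum_comm (s := (Finset.univ : Finset I))]
    _ ≤ ∑ _i : Fin (Module.finrank ℝ U), σ +
        ∑ i, ∑ j, (inner ℝ (b' i : E) (WithLp.toLp 2 (β j) : E)) ^ 2 :=
        add_le_add (Finset.sum_le_sum fun i _ => h1 i) (Finset.sum_le_sum fun i _ => h2 i)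
    _ ≤ Fintype.card K * σ + ∑ j, ∑ l, β j l ^ 2 := by
        refine add_le_add ?_ ?_
        · simp only [Finset.sum_const, Finset.card_univ, Fintype.card_fin, nsmul_eq_mul]
          exact mul_le_mul_of_nonneg_right (by exact_mod_cast hU) hσ
        · rw [Finset.sum_comm]
          exact Finset.sum_le_sum fun j _ => h3 j

theorem trace_le_finset {α K S : Type*} [Fintype K] [Fintype S] (I : Finset α) (ρ : α → ℝ) (σ : ℝ)
    (hσ : 0 ≤ σ) (hρ : ∀ l ∈ I, ρ l ≤ σ) (γ : K → α → ℝ) (β : S → α → ℝ)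
    (h : ∀ c : α → ℝ, (∀ k, ∑ l ∈ I, γ k l * c l = 0) →
      ∑ l ∈ I, ρ l * c l ^ 2 ≤ ∑ j, (∑ l ∈ I, β j l * c l) ^ 2) :
    ∑ l ∈ I, ρ l ≤ Fintype.card K * σ + ∑ j, ∑ l ∈ I, β j l ^ 2 := by
  classical
  have := trace_le (I := I) (fun l => ρ l) σ hσ (fun l => hρ l l.2) (fun k l => γ k l)
    (fun j l => β j l) (fun c hc => by
      let c' : α → ℝ := fun l => if h : l ∈ I then c ⟨l, h⟩ else 0
      have hc' : ∀ l : I, c' l = c l := fun l => by simp [c', l.2]
      have := h c' (fun k => by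
        rw [← Finset.sum_coe_sort I]; simpa only [hc'] using hc k)
      rw [← Finset.sum_coe_sort I] at this
      simp only [← Finset.sum_coe_sort I, hc'] at this
      exact this)
  rw [Finset.sum_coe_sort I ρ] at this
  simpa only [← Finset.sum_coe_sort I] using this

end Pool.Agent.Lib.MP_f92ad0_an
end

-- part Pool.Agent.Lib.MP_f92ad0_an.Mart
section

/-! Conditional means on a finite weighted set, and martingale cotype 2 from
2-uniform convexity. -/

namespace Pool.Agent.Lib.MP_f92ad0_an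

open Classical

variable {ι X Λ Λ' : Type*} [Fintype ι] [NormedAddCommGroup X] [NormedSpace ℝ X]

/-- The weighted mean of `x` over the class of `i`. -/
noncomputable def cm (π : ι → ℝ) (κ : ι → Λ) (x : ι → X) (i : ι) : X :=
  (∑ j with κ j = κ i, π j)⁻¹ • ∑ j with κ j = κ i, π j • x j

theorem cm_congr (π : ι → ℝ) (κ : ι → Λ) (x : ι → X) {i i' : ι} (h : κ i = κ i') :
    cm π κ x i = cm π κ x i' := by
  simp only [cm, h]

theorem sum_classes {M : Type*} [AddCommMonoid M] (κ : ι → Λ) (g : ι → M) :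
    ∑ i, g i = ∑ c ∈ Finset.univ.image κ, ∑ j with κ j = c, g j :=
  (Finset.sum_fiberwise_of_maps_to (fun _ hi => Finset.mem_image_of_mem κ hi) g).symm

theorem sum_eq_zero_of_classes {M : Type*} [AddCommMonoid M] (κ : ι → Λ) (g : ι → M)
    (h : ∀ i, ∑ j with κ j = κ i, g j = 0) : ∑ i, g i = 0 := by
  rw [sum_classes κ]
  refine Finset.sum_eq_zero fun c hc => ?_
  obtain ⟨i, -, rfl⟩ := Finset.mem_image.1 hc
  exact h i

theorem sum_le_of_classes (κ : ι → Λ) (g g' : ι → ℝ)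
    (h : ∀ i, ∑ j with κ j = κ i, g j ≤ ∑ j with κ j = κ i, g' j) : ∑ i, g i ≤ ∑ i, g' i := by
  rw [sum_classes κ, sum_classes κ g']
  refine Finset.sum_le_sum fun c hc => ?_
  obtain ⟨i, -, rfl⟩ := Finset.mem_image.1 hc
  exact h i

theorem class_pos {π : ι → ℝ} (hπ : ∀ i, 0 < π i) (κ : ι → Λ) (i : ι) :
    0 < ∑ j with κ j = κ i, π j :=
  Finset.sum_pos (fun j _ => hπ j) ⟨i, by simp⟩

theorem class_sum_cm {π : ι → ℝ} (hπ : ∀ i, 0 < π i) (κ : ι → Λ) (x : ι → X) (i : ι) :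
    ∑ j with κ j = κ i, π j • cm π κ x j = ∑ j with κ j = κ i, π j • x j := by
  have : ∑ j with κ j = κ i, π j • cm π κ x j = ∑ j with κ j = κ i, π j • cm π κ x i :=
    Finset.sum_congr rfl fun j hj => by rw [cm_congr π κ x (Finset.mem_filter.1 hj).2]
  rw [this, ← Finset.sum_smul, cm, smul_smul, mul_inv_cancel₀ (class_pos hπ κ i).ne', one_smul]

theorem sum_meas_sub_cm {π : ι → ℝ} (hπ : ∀ i, 0 < π i) (κ : ι → Λ) (x : ι → X) (b : ι → ℝ)
    (hb : ∀ i j, κ i = κ j → b i = b j) :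
    ∑ i, (π i * b i) • (x i - cm π κ x i) = 0 := by
  refine sum_eq_zero_of_classes κ _ fun i => ?_
  have : ∑ j with κ j = κ i, (π j * b j) • (x j - cm π κ x j) =
      b i • ∑ j with κ j = κ i, (π j • x j - π j • cm π κ x j) := by
    rw [Finset.smul_sum]
    refine Finset.sum_congr rfl fun j hj => ?_
    rw [hb j i (Finset.mem_filter.1 hj).2, ← smul_sub, smul_smul, mul_comm]
  rw [this, Finset.sum_sub_distrib, class_sum_cm hπ, sub_self, smul_zero]

theorem norm_cm_le {π : ι → ℝ} (hπ : ∀ i, 0 < π i) (κ : ι → Λ) (x : ι → X)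
    (hx : ∀ i, ‖x i‖ ≤ 1) (i : ι) : ‖cm π κ x i‖ ≤ 1 := by
  have hp := class_pos hπ κ i
  rw [cm, norm_smul, norm_inv, Real.norm_of_nonneg hp.le, inv_mul_le_iff₀ hp, mul_one]
  refine (norm_sum_le _ _).trans (Finset.sum_le_sum fun j _ => ?_)
  rw [norm_smul, Real.norm_of_nonneg (hπ j).le]
  exact mul_le_of_le_one_right (hπ j).le (hx j)

theorem sum_orth_cm (π : ι → ℝ) (κ : ι → Λ) (x : ι → X) (a : ι → ℝ)
    (ha : ∀ i, ∑ j with κ j = κ i, a j = 0) : ∑ i, a i • cm π κ x i = 0 := by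
  refine sum_eq_zero_of_classes κ _ fun i => ?_
  have : ∑ j with κ j = κ i, a j • cm π κ x j = ∑ j with κ j = κ i, a j • cm π κ x i :=
    Finset.sum_congr rfl fun j hj => by rw [cm_congr π κ x (Finset.mem_filter.1 hj).2]
  rw [this, ← Finset.sum_smul, ha, zero_smul]

theorem cotype_step {π : ι → ℝ} (hπ : ∀ i, 0 < π i) (κ : ι → Λ) (κ' : ι → Λ')
    (href : ∀ i j, κ' i = κ' j → κ i = κ j) (x : ι → X)
    (hA : ∀ u v : X, 2 * ‖u‖ ^ 2 + 2 / 3 * ‖v‖ ^ 2 ≤ ‖u + v‖ ^ 2 + ‖u - v‖ ^ 2) :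
    ∑ i, π i * ‖cm π κ' x i - cm π κ x i‖ ^ 2 ≤
      6 * (∑ i, π i * ‖cm π κ' x i‖ ^ 2 - ∑ i, π i * ‖cm π κ x i‖ ^ 2) := by
  set y := cm π κ' x with hy
  set m := cm π κ x with hm
  have hmid : ∀ i, 2 * ‖(1 / 2 : ℝ) • (y i + m i)‖ ^ 2 + 1 / 6 * ‖y i - m i‖ ^ 2 ≤
      ‖y i‖ ^ 2 + ‖m i‖ ^ 2 := by
    intro i
    have := hA ((1 / 2 : ℝ) • (y i + m i)) ((1 / 2 : ℝ) • (y i - m i))
    have e1 : (1 / 2 : ℝ) • (y i + m i) + (1 / 2 : ℝ) • (y i - m i) = y i := by module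
    have e2 : (1 / 2 : ℝ) • (y i + m i) - (1 / 2 : ℝ) • (y i - m i) = m i := by module
    have e3 : ‖(1 / 2 : ℝ) • (y i - m i)‖ = 1 / 2 * ‖y i - m i‖ := by
      rw [norm_smul, Real.norm_of_nonneg (by norm_num)]
    rw [e1, e2, e3] at this
    nlinarith
  have hcl : ∀ i, ∑ j with κ j = κ i, π j • y j = ∑ j with κ j = κ i, π j • x j := by
    intro i
    have := sum_meas_sub_cm hπ κ' x (fun j => if κ j = κ i then 1 else 0)
      (fun j k hjk => by simp only [href j k hjk])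
    have e : ∑ j, (π j * if κ j = κ i then 1 else 0) • (x j - cm π κ' x j) =
        ∑ j with κ j = κ i, (π j • x j - π j • y j) := by
      rw [Finset.sum_filter]
      refine Finset.sum_congr rfl fun j _ => ?_
      split_ifs <;> simp [hy, smul_sub]
    rw [e, Finset.sum_sub_distrib, sub_eq_zero] at this
    exact this.symm
  have hJ : ∑ i, π i * ‖m i‖ ^ 2 ≤ ∑ i, π i * ‖(1 / 2 : ℝ) • (y i + m i)‖ ^ 2 := by
    refine sum_le_of_classes κ _ _ fun i => ?_
    have hp := class_pos hπ κ i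
    have e1 : ∑ j with κ j = κ i, π j * ‖m j‖ ^ 2 = (∑ j with κ j = κ i, π j) * ‖m i‖ ^ 2 := by
      rw [Finset.sum_mul]
      exact Finset.sum_congr rfl fun j hj => by
        rw [hm, cm_congr π κ x (Finset.mem_filter.1 hj).2]
    have e2 : ∑ j with κ j = κ i, π j • ((1 / 2 : ℝ) • (y j + m j)) =
        (∑ j with κ j = κ i, π j) • m i := by
      have : ∑ j with κ j = κ i, π j • ((1 / 2 : ℝ) • (y j + m j)) =
          (1 / 2 : ℝ) • (∑ j with κ j = κ i, π j • y j + ∑ j with κ j = κ i, π j • m j) := by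
        rw [← Finset.sum_add_distrib, Finset.smul_sum]
        exact Finset.sum_congr rfl fun j _ => by module
      rw [this, hcl, hm, class_sum_cm hπ, cm, smul_smul, mul_inv_cancel₀ hp.ne', one_smul]
      module
    have e3 : (∑ j with κ j = κ i, π j) * ‖m i‖ ≤
        ∑ j with κ j = κ i, π j * ‖(1 / 2 : ℝ) • (y j + m j)‖ := by
      calc (∑ j with κ j = κ i, π j) * ‖m i‖ = ‖(∑ j with κ j = κ i, π j) • m i‖ := by
            rw [norm_smul, Real.norm_of_nonneg hp.le]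
        _ ≤ _ := by
            rw [← e2]
            refine (norm_sum_le _ _).trans (le_of_eq (Finset.sum_congr rfl fun j _ => ?_))
            rw [norm_smul, Real.norm_of_nonneg (hπ j).le]
    have e4 : ∑ j with κ j = κ i, (2 * ‖m i‖ * (π j * ‖(1 / 2 : ℝ) • (y j + m j)‖) -
        π j * ‖m i‖ ^ 2) ≤ ∑ j with κ j = κ i, π j * ‖(1 / 2 : ℝ) • (y j + m j)‖ ^ 2 := by
      refine Finset.sum_le_sum fun j _ => ?_
      have := hπ j
      nlinarith [mul_nonneg this.le (sq_nonneg (‖(1 / 2 : ℝ) • (y j + m j)‖ - ‖m i‖))]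
    rw [Finset.sum_sub_distrib, ← Finset.mul_sum, ← Finset.sum_mul] at e4
    rw [e1]
    nlinarith [mul_le_mul_of_nonneg_left e3 (norm_nonneg (m i))]
  have hs : ∑ i, π i * (2 * ‖(1 / 2 : ℝ) • (y i + m i)‖ ^ 2 + 1 / 6 * ‖y i - m i‖ ^ 2) ≤
      ∑ i, π i * (‖y i‖ ^ 2 + ‖m i‖ ^ 2) :=
    Finset.sum_le_sum fun i _ => mul_le_mul_of_nonneg_left (hmid i) (hπ i).le
  have f1 : ∑ i, π i * (2 * ‖(1 / 2 : ℝ) • (y i + m i)‖ ^ 2 + 1 / 6 * ‖y i - m i‖ ^ 2) =
      2 * ∑ i, π i * ‖(1 / 2 : ℝ) • (y i + m i)‖ ^ 2 + 1 / 6 * ∑ i, π i * ‖y i - m i‖ ^ 2 := by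
    rw [Finset.mul_sum, Finset.mul_sum, ← Finset.sum_add_distrib]
    exact Finset.sum_congr rfl fun i _ => by ring
  have f2 : ∑ i, π i * (‖y i‖ ^ 2 + ‖m i‖ ^ 2) =
      ∑ i, π i * ‖y i‖ ^ 2 + ∑ i, π i * ‖m i‖ ^ 2 := by
    rw [← Finset.sum_add_distrib]
    exact Finset.sum_congr rfl fun i _ => by ring
  linarith

theorem card_image_le_of_meas {Z : Type*} (κ : ι → Λ) (z : ι → Z) (T : Finset Λ)
    (hT : ∀ i, κ i ∈ T) (hz : ∀ i j, κ i = κ j → z i = z j) :
    (Finset.univ.image z).card ≤ T.card := by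
  rcases isEmpty_or_nonempty ι with hι | ⟨⟨i₀⟩⟩
  · simp
  let Z' : Λ → Z := fun c => if h : ∃ i, κ i = c then z h.choose else z i₀
  refine le_trans (Finset.card_le_card (t := T.image Z') ?_) Finset.card_image_le
  intro u hu
  obtain ⟨i, -, rfl⟩ := Finset.mem_image.1 hu
  refine Finset.mem_image.2 ⟨κ i, hT i, ?_⟩
  have h : ∃ j, κ j = κ i := ⟨i, rfl⟩
  simp only [Z', dif_pos h]
  exact hz _ _ h.choose_spec

end Pool.Agent.Lib.MP_f92ad0_an
end

-- part Pool.Agent.Lib.MP_f92ad0_an.Core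
section

/-! The core Hilbert-Schmidt estimate: in a 2-uniformly convex space whose tails are
Euclidean on finite families, the eigenvalues of a dominated quadratic form are summable. -/

namespace Pool.Agent.Lib.MP_f92ad0_an

open Classical

def nn (l : ℕ) : ℕ := 2 ^ (l + 3)

noncomputable def box (L : ℕ) : Finset (Fin L → ℤ) :=
  Fintype.piFinset fun l => Finset.Icc (-((nn l : ℤ)) ^ 2) ((nn l : ℤ) ^ 2)

noncomputable def LL : ℕ → ℕ
  | 0 => 0
  | r + 1 => LL r + 2 * ((box (LL r)).card + 2 * (r + 1))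

noncomputable def FF (r : ℕ) : ℕ := (box (LL (r + 1))).card

noncomputable def rnd (N : ℕ) (a : ℝ) : ℤ := if |a| ≤ N then ⌊N * a⌋ else 0

theorem rnd_mem (N : ℕ) (a : ℝ) : rnd N a ∈ Finset.Icc (-((N : ℤ)) ^ 2) ((N : ℤ) ^ 2) := by
  unfold rnd
  split_ifs with h
  · obtain ⟨h1, h2⟩ := abs_le.1 h
    have hN : (0 : ℝ) ≤ N := Nat.cast_nonneg N
    rw [Finset.mem_Icc]
    constructor
    · rw [Int.le_floor]; push_cast; nlinarith
    · have : (N : ℝ) * a ≤ (((N : ℤ) ^ 2 : ℤ) : ℝ) := by push_cast; nlinarith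
      have := Int.floor_le_floor this
      rwa [Int.floor_intCast] at this
  · rw [Finset.mem_Icc]
    constructor
    · exact neg_nonpos.2 (sq_nonneg _)
    · exact sq_nonneg _

theorem rnd_err {N : ℕ} (hN : 0 < N) (a : ℝ) : |a - rnd N a / N| ≤ (1 + a ^ 2) / N := by
  have hN' : (0 : ℝ) < N := by exact_mod_cast hN
  have e : a - rnd N a / N = (N * a - rnd N a) / N := by field_simp
  rw [e, abs_div, abs_of_pos hN']
  refine div_le_div_of_nonneg_right ?_ hN'.le
  unfold rnd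
  split_ifs with h
  · have h1 := Int.floor_le ((N : ℝ) * a)
    have h2 := Int.lt_floor_add_one ((N : ℝ) * a)
    rw [abs_le]
    constructor <;> nlinarith [sq_nonneg a]
  · push Not at h
    rw [Int.cast_zero, sub_zero, abs_mul, abs_of_pos hN', ← sq_abs a]
    nlinarith [abs_nonneg a]

/-- Finite families are Euclidean in the tails. -/
def TailHyp (X : Type*) [NormedAddCommGroup X] [NormedSpace ℝ X] (F : ℕ → ℕ) : Prop :=
  ∀ r : ℕ, ∃ (K : Type) (_ : Fintype K) (ξ : K → X →ₗ[ℝ] ℝ), Fintype.card K ≤ 2 * r ∧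
    ∀ (n : ℕ) (z : Fin n → X) (A : Finset X), (∀ i, z i ∈ A) → A.card ≤ F r → ∀ ε : ℝ, 0 < ε →
      ∃ (S : Type) (_ : Fintype S) (α : S → Fin n → ℝ),
        (∀ i, ∑ j, α j i ^ 2 ≤ 8 * ‖z i‖ ^ 2 + ε) ∧
        ∀ (s : Fin n → ℝ) (y : X), (∀ k, ξ k y = 0) →
          ‖y‖ ≤ √(∑ j, (∑ i, s i * α j i) ^ 2) + ‖y - ∑ i, s i • z i‖

theorem sum_half_le (I : Finset ℕ) : ∑ l ∈ I, (1 / 2 : ℝ) ^ (l + 1) ≤ 1 := by
  have h : HasSum (fun l : ℕ => (1 / 2 : ℝ) ^ (l + 1)) 1 := by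
    have := hasSum_geometric_two.mul_left (1 / 2 : ℝ)
    simp only [pow_succ']
    norm_num at this ⊢
    exact this
  exact sum_le_hasSum I (fun _ _ => by positivity) h

section
variable {X : Type*} [NormedAddCommGroup X] [NormedSpace ℝ X] {n : ℕ}

/-- The class of `i` at resolution `L`. -/
noncomputable def kap (t : Fin n → ℝ) (f : ℕ → Fin n → ℝ) (L : ℕ) (i : Fin n) : Fin L → ℤ :=
  fun l => rnd (nn l) (f l i / t i)

/-- The martingale. -/
noncomputable def mu (x : Fin n → X) (t : Fin n → ℝ) (f : ℕ → Fin n → ℝ) (r : ℕ) : Fin n → X :=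
  cm (fun i => t i ^ 2) (kap t f (LL r)) (fun i => (t i)⁻¹ • x i)

theorem kap_mem (t : Fin n → ℝ) (f : ℕ → Fin n → ℝ) (L : ℕ) (i : Fin n) : kap t f L i ∈ box L :=
  Fintype.mem_piFinset.2 fun _ => rnd_mem _ _

theorem kap_refine (t : Fin n → ℝ) (f : ℕ → Fin n → ℝ) {L L' : ℕ} (h : L ≤ L') (i j : Fin n)
    (hij : kap t f L' i = kap t f L' j) : kap t f L i = kap t f L j := by
  funext l
  exact congrFun hij ⟨l, lt_of_lt_of_le l.2 h⟩

theorem LL_mono : Monotone LL := monotone_nat_of_le_succ fun r => by simp [LL]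

theorem err_le {x : Fin n → X} {t : Fin n → ℝ} (ht : ∀ i, 0 < t i) (hxt : ∀ i, ‖x i‖ ≤ t i)
    (hs : ∑ i, t i ^ 2 ≤ 1) {f : ℕ → Fin n → ℝ} (hf1 : ∀ l, ∑ i, f l i ^ 2 ≤ 1) {r l : ℕ}
    (hl : l < LL r) :
    ‖∑ i, (t i * f l i) • ((t i)⁻¹ • x i - mu x t f r i)‖ ≤ (1 / 2 : ℝ) ^ (l + 1) := by
  have hπ : ∀ i, 0 < t i ^ 2 := fun i => pow_pos (ht i) 2
  have hx1 : ∀ i, ‖(t i)⁻¹ • x i‖ ≤ 1 := fun i => by
    rw [norm_smul, norm_inv, Real.norm_of_nonneg (ht i).le, inv_mul_le_iff₀ (ht i), mul_one]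
    exact hxt i
  have hN : 0 < nn l := by unfold nn; positivity
  have hN' : (0 : ℝ) < nn l := by exact_mod_cast hN
  have h0 := sum_meas_sub_cm hπ (kap t f (LL r)) (fun i => (t i)⁻¹ • x i)
    (fun i => (rnd (nn l) (f l i / t i) : ℝ) / nn l) (fun i j hij => by
      have := congrFun hij ⟨l, hl⟩
      simp only [kap] at this
      rw [this])
  have e : ∑ i, (t i * f l i) • ((t i)⁻¹ • x i - mu x t f r i) =
      ∑ i, (t i ^ 2 * (f l i / t i - (rnd (nn l) (f l i / t i) : ℝ) / nn l)) •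
        ((t i)⁻¹ • x i - mu x t f r i) := by
    rw [← sub_zero (∑ i, (t i * f l i) • ((t i)⁻¹ • x i - mu x t f r i)), ← h0,
      ← Finset.sum_sub_distrib]
    refine Finset.sum_congr rfl fun i _ => ?_
    rw [mu, ← sub_smul]
    congr 1
    have := (ht i).ne'
    field_simp
  rw [e]
  refine (norm_sum_le _ _).trans ?_
  have hb : ∀ i, ‖(t i ^ 2 * (f l i / t i - (rnd (nn l) (f l i / t i) : ℝ) / nn l)) •
        ((t i)⁻¹ • x i - mu x t f r i)‖ ≤ 2 / nn l * (t i ^ 2 + f l i ^ 2) := by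
    intro i
    have h1 : ‖(t i)⁻¹ • x i - mu x t f r i‖ ≤ 2 := by
      have := norm_cm_le hπ (kap t f (LL r)) _ hx1 i
      have h2 := norm_sub_le ((t i)⁻¹ • x i) (mu x t f r i)
      have h3 := hx1 i
      rw [mu] at h2 ⊢
      linarith
    have h2 := rnd_err hN (f l i / t i)
    rw [norm_smul, Real.norm_eq_abs, abs_mul, abs_of_pos (hπ i)]
    calc _ ≤ t i ^ 2 * ((1 + (f l i / t i) ^ 2) / nn l) * 2 :=
          mul_le_mul (mul_le_mul_of_nonneg_left h2 (hπ i).le) h1 (norm_nonneg _) (by positivity)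
      _ = _ := by
          have := (ht i).ne'
          field_simp
  refine (Finset.sum_le_sum fun i _ => hb i).trans ?_
  rw [← Finset.mul_sum, Finset.sum_add_distrib]
  calc 2 / (nn l : ℝ) * (∑ i, t i ^ 2 + ∑ i, f l i ^ 2) ≤ 2 / nn l * 2 :=
        mul_le_mul_of_nonneg_left (by linarith [hf1 l]) (by positivity)
    _ = (1 / 2 : ℝ) ^ (l + 1) := by
        simp only [nn]; push_cast
        rw [one_div, inv_pow]; field_simp; ring

theorem group_step
    (hA : ∀ u v : X, 2 * ‖u‖ ^ 2 + 2 / 3 * ‖v‖ ^ 2 ≤ ‖u + v‖ ^ 2 + ‖u - v‖ ^ 2)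
    (hB : TailHyp X FF) {x : Fin n → X} {t : Fin n → ℝ} (ht : ∀ i, 0 < t i)
    (hxt : ∀ i, ‖x i‖ ≤ t i) (hs : ∑ i, t i ^ 2 ≤ 1) {f : ℕ → Fin n → ℝ} {σ : ℕ → ℝ}
    (hσ0 : ∀ l, 0 ≤ σ l) (hσ : Antitone σ) (hf1 : ∀ l, ∑ i, f l i ^ 2 ≤ 1)
    (hbes : ∀ (I : Finset ℕ) (u : Fin n → ℝ), ∑ l ∈ I, (∑ i, f l i * u i) ^ 2 ≤ ∑ i, u i ^ 2)
    (hq : ∀ (I : Finset ℕ) (c : ℕ → ℝ),
      ∑ l ∈ I, σ l * c l ^ 2 ≤ ‖∑ l ∈ I, c l • ∑ i, f l i • x i‖ ^ 2) (r : ℕ) :
    ∑ l ∈ Finset.Ico (LL (r + 1)) (LL (r + 2)), σ l ≤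
      ((box (LL r)).card + 2 * (r + 1) : ℕ) * σ (LL (r + 1)) +
      96 * (∑ i, t i ^ 2 * ‖mu x t f (r + 2) i‖ ^ 2 - ∑ i, t i ^ 2 * ‖mu x t f r i‖ ^ 2) +
      2 * ∑ l ∈ Finset.Ico (LL (r + 1)) (LL (r + 2)), (1 / 2 : ℝ) ^ (l + 1) := by
  have hπ : ∀ i, 0 < t i ^ 2 := fun i => pow_pos (ht i) 2
  obtain ⟨K, _, ξ, hK, hB'⟩ := hB (r + 1)
  set I := Finset.Ico (LL (r + 1)) (LL (r + 2)) with hI
  set z : Fin n → X := fun i => mu x t f (r + 2) i - mu x t f r i with hz
  have hLL : LL r ≤ LL (r + 2) := LL_mono (by omega)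
  have hcard : (Finset.univ.image z).card ≤ FF (r + 1) :=
    card_image_le_of_meas (kap t f (LL (r + 2))) z (box (LL (r + 2))) (kap_mem t f _)
      fun i j hij => by
        simp only [hz, mu]
        rw [cm_congr _ _ _ hij, cm_congr _ _ _ (kap_refine t f hLL i j hij)]
  have hcot := cotype_step hπ (kap t f (LL r)) (kap t f (LL (r + 2))) (kap_refine t f hLL)
    (fun i => (t i)⁻¹ • x i) hA
  refine le_of_forall_pos_le_add fun ε hε => ?_
  obtain ⟨S, _, α, hα, hH⟩ := hB' n z _ (fun i => Finset.mem_image_of_mem z (Finset.mem_univ i))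
    hcard (ε / 2) (by positivity)
  have key := trace_le_finset (K := box (LL r) ⊕ K) I
    (fun l => σ l / 2 - (1 / 2 : ℝ) ^ (l + 1)) (σ (LL (r + 1)) / 2)
    (by have := hσ0 (LL (r + 1)); positivity)
    (fun l hl => by
      have h1 := hσ (Finset.mem_Ico.1 hl).1
      have : (0 : ℝ) ≤ (1 / 2 : ℝ) ^ (l + 1) := by positivity
      linarith)
    (Sum.elim (fun C l => ∑ i with kap t f (LL r) i = C.1, t i * f l i)
      (fun k l => ξ k (∑ i, f l i • x i)))
    (fun j l => ∑ i, f l i * (t i * α j i)) (fun c hc => by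
      set y := ∑ l ∈ I, c l • ∑ i, f l i • x i with hy
      set s : Fin n → ℝ := fun i => ∑ l ∈ I, c l * (t i * f l i) with hsd
      have h1 : ∀ k, ξ k y = 0 := fun k => by
        have := hc (Sum.inr k)
        simp only [Sum.elim_inr] at this
        rw [hy, map_sum, ← this]
        exact Finset.sum_congr rfl fun l _ => by rw [map_smul, smul_eq_mul, mul_comm]
      have h2 : ∑ i, s i • mu x t f r i = 0 := by
        refine sum_orth_cm _ _ _ s fun i => ?_
        have := hc (Sum.inl ⟨kap t f (LL r) i, kap_mem t f _ i⟩)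
        simp only [Sum.elim_inl] at this
        rw [← this, hsd, Finset.sum_comm]
        refine Finset.sum_congr rfl fun l _ => ?_
        rw [Finset.sum_mul]
        refine Finset.sum_congr (by congr) fun j _ => by ring
      have h3 : y = ∑ i, s i • (t i)⁻¹ • x i := by
        simp only [hy, hsd, Finset.sum_smul, Finset.smul_sum]
        rw [Finset.sum_comm]
        refine Finset.sum_congr rfl fun i _ => Finset.sum_congr rfl fun l _ => ?_
        rw [smul_smul, smul_smul]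
        congr 1
        have := (ht i).ne'
        field_simp
      have h4 : y - ∑ i, s i • z i =
          ∑ l ∈ I, c l • ∑ i, (t i * f l i) • ((t i)⁻¹ • x i - mu x t f (r + 2) i) := by
        have : ∑ i, s i • z i = ∑ i, s i • mu x t f (r + 2) i := by
          simp only [hz, smul_sub, Finset.sum_sub_distrib, h2, sub_zero]
        rw [this, h3, ← Finset.sum_sub_distrib]
        simp only [← smul_sub]
        simp only [hsd, Finset.sum_smul, Finset.smul_sum]
        rw [Finset.sum_comm]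
        refine Finset.sum_congr rfl fun l _ => Finset.sum_congr rfl fun i _ => ?_
        rw [smul_smul]
      have h5 : ‖y - ∑ i, s i • z i‖ ≤ ∑ l ∈ I, |c l| * (1 / 2 : ℝ) ^ (l + 1) := by
        rw [h4]
        refine (norm_sum_le _ _).trans (Finset.sum_le_sum fun l hl => ?_)
        rw [norm_smul, Real.norm_eq_abs]
        exact mul_le_mul_of_nonneg_left (err_le ht hxt hs hf1 (Finset.mem_Ico.1 hl).2)
          (abs_nonneg _)
      have h6 : (∑ l ∈ I, |c l| * (1 / 2 : ℝ) ^ (l + 1)) ^ 2 ≤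
          ∑ l ∈ I, (1 / 2 : ℝ) ^ (l + 1) * c l ^ 2 := by
        have := Finset.sum_sq_le_sum_mul_sum_of_sq_le_mul I
          (r := fun l => |c l| * (1 / 2 : ℝ) ^ (l + 1)) (f := fun l => (1 / 2 : ℝ) ^ (l + 1))
          (g := fun l => (1 / 2 : ℝ) ^ (l + 1) * c l ^ 2) (fun _ _ => by positivity)
          (fun _ _ => by positivity) (fun l _ => le_of_eq (by rw [mul_pow, sq_abs]; ring))
        refine this.trans (mul_le_of_le_one_left ?_ (sum_half_le I))
        exact Finset.sum_nonneg fun _ _ => by positivity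
      have h7 := hH s y h1
      have h8 : ∀ j, ∑ i, s i * α j i = ∑ l ∈ I, (∑ i, f l i * (t i * α j i)) * c l := by
        intro j
        simp only [hsd, Finset.sum_mul]
        rw [Finset.sum_comm]
        exact Finset.sum_congr rfl fun l _ => Finset.sum_congr rfl fun i _ => by ring
      simp only [h8] at h7
      set H := ∑ j, (∑ l ∈ I, (∑ i, f l i * (t i * α j i)) * c l) ^ 2 with hHd
      have hH0 : 0 ≤ H := Finset.sum_nonneg fun _ _ => sq_nonneg _
      have h9 := hq I c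
      rw [← hy] at h9
      have h10 : ∑ l ∈ I, (σ l / 2 - (1 / 2 : ℝ) ^ (l + 1)) * c l ^ 2 =
          (∑ l ∈ I, σ l * c l ^ 2) / 2 - ∑ l ∈ I, (1 / 2 : ℝ) ^ (l + 1) * c l ^ 2 := by
        rw [Finset.sum_div, ← Finset.sum_sub_distrib]
        exact Finset.sum_congr rfl fun l _ => by ring
      rw [h10]
      set e := ∑ l ∈ I, |c l| * (1 / 2 : ℝ) ^ (l + 1)
      have h11 : ‖y‖ ^ 2 ≤ (√H + e) ^ 2 :=
        pow_le_pow_left₀ (norm_nonneg _) (by linarith) 2
      have h12 := Real.sq_sqrt hH0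
      nlinarith [sq_nonneg (√H - e)])
  have hb : ∑ j, ∑ l ∈ I, (∑ i, f l i * (t i * α j i)) ^ 2 ≤
      8 * ∑ i, t i ^ 2 * ‖z i‖ ^ 2 + ε / 2 := by
    calc _ ≤ ∑ j, ∑ i, (t i * α j i) ^ 2 := Finset.sum_le_sum fun j _ => hbes I _
      _ = ∑ i, t i ^ 2 * ∑ j, α j i ^ 2 := by
          rw [Finset.sum_comm]
          refine Finset.sum_congr rfl fun i _ => ?_
          rw [Finset.mul_sum]
          exact Finset.sum_congr rfl fun j _ => by ring
      _ ≤ ∑ i, t i ^ 2 * (8 * ‖z i‖ ^ 2 + ε / 2) :=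
          Finset.sum_le_sum fun i _ => mul_le_mul_of_nonneg_left (hα i) (hπ i).le
      _ = 8 * ∑ i, t i ^ 2 * ‖z i‖ ^ 2 + (∑ i, t i ^ 2) * (ε / 2) := by
          rw [Finset.mul_sum, Finset.sum_mul, ← Finset.sum_add_distrib]
          exact Finset.sum_congr rfl fun i _ => by ring
      _ ≤ _ := by nlinarith
  have hc : (Fintype.card (box (LL r) ⊕ K) : ℝ) ≤ ((box (LL r)).card + 2 * (r + 1) : ℕ) := by
    rw [Fintype.card_sum, Fintype.card_coe]
    exact_mod_cast Nat.add_le_add_left hK _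
  rw [Finset.sum_sub_distrib, ← Finset.sum_div] at key
  have hc' := mul_le_mul_of_nonneg_right hc (hσ0 (LL (r + 1)))
  have hcot' : ∑ i, t i ^ 2 * ‖z i‖ ^ 2 ≤ 6 * (∑ i, t i ^ 2 * ‖mu x t f (r + 2) i‖ ^ 2 -
      ∑ i, t i ^ 2 * ‖mu x t f r i‖ ^ 2) := hcot
  linarith

theorem le_LL (r : ℕ) : r ≤ LL r := by
  induction r with
  | zero => simp
  | succ r ih => simp only [LL]; omega

theorem core
    (hA : ∀ u v : X, 2 * ‖u‖ ^ 2 + 2 / 3 * ‖v‖ ^ 2 ≤ ‖u + v‖ ^ 2 + ‖u - v‖ ^ 2)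
    (hB : TailHyp X FF) {x : Fin n → X} {t : Fin n → ℝ} (ht : ∀ i, 0 < t i)
    (hxt : ∀ i, ‖x i‖ ≤ t i) (hs : ∑ i, t i ^ 2 ≤ 1) {f : ℕ → Fin n → ℝ} {σ : ℕ → ℝ}
    (hσ0 : ∀ l, 0 ≤ σ l) (hσ : Antitone σ) (hf1 : ∀ l, ∑ i, f l i ^ 2 ≤ 1)
    (hbes : ∀ (I : Finset ℕ) (u : Fin n → ℝ), ∑ l ∈ I, (∑ i, f l i * u i) ^ 2 ≤ ∑ i, u i ^ 2)
    (hq : ∀ (I : Finset ℕ) (c : ℕ → ℝ),
      ∑ l ∈ I, σ l * c l ^ 2 ≤ ‖∑ l ∈ I, c l • ∑ i, f l i • x i‖ ^ 2) (R : ℕ) :
    ∑ l ∈ Finset.range R, σ l ≤ 2 * LL 1 + 388 := by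
  have hπ : ∀ i, 0 < t i ^ 2 := fun i => pow_pos (ht i) 2
  have hx1 : ∀ i, ‖(t i)⁻¹ • x i‖ ≤ 1 := fun i => by
    rw [norm_smul, norm_inv, Real.norm_of_nonneg (ht i).le, inv_mul_le_iff₀ (ht i), mul_one]
    exact hxt i
  set V : ℕ → ℝ := fun r => ∑ i, t i ^ 2 * ‖mu x t f r i‖ ^ 2 with hV
  have hV0 : ∀ r, 0 ≤ V r := fun r => Finset.sum_nonneg fun i _ => by positivity
  have hV1 : ∀ r, V r ≤ 1 := fun r => by
    refine le_trans (Finset.sum_le_sum fun i _ => ?_) hs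
    have := norm_cm_le hπ (kap t f (LL r)) _ hx1 i
    refine mul_le_of_le_one_right (hπ i).le ?_
    exact pow_le_one₀ (norm_nonneg _) this
  have hσ1 : ∀ l, σ l ≤ 1 := fun l => by
    have h1 := hq {l} (fun _ => 1)
    simp only [Finset.sum_singleton, one_pow, mul_one, one_smul] at h1
    have h2 : ‖∑ i, f l i • x i‖ ≤ ∑ i, |f l i| * t i := by
      refine (norm_sum_le _ _).trans (Finset.sum_le_sum fun i _ => ?_)
      rw [norm_smul, Real.norm_eq_abs]
      exact mul_le_mul_of_nonneg_left (hxt i) (abs_nonneg _)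
    have h3 := Finset.sum_mul_sq_le_sq_mul_sq Finset.univ (fun i => |f l i|) t
    simp only [sq_abs] at h3
    have h4 : (∑ i, f l i ^ 2) * ∑ i, t i ^ 2 ≤ 1 :=
      mul_le_one₀ (hf1 l) (Finset.sum_nonneg fun _ _ => sq_nonneg _) hs
    have h5 := pow_le_pow_left₀ (norm_nonneg _) h2 2
    linarith
  have hhalf : ∀ r, ((box (LL r)).card + 2 * (r + 1) : ℕ) * σ (LL (r + 1)) ≤
      (∑ l ∈ Finset.Ico (LL r) (LL (r + 1)), σ l) / 2 := by
    intro r
    have h1 : ∑ l ∈ Finset.Ico (LL r) (LL (r + 1)), σ (LL (r + 1)) ≤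
        ∑ l ∈ Finset.Ico (LL r) (LL (r + 1)), σ l :=
      Finset.sum_le_sum fun l hl => hσ (Finset.mem_Ico.1 hl).2.le
    rw [Finset.sum_const, Nat.card_Ico, nsmul_eq_mul] at h1
    have h2 : LL (r + 1) - LL r = 2 * ((box (LL r)).card + 2 * (r + 1)) := by
      simp only [LL]; omega
    rw [h2, Nat.cast_mul] at h1
    norm_num at h1 ⊢
    linarith
  have main : ∀ r, ∑ l ∈ Finset.range (LL (r + 1)), σ l +
      ∑ l ∈ Finset.Ico (LL r) (LL (r + 1)), σ l ≤ 2 * LL 1 + 192 * (V (r + 1) + V r) +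
      4 * ∑ l ∈ Finset.range (LL (r + 1)), (1 / 2 : ℝ) ^ (l + 1) := by
    intro r
    induction r with
    | zero =>
      have h1 : ∑ l ∈ Finset.range (LL 1), σ l ≤ LL 1 := by
        calc _ ≤ ∑ _l ∈ Finset.range (LL 1), (1 : ℝ) := Finset.sum_le_sum fun l _ => hσ1 l
          _ = _ := by simp
      have h2 : LL 0 = 0 := rfl
      have h3 : 0 ≤ ∑ l ∈ Finset.range (LL 1), (1 / 2 : ℝ) ^ (l + 1) :=
        Finset.sum_nonneg fun _ _ => by positivity
      rw [h2, Nat.Ico_zero_eq_range, zero_add]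
      have := hV0 0
      have := hV0 1
      linarith
    | succ r ih =>
      have h1 := group_step hA hB ht hxt hs hσ0 hσ hf1 hbes hq r
      have h2 := hhalf r
      have hle : LL (r + 1) ≤ LL (r + 2) := LL_mono (by omega)
      have h3 := Finset.sum_range_add_sum_Ico σ hle
      have h4 := Finset.sum_range_add_sum_Ico (fun l => (1 / 2 : ℝ) ^ (l + 1)) hle
      have h5 : V (r + 2) = ∑ i, t i ^ 2 * ‖mu x t f (r + 2) i‖ ^ 2 := rfl
      have h6 : V r = ∑ i, t i ^ 2 * ‖mu x t f r i‖ ^ 2 := rfl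
      rw [← h5, ← h6] at h1
      change ∑ l ∈ Finset.range (LL (r + 2)), σ l +
        ∑ l ∈ Finset.Ico (LL (r + 1)) (LL (r + 2)), σ l ≤ 2 * LL 1 + 192 * (V (r + 2) + V (r + 1)) +
        4 * ∑ l ∈ Finset.range (LL (r + 2)), (1 / 2 : ℝ) ^ (l + 1)
      linarith
  have h1 := main R
  have h2 := sum_half_le (Finset.range (LL (R + 1)))
  have h3 : 0 ≤ ∑ l ∈ Finset.Ico (LL R) (LL (R + 1)), σ l := Finset.sum_nonneg fun l _ => hσ0 l
  have h4 : ∑ l ∈ Finset.range R, σ l ≤ ∑ l ∈ Finset.range (LL (R + 1)), σ l :=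
    Finset.sum_le_sum_of_subset_of_nonneg
      (Finset.range_mono (by have := le_LL (R + 1); omega)) fun l _ _ => hσ0 l
  have := hV1 R
  have := hV1 (R + 1)
  linarith

end

end Pool.Agent.Lib.MP_f92ad0_an
end

-- part Pool.Agent.Lib.MP_f92ad0_an.HS
section

/-! The trace-duality inequality behind the Maurey extension criterion. -/

namespace Pool.Agent.Lib.MP_f92ad0_an

open Classical

variable {X H : Type*} [NormedAddCommGroup X] [NormedSpace ℝ X] [NormedAddCommGroup H]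
  [InnerProductSpace ℝ H] [CompleteSpace H]

theorem sum_le_fin {m : ℕ} (F : ℕ → ℝ) (h0 : ∀ l, 0 ≤ F l) (hz : ∀ l, m ≤ l → F l = 0)
    (I : Finset ℕ) : ∑ l ∈ I, F l ≤ ∑ l : Fin m, F l := by
  rw [Fin.sum_univ_eq_sum_range F m, ← Finset.sum_filter_of_ne (p := fun l => l < m)
    (fun l _ hl => by by_contra h; exact hl (hz l (not_lt.1 h)))]
  exact Finset.sum_le_sum_of_subset_of_nonneg
    (fun l hl => Finset.mem_range.2 (Finset.mem_filter.1 hl).2) fun l _ _ => h0 l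

theorem hs_normalized
    (hA : ∀ u v : X, 2 * ‖u‖ ^ 2 + 2 / 3 * ‖v‖ ^ 2 ≤ ‖u + v‖ ^ 2 + ‖u - v‖ ^ 2)
    (hB : TailHyp X FF) (Y : Submodule ℝ X) (g : X →ₗ[ℝ] H) (hg : ∀ y ∈ Y, ‖g y‖ ≤ ‖y‖)
    {n : ℕ} {x : Fin n → X} {t : Fin n → ℝ} (ht : ∀ i, 0 < t i)
    (hxt : ∀ i, ‖x i‖ ≤ t i) (hs : ∑ i, t i ^ 2 ≤ 1) (k : Fin n → H) (hk1 : ∑ i, ‖k i‖ ^ 2 ≤ 1)
    (hk : ∀ h : H, ∑ i, inner ℝ (k i) h • x i ∈ Y) :
    ∑ i, inner ℝ (g (x i)) (k i) ≤ (LL 1 : ℝ) + 195 := by
  let E := EuclideanSpace ℝ (Fin n)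
  let v : E →ₗ[ℝ] X :=
    { toFun := fun φ => ∑ i, φ i • x i
      map_add' := fun φ ψ => by simp [E, add_smul, Finset.sum_add_distrib]
      map_smul' := fun c φ => by simp [E, Finset.smul_sum, smul_smul] }
  have hv : ∀ φ : E, v φ = ∑ i, φ i • x i := fun _ => rfl
  let K : Submodule ℝ E := Y.comap v
  let G : K →L[ℝ] H := LinearMap.toContinuousLinearMap (g ∘ₗ v ∘ₗ K.subtype)
  have hG : ∀ φ : K, G φ = g (v φ) := fun _ => rfl
  let T : K →ₗ[ℝ] K := ((ContinuousLinearMap.adjoint G).comp G : K →L[ℝ] K)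
  have hTi : ∀ φ ψ : K, inner ℝ (T φ) ψ = inner ℝ (G φ) (G ψ) := fun φ ψ =>
    ContinuousLinearMap.adjoint_inner_left G ψ (G φ)
  have hT : T.IsSymmetric := fun φ ψ => by
    rw [hTi, real_inner_comm, ← hTi, real_inner_comm]
  set m := Module.finrank ℝ K with hm
  let b : OrthonormalBasis (Fin m) ℝ K := hT.eigenvectorBasis rfl
  let ev : Fin m → ℝ := hT.eigenvalues rfl
  have hev : Antitone ev := hT.eigenvalues_antitone rfl
  have hGb : ∀ l l', inner ℝ (G (b l)) (G (b l')) = if l = l' then ev l else 0 := by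
    intro l l'
    have h1 : T (b l) = ev l • b l := hT.apply_eigenvectorBasis rfl l
    have h2 : inner ℝ (ev l • b l) (b l') = ev l * inner ℝ (b l) (b l') :=
      real_inner_smul_left (b l) (b l') (ev l)
    rw [← hTi, h1, h2, orthonormal_iff_ite.1 b.orthonormal]
    split_ifs <;> simp
  have hev0 : ∀ l, ev l = ‖G (b l)‖ ^ 2 := fun l => by
    rw [← real_inner_self_eq_norm_sq, hGb, if_pos rfl]
  let b' : ℕ → K := fun l => if h : l < m then b ⟨l, h⟩ else 0
  let σ : ℕ → ℝ := fun l => if h : l < m then ev ⟨l, h⟩ else 0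
  have hb' : ∀ l : Fin m, b' l = b l := fun l => by simp [b', l.2]
  have hσ' : ∀ l : Fin m, σ l = ev l := fun l => by simp [σ, l.2]
  have hσ0 : ∀ l, 0 ≤ σ l := fun l => by
    simp only [σ]; split_ifs
    · rw [hev0]; positivity
    · exact le_rfl
  have hσ : Antitone σ := fun l l' hl => by
    by_cases h' : l' < m
    · have h : l < m := lt_of_le_of_lt hl h'
      simp only [σ, dif_pos h, dif_pos h']
      exact hev hl
    · have := hσ0 l
      simpa only [σ, dif_neg h'] using this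
  have hGb' : ∀ l l', inner ℝ (G (b' l)) (G (b' l')) = if l = l' then σ l else 0 := by
    intro l l'
    by_cases h : l < m
    · by_cases h' : l' < m
      · simp only [b', σ, dif_pos h, dif_pos h', hGb, Fin.mk.injEq]
      · have : l ≠ l' := by omega
        simp [b', dif_neg h', this]
    · simp [b', σ, dif_neg h]
  have hin : ∀ (φ : E) (u : Fin n → ℝ), inner ℝ φ (WithLp.toLp 2 u : E) = ∑ i, φ i * u i := by
    intro φ u
    simp [E, PiLp.inner_apply, mul_comm]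
  have hon : Orthonormal ℝ (fun l => (b l : E)) := b.orthonormal.comp_linearIsometry K.subtypeₗᵢ
  have hcore := core hA hB ht hxt hs (f := fun l i => (b' l : E) i) hσ0 hσ
    (fun l => by
      have := EuclideanSpace.real_norm_sq_eq (b' l : E)
      rw [← this]
      simp only [b']; split_ifs
      · rw [hon.1]; norm_num
      · simp)
    (fun I u => by
      refine (sum_le_fin (m := m) (fun l => (∑ i, (b' l : E) i * u i) ^ 2)
        (fun _ => sq_nonneg _) (fun l hl => by simp [b', not_lt.2 hl]) I).trans ?_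
      have := hon.sum_inner_products_le (s := Finset.univ) (WithLp.toLp 2 u : E)
      have h2 := EuclideanSpace.real_norm_sq_eq (WithLp.toLp 2 u : E)
      simp only [hin, Real.norm_eq_abs, sq_abs] at this
      simp only [hb']
      rw [h2] at this
      exact this)
    (fun I c => by
      have e1 : ∑ l ∈ I, c l • ∑ i, (b' l : E) i • x i = v ((∑ l ∈ I, c l • b' l : K) : E) := by
        rw [Submodule.coe_sum, map_sum]
        exact Finset.sum_congr rfl fun l _ => by rw [Submodule.coe_smul, map_smul, hv]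
      have e2 : ∑ l ∈ I, σ l * c l ^ 2 = ‖G (∑ l ∈ I, c l • b' l)‖ ^ 2 := by
        rw [← real_inner_self_eq_norm_sq, map_sum, sum_inner]
        refine Finset.sum_congr rfl fun l hl => ?_
        simp only [inner_sum, map_smul, real_inner_smul_left, real_inner_smul_right, hGb',
          mul_ite, mul_zero]
        rw [Finset.sum_ite_eq, if_pos hl]; ring
      rw [e1, e2, hG]
      exact pow_le_pow_left₀ (norm_nonneg _) (hg _ (∑ l ∈ I, c l • b' l).2) 2) m
  rw [← Fin.sum_univ_eq_sum_range σ m] at hcore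
  simp only [hσ', hev0] at hcore
  let u : Fin m → H := fun l => ∑ i, (b l : E) i • k i
  have hku : ∀ i, k i = ∑ l, (b l : E) i • u l := by
    intro i
    refine ext_inner_right ℝ fun h => ?_
    let φ : K := ⟨WithLp.toLp 2 fun i => inner ℝ (k i) h, hk h⟩
    have h1 := b.sum_repr' φ
    have h2 := congrArg (fun ψ : K => (ψ : E) i) h1
    simp only [Submodule.coe_sum, Submodule.coe_smul, Submodule.coe_inner, φ, hin] at h2
    rw [sum_inner, ← h2]
    simp only [E, WithLp.ofLp_sum, WithLp.ofLp_smul, Finset.sum_apply, Pi.smul_apply, smul_eq_mul,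
      real_inner_smul_left, u, sum_inner]
    exact Finset.sum_congr rfl fun l _ => mul_comm _ _
  have hu : ∑ l, ‖u l‖ ^ 2 = ∑ i, ‖k i‖ ^ 2 := by
    calc ∑ l, ‖u l‖ ^ 2 = ∑ l, ∑ i, (b l : E) i * inner ℝ (k i) (u l) := by
          refine Finset.sum_congr rfl fun l _ => ?_
          rw [← real_inner_self_eq_norm_sq]
          conv_lhs => enter [2]; simp only [u]
          rw [sum_inner]
          simp only [real_inner_smul_left]
      _ = ∑ i, ‖k i‖ ^ 2 := by
          rw [Finset.sum_comm]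
          refine Finset.sum_congr rfl fun i _ => ?_
          rw [← real_inner_self_eq_norm_sq]
          conv_rhs => enter [3]; rw [hku i]
          rw [inner_sum]
          simp only [real_inner_smul_right]
  have hmain : ∑ i, inner ℝ (g (x i)) (k i) = ∑ l, inner ℝ (G (b l)) (u l) := by
    calc ∑ i, inner ℝ (g (x i)) (k i) = ∑ i, ∑ l, (b l : E) i * inner ℝ (g (x i)) (u l) := by
          refine Finset.sum_congr rfl fun i _ => ?_
          rw [hku i, inner_sum]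
          simp only [real_inner_smul_right]
      _ = _ := by
          rw [Finset.sum_comm]
          refine Finset.sum_congr rfl fun l _ => ?_
          rw [hG, hv, map_sum, sum_inner]
          simp only [map_smul, real_inner_smul_left]
  rw [hmain]
  calc ∑ l, inner ℝ (G (b l)) (u l) ≤ ∑ l, (‖G (b l)‖ ^ 2 + ‖u l‖ ^ 2) / 2 := by
        refine Finset.sum_le_sum fun l _ => (real_inner_le_norm _ _).trans ?_
        nlinarith [sq_nonneg (‖G (b l)‖ - ‖u l‖)]
    _ ≤ _ := by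
        rw [← Finset.sum_div, Finset.sum_add_distrib, hu]
        linarith

theorem hs_general
    (hA : ∀ u v : X, 2 * ‖u‖ ^ 2 + 2 / 3 * ‖v‖ ^ 2 ≤ ‖u + v‖ ^ 2 + ‖u - v‖ ^ 2)
    (hB : TailHyp X FF) (Y : Submodule ℝ X) (g : X →ₗ[ℝ] H) (hg : ∀ y ∈ Y, ‖g y‖ ≤ ‖y‖)
    {n : ℕ} (x : Fin n → X) (k : Fin n → H) (hk : ∀ h : H, ∑ i, inner ℝ (k i) h • x i ∈ Y) :
    ∑ i, inner ℝ (g (x i)) (k i) ≤ ((LL 1 : ℝ) + 195) * ∑ i, ‖x i‖ * ‖k i‖ := by
  have key : ∀ ε : ℝ, 0 < ε → ∑ i, inner ℝ (g (x i)) (k i) ≤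
      ((LL 1 : ℝ) + 195) * (∑ i, (‖x i‖ + ε) * (‖k i‖ + ε) + ε) := by
    intro ε hε
    set ν := ∑ i, (‖x i‖ + ε) * (‖k i‖ + ε) + ε with hν
    have hν0 : 0 < ν := add_pos_of_nonneg_of_pos (Finset.sum_nonneg fun i _ => by positivity) hε
    let lam : Fin n → ℝ := fun i => √((‖k i‖ + ε) / ((‖x i‖ + ε) * ν))
    have hl0 : ∀ i, 0 < lam i := fun i => Real.sqrt_pos.2 (by positivity)
    have hl2 : ∀ i, lam i ^ 2 = (‖k i‖ + ε) / ((‖x i‖ + ε) * ν) := fun i =>
      Real.sq_sqrt (by positivity)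
    have hsum : ∑ i, (‖x i‖ + ε) * (‖k i‖ + ε) / ν ≤ 1 := by
      rw [← Finset.sum_div, div_le_one hν0]; linarith
    have := hs_normalized hA hB Y g hg (x := fun i => lam i • x i)
      (t := fun i => lam i * (‖x i‖ + ε)) (fun i => by have := hl0 i; positivity)
      (fun i => by
        rw [norm_smul, Real.norm_of_nonneg (hl0 i).le]
        exact mul_le_mul_of_nonneg_left (by linarith) (hl0 i).le)
      (le_trans (le_of_eq (Finset.sum_congr rfl fun i _ => by
        rw [mul_pow, hl2]; field_simp)) hsum)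
      (fun i => (lam i * ν)⁻¹ • k i)
      (le_trans (Finset.sum_le_sum fun i _ => by
        have := hl0 i
        rw [norm_smul, Real.norm_of_nonneg (by positivity), mul_pow, inv_pow, mul_pow, hl2]
        calc _ ≤ ((‖k i‖ + ε) / ((‖x i‖ + ε) * ν) * ν ^ 2)⁻¹ * (‖k i‖ + ε) ^ 2 := by
              gcongr; linarith
          _ = _ := by field_simp) hsum)
      (fun h => by
        have e : ∑ i, inner ℝ ((lam i * ν)⁻¹ • k i) h • lam i • x i =
            ν⁻¹ • ∑ i, inner ℝ (k i) h • x i := by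
          rw [Finset.smul_sum]
          refine Finset.sum_congr rfl fun i _ => ?_
          rw [real_inner_smul_left, smul_smul, smul_smul]
          congr 1
          have := (hl0 i).ne'
          field_simp
        rw [e]; exact Y.smul_mem _ (hk h))
    have e : ∑ i, inner ℝ (g (lam i • x i)) ((lam i * ν)⁻¹ • k i) =
        (∑ i, inner ℝ (g (x i)) (k i)) / ν := by
      rw [Finset.sum_div]
      refine Finset.sum_congr rfl fun i _ => ?_
      rw [map_smul, real_inner_smul_left, real_inner_smul_right]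
      have := (hl0 i).ne'
      field_simp
    rwa [e, div_le_iff₀ hν0] at this
  have hc : Continuous fun ε : ℝ =>
      ((LL 1 : ℝ) + 195) * (∑ i, (‖x i‖ + ε) * (‖k i‖ + ε) + ε) := by fun_prop
  have := ge_of_tendsto (hc.continuousWithinAt (s := Set.Ioi 0) (x := 0))
    (eventually_nhdsWithin_of_forall key)
  simpa using this

end Pool.Agent.Lib.MP_f92ad0_an
end

-- part Pool.Agent.Lib.MP_f92ad0_an.Ext
section

/-! The extension theorem: Hahn-Banach on the free space over `X × H`. -/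

namespace Pool.Agent.Lib.MP_f92ad0_an

open Classical

section Real
variable {X H : Type*} [NormedAddCommGroup X] [NormedSpace ℝ X] [NormedAddCommGroup H]
  [InnerProductSpace ℝ H] [CompleteSpace H]

theorem ext_real_one
    (hA : ∀ u v : X, 2 * ‖u‖ ^ 2 + 2 / 3 * ‖v‖ ^ 2 ≤ ‖u + v‖ ^ 2 + ‖u - v‖ ^ 2)
    (hB : TailHyp X FF) (Y : Submodule ℝ X) (g : X →ₗ[ℝ] H) (hg : ∀ y ∈ Y, ‖g y‖ ≤ ‖y‖) :
    ∃ f : X →L[ℝ] H, ∀ y ∈ Y, f y = g y := by
  set M : ℝ := (LL 1 : ℝ) + 195 with hM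
  have hM0 : 0 ≤ M := by positivity
  let V := (X × H) →₀ ℝ
  let ev : H → V →ₗ[ℝ] X := fun h =>
    Finsupp.linearCombination ℝ (fun a : X × H => inner ℝ a.2 h • a.1)
  let W : Submodule ℝ V := ⨅ h, Y.comap (ev h)
  have hW : ∀ s : V, s ∈ W ↔ ∀ h, ev h s ∈ Y := fun s => by
    simp only [W, Submodule.mem_iInf, Submodule.mem_comap]
  let l0 : V →ₗ[ℝ] ℝ := Finsupp.linearCombination ℝ (fun a : X × H => inner ℝ (g a.1) a.2)
  let p : V → ℝ := fun s => M * ∑ a ∈ s.support, |s a| * (‖a.1‖ * ‖a.2‖)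
  have hp : ∀ (s : V) (T : Finset (X × H)), s.support ⊆ T →
      p s = M * ∑ a ∈ T, |s a| * (‖a.1‖ * ‖a.2‖) := by
    intro s T hT
    simp only [p]
    rw [Finset.sum_subset hT]
    intro a _ ha
    rw [Finsupp.notMem_support_iff.1 ha]; simp
  obtain ⟨lam, hl1, hl2⟩ := exists_extension_of_le_sublinear (l0.toPMap W) p
    (fun c hc s => by
      rw [hp (c • s) s.support Finsupp.support_smul, hp s s.support subset_rfl, mul_left_comm,
        Finset.mul_sum _ _ c]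
      congr 1
      refine Finset.sum_congr rfl fun a _ => ?_
      rw [Finsupp.smul_apply, smul_eq_mul, abs_mul, abs_of_pos hc, mul_assoc])
    (fun s s' => by
      rw [hp (s + s') (s.support ∪ s'.support) Finsupp.support_add,
        hp s (s.support ∪ s'.support) Finset.subset_union_left,
        hp s' (s.support ∪ s'.support) Finset.subset_union_right, ← mul_add,
        ← Finset.sum_add_distrib]
      refine mul_le_mul_of_nonneg_left (Finset.sum_le_sum fun a _ => ?_) hM0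
      rw [← add_mul]
      exact mul_le_mul_of_nonneg_right (abs_add_le _ _) (by positivity))
    (fun s => by
      obtain ⟨s, hs⟩ := s
      have hs' := (hW s).1 hs
      let e := s.support.equivFin.symm
      have := hs_general hA hB Y g hg (fun i => s (e i) • (e i).1.1) (fun i => (e i).1.2)
        (fun h => by
          have h1 := hs' h
          simp only [ev] at h1
          rw [Finsupp.linearCombination_apply, Finsupp.sum, ← Finset.sum_coe_sort,
            ← e.sum_comp] at h1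
          simpa only [smul_comm (s _)] using h1)
      change l0 s ≤ p s
      simp only [l0, p]
      rw [Finsupp.linearCombination_apply, Finsupp.sum, ← Finset.sum_coe_sort, ← e.sum_comp,
        ← Finset.sum_coe_sort s.support, ← e.sum_comp]
      simpa only [map_smul, real_inner_smul_left, norm_smul, Real.norm_eq_abs, mul_assoc,
        smul_eq_mul] using this)
  have hl : ∀ s : V, (∀ h, ev h s ∈ Y) → lam s = l0 s := fun s hs => hl1 ⟨s, (hW s).2 hs⟩
  let δ : X → H → V := fun x k => Finsupp.single (x, k) 1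
  have hevδ : ∀ h x k, ev h (δ x k) = inner ℝ k h • x := fun h x k => by
    simp only [ev, δ]; rw [Finsupp.linearCombination_single, one_smul]
  have hl0δ : ∀ x k, l0 (δ x k) = inner ℝ (g x) k := fun x k => by
    simp only [l0, δ]; rw [Finsupp.linearCombination_single, one_smul]
  let B : X →ₗ[ℝ] H →ₗ[ℝ] ℝ := LinearMap.mk₂ ℝ (fun x k => lam (δ x k))
    (fun x x' k => by
      have := hl (δ (x + x') k - δ x k - δ x' k) fun h => by
        simp only [map_sub, hevδ, smul_add]; simp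
      simp only [map_sub, hl0δ, map_add, inner_add_left] at this
      linarith)
    (fun c x k => by
      have := hl (δ (c • x) k - c • δ x k) fun h => by
        simp only [map_sub, map_smul, hevδ, smul_comm c]; simp
      simp only [map_sub, map_smul, hl0δ, real_inner_smul_left, smul_eq_mul] at this ⊢
      linarith)
    (fun x k k' => by
      have := hl (δ x (k + k') - δ x k - δ x k') fun h => by
        simp only [map_sub, hevδ, inner_add_left, add_smul]; simp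
      simp only [map_sub, hl0δ, inner_add_right] at this
      linarith)
    (fun c x k => by
      have := hl (δ x (c • k) - c • δ x k) fun h => by
        simp only [map_sub, map_smul, hevδ, real_inner_smul_left, mul_smul]; simp
      simp only [map_sub, map_smul, hl0δ, real_inner_smul_right, smul_eq_mul] at this ⊢
      linarith)
  have hB1 : ∀ x k, B x k ≤ M * ‖x‖ * ‖k‖ := fun x k => by
    have := hl2 (δ x k)
    rw [hp _ {(x, k)} Finsupp.support_single_subset] at this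
    have e : δ x k (x, k) = 1 := Finsupp.single_eq_same
    rw [Finset.sum_singleton, e, abs_one, one_mul, ← mul_assoc] at this
    exact this
  have hB2 : ∀ x k, ‖B x k‖ ≤ M * ‖x‖ * ‖k‖ := fun x k => by
    rw [Real.norm_eq_abs, abs_le]
    have := hB1 x (-k)
    rw [map_neg, norm_neg] at this
    exact ⟨by linarith, hB1 x k⟩
  let B' : X →L[ℝ] H →L[ℝ] ℝ := B.mkContinuous₂ M hB2
  let f0 : X →ₗ[ℝ] H :=
    { toFun := fun x => (InnerProductSpace.toDual ℝ H).symm (B' x)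
      map_add' := fun x y => by rw [map_add, map_add]
      map_smul' := fun c x => by rw [map_smul, map_smulₛₗ]; rfl }
  refine ⟨f0.mkContinuous ‖B'‖ fun x => ?_, fun y hy => ?_⟩
  · change ‖(InnerProductSpace.toDual ℝ H).symm (B' x)‖ ≤ _
    rw [LinearIsometryEquiv.norm_map]
    exact B'.le_opNorm x
  · refine ext_inner_right ℝ fun h => ?_
    change inner ℝ ((InnerProductSpace.toDual ℝ H).symm (B' y)) h = _
    rw [InnerProductSpace.toDual_symm_apply, ← hl0δ, ← hl _ fun h' => by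
      rw [hevδ]; exact Y.smul_mem _ hy]
    rfl

theorem ext_real
    (hA : ∀ u v : X, 2 * ‖u‖ ^ 2 + 2 / 3 * ‖v‖ ^ 2 ≤ ‖u + v‖ ^ 2 + ‖u - v‖ ^ 2)
    (hB : TailHyp X FF) (Y : Submodule ℝ X) (g : X →ₗ[ℝ] H) (γ : ℝ) (hγ : 0 < γ)
    (hg : ∀ y ∈ Y, ‖g y‖ ≤ γ * ‖y‖) : ∃ f : X →L[ℝ] H, ∀ y ∈ Y, f y = g y := by
  obtain ⟨f, hf⟩ := ext_real_one hA hB Y (γ⁻¹ • g) fun y hy => by
    rw [LinearMap.smul_apply, norm_smul, norm_inv, Real.norm_of_nonneg hγ.le,
      inv_mul_le_iff₀ hγ]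
    exact hg y hy
  refine ⟨γ • f, fun y hy => ?_⟩
  rw [smul_apply, hf y hy, LinearMap.smul_apply, smul_smul,
    mul_inv_cancel₀ hγ.ne', one_smul]

end Real

/-- The tail hypothesis over the scalar field. -/
def TailHypK (𝕜 X : Type*) [RCLike 𝕜] [NormedAddCommGroup X] [NormedSpace 𝕜 X]
    (F : ℕ → ℕ) : Prop :=
  ∀ r : ℕ, ∃ ξ : Fin r → X →ₗ[𝕜] 𝕜,
    ∀ (n : ℕ) (z : Fin n → X) (A : Finset X), (∀ i, z i ∈ A) → A.card ≤ F r → ∀ ε : ℝ, 0 < ε →
      ∃ (S : Type) (_ : Fintype S) (α : S → Fin n → ℝ),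
        (∀ i, ∑ j, α j i ^ 2 ≤ 8 * ‖z i‖ ^ 2 + ε) ∧
        ∀ (s : Fin n → ℝ) (y : X), (∀ k, ξ k y = 0) →
          ‖y‖ ≤ √(∑ j, (∑ i, s i * α j i) ^ 2) + ‖y - ∑ i, (s i : 𝕜) • z i‖

theorem ext_rclike {𝕜 X H : Type*} [RCLike 𝕜] [NormedAddCommGroup X] [NormedSpace 𝕜 X]
    [NormedAddCommGroup H] [InnerProductSpace 𝕜 H] [CompleteSpace H]
    (hA : ∀ u v : X, 2 * ‖u‖ ^ 2 + 2 / 3 * ‖v‖ ^ 2 ≤ ‖u + v‖ ^ 2 + ‖u - v‖ ^ 2)
    (hB : TailHypK 𝕜 X FF) (Y : Submodule 𝕜 X) (g : Y →L[𝕜] H) :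
    ∃ f : X →L[𝕜] H, ∀ y : Y, f y = g y := by
  let _ : NormedSpace ℝ X := NormedSpace.restrictScalars ℝ 𝕜 X
  let _ : InnerProductSpace ℝ H := InnerProductSpace.rclikeToReal 𝕜 H
  have hX : ∀ (r : ℝ) (x : X), r • x = (r : 𝕜) • x := fun _ _ => rfl
  have hH : ∀ (r : ℝ) (x : H), r • x = (r : 𝕜) • x := fun _ _ => rfl
  obtain ⟨g', hg'⟩ := LinearMap.exists_extend (g : Y →ₗ[𝕜] H)
  have hgy : ∀ y : Y, g' y = g y := fun y => LinearMap.congr_fun hg' y
  let Y' : Submodule ℝ X :=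
    { carrier := Y
      add_mem' := Y.add_mem
      zero_mem' := Y.zero_mem
      smul_mem' := fun c x hx => by rw [hX]; exact Y.smul_mem _ hx }
  let g1 : X →ₗ[ℝ] H :=
    { toFun := g'
      map_add' := g'.map_add
      map_smul' := fun c x => by rw [hX, map_smul]; rfl }
  have hB' : TailHyp X FF := fun r => by
    obtain ⟨ξ, hξ⟩ := hB r
    let re' : Fin r → X →ₗ[ℝ] ℝ := fun k =>
      { toFun := fun x => RCLike.re (ξ k x)
        map_add' := fun x y => by rw [map_add, map_add]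
        map_smul' := fun c x => by rw [hX, map_smul]; simp }
    let im' : Fin r → X →ₗ[ℝ] ℝ := fun k =>
      { toFun := fun x => RCLike.im (ξ k x)
        map_add' := fun x y => by rw [map_add, map_add]
        map_smul' := fun c x => by rw [hX, map_smul]; simp }
    refine ⟨Fin r ⊕ Fin r, inferInstance, Sum.elim re' im', by simp [two_mul], ?_⟩
    intro n z A hz hA ε hε
    obtain ⟨S, _, α, h1, h2⟩ := hξ n z A hz hA ε hε
    refine ⟨S, inferInstance, α, h1, fun s y hy => h2 s y fun k => ?_⟩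
    have e1 : RCLike.re (ξ k y) = 0 := hy (Sum.inl k)
    have e2 : RCLike.im (ξ k y) = 0 := hy (Sum.inr k)
    exact RCLike.ext (by rw [e1, map_zero]) (by rw [e2, map_zero])
  obtain ⟨f, hf⟩ := ext_real hA hB' Y' g1 (‖g‖ + 1) (by positivity) fun y hy => by
    have h1 : g1 y = g ⟨y, hy⟩ := hgy ⟨y, hy⟩
    rw [h1]
    refine (g.le_opNorm _).trans ?_
    exact mul_le_mul_of_nonneg_right (by linarith) (norm_nonneg y)
  have hfr : ∀ (r : ℝ) (x : X), f ((r : 𝕜) • x) = (r : 𝕜) • f x := fun r x => by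
    rw [← hX, map_smul, hH]
  have hfy : ∀ y ∈ Y, f y = g' y := hf
  rcases RCLike.I_eq_zero_or_im_I_eq_one (K := 𝕜) with hI | hI
  · refine ⟨{ toFun := f, map_add' := f.map_add, map_smul' := fun c x => ?_, cont := f.cont },
      fun y => (hfy y y.2).trans (hgy y)⟩
    have : c = (RCLike.re c : 𝕜) := by
      conv_lhs => rw [← RCLike.re_add_im c, hI, mul_zero, add_zero]
    rw [this]
    exact hfr _ _
  · have hII : (RCLike.I : 𝕜) * RCLike.I = -1 := RCLike.I_mul_I_of_nonzero fun h => by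
      rw [h] at hI; simp at hI
    let F : X → H := fun x => (2 : 𝕜)⁻¹ • (f x - (RCLike.I : 𝕜) • f ((RCLike.I : 𝕜) • x))
    have hFadd : ∀ x y, F (x + y) = F x + F y := fun x y => by
      simp only [F, smul_add, map_add]; module
    have hFr : ∀ (r : ℝ) x, F ((r : 𝕜) • x) = (r : 𝕜) • F x := fun r x => by
      simp only [F]
      rw [smul_comm (RCLike.I : 𝕜) (r : 𝕜) x, hfr, hfr]; module
    have hFI : ∀ x, F ((RCLike.I : 𝕜) • x) = (RCLike.I : 𝕜) • F x := fun x => by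
      simp only [F]
      rw [smul_smul (RCLike.I : 𝕜) RCLike.I x, hII, neg_smul, one_smul, map_neg,
        smul_comm (RCLike.I : 𝕜) (2 : 𝕜)⁻¹, smul_sub (RCLike.I : 𝕜),
        smul_smul (RCLike.I : 𝕜) RCLike.I, hII]
      module
    refine ⟨{ toFun := F, map_add' := hFadd, map_smul' := fun c x => ?_, cont := ?_ },
      fun y => ?_⟩
    · change F (c • x) = c • F x
      conv_lhs => rw [← RCLike.re_add_im c, add_smul, mul_smul, hFadd, hFr, hFr, hFI]
      conv_rhs => rw [← RCLike.re_add_im c, add_smul, mul_smul]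
    · simp only [F]; fun_prop
    · change F y = g y
      simp only [F]
      rw [hfy y y.2, hfy _ (Y.smul_mem _ y.2), map_smul, smul_smul (RCLike.I : 𝕜) RCLike.I, hII,
        hgy]
      module

end Pool.Agent.Lib.MP_f92ad0_an
end

-- part Pool.Agent.Lib.MP_f92ad0_an.Compl
section

/-! The completion satisfies the two hypotheses of the extension theorem and has no type 2. -/

namespace Pool.Agent.Lib.MP_f92ad0_an

open Classical UniformSpace

variable {𝕜 : Type} [RCLike 𝕜] {F : ℕ → ℕ}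

theorem compl_uc (u v : Completion (Sp 𝕜 F)) :
    2 * ‖u‖ ^ 2 + 2 / 3 * ‖v‖ ^ 2 ≤ ‖u + v‖ ^ 2 + ‖u - v‖ ^ 2 := by
  refine Completion.induction_on₂ u v (isClosed_le (by fun_prop) (by fun_prop)) fun a b => ?_
  rw [← Completion.coe_add, ← Completion.coe_sub]
  simp only [Completion.norm_coe]
  exact Sp.uc a b

/-- The tail of a finitely supported vector. -/
noncomputable def tl (r : ℕ) (y : Sp 𝕜 F) : Sp 𝕜 F := y - ∑ k : Fin r, Sp.val y k • ee 𝕜 F k

theorem val_tl (r : ℕ) (y : Sp 𝕜 F) (j : ℕ) :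
    Sp.val (tl r y) j = if r ≤ j then Sp.val y j else 0 := by
  simp only [tl, map_sub, map_sum, map_smul, val_ee, Pi.sub_apply, Finset.sum_apply,
    Pi.smul_apply, smul_eq_mul]
  split_ifs with h
  · rw [Finset.sum_eq_zero, sub_zero]
    intro k _
    rw [Pi.single_eq_of_ne (by have := k.2; omega), mul_zero]
  · rw [Finset.sum_eq_single (⟨j, not_le.1 h⟩ : Fin r)]
    · simp
    · intro k _ hk
      rw [Pi.single_eq_of_ne (fun h => hk (Fin.ext h.symm)), mul_zero]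
    · simp

variable (𝕜 F) in
/-- The tail projection on the completion. -/
noncomputable def PP (r : ℕ) : Completion (Sp 𝕜 F) →L[𝕜] Completion (Sp 𝕜 F) :=
  ContinuousLinearMap.id 𝕜 _ -
    ∑ k : Fin r, ((crd 𝕜 F k).fromCompletion).smulRight (ee 𝕜 F k : Completion (Sp 𝕜 F))

theorem PP_apply (r : ℕ) (y : Completion (Sp 𝕜 F)) : PP 𝕜 F r y =
    y - ∑ k : Fin r, (crd 𝕜 F k).fromCompletion y • (ee 𝕜 F k : Completion (Sp 𝕜 F)) := by
  simp [PP]

theorem coe_sum' {ι : Type*} (s : Finset ι) (y : ι → Sp 𝕜 F) :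
    ((∑ i ∈ s, y i : Sp 𝕜 F) : Completion (Sp 𝕜 F)) = ∑ i ∈ s, (y i : Completion (Sp 𝕜 F)) :=
  map_sum (Completion.toCompl : Sp 𝕜 F →+ Completion (Sp 𝕜 F)) y s

theorem PP_coe (r : ℕ) (y : Sp 𝕜 F) : PP 𝕜 F r y = (tl r y : Sp 𝕜 F) := by
  rw [PP_apply, tl, Completion.coe_sub, coe_sum']
  simp only [ContinuousLinearMap.fromCompletion_apply_coe, crd_apply, Completion.coe_smul]

theorem norm_PP_le (r : ℕ) (y : Completion (Sp 𝕜 F)) : ‖PP 𝕜 F r y‖ ≤ ‖y‖ := by
  refine Completion.induction_on y (isClosed_le (by fun_prop) (by fun_prop)) fun a => ?_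
  rw [PP_coe, Completion.norm_coe, Completion.norm_coe]
  refine Sp.norm_le_of_solid fun j => ?_
  rw [val_tl]; split_ifs <;> simp

theorem compl_tail : TailHypK 𝕜 (Completion (Sp 𝕜 F)) F := by
  intro r
  refine ⟨fun k => (crd 𝕜 F k).fromCompletion, fun n z A hz hA ε hε => ?_⟩
  obtain ⟨δ, hδ0, hδ1, hδ⟩ : ∃ δ : ℝ, 0 < δ ∧ δ ≤ 1 ∧ δ * (12 + 2 * n) ≤ ε :=
    ⟨min 1 (ε / (12 + 2 * n)), by positivity, min_le_left _ _,
      (le_div_iff₀ (by positivity)).1 (min_le_right _ _)⟩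
  have hap : ∀ u : Completion (Sp 𝕜 F), ∃ (u' : Sp 𝕜 F) (w h : ℕ → ℝ), ‖u - u'‖ ≤ δ ∧
      Wt F 1 w ∧ (∀ j, 0 ≤ h j) ∧ (∀ j, ‖Sp.val u' j‖ ^ 2 ≤ √(w j) * h j) ∧
      ∀ m, ∑ j ∈ Finset.range m, h j ≤ 2 * ‖u‖ ^ 2 + 3 * δ := by
    intro u
    obtain ⟨u', hu'⟩ := Completion.denseRange_coe.exists_dist_lt u hδ0
    rw [dist_eq_norm] at hu'
    have h1 : ‖u'‖ ≤ ‖u‖ + δ := by
      have := norm_sub_norm_le (u' : Completion (Sp 𝕜 F)) u
      rw [norm_sub_rev, Completion.norm_coe] at this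
      linarith
    have h2 : ‖u'‖ ^ 2 < 2 * ‖u‖ ^ 2 + 3 * δ := by
      have := pow_le_pow_left₀ (norm_nonneg _) h1 2
      nlinarith [sq_nonneg (‖u‖ - δ)]
    obtain ⟨w, h, k1, k2, k3, k4⟩ := Sp.rep_of_lt h2
    exact ⟨u', w, h, hu'.le, k1, k2, k3, k4⟩
  choose ap w h hap hw h0 hh hs using hap
  obtain ⟨u, hu, hwu⟩ := Wt.exists_max A w hw
  have hb := hu.tail r hA
  set wb : ℕ → ℝ := fun i => if r ≤ i then u i / 4 else 0 with hwb
  obtain ⟨N, hN⟩ := hb.fin
  let x : Fin n → ℕ → 𝕜 := fun i => Sp.val (tl r (ap (z i)))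
  have hx : ∀ i j, ‖x i j‖ ^ 2 ≤ √(wb j) * (2 * h (z i) j) := by
    intro i j
    simp only [x, val_tl, hwb]
    split_ifs with hj
    · have e1 : √(w (z i) j) ≤ 2 * √(u j / 4) := by
        refine Real.sqrt_le_iff.2 ⟨by positivity, ?_⟩
        rw [mul_pow, Real.sq_sqrt (by linarith [(hu.bounds j).1])]
        linarith [hwu (z i) (hz i) j]
      nlinarith [hh (z i) j, mul_le_mul_of_nonneg_right e1 (h0 (z i) j)]
    · simp
  have hx0 : ∀ i j, wb j = 0 → x i j = 0 := fun i j hj => by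
    have := hx i j
    rw [hj, Real.sqrt_zero, zero_mul] at this
    exact norm_eq_zero.1 (pow_eq_zero_iff two_ne_zero |>.1 (le_antisymm this (sq_nonneg _)))
  let c : ℕ → ℝ := fun j => √(2 / √(wb j))
  have hc : ∀ j, c j ^ 2 = 2 / √(wb j) := fun j => Real.sq_sqrt (by positivity)
  have hn2 : ∀ a : 𝕜, ‖a‖ ^ 2 = RCLike.re a ^ 2 + RCLike.im a ^ 2 := fun a => by
    rw [RCLike.norm_sq_eq_def]; ring
  have hd : (δ * √(2 * n)) ^ 2 = δ ^ 2 * (2 * n) := by
    rw [mul_pow, Real.sq_sqrt (by positivity)]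
  refine ⟨(Fin N ⊕ Fin N) ⊕ Fin n, inferInstance,
    Sum.elim (Sum.elim (fun j i => c j * RCLike.re (x i j)) (fun j i => c j * RCLike.im (x i j)))
      (fun j i => if i = j then δ * √(2 * n) else 0), fun i => ?_, fun s y hy => ?_⟩
  · simp only [Fintype.sum_sum_type, Sum.elim_inl, Sum.elim_inr, ite_pow, hd]
    rw [← Finset.sum_add_distrib]
    have e1 : ∑ j : Fin N, ((c j * RCLike.re (x i j)) ^ 2 + (c j * RCLike.im (x i j)) ^ 2) ≤
        ∑ j : Fin N, 4 * h (z i) j := by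
      refine Finset.sum_le_sum fun j _ => ?_
      rw [mul_pow, mul_pow, ← mul_add, ← hn2, hc, div_mul_eq_mul_div]
      refine div_le_of_le_mul₀ (Real.sqrt_nonneg _) (by linarith [h0 (z i) j]) ?_
      linarith [hx i j]
    rw [← Finset.mul_sum, Fin.sum_univ_eq_sum_range (h (z i)) N] at e1
    have e2 := hs (z i) N
    have e3 : δ ^ 2 * (2 * n) ≤ δ * (2 * n) :=
      mul_le_mul_of_nonneg_right (by nlinarith) (by positivity)
    simp only [ne_eq, OfNat.ofNat_ne_zero, not_false_eq_true, zero_pow, Finset.sum_ite_eq,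
      Finset.mem_univ, if_true]
    nlinarith
  · set v : Sp 𝕜 F := ∑ i, (s i : 𝕜) • tl r (ap (z i)) with hv
    have hvv : ∀ j, Sp.val v j = ∑ i, (s i : 𝕜) * x i j := fun j => by
      simp only [hv, x, map_sum, map_smul, Finset.sum_apply, Pi.smul_apply, smul_eq_mul]
    have hv1 : ‖v‖ ^ 2 ≤ ∑ j ∈ Finset.range N, ‖Sp.val v j‖ ^ 2 / √(wb j) :=
      Sp.norm_sq_le (rep_cost hb hN fun j hj => by
        rw [hvv]; exact Finset.sum_eq_zero fun i _ => by rw [hx0 i j hj, mul_zero])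
    have hy1 : PP 𝕜 F r y = y := by
      have : ∀ k : Fin r, (crd 𝕜 F k).fromCompletion y = 0 := hy
      simp [PP_apply, this]
    have hdec : y = PP 𝕜 F r (y - ∑ i, (s i : 𝕜) • z i) +
        PP 𝕜 F r (∑ i, (s i : 𝕜) • (z i - ap (z i))) + v := by
      rw [hv, coe_sum']
      simp only [Completion.coe_smul, ← PP_coe, ← map_smul, ← map_sum, ← map_add, smul_sub,
        Finset.sum_sub_distrib]
      rw [← hy1]; congr 1
      rw [hy1]; abel
    have hn1 : ‖∑ i, (s i : 𝕜) • (z i - ap (z i))‖ ≤ δ * ∑ i, |s i| := by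
      rw [Finset.mul_sum]
      refine (norm_sum_le _ _).trans (Finset.sum_le_sum fun i _ => ?_)
      rw [norm_smul, RCLike.norm_ofReal, mul_comm]
      exact mul_le_mul_of_nonneg_right (hap _) (abs_nonneg _)
    have hn3 : ‖y‖ ≤ ‖y - ∑ i, (s i : 𝕜) • z i‖ + δ * ∑ i, |s i| + ‖v‖ := by
      conv_lhs => rw [hdec]
      refine norm_add₃_le.trans ?_
      rw [Completion.norm_coe]
      gcongr
      · exact norm_PP_le _ _
      · exact (norm_PP_le _ _).trans hn1
    have hcs : (∑ i, |s i|) ^ 2 ≤ n * ∑ i, s i ^ 2 := by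
      have := sq_sum_le_card_mul_sum_sq (s := Finset.univ) (f := fun i => |s i|)
      simpa using this
    suffices hfin : δ * ∑ i, |s i| + ‖v‖ ≤ √(∑ j, (∑ i, s i * Sum.elim
        (Sum.elim (fun (j : Fin N) i => c j * RCLike.re (x i j))
          (fun (j : Fin N) i => c j * RCLike.im (x i j)))
        (fun j i => if i = j then δ * √(2 * n) else 0) j i) ^ 2) by linarith
    refine Real.le_sqrt_of_sq_le ?_
    simp only [Fintype.sum_sum_type, Sum.elim_inl, Sum.elim_inr, mul_ite, mul_zero,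
      Finset.sum_ite_eq', Finset.mem_univ, if_true]
    rw [← Finset.sum_add_distrib]
    have e1 : ∑ j : Fin N, ((∑ i, s i * (c j * RCLike.re (x i j))) ^ 2 +
        (∑ i, s i * (c j * RCLike.im (x i j))) ^ 2) =
        2 * ∑ j ∈ Finset.range N, ‖Sp.val v j‖ ^ 2 / √(wb j) := by
      rw [← Fin.sum_univ_eq_sum_range (fun j => ‖Sp.val v j‖ ^ 2 / √(wb j)) N, Finset.mul_sum]
      refine Finset.sum_congr rfl fun j _ => ?_
      simp only [mul_left_comm (s _) (c j), ← Finset.mul_sum]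
      rw [hn2, hvv, map_sum, map_sum]
      simp only [RCLike.re_ofReal_mul, RCLike.im_ofReal_mul]
      rw [mul_pow, mul_pow, hc]; ring
    have e2 : ∑ i, (s i * (δ * √(2 * n))) ^ 2 = δ ^ 2 * (2 * n) * ∑ i, s i ^ 2 := by
      rw [Finset.mul_sum]
      exact Finset.sum_congr rfl fun i _ => by rw [mul_pow, hd]; ring
    rw [e1, e2]
    nlinarith [sq_nonneg (δ * ∑ i, |s i| - ‖v‖), mul_le_mul_of_nonneg_left hcs (sq_nonneg δ)]

theorem exists_bad (d : ℝ) (hd : 0 < d) : ∃ (n : ℕ) (x : Fin n → Completion (Sp 𝕜 F)),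
    ∑ i, ‖x i‖ ^ 2 ≤ 1 ∧ ∀ ε : Fin n → ℤˣ, 1 / d ≤ ‖∑ i, (ε i : ℤ) • x i‖ ^ 2 := by
  obtain ⟨m, hm⟩ := exists_pow_lt_of_lt_one (show 0 < d ^ 2 by positivity)
    (show (1 / 2 : ℝ) < 1 by norm_num)
  obtain ⟨n, a, -, ha0, ha1, ha⟩ := small_pow (F := F) m 0 1
  rw [Nat.Ico_zero_eq_range] at ha1 ha
  refine ⟨n, fun i => (((√(a i) : ℝ) : 𝕜) • ee 𝕜 F i : Sp 𝕜 F), ?_, fun ε => ?_⟩
  · rw [← ha1, ← Fin.sum_univ_eq_sum_range a n]
    refine Finset.sum_le_sum fun i _ => ?_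
    rw [Completion.norm_coe, norm_smul, mul_pow, RCLike.norm_ofReal, sq_abs,
      Real.sq_sqrt (ha0 i)]
    exact mul_le_of_le_one_right (ha0 i) (norm_ee i)
  · set v : Sp 𝕜 F := ∑ i : Fin n, (ε i : ℤ) • (((√(a i) : ℝ) : 𝕜) • ee 𝕜 F i) with hv
    have e1 : ∑ i : Fin n, (ε i : ℤ) • ((((√(a i) : ℝ) : 𝕜) • ee 𝕜 F i : Sp 𝕜 F) :
        Completion (Sp 𝕜 F)) = v := by
      rw [hv, coe_sum']
      exact Finset.sum_congr rfl fun i _ =>
        (map_zsmul (Completion.toCompl : Sp 𝕜 F →+ Completion (Sp 𝕜 F)) _ _).symm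
    rw [e1, Completion.norm_coe]
    have e2 : ∀ j : Fin n, ‖Sp.val v j‖ ^ 2 = a j := by
      intro j
      simp only [hv, map_sum, map_zsmul, map_smul, val_ee, Finset.sum_apply, Pi.smul_apply]
      rw [Finset.sum_eq_single j]
      · rcases Int.units_eq_one_or (ε j) with h | h <;>
          simp [h, abs_of_nonneg (Real.sqrt_nonneg _), Real.sq_sqrt (ha0 j)]
      · intro k _ hk
        rw [Pi.single_eq_of_ne (fun h => hk (Fin.ext h.symm)), smul_zero, smul_zero]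
      · simp
    refine le_of_forall_pos_le_add fun η hη => ?_
    obtain ⟨w, h, k1, k2, k3, k4⟩ := Sp.rep_of_lt (x := v) (r := ‖v‖ ^ 2 + η) (by linarith)
    have e3 : ∀ j ∈ Finset.range n, a j ≤ d / 2 * h j + (a j / 4 + w j * a j / (4 * d ^ 2)) := by
      intro j hj
      have f1 := k3 j
      rw [e2 ⟨j, Finset.mem_range.1 hj⟩] at f1
      have f2 := Real.sq_sqrt (k1.bounds j).1
      have f3 := Real.sqrt_nonneg (w j)
      have f4 := ha0 j
      have f5 := k2 j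
      set q := √(w j)
      have f6 : a j ≤ d / 2 * h j + a j * q / (2 * d) := by
        refine abs_le_of_sq_le_sq' ?_ (by positivity) |>.2
        have : d / 2 * h j * (a j * q / (2 * d)) = a j * (q * h j) / 4 := by field_simp; ring
        nlinarith [sq_nonneg (d / 2 * h j - a j * q / (2 * d)), mul_le_mul_of_nonneg_left f1 f4]
      have f7 : q / (2 * d) ≤ 1 / 4 + w j / (4 * d ^ 2) := by
        rw [← f2, ← sub_nonneg]
        have : 1 / 4 + q ^ 2 / (4 * d ^ 2) - q / (2 * d) = (1 / 2 - q / (2 * d)) ^ 2 := by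
          field_simp; ring
        rw [this]; positivity
      have f8 := mul_le_mul_of_nonneg_left f7 f4
      calc a j ≤ _ := f6
        _ = d / 2 * h j + a j * (q / (2 * d)) := by ring
        _ ≤ d / 2 * h j + a j * (1 / 4 + w j / (4 * d ^ 2)) := by linarith
        _ = _ := by ring
    have e4 := Finset.sum_le_sum e3
    rw [Finset.sum_add_distrib, Finset.sum_add_distrib, ← Finset.mul_sum, ← Finset.sum_div,
      ← Finset.sum_div, ha1] at e4
    have e5 : (∑ j ∈ Finset.range n, w j * a j) / (4 * d ^ 2) ≤ 1 / 4 := by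
      rw [div_le_iff₀ (by positivity)]; linarith [ha w k1]
    rw [div_le_iff₀ hd]
    nlinarith [mul_le_mul_of_nonneg_left (k4 n) hd.le]

end Pool.Agent.Lib.MP_f92ad0_an
end
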