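import Mathlib

/-! Basic definitions and Rademacher facts for: the Maurey extension property implies type 2. -/

namespace Pool.Agent.Lib.MP_f92ad0_an.Mep

open Finset
open scoped BigOperators

/-- Rademacher sum. -/
def rs {ι X : Type*} [Fintype ι] [AddCommGroup X] (x : ι → X) (ε : ι → ℤˣ) : X :=
  ∑ i, (ε i : ℤ) • x i

/-- Mean square of the norm of a Rademacher sum. -/
noncomputable def R2 {ι X : Type*} [Fintype ι] [DecidableEq ι] [NormedAddCommGroup X]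
    (x : ι → X) : ℝ := 𝔼 ε : ι → ℤˣ, ‖rs x ε‖ ^ 2

/-- Mean of the norm of a Rademacher sum. -/
noncomputable def R1 {ι X : Type*} [Fintype ι] [DecidableEq ι] [NormedAddCommGroup X]
    (x : ι → X) : ℝ := 𝔼 ε : ι → ℤˣ, ‖rs x ε‖

/-- Cotype 2 with first moments and constant 2. -/
def C1 (D : Type*) [NormedAddCommGroup D] : Prop :=
  ∀ (n : ℕ) (z : Fin n → D), √(∑ i, ‖z i‖ ^ 2) ≤ 2 * R1 z

/-- Uniform extension property for finite dimensional subspaces and targets with `C1`. -/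
def UExt (𝕜 X : Type*) [RCLike 𝕜] [NormedAddCommGroup X] [NormedSpace 𝕜 X] (K : ℝ) : Prop :=
  ∀ (D : Type) [NormedAddCommGroup D] [NormedSpace 𝕜 D] [CompleteSpace D], C1 D →
    ∀ (V : Type) [AddCommGroup V] [Module 𝕜 V] [FiniteDimensional 𝕜 V]
      (T : V →ₗ[𝕜] X) (g : V →ₗ[𝕜] D) (C : ℝ), 0 ≤ C → (∀ v, ‖g v‖ ≤ C * ‖T v‖) →
      ∃ f : X →L[𝕜] D, ‖f‖ ≤ K * C ∧ ∀ v, f (T v) = g v

/-- Quantitative B-convexity. -/
def BConv (X : Type*) [NormedAddCommGroup X] (k : ℕ) : Prop :=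
  0 < k ∧ ∀ x : Fin k → X, R2 x ≤ (k : ℝ) / 16 * ∑ i, ‖x i‖ ^ 2

/-- K-convexity (unnormalised Fourier coefficients). -/
def KConv (X : Type*) [NormedAddCommGroup X] (K : ℝ) : Prop :=
  ∀ (ι : Type) [Fintype ι] [DecidableEq ι] (φ : (ι → ℤˣ) → X),
    R2 (fun i => ∑ ε : ι → ℤˣ, (ε i : ℤ) • φ ε) ≤
      K ^ 2 * 2 ^ Fintype.card ι * ∑ ε, ‖φ ε‖ ^ 2

/-- The matrix `c` is a contraction of Euclidean spaces. -/
def Contr {𝕜 α β : Type*} [RCLike 𝕜] [Fintype α] [Fintype β] (c : β → α → 𝕜) : Prop :=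
  ∀ v : α → 𝕜, ∑ b, ‖∑ a, c b a * v a‖ ^ 2 ≤ ∑ a, ‖v a‖ ^ 2

/-- Rademacher averages are invariant, up to a constant, under contractive matrices. -/
def RInv (𝕜 W : Type*) [RCLike 𝕜] [NormedAddCommGroup W] [NormedSpace 𝕜 W] (C : ℝ) : Prop :=
  ∀ (α β : Type) [Fintype α] [DecidableEq α] [Fintype β] [DecidableEq β] (c : β → α → 𝕜),
    Contr c → ∀ y : α → W, R2 (fun b => ∑ a, c b a • y a) ≤ C ^ 2 * R2 y

/-- Uniform Euclidean copies in all infinite dimensional subspaces. -/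
def Dvor (𝕜 X : Type*) [RCLike 𝕜] [NormedAddCommGroup X] [NormedSpace 𝕜 X] (A : ℝ) : Prop :=
  ∀ X' : Submodule 𝕜 X, ¬ FiniteDimensional 𝕜 X' → ∀ d : ℕ,
    ∃ J : EuclideanSpace 𝕜 (Fin d) →ₗ[𝕜] X,
      ∀ h, J h ∈ X' ∧ ‖h‖ ≤ ‖J h‖ ∧ ‖J h‖ ≤ A * ‖h‖

section Signs

variable {ι : Type*} [Fintype ι] [DecidableEq ι]

lemma expect_mul_left (s : ι → ℤˣ) (f : (ι → ℤˣ) → ℝ) :
    𝔼 ε : ι → ℤˣ, f (s * ε) = 𝔼 ε : ι → ℤˣ, f ε :=
  Finset.expect_equiv (Equiv.mulLeft s) (by simp) (by simp)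

/-- The sign vector with `-1` at `i`. -/
def flip (i : ι) : ι → ℤˣ := Pi.mulSingle i (-1)

omit [Fintype ι] in
lemma flip_same (i : ι) : flip i i = -1 := by simp [flip]

omit [Fintype ι] in
lemma flip_ne {i j : ι} (h : j ≠ i) : flip i j = 1 := by simp [flip, Pi.mulSingle_eq_of_ne h]

lemma expect_flip (i : ι) (f : (ι → ℤˣ) → ℝ) :
    𝔼 ε : ι → ℤˣ, f ε = 𝔼 ε : ι → ℤˣ, (f ε + f (flip i * ε)) / 2 := by
  rw [← Finset.expect_div, Finset.expect_add_distrib, expect_mul_left]; ring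

lemma expect_sign_mul (i j : ι) :
    𝔼 ε : ι → ℤˣ, (((ε i : ℤ) : ℝ) * ((ε j : ℤ) : ℝ)) = if i = j then 1 else 0 := by
  split_ifs with h
  · subst h
    have : ∀ ε : ι → ℤˣ, (((ε i : ℤ) : ℝ) * ((ε i : ℤ) : ℝ)) = 1 := fun ε => by
      rcases Int.units_eq_one_or (ε i) with h | h <;> simp [h]
    simp [this]
  · rw [expect_flip i]
    have : ∀ ε : ι → ℤˣ, ((((ε i : ℤ) : ℝ) * ((ε j : ℤ) : ℝ)) +
        ((((flip i * ε) i : ℤˣ) : ℤ) : ℝ) * ((((flip i * ε) j : ℤˣ) : ℤ) : ℝ)) / 2 = 0 := fun ε => by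
      simp [flip_same, flip_ne (Ne.symm h)]
    simp only [this, Finset.expect_const_zero]

lemma card_signs : Fintype.card (ι → ℤˣ) = 2 ^ Fintype.card ι := by
  simp [Fintype.card_units_int]

lemma expect_eq_div (f : (ι → ℤˣ) → ℝ) :
    𝔼 ε : ι → ℤˣ, f ε = (∑ ε, f ε) / 2 ^ Fintype.card ι := by
  rw [Finset.expect_eq_sum_div_card, Finset.card_univ, card_signs]; push_cast; rfl

end Signs

section Rad

variable {ι X : Type*} [Fintype ι] [DecidableEq ι] [NormedAddCommGroup X]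

omit [DecidableEq ι] in
lemma rs_mul (x : ι → X) (s ε : ι → ℤˣ) :
    rs x (s * ε) = rs (fun i => (s i : ℤ) • x i) ε := by
  simp [rs, smul_smul, mul_comm]

omit [DecidableEq ι] in
lemma rs_add (x y : ι → X) (ε : ι → ℤˣ) : rs (fun i => x i + y i) ε = rs x ε + rs y ε := by
  simp [rs, Finset.sum_add_distrib]

lemma rs_flip (x : ι → X) (i : ι) (ε : ι → ℤˣ) :
    rs x (flip i * ε) = rs x ε - 2 • ((ε i : ℤ) • x i) := by
  unfold rs
  rw [← Finset.add_sum_erase _ _ (Finset.mem_univ i), ← Finset.add_sum_erase _ _ (Finset.mem_univ i)]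
  have : ∑ j ∈ univ.erase i, (((flip i * ε) j : ℤˣ) : ℤ) • x j =
      ∑ j ∈ univ.erase i, (ε j : ℤ) • x j :=
    Finset.sum_congr rfl fun j hj => by simp [flip_ne (Finset.ne_of_mem_erase hj)]
  rw [this]
  simp only [Pi.mul_apply, flip_same, Units.val_neg, neg_mul, one_mul, neg_smul, two_smul]
  abel

lemma norm_units_smul (u : ℤˣ) (z : X) : ‖(u : ℤ) • z‖ = ‖z‖ := by
  rcases Int.units_eq_one_or u with h | h <;> simp [h]

lemma R2_nonneg (x : ι → X) : 0 ≤ R2 x := Finset.expect_nonneg fun _ _ => by positivity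

lemma R1_nonneg (x : ι → X) : 0 ≤ R1 x := Finset.expect_nonneg fun _ _ => by positivity

lemma expect_mul_le_sqrt {Ω : Type*} [Fintype Ω] (f g : Ω → ℝ) :
    𝔼 ω, f ω * g ω ≤ √(𝔼 ω, f ω ^ 2) * √(𝔼 ω, g ω ^ 2) := by
  rw [← Real.sqrt_mul (Finset.expect_nonneg fun _ _ => by positivity)]
  exact Real.le_sqrt_of_sq_le (Finset.expect_mul_sq_le_sq_mul_sq _ f g)

lemma R1_le_sqrt_R2 (x : ι → X) : R1 x ≤ √(R2 x) := by
  have := expect_mul_le_sqrt (fun ε : ι → ℤˣ => ‖rs x ε‖) (fun _ => 1)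
  simpa [R1, R2] using this

lemma R2_equiv {κ : Type*} [Fintype κ] [DecidableEq κ] (e : ι ≃ κ) (x : κ → X) :
    R2 (fun i => x (e i)) = R2 x := by
  refine Finset.expect_equiv (Equiv.arrowCongr e (Equiv.refl _)) (by simp) fun ε _ => ?_
  congr 2
  exact Fintype.sum_equiv e _ _ (by simp)

lemma R1_equiv {κ : Type*} [Fintype κ] [DecidableEq κ] (e : ι ≃ κ) (x : κ → X) :
    R1 (fun i => x (e i)) = R1 x := by
  refine Finset.expect_equiv (Equiv.arrowCongr e (Equiv.refl _)) (by simp) fun ε _ => ?_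
  congr 1
  exact Fintype.sum_equiv e _ _ (by simp)

lemma R2_signs (x : ι → X) (s : ι → ℤˣ) : R2 (fun i => (s i : ℤ) • x i) = R2 x := by
  simp only [R2, ← rs_mul]
  exact expect_mul_left s fun ε => ‖rs x ε‖ ^ 2

lemma R2_add_le (x y : ι → X) : R2 (fun i => x i + y i) ≤ 2 * R2 x + 2 * R2 y := by
  simp only [R2, rs_add, Finset.mul_expect, ← Finset.expect_add_distrib]
  refine Finset.expect_le_expect fun ε _ => ?_
  have h := norm_add_le (rs x ε) (rs y ε)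
  have h2 := pow_le_pow_left₀ (norm_nonneg _) h 2
  nlinarith [sq_nonneg (‖rs x ε‖ - ‖rs y ε‖)]

lemma norm_sq_le_R2 (𝕜 : Type*) [RCLike 𝕜] [NormedSpace 𝕜 X] (x : ι → X) (i : ι) :
    ‖x i‖ ^ 2 ≤ R2 x := by
  unfold R2
  rw [expect_flip i]
  refine Finset.le_expect Finset.univ_nonempty fun ε _ => ?_
  have h : 2 * ‖x i‖ ≤ ‖rs x ε‖ + ‖rs x (flip i * ε)‖ := by
    have h1 := norm_sub_le (rs x ε) (rs x (flip i * ε))
    rw [rs_flip, sub_sub_cancel, RCLike.norm_nsmul 𝕜, norm_units_smul] at h1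
    rw [rs_flip]
    simpa using h1
  nlinarith [norm_nonneg (x i), sq_nonneg (‖rs x ε‖ - ‖rs x (flip i * ε)‖)]

omit [DecidableEq ι] in
lemma rs_smul {𝕜 : Type*} [RCLike 𝕜] [NormedSpace 𝕜 X] (c : 𝕜) (x : ι → X) (ε : ι → ℤˣ) :
    rs (fun i => c • x i) ε = c • rs x ε := by
  simp only [rs, Finset.smul_sum]
  exact Finset.sum_congr rfl fun i _ => smul_comm _ _ _

lemma R2_smul {𝕜 : Type*} [RCLike 𝕜] [NormedSpace 𝕜 X] (c : 𝕜) (x : ι → X) :
    R2 (fun i => c • x i) = ‖c‖ ^ 2 * R2 x := by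
  simp only [R2, rs_smul, norm_smul, mul_pow, Finset.mul_expect]

lemma R1_smul {𝕜 : Type*} [RCLike 𝕜] [NormedSpace 𝕜 X] (c : 𝕜) (x : ι → X) :
    R1 (fun i => c • x i) = ‖c‖ * R1 x := by
  simp only [R1, rs_smul, norm_smul, Finset.mul_expect]

omit [DecidableEq ι] in
lemma map_rs {Y F : Type*} [AddCommGroup Y] [FunLike F X Y] [AddMonoidHomClass F X Y] (f : F)
    (x : ι → X) (ε : ι → ℤˣ) : f (rs x ε) = rs (fun i => f (x i)) ε := by
  simp only [rs, map_sum, map_zsmul]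

/-- Contraction principle. -/
lemma R2_smul_le [NormedSpace ℝ X] (a : ι → ℝ) (ha : ∀ i, |a i| ≤ 1) (x : ι → X) :
    R2 (fun i => a i • x i) ≤ R2 x := by
  suffices h : ∀ s : Finset ι, R2 (fun i => if i ∈ s then a i • x i else x i) ≤ R2 x by
    simpa using h univ
  intro s
  induction s using Finset.induction_on with
  | empty => simp
  | insert i s hi ih =>
    refine le_trans ?_ ih
    set y : ι → X := fun j => if j ∈ s then a j • x j else x j with hy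
    unfold R2
    rw [expect_flip i, expect_flip i (fun ε => ‖rs y ε‖ ^ 2)]
    refine Finset.expect_le_expect fun ε _ => ?_
    have hyi : y i = x i := by simp [hy, hi]
    have h1 : ∀ η : ι → ℤˣ, rs (fun j => if j ∈ insert i s then a j • x j else x j) η =
        ((1 + a i) / 2) • rs y η + ((1 - a i) / 2) • rs y (flip i * η) := fun η => by
      rw [rs_flip, hyi]
      have h2 : rs (fun j => if j ∈ insert i s then a j • x j else x j) η =
          rs y η + (a i - 1) • ((η i : ℤ) • x i) := by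
        unfold rs
        rw [← Finset.add_sum_erase _ _ (Finset.mem_univ i),
          ← Finset.add_sum_erase _ _ (Finset.mem_univ i)]
        have : ∑ j ∈ univ.erase i, (η j : ℤ) • (if j ∈ insert i s then a j • x j else x j) =
            ∑ j ∈ univ.erase i, (η j : ℤ) • y j :=
          Finset.sum_congr rfl fun j hj => by simp [hy, Finset.ne_of_mem_erase hj]
        rw [this, hyi]
        simp only [Finset.mem_insert_self, if_true, smul_comm (η i : ℤ) (a i)]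
        module
      rw [h2]
      module
    have hff : flip i * (flip i * ε) = ε := by
      funext j
      by_cases hj : j = i
      · subst hj; simp [flip_same]
      · simp [flip_ne hj]
    rw [h1, h1, hff]
    have hp : 0 ≤ (1 + a i) / 2 := by linarith [(abs_le.1 (ha i)).1]
    have hq : 0 ≤ (1 - a i) / 2 := by linarith [(abs_le.1 (ha i)).2]
    have key : ∀ u v : X, ‖((1 + a i) / 2) • u + ((1 - a i) / 2) • v‖ ^ 2 ≤
        (1 + a i) / 2 * ‖u‖ ^ 2 + (1 - a i) / 2 * ‖v‖ ^ 2 := fun u v => by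
      have h3 : ‖((1 + a i) / 2) • u + ((1 - a i) / 2) • v‖ ≤
          (1 + a i) / 2 * ‖u‖ + (1 - a i) / 2 * ‖v‖ := by
        refine (norm_add_le _ _).trans ?_
        rw [norm_smul, norm_smul, Real.norm_of_nonneg hp, Real.norm_of_nonneg hq]
      refine (pow_le_pow_left₀ (norm_nonneg _) h3 2).trans ?_
      nlinarith [mul_nonneg (mul_nonneg hp hq) (sq_nonneg (‖u‖ - ‖v‖))]
    linarith [key (rs y ε) (rs y (flip i * ε)), key (rs y (flip i * ε)) (rs y ε)]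

end Rad

section Pair

variable {𝕜 ι X : Type*} [RCLike 𝕜] [Fintype ι] [DecidableEq ι] [NormedAddCommGroup X]
  [NormedSpace 𝕜 X]

lemma expect_bilin (b : ι → ι → ℝ) :
    𝔼 ε : ι → ℤˣ, ∑ i, ∑ j, ((ε i : ℤ) : ℝ) * ((ε j : ℤ) : ℝ) * b i j = ∑ i, b i i := by
  simp only [Finset.expect_sum_comm, ← Finset.expect_mul, expect_sign_mul]
  simp

lemma expect_pair (y : ι → StrongDual 𝕜 X) (x : ι → X) :
    𝔼 ε : ι → ℤˣ, RCLike.re ((rs y ε) (rs x ε)) = ∑ i, RCLike.re (y i (x i)) := by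
  rw [← expect_bilin fun i j => RCLike.re (y i (x j))]
  refine Finset.expect_congr rfl fun ε _ => ?_
  have h1 : (rs y ε) (rs x ε) = ∑ i, ∑ j, (ε i : ℤ) • (ε j : ℤ) • y i (x j) := by
    simp only [rs, FunLike.coe_sum, Finset.sum_apply, smul_apply, map_sum, map_zsmul,
      Finset.smul_sum]
    rw [Finset.sum_comm]
    exact Finset.sum_congr rfl fun i _ => Finset.sum_congr rfl fun j _ => smul_comm _ _ _
  rw [h1]
  simp only [map_sum, map_zsmul]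
  simp only [zsmul_eq_mul, mul_assoc]

lemma pair_le (y : ι → StrongDual 𝕜 X) (x : ι → X) :
    ∑ i, RCLike.re (y i (x i)) ≤ √(R2 y) * √(R2 x) := by
  rw [← expect_pair]
  refine le_trans (Finset.expect_le_expect fun ε _ => ?_)
    (expect_mul_le_sqrt (fun ε => ‖rs y ε‖) (fun ε => ‖rs x ε‖))
  exact (RCLike.re_le_norm _).trans (ContinuousLinearMap.le_opNorm _ _)

end Pair

section Hilbert

variable (𝕜 : Type*) {ι H : Type*} [RCLike 𝕜] [Fintype ι] [DecidableEq ι] [NormedAddCommGroup H]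
  [InnerProductSpace 𝕜 H]
include 𝕜

lemma R2_inner (z : ι → H) : R2 z = ∑ i, ‖z i‖ ^ 2 := by
  have h := expect_bilin fun i j => RCLike.re (inner 𝕜 (z i) (z j))
  simp only [inner_self_eq_norm_sq_to_K, ← RCLike.ofReal_pow, RCLike.ofReal_re] at h
  rw [← h]
  refine Finset.expect_congr rfl fun ε _ => ?_
  rw [← inner_self_eq_norm_sq (𝕜 := 𝕜)]
  simp only [rs, sum_inner, inner_sum, map_sum]
  rw [Finset.sum_comm]
  refine Finset.sum_congr rfl fun i _ => Finset.sum_congr rfl fun j _ => ?_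
  rcases Int.units_eq_one_or (ε i) with h | h <;> rcases Int.units_eq_one_or (ε j) with h' | h' <;>
    simp [h, h']

lemma R4_le (z : ι → H) : 𝔼 ε : ι → ℤˣ, ‖rs z ε‖ ^ 4 ≤ 3 * (∑ i, ‖z i‖ ^ 2) ^ 2 := by
  suffices h : ∀ s : Finset ι, 𝔼 ε : ι → ℤˣ, ‖rs (fun i => if i ∈ s then z i else 0) ε‖ ^ 4 ≤
      3 * (∑ i ∈ s, ‖z i‖ ^ 2) ^ 2 by simpa using h univ
  intro s
  induction s using Finset.induction_on with
  | empty => simp [rs]
  | insert i s hi ih =>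
    set y : ι → H := fun j => if j ∈ s then z j else 0 with hy
    have h2 : R2 y = ∑ j ∈ s, ‖z j‖ ^ 2 := by
      rw [R2_inner 𝕜, ← Finset.sum_subset (Finset.subset_univ s) (fun j _ hj => by simp [hy, hj])]
      exact Finset.sum_congr rfl fun j hj => by simp [hy, hj]
    have hyi : y i = 0 := by simp [hy, hi]
    have h1 : ∀ η : ι → ℤˣ, rs (fun j => if j ∈ insert i s then z j else 0) η =
        rs y η + (η i : ℤ) • z i := fun η => by
      unfold rs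
      rw [← Finset.add_sum_erase _ _ (Finset.mem_univ i),
        ← Finset.add_sum_erase _ _ (Finset.mem_univ i)]
      have : ∑ j ∈ univ.erase i, (η j : ℤ) • (if j ∈ insert i s then z j else 0) =
          ∑ j ∈ univ.erase i, (η j : ℤ) • y j :=
        Finset.sum_congr rfl fun j hj => by simp [hy, Finset.ne_of_mem_erase hj]
      rw [this, hyi]
      simp [add_comm]
    rw [expect_flip i, Finset.sum_insert hi, ← h2]
    have h3 : ∀ ε : ι → ℤˣ, (‖rs (fun j => if j ∈ insert i s then z j else 0) ε‖ ^ 4 +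
        ‖rs (fun j => if j ∈ insert i s then z j else 0) (flip i * ε)‖ ^ 4) / 2 ≤
        ‖rs y ε‖ ^ 4 + 6 * ‖z i‖ ^ 2 * ‖rs y ε‖ ^ 2 + ‖z i‖ ^ 4 := fun ε => by
      rw [h1, h1, rs_flip, hyi]
      simp only [smul_zero, sub_zero, Pi.mul_apply, flip_same, neg_mul, one_mul, Units.val_neg,
        neg_smul, ← sub_eq_add_neg]
      set w : H := (ε i : ℤ) • z i
      have hw : ‖w‖ = ‖z i‖ := norm_units_smul _ _
      have e1 := norm_add_sq (𝕜 := 𝕜) (rs y ε) w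
      have e2 := norm_sub_sq (𝕜 := 𝕜) (rs y ε) w
      have e3 : |RCLike.re (inner 𝕜 (rs y ε) w)| ≤ ‖rs y ε‖ * ‖w‖ :=
        (RCLike.abs_re_le_norm _).trans (norm_inner_le_norm _ _)
      have e4 := pow_le_pow_left₀ (abs_nonneg _) e3 2
      rw [sq_abs] at e4
      have p4 : ∀ t : ℝ, t ^ 4 = (t ^ 2) ^ 2 := fun t => by ring
      rw [p4 ‖rs y ε + w‖, p4 ‖rs y ε - w‖, e1, e2, ← hw]
      nlinarith
    refine (Finset.expect_le_expect fun ε _ => h3 ε).trans ?_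
    rw [Finset.expect_add_distrib, Finset.expect_add_distrib, ← Finset.mul_expect,
      Finset.expect_const Finset.univ_nonempty]
    have h4 : 𝔼 ε : ι → ℤˣ, ‖rs y ε‖ ^ 2 = R2 y := rfl
    rw [h4]
    rw [← h2] at ih
    nlinarith [sq_nonneg (‖z i‖ ^ 2)]

/-- Khintchine's inequality in a Hilbert space. -/
lemma khintchine (z : ι → H) : √(∑ i, ‖z i‖ ^ 2) ≤ 2 * R1 z := by
  set σ := √(∑ i, ‖z i‖ ^ 2) with hσ
  have hσ0 : 0 ≤ σ := Real.sqrt_nonneg _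
  have hσ2 : σ ^ 2 = ∑ i, ‖z i‖ ^ 2 := Real.sq_sqrt (by positivity)
  rcases hσ0.eq_or_lt with h0 | h0
  · rw [← h0]; linarith [R1_nonneg z]
  have h4 := R4_le 𝕜 z
  have h2 := R2_inner 𝕜 z
  rw [← hσ2] at h4 h2
  have key : σ ^ 2 * R2 z ≤ σ ^ 3 * R1 z + 4 / 27 * 𝔼 ε : ι → ℤˣ, ‖rs z ε‖ ^ 4 := by
    simp only [R2, R1, Finset.mul_expect, ← Finset.expect_add_distrib]
    refine Finset.expect_le_expect fun ε _ => ?_
    have hF := norm_nonneg (rs z ε)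
    nlinarith [mul_nonneg (mul_nonneg hF (sq_nonneg (‖rs z ε‖ - 3 / 2 * σ)))
      (add_nonneg hF (mul_nonneg (by norm_num : (0 : ℝ) ≤ 3) hσ0))]
  rw [h2] at key
  have h5 : σ ^ 3 * σ ≤ σ ^ 3 * (2 * R1 z) := by nlinarith [pow_pos h0 4, R1_nonneg z, pow_pos h0 3]
  exact le_of_mul_le_mul_left h5 (pow_pos h0 3)

lemma C1_inner : C1 H := fun _ z => khintchine 𝕜 z

end Hilbert

section Cot

lemma sqrt_sum_sq_sum_le {ι κ : Type*} [Fintype ι] (s : Finset κ) (a : κ → ι → ℝ) :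
    √(∑ i, (∑ m ∈ s, a m i) ^ 2) ≤ ∑ m ∈ s, √(∑ i, a m i ^ 2) := by
  have h := norm_sum_le s (fun m => (WithLp.toLp 2 (a m) : EuclideanSpace ℝ ι))
  simp only [EuclideanSpace.norm_eq, Real.norm_eq_abs, sq_abs] at h
  simpa using h

/-- A finite piece of an `ℓ₁`-sum estimate. -/
lemma C1_aux {D κ : Type*} [NormedAddCommGroup D] {E : κ → Type*} [∀ m, NormedAddCommGroup (E m)]
    (hE : ∀ m, C1 (E m)) (A : ∀ m, D →+ E m) (s : Finset κ)
    (hA : ∀ z, ∑ m ∈ s, ‖A m z‖ ≤ ‖z‖) (n : ℕ) (z : Fin n → D) :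
    √(∑ i, (∑ m ∈ s, ‖A m (z i)‖) ^ 2) ≤ 2 * R1 z := by
  refine (sqrt_sum_sq_sum_le s fun m i => ‖A m (z i)‖).trans ?_
  refine (Finset.sum_le_sum fun m _ => hE m n fun i => A m (z i)).trans ?_
  rw [← Finset.mul_sum]
  refine mul_le_mul_of_nonneg_left ?_ (by norm_num)
  simp only [R1, ← map_rs]
  rw [← Finset.expect_sum_comm]
  exact Finset.expect_le_expect fun ε _ => hA _

lemma C1_of_sum {D κ : Type*} [Fintype κ] [NormedAddCommGroup D] {E : κ → Type*}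
    [∀ m, NormedAddCommGroup (E m)] (hE : ∀ m, C1 (E m)) (A : ∀ m, D →+ E m)
    (hA : ∀ z, ∑ m, ‖A m z‖ = ‖z‖) : C1 D := fun n z => by
  simpa only [hA] using C1_aux hE A univ (fun z => (hA z).le) n z

lemma C1_of_isometry {D E : Type*} [NormedAddCommGroup D] [NormedAddCommGroup E] (hE : C1 E)
    (A : D →+ E) (hA : ∀ z, ‖A z‖ = ‖z‖) : C1 D :=
  C1_of_sum (κ := Unit) (E := fun _ => E) (fun _ => hE) (fun _ => A) (by simpa using hA)

lemma C1_submodule {𝕜 E : Type*} [Ring 𝕜] [NormedAddCommGroup E] [Module 𝕜 E] (hE : C1 E)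
    (D : Submodule 𝕜 E) : C1 D :=
  C1_of_isometry hE D.subtype.toAddMonoidHom fun _ => rfl

lemma C1_piLp {κ : Type*} [Fintype κ] {E : κ → Type*} [∀ m, NormedAddCommGroup (E m)]
    (hE : ∀ m, C1 (E m)) : C1 (PiLp 1 E) :=
  C1_of_sum hE (fun m => AddMonoidHom.mk' (fun z => z m) fun _ _ => rfl)
    fun z => (PiLp.norm_eq_of_L1 z).symm

lemma C1_prod {E F : Type*} [NormedAddCommGroup E] [NormedAddCommGroup F] (hE : C1 E)
    (hF : C1 F) : C1 (WithLp 1 (E × F)) := fun n z => by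
  have h := sqrt_sum_sq_sum_le (univ : Finset Bool)
    fun m i => if m then ‖(z i).fst‖ else ‖(z i).snd‖
  simp only [Fintype.univ_bool, Finset.mem_singleton, Bool.true_eq_false, not_false_eq_true,
    Finset.sum_insert, Finset.sum_singleton, if_true, Bool.false_eq_true, if_false] at h
  simp only [WithLp.prod_norm_eq_of_L1]
  refine h.trans ((add_le_add (hE n fun i => (z i).fst) (hF n fun i => (z i).snd)).trans ?_)
  rw [← mul_add]
  refine mul_le_mul_of_nonneg_left (le_of_eq ?_) (by norm_num)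
  simp only [R1, ← Finset.expect_add_distrib, WithLp.prod_norm_eq_of_L1]
  refine Finset.expect_congr rfl fun ε _ => ?_
  have h1 := map_rs (AddMonoidHom.mk' (fun w : WithLp 1 (E × F) => w.fst) fun _ _ => rfl) z ε
  have h2 := map_rs (AddMonoidHom.mk' (fun w : WithLp 1 (E × F) => w.snd) fun _ _ => rfl) z ε
  simp only [AddMonoidHom.mk'_apply] at h1 h2
  rw [h1, h2]

lemma C1_lp {κ : Type*} {E : κ → Type*} [∀ m, NormedAddCommGroup (E m)]
    (hE : ∀ m, C1 (E m)) : C1 (lp E 1) := fun n z => by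
  have hs : ∀ w : lp E 1, HasSum (fun m => ‖w m‖) ‖w‖ := fun w => by
    simpa using lp.hasSum_norm (p := 1) (by norm_num) w
  have ht : Filter.Tendsto (fun s : Finset κ => √(∑ i, (∑ m ∈ s, ‖z i m‖) ^ 2)) Filter.atTop
      (nhds √(∑ i, ‖z i‖ ^ 2)) :=
    (tendsto_finsetSum _ fun i _ => (hs (z i)).pow 2).sqrt
  refine le_of_tendsto' ht fun s => ?_
  exact C1_aux hE (fun m => AddMonoidHom.mk' (fun w : lp E 1 => w m) fun _ _ => rfl) s
    (fun w => sum_le_hasSum s (fun _ _ => norm_nonneg _) (hs w)) n z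

end Cot

section Tail

variable {𝕜 X : Type*} [RCLike 𝕜] [NormedAddCommGroup X] [NormedSpace 𝕜 X]

/-- Finitely many functionals that half-norm a finite dimensional subspace. -/
lemma exists_tail (Y : Submodule 𝕜 X) [FiniteDimensional 𝕜 Y] :
    ∃ F : Finset (StrongDual 𝕜 X), ∀ y ∈ Y, ∀ x : X, (∀ ξ ∈ F, ξ x = 0) → ‖y‖ ≤ 2 * ‖y + x‖ := by
  classical
  haveI : ProperSpace Y := FiniteDimensional.proper_rclike 𝕜 Y
  have hc : IsCompact (Metric.sphere (0 : Y) 1) := isCompact_sphere 0 1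
  obtain ⟨t, -, htf, ht⟩ := hc.finite_cover_balls (show (0 : ℝ) < 1 / 4 by norm_num)
  choose ξ hξ1 hξ2 using fun y : X => exists_dual_vector'' 𝕜 y
  refine ⟨htf.toFinset.image fun y : Y => ξ y, fun y hy x hx => ?_⟩
  rcases eq_or_ne y 0 with rfl | hy0
  · simp
  have hpos : 0 < ‖y‖ := norm_pos_iff.2 hy0
  set u : Y := ((‖y‖⁻¹ : ℝ) : 𝕜) • (⟨y, hy⟩ : Y) with hu
  have hu1 : ‖u‖ = 1 := by
    rw [hu, norm_smul, RCLike.norm_ofReal, abs_of_pos (inv_pos.2 hpos)]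
    exact inv_mul_cancel₀ hpos.ne'
  obtain ⟨v, hv, huv⟩ := Set.mem_iUnion₂.1 (ht (mem_sphere_zero_iff_norm.2 hu1))
  have hd : ‖(u : X) - v‖ < 1 / 4 := by
    rw [Metric.mem_ball, dist_eq_norm] at huv; exact huv
  have hx0 : ξ v x = 0 := hx _ (Finset.mem_image.2 ⟨v, htf.mem_toFinset.2 hv, rfl⟩)
  have hv1 : 3 / 4 ≤ ‖(v : X)‖ := by
    have h1 : ‖(u : X)‖ = 1 := hu1
    have := norm_sub_norm_le (u : X) v
    linarith
  have h2 : 1 / 2 ≤ ‖ξ v u‖ := by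
    have h3 : ‖ξ v ((u : X) - v)‖ ≤ 1 / 4 :=
      ((ξ v).le_opNorm _).trans (by nlinarith [hξ1 v, norm_nonneg ((u : X) - v), norm_nonneg (ξ v)])
    have h4 : ‖ξ v v‖ = ‖(v : X)‖ := by rw [hξ2]; simp
    have h5 := norm_sub_norm_le (ξ v v) (ξ v u)
    rw [norm_sub_rev, ← map_sub] at h5
    linarith
  have h6 : ξ v u = ((‖y‖⁻¹ : ℝ) : 𝕜) * ξ v (y + x) := by
    rw [map_add, hx0, add_zero, hu]; simp
  rw [h6, norm_mul, RCLike.norm_ofReal, abs_of_pos (inv_pos.2 hpos)] at h2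
  have h7 : ‖ξ v (y + x)‖ ≤ ‖y + x‖ :=
    ((ξ v).le_opNorm _).trans (mul_le_of_le_one_left (norm_nonneg _) (hξ1 v))
  rw [inv_mul_eq_div, le_div_iff₀ hpos] at h2
  linarith

/-- Almost norming vectors for functionals. -/
lemma exists_half_norming (w : StrongDual 𝕜 X) :
    ∃ x : X, ‖x‖ ≤ ‖w‖ ∧ ‖w‖ ^ 2 / 2 ≤ RCLike.re (w x) := by
  rcases eq_or_ne w 0 with rfl | hw
  · exact ⟨0, by simp, by simp⟩
  have hpos : 0 < ‖w‖ := norm_pos_iff.2 hw
  obtain ⟨u, hu1, hu2⟩ := w.exists_lt_apply_of_lt_opNorm (half_lt_self hpos)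
  have h0 : w u ≠ 0 := norm_pos_iff.1 (lt_trans (half_pos hpos) hu2)
  refine ⟨((‖w‖ : 𝕜) * ((‖w u‖ : 𝕜) / w u)) • u, ?_, ?_⟩
  · rw [norm_smul, norm_mul, norm_div, RCLike.norm_ofReal, RCLike.norm_ofReal, abs_norm, abs_norm,
      div_self (norm_ne_zero_iff.2 h0), mul_one]
    exact mul_le_of_le_one_right hpos.le hu1.le
  · rw [map_smul, smul_eq_mul, mul_assoc, div_mul_cancel₀ _ h0, ← RCLike.ofReal_mul,
      RCLike.ofReal_re]
    nlinarith

end Tail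

end Pool.Agent.Lib.MP_f92ad0_an.Mep

/-! Uniform constant in the extension property (gliding hump). -/

namespace Pool.Agent.Lib.MP_f92ad0_an.Mep

open Finset
open scoped BigOperators

namespace U

/-- A bundled target space. -/
structure Tgt (𝕜 : Type) [RCLike 𝕜] where
  D : Type
  [i1 : NormedAddCommGroup D]
  [i2 : NormedSpace 𝕜 D]
  [i3 : CompleteSpace D]
  c1 : C1 D

attribute [instance] Tgt.i1 Tgt.i2 Tgt.i3

variable {𝕜 : Type} [RCLike 𝕜] {X : Type*} [NormedAddCommGroup X] [NormedSpace 𝕜 X]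

/-- Maps of norm at most `c` on finite dimensional subspaces killed by `F` extend with norm at
most `K`. -/
def P (F : Finset (StrongDual 𝕜 X)) (c K : ℝ) : Prop :=
  ∀ (T : Tgt 𝕜) (Y : Submodule 𝕜 X) (g : X →ₗ[𝕜] T.D), FiniteDimensional 𝕜 Y →
    (∀ ξ ∈ F, ∀ y ∈ Y, ξ y = 0) → (∀ y ∈ Y, ‖g y‖ ≤ c * ‖y‖) →
      ∃ f : X →L[𝕜] T.D, ‖f‖ ≤ K ∧ ∀ y ∈ Y, f y = g y

open Classical in
lemma P_insert {F : Finset (StrongDual 𝕜 X)} {ξ : StrongDual 𝕜 X} {c K : ℝ} (hc : 0 ≤ c)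
    (h : P (insert ξ F) c K) : P F c (2 * K + c) := by
  intro T Y g hY hF hg
  obtain ⟨f0, h1, h2⟩ := h T (Y ⊓ LinearMap.ker (ξ : X →ₗ[𝕜] 𝕜)) g
    (Submodule.finiteDimensional_of_le inf_le_left)
    (fun η hη y hy => by
      rcases mem_insert.1 hη with rfl | hη
      · exact hy.2
      · exact hF η hη y hy.1)
    (fun y hy => hg y hy.1)
  have hK : 0 ≤ K := (norm_nonneg _).trans h1
  by_cases h0 : ∀ y ∈ Y, ξ y = 0
  · exact ⟨f0, by linarith, fun y hy => h2 y ⟨hy, h0 y hy⟩⟩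
  push Not at h0
  obtain ⟨y1, hy1, hne⟩ := h0
  set y0 : X := (ξ y1)⁻¹ • y1 with hy0
  have m0 : y0 ∈ Y := Y.smul_mem _ hy1
  have e0 : ξ y0 = 1 := by rw [hy0, map_smul, smul_eq_mul, inv_mul_cancel₀ hne]
  set z : T.D := g y0 - f0 y0 with hz
  have key : ∀ y ∈ Y, ξ y • z = g y - f0 y := fun y hy => by
    have := h2 (y - ξ y • y0) ⟨Y.sub_mem hy (Y.smul_mem _ m0), by simp [e0]⟩
    rw [map_sub, map_sub, f0.map_smul (ξ y), g.map_smul (ξ y)] at this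
    rw [hz, smul_sub]
    linear_combination (norm := module) this
  obtain ⟨η, e1, e2⟩ := exists_extension_norm_eq Y (ξ.comp Y.subtypeL)
  have hb : ‖(ξ.comp Y.subtypeL).smulRight z‖ ≤ K + c := by
    refine ContinuousLinearMap.opNorm_le_bound _ (by positivity) fun y => ?_
    have e3 : (ξ.comp Y.subtypeL).smulRight z y = g y - f0 y := key y y.2
    rw [e3]
    have a1 := norm_sub_le (g y) (f0 y)
    have a2 := hg y y.2
    have a3 := (f0.le_opNorm y).trans (mul_le_mul_of_nonneg_right h1 (norm_nonneg _))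
    have a4 : ‖y‖ = ‖(y : X)‖ := rfl
    rw [a4]
    linarith
  rw [ContinuousLinearMap.norm_smulRight_apply, ← e2,
    ← ContinuousLinearMap.norm_smulRight_apply] at hb
  refine ⟨f0 + η.smulRight z, (norm_add_le _ _).trans (by linarith), fun y hy => ?_⟩
  have e4 : η y = ξ y := e1 ⟨y, hy⟩
  rw [add_apply, ContinuousLinearMap.smulRight_apply, e4, key y hy]
  abel

lemma P_empty {c : ℝ} (hc : 0 ≤ c) (F : Finset (StrongDual 𝕜 X)) :
    ∀ K, 0 ≤ K → P F c K → ∃ K', 0 ≤ K' ∧ P (∅ : Finset (StrongDual 𝕜 X)) c K' := by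
  classical
  induction F using Finset.induction_on with
  | empty => exact fun K hK h => ⟨K, hK, h⟩
  | insert ξ F _ ih => exact fun K hK h => ih _ (by positivity) (P_insert hc h)

lemma uext_of_P {c K : ℝ} (hc : 0 < c) (h : P (∅ : Finset (StrongDual 𝕜 X)) c K) :
    UExt 𝕜 X (K / c) := by
  intro D _ _ _ hD V _ _ _ T g C hC hg
  rcases hC.eq_or_lt with rfl | hC
  · refine ⟨0, by simp, fun v => ?_⟩
    have := hg v
    rw [zero_mul, norm_le_zero_iff] at this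
    simp [this]
  obtain ⟨s, hs⟩ := T.rangeRestrict.exists_rightInverse_of_surjective
    (LinearMap.range_rangeRestrict T)
  obtain ⟨g', hg'⟩ := LinearMap.exists_extend (g.comp s)
  have e : ∀ v, g' (T v) = g v := fun v => by
    have e1 : g' (T v) = g (s (T.rangeRestrict v)) :=
      LinearMap.congr_fun hg' (T.rangeRestrict v)
    have e2 : T (s (T.rangeRestrict v)) = T v :=
      congrArg Subtype.val (LinearMap.congr_fun hs (T.rangeRestrict v))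
    have e3 := hg (s (T.rangeRestrict v) - v)
    rw [map_sub, map_sub, e2, sub_self, norm_zero, mul_zero, norm_le_zero_iff, sub_eq_zero] at e3
    rw [e1, e3]
  obtain ⟨f, h1, h2⟩ := h ⟨D, hD⟩ (LinearMap.range T) (((c / C : ℝ) : 𝕜) • g') inferInstance
    (by simp) (by
      rintro _ ⟨v, rfl⟩
      rw [LinearMap.smul_apply, e, norm_smul, RCLike.norm_ofReal, abs_of_pos (div_pos hc hC)]
      refine (mul_le_mul_of_nonneg_left (hg v) (div_pos hc hC).le).trans (le_of_eq ?_)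
      field_simp)
  refine ⟨((C / c : ℝ) : 𝕜) • f, ?_, fun v => ?_⟩
  · rw [norm_smul, RCLike.norm_ofReal, abs_of_pos (div_pos hC hc)]
    refine (mul_le_mul_of_nonneg_left h1 (div_pos hC hc).le).trans (le_of_eq ?_)
    ring
  · have e4 : f (T v) = ((c / C : ℝ) : 𝕜) • g' (T v) := h2 _ ⟨v, rfl⟩
    rw [smul_apply, e4, e, smul_smul, ← RCLike.ofReal_mul,
      show C / c * (c / C) = 1 by field_simp]
    simp

/-- The gluing step. -/
lemma glue
    (h : ∀ (Z : Type) [NormedAddCommGroup Z] [NormedSpace 𝕜 Z] [CompleteSpace Z], C1 Z →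
      ∀ Y : Submodule 𝕜 X, IsClosed (Y : Set X) → ∀ g : Y →L[𝕜] Z,
        ∃ f : X →L[𝕜] Z, ∀ y : Y, f y = g y)
    (T : ℕ → Tgt 𝕜) (Y : ℕ → Submodule 𝕜 X) (g : ∀ j, X →ₗ[𝕜] (T j).D)
    (hg : ∀ j, ∀ y ∈ Y j, ‖g j y‖ ≤ (1 / 2) ^ j * ‖y‖)
    (hY : ∀ (v : ℕ → X) (s : Finset ℕ) (j : ℕ), (∀ i, v i ∈ Y i) →
      ‖∑ i ∈ s with i < j, v i‖ ≤ 2 * ‖∑ i ∈ s, v i‖) :
    ∃ M : ℝ, ∀ j, ∃ f : X →L[𝕜] (T j).D, ‖f‖ ≤ M ∧ ∀ y ∈ Y j, f y = g j y := by
  let V : Submodule 𝕜 (ℕ →₀ X) :=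
    { carrier := {v | ∀ j, v j ∈ Y j}
      add_mem' := fun ha hb j => (Y j).add_mem (ha j) (hb j)
      zero_mem' := fun j => (Y j).zero_mem
      smul_mem' := fun c _ ha j => (Y j).smul_mem c (ha j) }
  let σ : V →ₗ[𝕜] X := (Finsupp.lsum ℕ fun _ => LinearMap.id).comp V.subtype
  let τ : V →ₗ[𝕜] lp (fun j => (T j).D) 1 :=
    (Finsupp.lsum ℕ fun j => (lp.lsingle 1 j).comp (g j)).comp V.subtype
  have hσ : ∀ v : V, σ v = ∑ i ∈ v.1.support, v.1 i := fun v => rfl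
  have hτ : ∀ v : V, τ v = ∑ i ∈ v.1.support, lp.single 1 i (g i (v.1 i)) := fun v => rfl
  have b1 : ∀ v : V, ∀ j ∈ v.1.support, ‖v.1 j‖ ≤ 4 * ‖σ v‖ := fun v j hj => by
    have a1 := hY v.1 v.1.support j v.2
    have a2 := hY v.1 v.1.support (j + 1) v.2
    have e : v.1.support.filter (· < j + 1) = insert j (v.1.support.filter (· < j)) := by
      ext i
      simp only [mem_filter, mem_insert]
      constructor
      · rintro ⟨a, b⟩
        rcases Nat.lt_succ_iff_lt_or_eq.1 b with b | b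
        · exact Or.inr ⟨a, b⟩
        · exact Or.inl b
      · rintro (rfl | ⟨a, b⟩)
        · exact ⟨hj, Nat.lt_succ_self _⟩
        · exact ⟨a, Nat.lt_succ_of_lt b⟩
    rw [e, sum_insert (by simp)] at a2
    have a3 := norm_sub_le (v.1 j + ∑ i ∈ v.1.support with i < j, v.1 i)
      (∑ i ∈ v.1.support with i < j, v.1 i)
    rw [add_sub_cancel_right] at a3
    rw [hσ]
    linarith
  have b2 : ∀ v : V, ‖τ v‖ ≤ 8 * ‖σ v‖ := fun v => by
    rw [hτ]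
    refine (norm_sum_le _ _).trans ?_
    have a1 : ∀ i ∈ v.1.support, ‖(lp.single 1 i (g i (v.1 i)) : lp (fun j => (T j).D) 1)‖ ≤
        (1 / 2) ^ i * (4 * ‖σ v‖) := fun i hi => by
      rw [lp.norm_single (by norm_num)]
      exact (hg i _ (v.2 i)).trans (mul_le_mul_of_nonneg_left (b1 v i hi) (by positivity))
    refine (sum_le_sum a1).trans ?_
    rw [← sum_mul]
    have a2 : ∑ i ∈ v.1.support, (1 / 2 : ℝ) ^ i ≤ 2 :=
      sum_le_hasSum _ (fun _ _ => by positivity) hasSum_geometric_two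
    nlinarith [norm_nonneg (σ v)]
  let W : Submodule 𝕜 X := (LinearMap.range σ).topologicalClosure
  let σ' : V →ₗ[𝕜] W := σ.codRestrict W fun v =>
    (LinearMap.range σ).le_topologicalClosure ⟨v, rfl⟩
  have hd : DenseRange σ' := fun w => by
    rw [Topology.IsInducing.subtypeVal.closure_eq_preimage_closure_image, ← Set.range_comp]
    exact w.2
  obtain ⟨f, hf⟩ := h (lp (fun j => (T j).D) 1) (C1_lp fun j => (T j).c1) W
    (LinearMap.range σ).isClosed_topologicalClosure (τ.extendOfNorm σ')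
  refine ⟨‖f‖, fun j => ⟨(lp.evalCLM 𝕜 (fun j => (T j).D) 1 j).comp f, ?_, fun y hy => ?_⟩⟩
  · refine ContinuousLinearMap.opNorm_le_bound _ (norm_nonneg _) fun x => ?_
    exact (lp.norm_apply_le_norm (by norm_num) (f x) j).trans (f.le_opNorm x)
  · have m : Finsupp.single j y ∈ V := fun i => by
      rcases eq_or_ne j i with rfl | hi
      · rwa [Finsupp.single_eq_same]
      · rw [Finsupp.single_eq_of_ne hi.symm]
        exact (Y i).zero_mem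
    have e1 := hf (σ' ⟨_, m⟩)
    rw [LinearMap.extendOfNorm_eq hd ⟨8, b2⟩] at e1
    have e2 : (σ' ⟨_, m⟩ : X) = y := by simp [σ', σ]
    have e3 : τ ⟨_, m⟩ = lp.single 1 j (g j y) := by simp [τ]
    rw [e2, e3] at e1
    change f y j = g j y
    rw [e1, lp.single_apply_self]

lemma hump
    (h : ∀ (Z : Type) [NormedAddCommGroup Z] [NormedSpace 𝕜 Z] [CompleteSpace Z], C1 Z →
      ∀ Y : Submodule 𝕜 X, IsClosed (Y : Set X) → ∀ g : Y →L[𝕜] Z,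
        ∃ f : X →L[𝕜] Z, ∀ y : Y, f y = g y) :
    ∃ (j : ℕ) (F : Finset (StrongDual 𝕜 X)), P F ((1 / 2) ^ j) j := by
  classical
  by_contra hn
  simp only [P, not_exists, not_forall, not_and] at hn
  choose T Y g hY hF hg hno using hn
  have ht : ∀ S : Submodule 𝕜 X, ∃ F : Finset (StrongDual 𝕜 X), FiniteDimensional 𝕜 S →
      ∀ y ∈ S, ∀ x : X, (∀ ξ ∈ F, ξ x = 0) → ‖y‖ ≤ 2 * ‖y + x‖ := fun S => by
    by_cases hS : FiniteDimensional 𝕜 S
    · obtain ⟨F, hF⟩ := exists_tail S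
      exact ⟨F, fun _ => hF⟩
    · exact ⟨∅, fun h => absurd h hS⟩
  choose tl htl using ht
  let st : ℕ → Submodule 𝕜 X × Finset (StrongDual 𝕜 X) := fun n =>
    Nat.rec (⊥, tl ⊥) (fun j s => (s.1 ⊔ Y j s.2, s.2 ∪ tl (s.1 ⊔ Y j s.2))) n
  have s1 : ∀ j, (st (j + 1)).1 = (st j).1 ⊔ Y j (st j).2 := fun j => rfl
  have s2 : ∀ j, (st (j + 1)).2 = (st j).2 ∪ tl (st (j + 1)).1 := fun j => rfl
  have m1 : Monotone fun j => (st j).1 := monotone_nat_of_le_succ fun j => s1 j ▸ le_sup_left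
  have m2 : Monotone fun j => (st j).2 :=
    monotone_nat_of_le_succ fun j => s2 j ▸ subset_union_left
  have m3 : ∀ j, tl (st j).1 ⊆ (st j).2 := fun j => by
    cases j with
    | zero => exact Subset.refl _
    | succ j => exact s2 j ▸ subset_union_right
  have fd : ∀ j, FiniteDimensional 𝕜 (st j).1 := fun j => by
    induction j with
    | zero => exact (inferInstance : FiniteDimensional 𝕜 (⊥ : Submodule 𝕜 X))
    | succ j ih =>
      have := hY j (st j).2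
      rw [s1]
      infer_instance
  obtain ⟨M, hM⟩ := glue h (fun j => T j (st j).2) (fun j => Y j (st j).2) (fun j => g j (st j).2)
    (fun j => hg j _) (fun v s j hv => by
      rw [← sum_filter_add_sum_filter_not s (· < j)]
      refine htl _ (fd j) _ (Submodule.sum_mem _ fun i hi => ?_) _ fun ξ hξ => ?_
      · exact m1 (Nat.succ_le_of_lt (mem_filter.1 hi).2) (Submodule.mem_sup_right (hv i))
      · rw [map_sum]
        exact sum_eq_zero fun i hi =>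
          hF i _ ξ (m2 (not_lt.1 (mem_filter.1 hi).2) (m3 j hξ)) _ (hv i))
  obtain ⟨j, hj⟩ := exists_nat_ge M
  obtain ⟨f, h1, h2⟩ := hM j
  obtain ⟨y, hy, hne⟩ := hno j (st j).2 f (h1.trans hj)
  exact hne (h2 y hy)

end U

theorem uext {𝕜 : Type} [RCLike 𝕜] {X : Type*} [NormedAddCommGroup X] [NormedSpace 𝕜 X]
    (h : ∀ (Z : Type) [NormedAddCommGroup Z] [NormedSpace 𝕜 Z] [CompleteSpace Z], C1 Z →
      ∀ Y : Submodule 𝕜 X, IsClosed (Y : Set X) → ∀ g : Y →L[𝕜] Z,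
        ∃ f : X →L[𝕜] Z, ∀ y : Y, f y = g y) :
    ∃ K, 0 ≤ K ∧ UExt 𝕜 X K := by
  obtain ⟨j, F, hP⟩ := U.hump h
  obtain ⟨K, hK, hP'⟩ := U.P_empty (by positivity) F _ (Nat.cast_nonneg j) hP
  exact ⟨_, by positivity, U.uext_of_P (by positivity) hP'⟩

end Pool.Agent.Lib.MP_f92ad0_an.Mep

/-! The uniform extension property gives B-convexity. -/

namespace Pool.Agent.Lib.MP_f92ad0_an.Mep

open Finset
open scoped BigOperators

namespace B

section Sub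

variable {X : Type*} [NormedAddCommGroup X]

/-- `R2 x ≤ a Σ ‖x i‖²` for all families indexed by `ι`. -/
def Bd (X : Type*) [NormedAddCommGroup X] (ι : Type*) [Fintype ι] [DecidableEq ι] (a : ℝ) : Prop :=
  ∀ x : ι → X, R2 x ≤ a * ∑ i, ‖x i‖ ^ 2

lemma norm_rs_le {ι : Type*} [Fintype ι] (x : ι → X) (ε : ι → ℤˣ) : ‖rs x ε‖ ≤ ∑ i, ‖x i‖ :=
  (norm_sum_le _ _).trans (le_of_eq (sum_congr rfl fun _ _ => norm_units_smul _ _))

lemma sum_sq_le {ι : Type*} [Fintype ι] (a : ι → ℝ) :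
    (∑ i, a i) ^ 2 ≤ Fintype.card ι * ∑ i, a i ^ 2 := by
  simpa using sq_sum_le_card_mul_sum_sq (s := (univ : Finset ι)) (f := a)

lemma norm_rs_sq_le {ι : Type*} [Fintype ι] (x : ι → X) (ε : ι → ℤˣ) :
    ‖rs x ε‖ ^ 2 ≤ Fintype.card ι * ∑ i, ‖x i‖ ^ 2 :=
  (pow_le_pow_left₀ (norm_nonneg _) (norm_rs_le x ε) 2).trans (sum_sq_le _)

lemma bd_card (ι : Type*) [Fintype ι] [DecidableEq ι] : Bd X ι (Fintype.card ι) := fun x =>
  Finset.expect_le univ_nonempty fun ε _ => norm_rs_sq_le x ε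

lemma Bd.equiv {ι κ : Type*} [Fintype ι] [DecidableEq ι] [Fintype κ] [DecidableEq κ] {a : ℝ}
    (h : Bd X ι a) (e : ι ≃ κ) : Bd X κ a := fun x => by
  rw [← R2_equiv e x, ← Equiv.sum_comp e fun k => ‖x k‖ ^ 2]
  exact h _

lemma expect_row {ι κ : Type*} [Fintype ι] [DecidableEq ι] [Fintype κ] [DecidableEq κ] (i : ι)
    (F : (κ → ℤˣ) → ℝ) :
    𝔼 ε : ι × κ → ℤˣ, F (fun j => ε (i, j)) = 𝔼 η : κ → ℤˣ, F η := by
  have h1 : ∀ η : κ → ℤˣ, 𝔼 ε : ι × κ → ℤˣ, F (fun j => ε (i, j)) =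
      𝔼 ε : ι × κ → ℤˣ, F ((fun j => ε (i, j)) * η) := fun η => by
    rw [← expect_mul_left (fun p : ι × κ => η p.2) fun ε => F fun j => ε (i, j)]
    refine Finset.expect_congr rfl fun ε _ => ?_
    congr 1
    funext j
    simp [mul_comm]
  calc 𝔼 ε : ι × κ → ℤˣ, F (fun j => ε (i, j))
      = 𝔼 η : κ → ℤˣ, 𝔼 ε : ι × κ → ℤˣ, F ((fun j => ε (i, j)) * η) := by
        simp only [← h1, Finset.expect_const univ_nonempty]
    _ = 𝔼 ε : ι × κ → ℤˣ, 𝔼 η : κ → ℤˣ, F ((fun j => ε (i, j)) * η) := Finset.expect_comm _ _ _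
    _ = 𝔼 η : κ → ℤˣ, F η := by
        simp only [expect_mul_left, Finset.expect_const univ_nonempty]

lemma Bd.prod {ι κ : Type*} [Fintype ι] [DecidableEq ι] [Fintype κ] [DecidableEq κ] {a b : ℝ}
    (ha : Bd X ι a) (hb : Bd X κ b) (h0 : 0 ≤ a) : Bd X (ι × κ) (a * b) := fun x => by
  have h1 : ∀ s : ι → ℤˣ, R2 x = 𝔼 ε : ι × κ → ℤˣ,
      ‖rs (fun i => rs (fun j => x (i, j)) fun j => ε (i, j)) s‖ ^ 2 := fun s => by
    unfold R2
    rw [← expect_mul_left (fun p : ι × κ => s p.1) fun ε => ‖rs x ε‖ ^ 2]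
    refine Finset.expect_congr rfl fun ε _ => ?_
    congr 2
    simp only [rs, Fintype.sum_prod_type, smul_sum, smul_smul, Pi.mul_apply, Units.val_mul]
  calc R2 x = 𝔼 s : ι → ℤˣ, 𝔼 ε : ι × κ → ℤˣ,
        ‖rs (fun i => rs (fun j => x (i, j)) fun j => ε (i, j)) s‖ ^ 2 := by
        simp only [← h1, Finset.expect_const univ_nonempty]
    _ = 𝔼 ε : ι × κ → ℤˣ, R2 (fun i => rs (fun j => x (i, j)) fun j => ε (i, j)) :=
        Finset.expect_comm _ _ _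
    _ ≤ 𝔼 ε : ι × κ → ℤˣ, a * ∑ i, ‖rs (fun j => x (i, j)) fun j => ε (i, j)‖ ^ 2 :=
        Finset.expect_le_expect fun ε _ => ha _
    _ = a * ∑ i, R2 fun j => x (i, j) := by
        rw [← Finset.mul_expect, Finset.expect_sum_comm]
        congr 1
        exact sum_congr rfl fun i _ => expect_row i fun η => ‖rs (fun j => x (i, j)) η‖ ^ 2
    _ ≤ a * ∑ i, b * ∑ j, ‖x (i, j)‖ ^ 2 :=
        mul_le_mul_of_nonneg_left (sum_le_sum fun i _ => hb _) h0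
    _ = a * b * ∑ p, ‖x p‖ ^ 2 := by rw [← mul_sum, Fintype.sum_prod_type, mul_assoc]

lemma Bd.pow {k : ℕ} {a : ℝ} (h : Bd X (Fin k) a) (h0 : 0 ≤ a) (m : ℕ) :
    Bd X (Fin (k ^ m)) (a ^ m) := by
  induction m with
  | zero => simpa using bd_card (X := X) (Fin 1)
  | succ m ih =>
    rw [pow_succ a, pow_succ k]
    exact (ih.prod h (pow_nonneg h0 m)).equiv finProdFinEquiv

lemma bconv_of_bd {ι : Type*} [Fintype ι] [DecidableEq ι] [Nonempty ι] {θ : ℝ} (h0 : 0 ≤ θ)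
    (h1 : θ < 1) (h : Bd X ι (θ * Fintype.card ι)) : ∃ k, BConv X k := by
  obtain ⟨m, hm⟩ := exists_pow_lt_of_lt_one (show (0 : ℝ) < 1 / 16 by norm_num) h1
  have h2 := (h.equiv (Fintype.equivFin ι)).pow (by positivity) m
  refine ⟨Fintype.card ι ^ m, pow_pos Fintype.card_pos m, fun x => (h2 x).trans ?_⟩
  refine mul_le_mul_of_nonneg_right ?_ (by positivity)
  rw [mul_pow]
  push_cast
  have : (0 : ℝ) ≤ (Fintype.card ι : ℝ) ^ m := by positivity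
  nlinarith

end Sub

variable {𝕜 : Type} [RCLike 𝕜] {X : Type*} [NormedAddCommGroup X] [NormedSpace 𝕜 X]

variable (𝕜) in
include 𝕜 in
/-- Without B-convexity there are families all of whose signed sums are almost maximal. -/
lemma exists_big (hB : ¬ ∃ k, BConv X k) (Ω : Type) [Fintype Ω] [DecidableEq Ω] [Nonempty Ω] :
    ∃ x : Ω → X, ∑ ω, ‖x ω‖ ^ 2 = Fintype.card Ω ∧
      ∀ ε, (Fintype.card Ω : ℝ) - 1 / 32 ≤ ‖rs x ε‖ := by
  set k : ℝ := (Fintype.card Ω : ℝ) with hk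
  set N : ℝ := 2 ^ Fintype.card Ω with hN
  have hk1 : 1 ≤ k := by rw [hk]; exact_mod_cast Fintype.card_pos
  have hN1 : 1 ≤ N := one_le_pow₀ (by norm_num)
  have hk0 : 0 < k := by linarith
  have hN0 : 0 < N := by linarith
  have hδ : 0 < 1 / (32 * N * k) := by positivity
  have hδ1 : 1 / (32 * N * k) ≤ 1 := by
    rw [div_le_one (by positivity)]; nlinarith
  have h1 : ¬ Bd X Ω ((1 - 1 / (32 * N * k)) * k) := fun h =>
    hB (bconv_of_bd (by linarith) (by linarith) h)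
  obtain ⟨y, hy⟩ := not_forall.1 h1
  rw [not_le] at hy
  set S : ℝ := ∑ ω, ‖y ω‖ ^ 2 with hS
  have hS0 : 0 < S := by
    have h2 : R2 y ≤ k * S := bd_card Ω y
    have h3 : 0 ≤ S := by positivity
    rcases h3.eq_or_lt with h4 | h4
    · rw [← h4] at hy h2; linarith
    · exact h4
  set c : 𝕜 := ((√(k / S) : ℝ) : 𝕜) with hc
  have hc2 : ‖c‖ ^ 2 = k / S := by
    rw [hc, RCLike.norm_ofReal, sq_abs, Real.sq_sqrt (by positivity)]
  have hsum : ∑ ω, ‖c • y ω‖ ^ 2 = k := by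
    simp only [norm_smul, mul_pow, ← mul_sum, hc2]
    exact div_mul_cancel₀ _ hS0.ne'
  have hR : k ^ 2 - k / (32 * N) < R2 fun ω => c • y ω := by
    rw [R2_smul, hc2]
    have h2 := mul_lt_mul_of_pos_left hy (div_pos hk0 hS0)
    refine lt_of_eq_of_lt ?_ h2
    field_simp
  refine ⟨fun ω => c • y ω, hsum, fun ε => ?_⟩
  set x : Ω → X := fun ω => c • y ω with hx
  have hle : ∀ η, ‖rs x η‖ ^ 2 ≤ k ^ 2 := fun η => by
    have := norm_rs_sq_le x η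
    rw [hsum] at this
    simpa only [sq k] using this
  have h3 : k ^ 2 - ‖rs x ε‖ ^ 2 ≤ ∑ η : Ω → ℤˣ, (k ^ 2 - ‖rs x η‖ ^ 2) :=
    single_le_sum (f := fun η : Ω → ℤˣ => k ^ 2 - ‖rs x η‖ ^ 2)
      (fun η _ => sub_nonneg.2 (hle η)) (mem_univ ε)
  have h4 : ∑ η : Ω → ℤˣ, (k ^ 2 - ‖rs x η‖ ^ 2) = N * (k ^ 2 - R2 x) := by
    rw [sum_sub_distrib, sum_const, card_univ, card_signs, R2, expect_eq_div, nsmul_eq_mul]
    push_cast
    rw [← hN]
    field_simp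
  have h5 : N * (k ^ 2 - R2 x) ≤ k / 32 := by
    have h6 : N * (k ^ 2 - R2 x) ≤ N * (k / (32 * N)) :=
      mul_le_mul_of_nonneg_left (by linarith) hN0.le
    refine h6.trans (le_of_eq ?_)
    field_simp
  by_contra hlt
  rw [not_le] at hlt
  nlinarith [norm_nonneg (rs x ε)]

/-- Functionals that almost interpolate given signs. -/
lemma exists_fun {Ω : Type} [Fintype Ω] {x : Ω → X} (hx : ∑ ω, ‖x ω‖ ^ 2 = Fintype.card Ω)
    {ε : Ω → ℤˣ} (hε : (Fintype.card Ω : ℝ) - 1 / 32 ≤ ‖rs x ε‖) :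
    ∃ ξ : StrongDual 𝕜 X, ‖ξ‖ ≤ 1 ∧ ∀ ω, ‖ξ (x ω) - ((ε ω : ℤ) : 𝕜)‖ ≤ 1 / 4 := by
  obtain ⟨ξ, hξ1, hξ2⟩ := exists_dual_vector'' 𝕜 (rs x ε)
  refine ⟨ξ, hξ1, fun ω => ?_⟩
  have h1 : ∀ ω, ‖ξ (x ω) - ((ε ω : ℤ) : 𝕜)‖ ^ 2 ≤
      ‖x ω‖ ^ 2 - 2 * RCLike.re ((ε ω : ℤ) • ξ (x ω)) + 1 := fun ω => by
    have h2 : ‖ξ (x ω)‖ ≤ ‖x ω‖ :=
      (ξ.le_opNorm _).trans (mul_le_of_le_one_left (norm_nonneg _) hξ1)
    have h3 := pow_le_pow_left₀ (norm_nonneg _) h2 2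
    rw [RCLike.norm_sq_eq_def] at h3 ⊢
    rcases Int.units_eq_one_or (ε ω) with h | h <;> simp [h] <;> nlinarith
  have h2 : ∑ ω, RCLike.re ((ε ω : ℤ) • ξ (x ω)) = ‖rs x ε‖ := by
    rw [← map_sum]
    have : ∑ ω, (ε ω : ℤ) • ξ (x ω) = ξ (rs x ε) := (map_rs ξ x ε).symm
    rw [this, hξ2, RCLike.ofReal_re]
  have h3 : ∑ ω, ‖ξ (x ω) - ((ε ω : ℤ) : 𝕜)‖ ^ 2 ≤ 1 / 16 := by
    refine (sum_le_sum fun ω _ => h1 ω).trans ?_
    rw [sum_add_distrib, sum_sub_distrib, ← mul_sum, h2, hx, sum_const, card_univ, nsmul_eq_mul]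
    linarith
  have h4 := (single_le_sum (f := fun ω => ‖ξ (x ω) - ((ε ω : ℤ) : 𝕜)‖ ^ 2)
    (fun _ _ => by positivity) (mem_univ ω)).trans h3
  exact (pow_le_pow_iff_left₀ (norm_nonneg _) (by norm_num) two_ne_zero).1 (by linarith)

lemma lower_aux {Ω : Type} [Fintype Ω] {x : Ω → X} (hx : ∑ ω, ‖x ω‖ ^ 2 = Fintype.card Ω)
    (hε : ∀ ε, (Fintype.card Ω : ℝ) - 1 / 32 ≤ ‖rs x ε‖) (φ : 𝕜 →+ ℝ) (hφ : ∀ z, |φ z| ≤ ‖z‖)
    (a : Ω → 𝕜) : ∑ ω, |φ (a ω)| - (∑ ω, ‖a ω‖) / 4 ≤ ‖∑ ω, a ω • x ω‖ := by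
  obtain ⟨ξ, hξ1, hξ2⟩ := exists_fun (𝕜 := 𝕜) hx (hε fun ω => if 0 ≤ φ (a ω) then 1 else -1)
  have h1 : φ (ξ (∑ ω, a ω • x ω)) ≤ ‖∑ ω, a ω • x ω‖ :=
    (le_abs_self _).trans ((hφ _).trans
      ((ξ.le_opNorm _).trans (mul_le_of_le_one_left (norm_nonneg _) hξ1)))
  refine le_trans ?_ h1
  rw [map_sum, map_sum, sum_div, ← sum_sub_distrib]
  refine sum_le_sum fun ω _ => ?_
  have h2 := hξ2 ω
  set e : 𝕜 := (((if 0 ≤ φ (a ω) then 1 else -1 : ℤˣ) : ℤ) : 𝕜) with he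
  have h3 : φ (a ω * e) = |φ (a ω)| := by
    rw [he]
    split_ifs with h
    · simp [abs_of_nonneg h]
    · simp [abs_of_neg (not_le.1 h)]
  have h4 : φ (ξ (a ω • x ω)) = φ (a ω * e) + φ (a ω * (ξ (x ω) - e)) := by
    rw [← map_add, map_smul, smul_eq_mul]
    congr 1
    ring
  have h5 : |φ (a ω * (ξ (x ω) - e))| ≤ ‖a ω‖ * (1 / 4) :=
    (hφ _).trans (by rw [norm_mul]; exact mul_le_mul_of_nonneg_left h2 (norm_nonneg _))
  rw [h4, h3]
  linarith [(abs_le.1 h5).1]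

lemma lower {Ω : Type} [Fintype Ω] {x : Ω → X} (hx : ∑ ω, ‖x ω‖ ^ 2 = Fintype.card Ω)
    (hε : ∀ ε, (Fintype.card Ω : ℝ) - 1 / 32 ≤ ‖rs x ε‖) (a : Ω → 𝕜) :
    ∑ ω, ‖a ω‖ ≤ 4 * ‖∑ ω, a ω • x ω‖ := by
  have h1 := lower_aux hx hε RCLike.re RCLike.abs_re_le_norm a
  have h2 := lower_aux hx hε RCLike.im RCLike.abs_im_le_norm a
  have h3 : ∑ ω, ‖a ω‖ ≤ ∑ ω, |RCLike.re (a ω)| + ∑ ω, |RCLike.im (a ω)| := by
    rw [← sum_add_distrib]
    refine sum_le_sum fun ω _ => ?_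
    refine (pow_le_pow_iff_left₀ (norm_nonneg _) (by positivity) two_ne_zero).1 ?_
    rw [RCLike.norm_sq_eq_def, add_sq, sq_abs, sq_abs]
    nlinarith [mul_nonneg (abs_nonneg (RCLike.re (a ω))) (abs_nonneg (RCLike.im (a ω)))]
  linarith

/-- The embedding of a Euclidean space spanned by Rademacher functions. -/
noncomputable def emb {j : ℕ} (x : (Fin j → ℤˣ) → X) : EuclideanSpace 𝕜 (Fin j) →ₗ[𝕜] X where
  toFun c := ∑ ω, rs (fun s => c s) ω • x ω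
  map_add' c d := by
    simp only [PiLp.add_apply, rs_add, add_smul, sum_add_distrib]
  map_smul' t c := by
    simp only [PiLp.smul_apply, rs_smul, smul_assoc, RingHom.id_apply, smul_sum]

end B

theorem bconv {𝕜 : Type} [RCLike 𝕜] {X : Type*} [NormedAddCommGroup X] [NormedSpace 𝕜 X]
    {K : ℝ} (hK : UExt 𝕜 X K) : ∃ k, BConv X k := by
  by_contra hB
  obtain ⟨j, hj⟩ := exists_nat_gt (64 * K ^ 2)
  obtain ⟨x, hx, hε⟩ := B.exists_big 𝕜 hB (Fin j → ℤˣ)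
  set k : ℝ := (Fintype.card (Fin j → ℤˣ) : ℝ) with hk
  have hk0 : 0 < k := by rw [hk]; exact_mod_cast Fintype.card_pos
  have hlow : ∀ c : EuclideanSpace 𝕜 (Fin j),
      ‖(LinearMap.id : _ →ₗ[𝕜] _) c‖ ≤ 8 / k * ‖B.emb (𝕜 := 𝕜) x c‖ := fun c => by
    have h1 := B.lower hx hε fun ω => rs (fun s => c s) ω
    have h2 := khintchine 𝕜 fun s => c s
    rw [← EuclideanSpace.norm_eq, R1, Finset.expect_eq_sum_div_card, card_univ, ← hk] at h2
    rw [LinearMap.id_apply, div_mul_eq_mul_div]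
    refine h2.trans ?_
    rw [← mul_div_assoc]
    refine div_le_div_of_nonneg_right ?_ hk0.le
    have h3 : B.emb (𝕜 := 𝕜) x c = ∑ ω, rs (fun s => c s) ω • x ω := rfl
    rw [h3]
    linarith
  obtain ⟨f, hf1, hf2⟩ := hK (EuclideanSpace 𝕜 (Fin j)) (C1_inner 𝕜) (EuclideanSpace 𝕜 (Fin j))
    (B.emb x) LinearMap.id (8 / k) (by positivity) hlow
  have h1 : ∀ s : Fin j, (1 : ℝ) = ∑ ω : Fin j → ℤˣ, RCLike.re ((ω s : ℤ) • f (x ω) s) := by
    intro s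
    have h2 := hf2 (EuclideanSpace.single s 1)
    have h3 : B.emb (𝕜 := 𝕜) x (EuclideanSpace.single s 1) = ∑ ω, (ω s : ℤ) • x ω := by
      refine sum_congr rfl fun ω _ => ?_
      have : rs (fun t => (EuclideanSpace.single s (1 : 𝕜)) t) ω = ((ω s : ℤ) : 𝕜) := by
        simp [rs]
      rw [this, Int.cast_smul_eq_zsmul]
    rw [h3, map_sum] at h2
    have h4 := congrArg (fun v : EuclideanSpace 𝕜 (Fin j) => RCLike.re (v s)) h2
    simpa using h4.symm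
  have h2 : ∀ ω : Fin j → ℤˣ, ∑ s, RCLike.re ((ω s : ℤ) • f (x ω) s) ≤ √j * (‖f‖ * ‖x ω‖) := by
    intro ω
    have h3 : ∑ s, RCLike.re ((ω s : ℤ) • f (x ω) s) ≤ ∑ s, ‖f (x ω) s‖ :=
      sum_le_sum fun s _ => (RCLike.re_le_norm _).trans (norm_units_smul _ _).le
    have h4 : ∑ s, ‖f (x ω) s‖ ≤ √j * ‖f (x ω)‖ := by
      rw [EuclideanSpace.norm_eq, ← Real.sqrt_mul (Nat.cast_nonneg j)]
      refine Real.le_sqrt_of_sq_le ?_
      simpa using B.sum_sq_le fun s => ‖f (x ω) s‖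
    exact h3.trans (h4.trans (mul_le_mul_of_nonneg_left (f.le_opNorm _) (Real.sqrt_nonneg _)))
  have h3 : ∑ ω, ‖x ω‖ ≤ k := by
    refine (pow_le_pow_iff_left₀ (by positivity) hk0.le two_ne_zero).1 ?_
    have := B.sum_sq_le fun ω => ‖x ω‖
    rw [hx] at this
    simpa only [sq k] using this
  have h4 : (j : ℝ) ≤ √j * (8 * K) := by
    calc (j : ℝ) = ∑ s : Fin j, (1 : ℝ) := by simp
      _ = ∑ s, ∑ ω : Fin j → ℤˣ, RCLike.re ((ω s : ℤ) • f (x ω) s) := sum_congr rfl fun s _ => h1 s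
      _ = ∑ ω : Fin j → ℤˣ, ∑ s, RCLike.re ((ω s : ℤ) • f (x ω) s) := sum_comm
      _ ≤ ∑ ω : Fin j → ℤˣ, √j * (‖f‖ * ‖x ω‖) := sum_le_sum fun ω _ => h2 ω
      _ = √j * (‖f‖ * ∑ ω, ‖x ω‖) := by rw [← mul_sum, ← mul_sum]
      _ ≤ √j * (K * (8 / k) * k) :=
          mul_le_mul_of_nonneg_left
            (mul_le_mul hf1 h3 (by positivity) ((norm_nonneg f).trans hf1)) (Real.sqrt_nonneg _)
      _ = √j * (8 * K) := by field_simp
  have h5 : √(j : ℝ) ^ 2 = j := Real.sq_sqrt (Nat.cast_nonneg j)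
  nlinarith [sq_nonneg (√(j : ℝ) - 8 * K)]

end Pool.Agent.Lib.MP_f92ad0_an.Mep

/-! Lindenstrauss-Tzafriri trick: extension through a Hilbert space. -/

namespace Pool.Agent.Lib.MP_f92ad0_an.Mep

open Finset
open scoped BigOperators

namespace LT

variable {𝕜 : Type} [RCLike 𝕜] {X : Type*} [NormedAddCommGroup X] [NormedSpace 𝕜 X]
  {Z : Type} [NormedAddCommGroup Z] [NormedSpace 𝕜 Z] {V : Type} [AddCommGroup V] [Module 𝕜 V]

/-- `g` extends to `X` through a Euclidean space with constant `γ`. -/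
def Fac (T : V →ₗ[𝕜] X) (g : V →ₗ[𝕜] Z) (γ : ℝ) : Prop :=
  ∃ (d : ℕ) (β : X →L[𝕜] EuclideanSpace 𝕜 (Fin d)) (α : EuclideanSpace 𝕜 (Fin d) →L[𝕜] Z),
    (∀ h, ‖α h‖ ≤ ‖h‖) ∧ (∀ x, ‖β x‖ ≤ γ * ‖x‖) ∧ ∀ v, α (β (T v)) = g v

lemma Fac.mono {T : V →ₗ[𝕜] X} {g : V →ₗ[𝕜] Z} {γ γ' : ℝ} (h : Fac T g γ) (hγ : γ ≤ γ') :
    Fac T g γ' := by
  obtain ⟨d, β, α, h1, h2, h3⟩ := h
  exact ⟨d, β, α, h1, fun x => (h2 x).trans (mul_le_mul_of_nonneg_right hγ (norm_nonneg _)), h3⟩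

lemma fac_of {T : V →ₗ[𝕜] X} {g : V →ₗ[𝕜] Z} {γ : ℝ} {H : Type} [NormedAddCommGroup H]
    [InnerProductSpace 𝕜 H] [FiniteDimensional 𝕜 H] (β : X →L[𝕜] H) (α : H →L[𝕜] Z)
    (h1 : ∀ h, ‖α h‖ ≤ ‖h‖) (h2 : ∀ x, ‖β x‖ ≤ γ * ‖x‖) (h3 : ∀ v, α (β (T v)) = g v) :
    Fac T g γ := by
  let e := (stdOrthonormalBasis 𝕜 H).repr
  refine ⟨Module.finrank 𝕜 H, e.toContinuousLinearEquiv.toContinuousLinearMap.comp β,
    α.comp e.symm.toContinuousLinearEquiv.toContinuousLinearMap, fun h => ?_, fun x => ?_,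
    fun v => ?_⟩
  · have := h1 (e.symm h)
    rwa [e.symm.norm_map] at this
  · have := h2 x
    rwa [← e.norm_map] at this
  · have : e.symm (e (β (T v))) = β (T v) := e.symm_apply_apply _
    show α (e.symm (e (β (T v)))) = g v
    rw [this, h3]

lemma fac_start [FiniteDimensional 𝕜 Z] {T : V →ₗ[𝕜] X} {g : V →ₗ[𝕜] Z} (f : X →L[𝕜] Z)
    (hf : ∀ v, f (T v) = g v) : ∃ γ, Fac T g γ := by
  let e : Z ≃L[𝕜] EuclideanSpace 𝕜 (Fin (Module.finrank 𝕜 Z)) :=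
    ContinuousLinearEquiv.ofFinrankEq (by simp)
  set c : ℝ := ‖e.symm.toContinuousLinearMap‖ + 1 with hc
  have hc0 : 0 < c := by positivity
  have hcn : ((c : ℝ) : 𝕜) ≠ 0 := by exact_mod_cast hc0.ne'
  set β : X →L[𝕜] EuclideanSpace 𝕜 (Fin (Module.finrank 𝕜 Z)) :=
    (c : 𝕜) • e.toContinuousLinearMap.comp f with hβ
  refine ⟨‖β‖, _, β, (c : 𝕜)⁻¹ • e.symm.toContinuousLinearMap, fun h => ?_, β.le_opNorm,
    fun v => ?_⟩
  · have h1 := e.symm.toContinuousLinearMap.le_opNorm h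
    rw [smul_apply, norm_smul, norm_inv, RCLike.norm_ofReal, abs_of_pos hc0,
      inv_mul_le_iff₀ hc0]
    refine h1.trans (mul_le_mul_of_nonneg_right ?_ (norm_nonneg _))
    linarith
  · show (c : 𝕜)⁻¹ • e.symm ((c : 𝕜) • e (f (T v))) = g v
    rw [map_smul, e.symm_apply_apply, smul_smul, inv_mul_cancel₀ hcn, one_smul, hf]

lemma exists_tail_space [FiniteDimensional 𝕜 V] (hX : ¬ FiniteDimensional 𝕜 X) (T : V →ₗ[𝕜] X) :
    ∃ X' : Submodule 𝕜 X, ¬ FiniteDimensional 𝕜 X' ∧ ∀ v, ∀ x ∈ X', ‖T v‖ ≤ 2 * ‖T v + x‖ := by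
  obtain ⟨F, hF⟩ := exists_tail (LinearMap.range T)
  let L : X →ₗ[𝕜] (F → 𝕜) := LinearMap.pi fun ξ : F => ((ξ : StrongDual 𝕜 X) : X →ₗ[𝕜] 𝕜)
  refine ⟨LinearMap.ker L, fun hfin => hX ?_, fun v x hx => ?_⟩
  · refine ⟨Submodule.fg_of_fg_map_of_fg_inf_ker L (IsNoetherian.noetherian _) ?_⟩
    rw [top_inf_eq]
    exact (Submodule.fg_iff_finiteDimensional _).2 hfin
  · refine hF _ (LinearMap.mem_range_self T v) x fun ξ hξ => ?_
    exact congrFun (LinearMap.mem_ker.1 hx) ⟨ξ, hξ⟩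

/-- The extension produced by the uniform extension property on the graph space. -/
lemma exists_phi [FiniteDimensional 𝕜 V] {K : ℝ} (hK : UExt 𝕜 X K) (hZ : C1 Z)
    {H : Type} [NormedAddCommGroup H] [InnerProductSpace 𝕜 H] [FiniteDimensional 𝕜 H]
    (T : V →ₗ[𝕜] X) (g : V →ₗ[𝕜] Z) {G : ℝ} (hG : 0 < G) (hg : ∀ v, ‖g v‖ ≤ G * ‖T v‖)
    (J : H →ₗ[𝕜] X) (hJ1 : ∀ h, ‖h‖ ≤ ‖J h‖) (hJ2 : ∀ v h, ‖T v‖ ≤ 2 * ‖T v + J h‖)
    (α : H →L[𝕜] Z) :
    ∃ φ : X →L[𝕜] H, (∀ x, ‖φ x‖ ≤ 5 * K * ‖x‖) ∧ (∀ x, ‖α (φ x)‖ ≤ 5 * K * G * ‖x‖) ∧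
      ∀ v h, g v = α h → φ (T v + J h) = h := by
  have hGn : ((G : ℝ) : 𝕜) ≠ 0 := by exact_mod_cast hG.ne'
  let P : H →ₗ[𝕜] WithLp 1 (Z × H) :=
    (WithLp.linearEquiv 1 𝕜 (Z × H)).symm.toLinearMap.comp
      (LinearMap.prod (α : H →ₗ[𝕜] Z) ((G : 𝕜) • LinearMap.id))
  have hP1 : ∀ h, (P h).fst = α h := fun _ => rfl
  have hP2 : ∀ h, (P h).snd = (G : 𝕜) • h := fun _ => rfl
  let D := LinearMap.range P
  have : CompleteSpace D := FiniteDimensional.complete 𝕜 D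
  have hD : C1 D := C1_submodule (C1_prod hZ (C1_inner 𝕜)) D
  let V' : Submodule 𝕜 (V × H) :=
    LinearMap.ker (g.comp (LinearMap.fst 𝕜 V H) - (α : H →ₗ[𝕜] Z).comp (LinearMap.snd 𝕜 V H))
  have hV' : ∀ w : V × H, w ∈ V' ↔ g w.1 = α w.2 := fun w => by
    simp only [V', LinearMap.mem_ker, LinearMap.sub_apply, sub_eq_zero]
    rfl
  let T' : V' →ₗ[𝕜] X := (T.coprod J).comp V'.subtype
  let g' : V' →ₗ[𝕜] D := P.rangeRestrict.comp ((LinearMap.snd 𝕜 V H).comp V'.subtype)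
  have hb : ∀ w, ‖g' w‖ ≤ 5 * G * ‖T' w‖ := fun w => by
    have e1 : ‖g' w‖ = ‖P w.1.2‖ := rfl
    have e2 : T' w = T w.1.1 + J w.1.2 := rfl
    rw [e1, e2, WithLp.prod_norm_eq_of_L1, hP1, hP2, ← (hV' _).1 w.2, norm_smul,
      RCLike.norm_ofReal, abs_of_pos hG]
    have h1 := hg w.1.1
    have h2 := hJ2 w.1.1 w.1.2
    have h3 := hJ1 w.1.2
    have h4 : ‖J w.1.2‖ ≤ ‖T w.1.1 + J w.1.2‖ + ‖T w.1.1‖ := by
      have := norm_sub_le (T w.1.1 + J w.1.2) (T w.1.1)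
      rwa [add_sub_cancel_left] at this
    have h5 : ‖T w.1.1‖ + ‖w.1.2‖ ≤ 5 * ‖T w.1.1 + J w.1.2‖ := by linarith
    have h6 := mul_le_mul_of_nonneg_left h5 hG.le
    linarith
  obtain ⟨f, hf1, hf2⟩ := hK D hD V' T' g' (5 * G) (by positivity) hb
  let S : D →L[𝕜] H := (WithLp.sndL 1 𝕜 Z H).comp D.subtypeL
  have hS : ∀ y : D, S y = y.1.snd := fun _ => rfl
  have key : ∀ y : D, α ((G : 𝕜)⁻¹ • S y) = y.1.fst := fun y => by
    obtain ⟨h, hh⟩ := y.2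
    rw [hS, ← hh, hP1, hP2, smul_smul, inv_mul_cancel₀ hGn, one_smul]
  have hfx : ∀ x, ‖(f x).1.fst‖ + ‖(f x).1.snd‖ ≤ 5 * K * G * ‖x‖ := fun x => by
    rw [← WithLp.prod_norm_eq_of_L1]
    have h1 : ‖(f x).1‖ ≤ ‖f‖ * ‖x‖ := f.le_opNorm x
    have h2 := mul_le_mul_of_nonneg_right hf1 (norm_nonneg x)
    linarith
  refine ⟨(G : 𝕜)⁻¹ • S.comp f, fun x => ?_, fun x => ?_, fun v h hvh => ?_⟩
  · show ‖(G : 𝕜)⁻¹ • S (f x)‖ ≤ _
    rw [norm_smul, norm_inv, RCLike.norm_ofReal, abs_of_pos hG, inv_mul_le_iff₀ hG, hS]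
    have := hfx x
    have := norm_nonneg (f x).1.fst
    linarith
  · show ‖α ((G : 𝕜)⁻¹ • S (f x))‖ ≤ _
    rw [key]
    have := hfx x
    have := norm_nonneg (f x).1.snd
    linarith
  · have h1 := hf2 ⟨(v, h), (hV' _).2 hvh⟩
    have e2 : T' ⟨(v, h), (hV' _).2 hvh⟩ = T v + J h := rfl
    rw [e2] at h1
    show (G : 𝕜)⁻¹ • S (f (T v + J h)) = h
    rw [h1, hS]
    show (G : 𝕜)⁻¹ • (P h).snd = h
    rw [hP2, smul_smul, inv_mul_cancel₀ hGn, one_smul]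

lemma fac_step [FiniteDimensional 𝕜 V] {K A : ℝ} (hK0 : 0 ≤ K) (hK : UExt 𝕜 X K) (hA0 : 0 ≤ A)
    (hA : Dvor 𝕜 X A) (hZ : C1 Z) {T : V →ₗ[𝕜] X} {g : V →ₗ[𝕜] Z} {G : ℝ} (hG : 0 < G)
    (hg : ∀ v, ‖g v‖ ≤ G * ‖T v‖) {X' : Submodule 𝕜 X} (hX' : ¬ FiniteDimensional 𝕜 X')
    (ht : ∀ v, ∀ x ∈ X', ‖T v‖ ≤ 2 * ‖T v + x‖) {γ : ℝ} (h : Fac T g γ) :
    Fac T g (10 * K * (20 * K * A + 1) * G + γ / 2) := by
  obtain ⟨d, β, α, hα, hβ, hf⟩ := h
  obtain ⟨J, hJ⟩ := hA X' hX' d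
  set μ : ℝ := (20 * K * A + 1) * G with hμ
  have hμ0 : 0 < μ := by positivity
  obtain ⟨φ, h1, h2, h3⟩ := exists_phi hK hZ T g hG hg J (fun h => (hJ h).2.1)
    (fun v h => ht v _ (hJ h).1) ((μ : 𝕜) • α)
  have hq : ∀ h, ‖α (φ (J h))‖ ≤ ‖h‖ / 4 := fun h => by
    have h4 := h2 (J h)
    rw [smul_apply, norm_smul, RCLike.norm_ofReal, abs_of_pos hμ0] at h4
    have h5 : 5 * K * G * ‖J h‖ ≤ 5 * K * G * (A * ‖h‖) :=
      mul_le_mul_of_nonneg_left (hJ h).2.2 (by positivity)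
    have h6 : 5 * K * G * (A * ‖h‖) ≤ μ * (‖h‖ / 4) := by
      have : 0 ≤ G * ‖h‖ := by positivity
      rw [hμ]; nlinarith
    exact le_of_mul_le_mul_left (h4.trans (h5.trans h6)) hμ0
  let H := EuclideanSpace 𝕜 (Fin d)
  let Jc : H →L[𝕜] X := LinearMap.toContinuousLinearMap J
  let β' : X →L[𝕜] WithLp 2 (H × H) :=
    (WithLp.prodContinuousLinearEquiv 2 𝕜 H H).symm.toContinuousLinearMap.comp
      ((((2 * μ : ℝ) : 𝕜) • φ).prod ((((2 : ℝ)⁻¹ : ℝ) : 𝕜) • β))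
  let α' : WithLp 2 (H × H) →L[𝕜] Z :=
    (((2 : ℝ)⁻¹ : ℝ) : 𝕜) • α.comp (WithLp.fstL 2 𝕜 H H) +
      ((2 : ℝ) : 𝕜) • (α.comp (φ.comp Jc)).comp (WithLp.sndL 2 𝕜 H H)
  have hα' : ∀ y, α' y = (((2 : ℝ)⁻¹ : ℝ) : 𝕜) • α y.fst + ((2 : ℝ) : 𝕜) • α (φ (J y.snd)) :=
    fun _ => rfl
  have hβ1 : ∀ x, (β' x).fst = ((2 * μ : ℝ) : 𝕜) • φ x := fun _ => rfl
  have hβ2 : ∀ x, (β' x).snd = (((2 : ℝ)⁻¹ : ℝ) : 𝕜) • β x := fun _ => rfl
  refine fac_of β' α' (fun y => ?_) (fun x => ?_) fun v => ?_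
  · rw [hα']
    refine (norm_add_le _ _).trans ?_
    rw [norm_smul, norm_smul, RCLike.norm_ofReal, RCLike.norm_ofReal, abs_of_pos (by norm_num),
      abs_of_pos (by norm_num)]
    have h4 := hα y.fst
    have h5 := hq y.snd
    have h6 := WithLp.norm_fst_le (p := 2) _ y
    have h7 := WithLp.norm_snd_le (p := 2) _ y
    linarith
  · have h4 : ‖β' x‖ ≤ ‖(β' x).fst‖ + ‖(β' x).snd‖ := by
      rw [WithLp.prod_norm_eq_of_L2]
      refine Real.sqrt_le_iff.2 ⟨by positivity, ?_⟩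
      nlinarith [mul_nonneg (norm_nonneg (β' x).fst) (norm_nonneg (β' x).snd)]
    refine h4.trans ?_
    rw [hβ1, hβ2, norm_smul, norm_smul, RCLike.norm_ofReal, RCLike.norm_ofReal,
      abs_of_pos (by positivity), abs_of_pos (by norm_num)]
    have h5 := mul_le_mul_of_nonneg_left (h1 x) hμ0.le
    have h6 := hβ x
    have h7 : μ * (5 * K * ‖x‖) = 5 * K * (20 * K * A + 1) * G * ‖x‖ := by rw [hμ]; ring
    linarith
  · have h4 := h3 ((μ : 𝕜) • v) (β (T v)) (by rw [map_smul, smul_apply, hf])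
    rw [map_smul, map_add, map_smul] at h4
    rw [hα', hβ1, hβ2, ← hf v]
    conv_rhs => rw [← h4]
    simp only [map_smul, map_add, smul_smul, ← RCLike.ofReal_mul]
    have e1 : (2 : ℝ)⁻¹ * (2 * μ) = μ := by ring
    have e2 : (2 : ℝ) * 2⁻¹ = 1 := by norm_num
    rw [e1, e2, RCLike.ofReal_one, one_smul]

end LT

theorem lt_factor {𝕜 : Type} [RCLike 𝕜] {X : Type*} [NormedAddCommGroup X] [NormedSpace 𝕜 X]
    {K A : ℝ} (hK0 : 0 ≤ K) (hK : UExt 𝕜 X K) (hA0 : 0 ≤ A) (hA : Dvor 𝕜 X A)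
    (hX : ¬ FiniteDimensional 𝕜 X) :
    ∃ Γ, 0 ≤ Γ ∧ ∀ (Z : Type) [NormedAddCommGroup Z] [NormedSpace 𝕜 Z] [FiniteDimensional 𝕜 Z],
      C1 Z → ∀ (V : Type) [AddCommGroup V] [Module 𝕜 V] [FiniteDimensional 𝕜 V]
        (T : V →ₗ[𝕜] X) (g : V →ₗ[𝕜] Z) (G : ℝ), 0 ≤ G → (∀ v, ‖g v‖ ≤ G * ‖T v‖) →
        ∃ (d : ℕ) (β : X →L[𝕜] EuclideanSpace 𝕜 (Fin d)),
          ‖β‖ ≤ Γ * G ∧ ∀ v, ‖g v‖ ≤ ‖β (T v)‖ := by
  set a : ℝ := 10 * K * (20 * K * A + 1) with ha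
  have ha0 : 0 ≤ a := by positivity
  refine ⟨2 * a + 1, by positivity, fun Z _ _ _ hZ V _ _ _ T g G hG hg => ?_⟩
  rcases hG.eq_or_lt with rfl | hG
  · refine ⟨0, 0, by simp, fun v => ?_⟩
    simpa using hg v
  have : CompleteSpace Z := FiniteDimensional.complete 𝕜 Z
  obtain ⟨f, -, hf⟩ := hK Z hZ V T g G hG.le hg
  obtain ⟨γ, hγ⟩ := LT.fac_start f hf
  obtain ⟨X', hX', ht⟩ := LT.exists_tail_space hX T
  have hj : ∀ j : ℕ, LT.Fac T g (2 * a * G + γ / 2 ^ j) := fun j => by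
    induction j with
    | zero => exact hγ.mono (by have : 0 ≤ 2 * a * G := by positivity
                                simpa using this)
    | succ j ih =>
      refine (LT.fac_step hK0 hK hA0 hA hZ hG hg hX' ht ih).mono (le_of_eq ?_)
      rw [← ha, pow_succ]
      field_simp
      ring
  obtain ⟨j, hj'⟩ := pow_unbounded_of_one_lt (γ / G) (show (1 : ℝ) < 2 by norm_num)
  have h1 : γ / 2 ^ j ≤ G := by
    rw [div_lt_iff₀ hG] at hj'
    rw [div_le_iff₀ (by positivity)]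
    linarith
  obtain ⟨d, β, α, h2, h3, h4⟩ := (hj j).mono (show _ ≤ (2 * a + 1) * G by linarith)
  refine ⟨d, β, β.opNorm_le_bound (by positivity) h3, fun v => ?_⟩
  rw [← h4]
  exact h2 _

end Pool.Agent.Lib.MP_f92ad0_an.Mep
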