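import Pool.Agent.Lib.MP_f92ad0_an.MepA

/-! Gaussian averages decrease under contractive matrices. -/

namespace Pool.Agent.Lib.MP_f92ad0_an.Mep

open Finset
open scoped BigOperators

open MeasureTheory ProbabilityTheory in
/-- Mean square of the norm of a Gaussian sum. -/
noncomputable def G2 {ι W : Type*} [Fintype ι] [NormedAddCommGroup W] [NormedSpace ℝ W]
    (y : ι → W) : ENNReal :=
  ∫⁻ γ : ι → ℝ, ‖∑ i, γ i • y i‖ₑ ^ 2 ∂(Measure.pi fun _ : ι => gaussianReal 0 1)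

namespace R1aux

open MeasureTheory ProbabilityTheory Matrix WithLp
open scoped RealInnerProductSpace

lemma enorm_mid {W : Type*} [NormedAddCommGroup W] [NormedSpace ℝ W] (u v : W) :
    2 * ‖u‖ₑ ^ 2 ≤ ‖u + v‖ₑ ^ 2 + ‖u + -v‖ₑ ^ 2 := by
  have h1 : ‖(2 : ℝ) • u‖ ≤ ‖u + v‖ + ‖u + -v‖ := by
    refine le_trans (le_of_eq ?_) (norm_add_le _ _)
    congr 1; rw [two_smul]; abel
  rw [norm_smul, Real.norm_two] at h1
  have h2 : 2 * ‖u‖ ^ 2 ≤ ‖u + v‖ ^ 2 + ‖u + -v‖ ^ 2 := by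
    nlinarith [norm_nonneg u, sq_nonneg (‖u + v‖ - ‖u + -v‖)]
  have h3 := ENNReal.ofReal_le_ofReal h2
  rw [ENNReal.ofReal_add (by positivity) (by positivity), ENNReal.ofReal_mul (by norm_num),
    ENNReal.ofReal_pow (norm_nonneg _), ENNReal.ofReal_pow (norm_nonneg _),
    ENNReal.ofReal_pow (norm_nonneg _)] at h3
  simpa only [ofReal_norm, ENNReal.ofReal_ofNat] using h3

lemma conv_le {E W : Type*} [NormedAddCommGroup E] [NormedSpace ℝ E] [MeasurableSpace E]
    [BorelSpace E] [SecondCountableTopology E] [NormedAddCommGroup W] [NormedSpace ℝ W]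
    (μ ν : Measure E) [IsProbabilityMeasure ν] (hν : ν.map (fun v => -v) = ν) (T : E →L[ℝ] W) :
    ∫⁻ u, ‖T u‖ₑ ^ 2 ∂μ ≤ ∫⁻ u, ‖T u‖ₑ ^ 2 ∂(μ ∗ ν) := by
  have hm : Measurable fun u => ‖T u‖ₑ ^ 2 := (T.continuous.enorm.measurable).pow_const 2
  rw [Measure.lintegral_conv hm]
  refine lintegral_mono fun u => ?_
  have hm1 : Measurable fun v => ‖T (u + v)‖ₑ ^ 2 := hm.comp (measurable_const_add u)
  have h1 : ∫⁻ v, ‖T (u + -v)‖ₑ ^ 2 ∂ν = ∫⁻ v, ‖T (u + v)‖ₑ ^ 2 ∂ν := by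
    conv_rhs => rw [← hν, lintegral_map hm1 measurable_neg]
  have h2 : 2 * ‖T u‖ₑ ^ 2 ≤ 2 * ∫⁻ v, ‖T (u + v)‖ₑ ^ 2 ∂ν := by
    calc 2 * ‖T u‖ₑ ^ 2 = ∫⁻ _, 2 * ‖T u‖ₑ ^ 2 ∂ν := by simp
      _ ≤ ∫⁻ v, (‖T (u + v)‖ₑ ^ 2 + ‖T (u + -v)‖ₑ ^ 2) ∂ν := lintegral_mono fun v => by
          simpa only [map_add, map_neg] using enorm_mid (T u) (T v)
      _ = _ := by rw [lintegral_add_left hm1, h1, two_mul]
  exact (ENNReal.mul_le_mul_iff_right (by norm_num) (by norm_num)).1 h2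

variable {α β : Type*} [Fintype α] [DecidableEq α] [Fintype β] [DecidableEq β]

/-- The transpose of `c` as a map of Euclidean spaces. -/
noncomputable def Lc (c : β → α → ℝ) : EuclideanSpace ℝ β →L[ℝ] EuclideanSpace ℝ α :=
  LinearMap.toContinuousLinearMap
    { toFun := fun γ => toLp 2 fun a => ∑ b, γ b * c b a
      map_add' := fun x y => by ext a; simp [add_mul, sum_add_distrib]
      map_smul' := fun r x => by ext a; simp [mul_sum, mul_assoc] }

lemma Lc_apply (c : β → α → ℝ) (γ : EuclideanSpace ℝ β) (a : α) :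
    Lc c γ a = ∑ b, γ b * c b a := rfl

/-- The linear combination map. -/
noncomputable def Ty {W : Type*} [NormedAddCommGroup W] [NormedSpace ℝ W] (y : α → W) :
    EuclideanSpace ℝ α →L[ℝ] W :=
  LinearMap.toContinuousLinearMap
    { toFun := fun u => ∑ a, u a • y a
      map_add' := fun x y => by simp [add_smul, sum_add_distrib]
      map_smul' := fun r x => by simp [smul_sum, mul_smul] }

lemma G2_eq {W : Type*} [NormedAddCommGroup W] [NormedSpace ℝ W] (y : α → W) :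
    G2 y = ∫⁻ u, ‖Ty y u‖ₑ ^ 2 ∂(stdGaussian (EuclideanSpace ℝ α)) := by
  rw [← map_pi_eq_stdGaussian,
    lintegral_map (((Ty y).continuous.enorm.measurable).pow_const 2) (by fun_prop)]
  rfl

lemma quad (c : β → α → ℝ) (t : α → ℝ) :
    t ⬝ᵥ (1 - (Matrix.of c)ᵀ * Matrix.of c) *ᵥ t = ∑ a, t a ^ 2 - ∑ b, (∑ a, c b a * t a) ^ 2 := by
  rw [sub_mulVec, dotProduct_sub, one_mulVec, ← mulVec_mulVec, dotProduct_mulVec,
    vecMul_transpose]
  simp only [dotProduct, mulVec, of_apply, sq]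

lemma psd {c : β → α → ℝ} (hc : Contr c) : (1 - (Matrix.of c)ᵀ * Matrix.of c).PosSemidef := by
  refine PosSemidef.of_dotProduct_mulVec_nonneg ?_ fun t => ?_
  · refine isHermitian_one.sub ?_
    simpa only [conjTranspose_eq_transpose_of_trivial] using
      isHermitian_conjTranspose_mul_self (Matrix.of c)
  · have := hc t
    simp only [Real.norm_eq_abs, sq_abs] at this
    rw [star_trivial, quad]
    linarith

lemma charFun_L (c : β → α → ℝ) (t : EuclideanSpace ℝ α) :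
    charFun ((stdGaussian (EuclideanSpace ℝ β)).map (Lc c)) t =
      Complex.exp (-((∑ b, (∑ a, c b a * t a) ^ 2 : ℝ) : ℂ) / 2) := by
  have h1 : ∀ γ : EuclideanSpace ℝ β,
      ⟪Lc c γ, t⟫ = ⟪γ, (toLp 2 fun b => ∑ a, c b a * t a : EuclideanSpace ℝ β)⟫ := by
    intro γ
    simp only [PiLp.inner_apply, Lc_apply, RCLike.inner_apply, conj_trivial, mul_sum, sum_mul]
    rw [sum_comm]
    exact sum_congr rfl fun b _ => sum_congr rfl fun a _ => by ring
  rw [charFun_apply, integral_map (by fun_prop) (by fun_prop)]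
  simp_rw [h1]
  rw [← charFun_apply, charFun_stdGaussian, ← Complex.ofReal_pow, EuclideanSpace.real_norm_sq_eq]

end R1aux

open MeasureTheory ProbabilityTheory Matrix R1aux in
theorem G2_contr {α β W : Type*} [Fintype α] [DecidableEq α] [Fintype β] [DecidableEq β]
    [NormedAddCommGroup W] [NormedSpace ℝ W] (c : β → α → ℝ) (hc : Contr c) (y : α → W) :
    G2 (fun b => ∑ a, c b a • y a) ≤ G2 y := by
  have hS := psd hc
  set ν := multivariateGaussian (0 : EuclideanSpace ℝ α) (1 - (Matrix.of c)ᵀ * Matrix.of c)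
  have : IsProbabilityMeasure ((stdGaussian (EuclideanSpace ℝ β)).map (Lc c)) :=
    Measure.isProbabilityMeasure_map (by fun_prop)
  have h1 : ((stdGaussian (EuclideanSpace ℝ β)).map (Lc c)) ∗ ν =
      stdGaussian (EuclideanSpace ℝ α) := by
    apply Measure.ext_of_charFun
    ext t
    rw [charFun_conv, charFun_L, charFun_multivariateGaussian hS, quad,
      charFun_stdGaussian, ← Complex.exp_add, ← Complex.ofReal_pow, EuclideanSpace.real_norm_sq_eq]
    congr 1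
    simp only [inner_zero_right]
    push_cast
    ring
  have h2 : ν.map (fun v => -v) = ν := by
    have : IsProbabilityMeasure (ν.map fun v => -v) :=
      Measure.isProbabilityMeasure_map (by fun_prop)
    apply Measure.ext_of_charFun
    ext t
    have e : charFun (ν.map fun v => -v) t = charFun ν (-t) := by
      rw [charFun_apply, charFun_apply, integral_map (by fun_prop) (by fun_prop)]
      simp only [inner_neg_left, inner_neg_right]
    rw [e, charFun_multivariateGaussian hS, charFun_multivariateGaussian hS]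
    simp [mulVec_neg]
  have h3 := conv_le ((stdGaussian (EuclideanSpace ℝ β)).map (Lc c)) ν h2 (Ty y)
  rw [h1, ← G2_eq,
    lintegral_map (((Ty y).continuous.enorm.measurable).pow_const 2) (by fun_prop)] at h3
  rw [G2_eq]
  refine le_trans (le_of_eq (lintegral_congr fun γ => ?_)) h3
  congr 2
  change ∑ b, γ b • ∑ a, c b a • y a = ∑ a, (∑ b, γ b * c b a) • y a
  simp only [smul_sum, sum_smul, mul_smul]
  exact sum_comm

end Pool.Agent.Lib.MP_f92ad0_an.Mep

/-! Gaussian and Rademacher averages are equivalent under finite cotype. -/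

namespace Pool.Agent.Lib.MP_f92ad0_an.Mep

open Finset
open scoped BigOperators

namespace R2x

/-- Bernoulli weights. -/
def wt (p : ℝ) (b : Bool) : ℝ := if b then p else 1 - p

lemma wt_nonneg {p : ℝ} (h0 : 0 ≤ p) (h1 : p ≤ 1) (b : Bool) : 0 ≤ wt p b := by
  cases b <;> simp [wt, h0, h1]

section Disc

variable {ι W : Type*} [Fintype ι] [DecidableEq ι] [NormedAddCommGroup W]

/-- The family restricted to the coordinates selected by `a`. -/
def cut (y : ι → W) (a : ι → Bool) : ι → W := fun i => if a i then y i else 0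

/-- Average of the Rademacher mean square over a random set of coordinates. -/
noncomputable def F (p : ℝ) (y : ι → W) : ℝ :=
  ∑ a : ι → Bool, (∏ i, wt p (a i)) * R2 (cut y a)

lemma sum_wt (p : ℝ) : ∑ a : ι → Bool, ∏ i, wt p (a i) = 1 := by
  rw [← Fintype.prod_sum fun (_ : ι) (b : Bool) => wt p b]
  simp [wt]

lemma sum_wt_ite (p : ℝ) (i : ι) :
    ∑ a : ι → Bool, (∏ j, wt p (a j)) * (if a i then 1 else 0) = p := by
  have h := Fintype.prod_sum fun (j : ι) (b : Bool) =>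
    wt p b * (if j = i then (if b then (1 : ℝ) else 0) else 1)
  simp only [Finset.prod_mul_distrib, Finset.prod_ite_eq', Finset.mem_univ, if_true] at h
  rw [← h, Finset.prod_eq_single i]
  · simp [wt]
  · intro j _ hj
    simp [wt, hj]
  · simp

lemma push {Ω : Type*} [Fintype Ω] (w : Ω → ℝ) (π : Ω → Bool) (q : ℝ)
    (hq : ∀ b, ∑ ω ∈ univ.filter (fun ω => π ω = b), w ω = wt q b) (g : (ι → Bool) → ℝ) :
    ∑ c : ι → Ω, (∏ i, w (c i)) * g (fun i => π (c i)) =
      ∑ a : ι → Bool, (∏ i, wt q (a i)) * g a := by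
  rw [← Finset.sum_fiberwise (s := univ) (g := fun (c : ι → Ω) (i : ι) => π (c i))]
  refine Finset.sum_congr rfl fun a _ => ?_
  have h1 : (univ.filter fun c : ι → Ω => (fun i => π (c i)) = a) =
      Fintype.piFinset fun i => univ.filter (fun ω => π ω = a i) := by
    ext c
    simp [funext_iff]
  simp only [← hq]
  rw [Finset.prod_univ_sum, Finset.sum_mul, ← h1]
  refine Finset.sum_congr rfl fun c hc => ?_
  rw [(Finset.mem_filter.1 hc).2]

variable [NormedSpace ℝ W]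

lemma R2_cut_le (y : ι → W) (a : ι → Bool) : R2 (cut y a) ≤ R2 y := by
  have h := R2_smul_le (fun i => if a i then (1 : ℝ) else 0)
    (fun i => by split_ifs <;> simp) y
  have h2 : cut y a = fun i => (if a i then (1 : ℝ) else 0) • y i := by
    funext i
    by_cases hi : a i <;> simp [cut, hi]
  rw [h2]
  exact h

omit [NormedSpace ℝ W] in
lemma F_nonneg {p : ℝ} (h0 : 0 ≤ p) (h1 : p ≤ 1) (y : ι → W) : 0 ≤ F p y :=
  Finset.sum_nonneg fun _ _ =>
    mul_nonneg (Finset.prod_nonneg fun _ _ => wt_nonneg h0 h1 _) (R2_nonneg _)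

lemma F_le {p : ℝ} (h0 : 0 ≤ p) (h1 : p ≤ 1) (y : ι → W) : F p y ≤ R2 y := by
  calc F p y ≤ ∑ a : ι → Bool, (∏ i, wt p (a i)) * R2 y :=
        Finset.sum_le_sum fun a _ => mul_le_mul_of_nonneg_left (R2_cut_le y a)
          (Finset.prod_nonneg fun i _ => wt_nonneg h0 h1 _)
    _ = R2 y := by rw [← Finset.sum_mul, sum_wt, one_mul]

lemma norm_avg_sq_le {A : Type*} [Fintype A] (w : A → ℝ) (hw : ∀ a, 0 ≤ w a)
    (h1 : ∑ a, w a = 1) (v : A → W) :
    ‖∑ a, w a • v a‖ ^ 2 ≤ ∑ a, w a * ‖v a‖ ^ 2 := by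
  have h2 : ‖∑ a, w a • v a‖ ≤ ∑ a, w a * ‖v a‖ :=
    (norm_sum_le _ _).trans (le_of_eq (Finset.sum_congr rfl fun a _ => by
      rw [norm_smul, Real.norm_of_nonneg (hw a)]))
  refine (pow_le_pow_left₀ (norm_nonneg _) h2 2).trans ?_
  obtain ⟨m, hm⟩ : ∃ m, m = ∑ a, w a * ‖v a‖ := ⟨_, rfl⟩
  rw [← hm]
  have h3 : 0 ≤ ∑ a, w a * (‖v a‖ - m) ^ 2 :=
    Finset.sum_nonneg fun a _ => mul_nonneg (hw a) (sq_nonneg _)
  have h4 : ∑ a, w a * (‖v a‖ - m) ^ 2 =
      ∑ a, w a * ‖v a‖ ^ 2 - 2 * m * ∑ a, w a * ‖v a‖ + m ^ 2 * ∑ a, w a := by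
    rw [Finset.mul_sum, Finset.mul_sum, ← Finset.sum_sub_distrib, ← Finset.sum_add_distrib]
    exact Finset.sum_congr rfl fun a _ => by ring
  rw [h4, h1, ← hm] at h3
  nlinarith

lemma le_F {p : ℝ} (h0 : 0 ≤ p) (h1 : p ≤ 1) (y : ι → W) : p ^ 2 * R2 y ≤ F p y := by
  unfold F R2
  simp only [Finset.mul_expect]
  rw [← Finset.expect_sum_comm]
  refine Finset.expect_le_expect fun ε _ => ?_
  have h := norm_avg_sq_le (fun a : ι → Bool => ∏ i, wt p (a i))
    (fun a => Finset.prod_nonneg fun i _ => wt_nonneg h0 h1 _) (sum_wt p)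
    (fun a => rs (cut y a) ε)
  have h2 : ∑ a : ι → Bool, (∏ i, wt p (a i)) • rs (cut y a) ε = p • rs y ε := by
    simp only [rs, Finset.smul_sum]
    rw [Finset.sum_comm]
    refine Finset.sum_congr rfl fun i _ => ?_
    conv_rhs => rw [← sum_wt_ite (ι := ι) p i, Finset.sum_smul]
    refine Finset.sum_congr rfl fun a _ => ?_
    by_cases hi : a i <;> simp [cut, hi]
  rw [h2, norm_smul, Real.norm_of_nonneg h0, mul_pow] at h
  exact h

omit [NormedSpace ℝ W] in
lemma colour {k : ℕ} (h : ∀ w : Fin k → W, ∑ l, ‖w l‖ ^ 2 ≤ (k : ℝ) / 4 * R2 w) (y : ι → W)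
    (c : ι → Option (Fin k)) :
    ∑ l : Fin k, R2 (cut y fun i => decide (c i = some l)) ≤
      (k : ℝ) / 4 * R2 (cut y fun i => (c i).isSome) := by
  set s : (Fin k → ℤˣ) → ι → ℤˣ := fun η i => (c i).elim 1 η with hs
  have h1 : ∀ (η : Fin k → ℤˣ) (ε : ι → ℤˣ),
      rs (fun l => rs (cut y fun i => decide (c i = some l)) ε) η =
        rs (cut y fun i => (c i).isSome) (s η * ε) := fun η ε => by
    simp only [rs, Finset.smul_sum]
    rw [Finset.sum_comm]
    refine Finset.sum_congr rfl fun i _ => ?_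
    rcases hc : c i with _ | l0
    · simp [cut, hc]
    · rw [Finset.sum_eq_single l0]
      · simp [cut, hc, hs, smul_smul]
      · intro l _ hl
        simp [cut, hc, Ne.symm hl]
      · simp
  have h2 : R2 (cut y fun i => (c i).isSome) = 𝔼 ε : ι → ℤˣ,
      R2 (fun l => rs (cut y fun i => decide (c i = some l)) ε) := by
    simp only [R2, h1]
    rw [Finset.expect_comm]
    simp only [expect_mul_left _ fun ε => ‖rs (cut y fun i => (c i).isSome) ε‖ ^ 2]
    rw [Finset.expect_const Finset.univ_nonempty]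
  rw [h2, Finset.mul_expect]
  simp only [R2]
  rw [← Finset.expect_sum_comm]
  exact Finset.expect_le_expect fun ε _ => h _

omit [NormedSpace ℝ W] in
lemma F_div {k : ℕ} (hk : 0 < k) (h : ∀ w : Fin k → W, ∑ l, ‖w l‖ ^ 2 ≤ (k : ℝ) / 4 * R2 w)
    {p : ℝ} (h0 : 0 ≤ p) (h1 : p ≤ 1) (y : ι → W) : F (p / k) y ≤ F p y / 4 := by
  have hk' : (0 : ℝ) < k := Nat.cast_pos.2 hk
  set w : Option (Fin k) → ℝ := fun o => o.elim (1 - p) fun _ => p / k with hw
  have hw0 : ∀ o, 0 ≤ w o := fun o => by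
    cases o
    · simp [hw, h1]
    · simp only [hw, Option.elim]; positivity
  have e1 : ∀ l : Fin k, ∑ c : ι → Option (Fin k), (∏ i, w (c i)) *
      R2 (cut y fun i => decide (c i = some l)) = F (p / k) y := fun l => by
    refine push w (fun o => decide (o = some l)) (p / k) (fun b => ?_) fun a => R2 (cut y a)
    have ht : ∑ o ∈ univ.filter (fun o => decide (o = some l) = true), w o = p / k := by
      rw [Finset.sum_filter, Finset.sum_eq_single (some l)]
      · simp [hw]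
      · intro o _ ho
        simp [ho]
      · simp
    have ha : ∑ o, w o = 1 := by
      rw [Fintype.sum_option]
      simp only [hw, Option.elim, Finset.sum_const, Finset.card_univ, Fintype.card_fin,
        nsmul_eq_mul]
      field_simp
      ring
    cases b
    · have := Finset.sum_filter_add_sum_filter_not univ
        (fun o => decide (o = some l) = true) w
      simp only [Bool.not_eq_true] at this
      simp only [wt, Bool.false_eq_true, if_false]
      linarith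
    · simpa [wt] using ht
  have e2 : ∑ c : ι → Option (Fin k), (∏ i, w (c i)) *
      R2 (cut y fun i => (c i).isSome) = F p y := by
    refine push w (fun o => o.isSome) p (fun b => ?_) fun a => R2 (cut y a)
    rw [Finset.sum_filter, Fintype.sum_option]
    cases b
    · simp [hw, wt]
    · simp only [hw, wt, Option.elim, Option.isSome_none, Bool.false_eq_true, if_false,
        Option.isSome_some, if_true, Finset.sum_const, Finset.card_univ, Fintype.card_fin,
        nsmul_eq_mul, zero_add]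
      field_simp
  have e3 : (k : ℝ) * F (p / k) y ≤ (k : ℝ) / 4 * F p y := by
    calc (k : ℝ) * F (p / k) y = ∑ l : Fin k, ∑ c : ι → Option (Fin k), (∏ i, w (c i)) *
          R2 (cut y fun i => decide (c i = some l)) := by simp [e1]
      _ = ∑ c : ι → Option (Fin k), (∏ i, w (c i)) *
          ∑ l : Fin k, R2 (cut y fun i => decide (c i = some l)) := by
          rw [Finset.sum_comm]
          simp only [Finset.mul_sum]
      _ ≤ ∑ c : ι → Option (Fin k), (∏ i, w (c i)) *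
          ((k : ℝ) / 4 * R2 (cut y fun i => (c i).isSome)) :=
          Finset.sum_le_sum fun c _ => mul_le_mul_of_nonneg_left (colour h y c)
            (Finset.prod_nonneg fun i _ => hw0 _)
      _ = (k : ℝ) / 4 * F p y := by
          rw [← e2, Finset.mul_sum]
          exact Finset.sum_congr rfl fun c _ => by ring
  have e4 : (k : ℝ) * F (p / k) y ≤ (k : ℝ) * (F p y / 4) := by linarith
  exact le_of_mul_le_mul_left e4 hk'

lemma F_pow {k : ℕ} (hk : 0 < k) (h : ∀ w : Fin k → W, ∑ l, ‖w l‖ ^ 2 ≤ (k : ℝ) / 4 * R2 w)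
    (y : ι → W) (l : ℕ) : ∀ p : ℝ, 0 ≤ p → p * (k : ℝ) ^ l ≤ 1 → F p y ≤ R2 y / 4 ^ l := by
  have hk' : (1 : ℝ) ≤ k := Nat.one_le_cast.2 hk
  induction l with
  | zero => intro p h0 h1; simpa using F_le h0 (by simpa using h1) y
  | succ l ih =>
    intro p h0 h1
    have h2 : p * k * (k : ℝ) ^ l ≤ 1 := by rw [pow_succ] at h1; linarith
    have h3 : 0 ≤ p * k := by positivity
    have h4 : p * k ≤ 1 := le_trans (le_mul_of_one_le_right h3 (one_le_pow₀ hk')) h2
    have h5 := F_div hk h h3 h4 y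
    rw [mul_div_cancel_right₀ _ (by positivity)] at h5
    have h6 := ih _ h3 h2
    rw [pow_succ, ← div_div]
    linarith

/-- The excess of `x` over the level `t`. -/
noncomputable def exc (t x : ℝ) : ℝ := max (x - t) 0 + min (x + t) 0

lemma exc_zero (x : ℝ) : exc 0 x = x := by simp [exc]

lemma exc_eq_zero {t x : ℝ} (h : |x| ≤ t) : exc t x = 0 := by
  obtain ⟨h1, h2⟩ := abs_le.1 h
  rw [exc, max_eq_right (by linarith), min_eq_right (by linarith), add_zero]

lemma abs_exc_sub {t b : ℝ} (ht : 0 ≤ t) (hb : 0 ≤ b) (x : ℝ) :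
    |exc t x - exc (t + b) x| ≤ b := by
  rw [abs_le]
  simp only [exc, max_def, min_def]
  split_ifs <;> constructor <;> linarith

lemma R2_exc_step {t b : ℝ} (ht : 0 ≤ t) (hb : 0 < b) (γ : ι → ℝ) (y : ι → W) :
    R2 (fun i => exc t (γ i) • y i) ≤ 2 * b ^ 2 * R2 (cut y fun i => decide (t < |γ i|)) +
      2 * R2 (fun i => exc (t + b) (γ i) • y i) := by
  have h1 : (fun i => exc t (γ i) • y i) = fun i =>
      b • (((exc t (γ i) - exc (t + b) (γ i)) / b) • cut y (fun i => decide (t < |γ i|)) i) +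
        exc (t + b) (γ i) • y i := by
    funext i
    by_cases hi : t < |γ i|
    · simp only [cut, hi, decide_true, if_true, smul_smul, mul_div_cancel₀ _ hb.ne', ← add_smul,
        sub_add_cancel]
    · have h2 := not_lt.1 hi
      simp [cut, hi, exc_eq_zero h2, exc_eq_zero (h2.trans (le_add_of_nonneg_right hb.le))]
  rw [h1]
  refine (R2_add_le _ _).trans ?_
  rw [R2_smul, Real.norm_of_nonneg hb.le]
  have h3 := R2_smul_le (fun i => (exc t (γ i) - exc (t + b) (γ i)) / b) (fun i => by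
    rw [abs_div, abs_of_pos hb, div_le_one hb]; exact abs_exc_sub ht hb.le _)
    (cut y fun i => decide (t < |γ i|))
  nlinarith [sq_nonneg b]

lemma R2_le_levels {b : ℝ} (hb : 0 < b) (γ : ι → ℝ) (y : ι → W) (L : ℕ) :
    R2 (fun i => γ i • y i) ≤
      ∑ l ∈ range L, 2 ^ (l + 1) * b ^ 2 * R2 (cut y fun i => decide (l * b < |γ i|)) +
        2 ^ L * R2 (fun i => exc (L * b) (γ i) • y i) := by
  induction L with
  | zero => simp [exc_zero]
  | succ L ih =>
    have h := R2_exc_step (t := L * b) (by positivity) hb γ y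
    have h2 : ((L + 1 : ℕ) : ℝ) * b = L * b + b := by push_cast; ring
    rw [Finset.sum_range_succ, h2]
    have h3 := mul_le_mul_of_nonneg_left h (by positivity : (0 : ℝ) ≤ 2 ^ L)
    rw [pow_succ 2 L]
    linarith

lemma exists_levels {b : ℝ} (hb : 0 < b) (γ : ι → ℝ) (y : ι → W) :
    ∃ L : ℕ, R2 (fun i => γ i • y i) ≤
      ∑ l ∈ range L, 2 ^ (l + 1) * b ^ 2 * R2 (cut y fun i => decide (l * b < |γ i|)) := by
  obtain ⟨L, hL⟩ := exists_nat_ge (‖γ‖ / b)
  refine ⟨L, ?_⟩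
  have h := R2_le_levels hb γ y L
  have h2 : (fun i => exc (L * b) (γ i) • y i) = fun _ => (0 : W) := by
    funext i
    have h3 : |γ i| ≤ L * b := (norm_le_pi_norm γ i).trans ((div_le_iff₀ hb).1 hL)
    rw [exc_eq_zero h3, zero_smul]
  have h4 : R2 (fun _ : ι => (0 : W)) = 0 := by simp [R2, rs]
  rw [h2, h4] at h
  simpa using h

lemma R2_cut_le_gauss (γ : ι → ℝ) (y : ι → W) :
    R2 (cut y fun i => decide (1 < |γ i|)) ≤ R2 fun i => γ i • y i := by
  have h := R2_smul_le (fun i => if 1 < |γ i| then (γ i)⁻¹ else 0) (fun i => by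
    split_ifs with hi
    · rw [abs_inv]; exact inv_le_one_of_one_le₀ hi.le
    · simp) fun i => γ i • y i
  have h2 : (cut y fun i => decide (1 < |γ i|)) =
      fun i => (if 1 < |γ i| then (γ i)⁻¹ else 0) • γ i • y i := by
    funext i
    by_cases hi : 1 < |γ i|
    · have h0 : γ i ≠ 0 := by
        rintro h0
        rw [h0] at hi
        norm_num at hi
      simp [cut, hi, smul_smul, h0]
    · simp [cut, hi]
  rw [h2]
  exact h

end Disc

section Gauss

open MeasureTheory ProbabilityTheory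

variable {ι W : Type*} [Fintype ι] [DecidableEq ι] [NormedAddCommGroup W]

/-- Gaussian measure of the tail beyond `t`. -/
noncomputable def tl (t : ℝ) : ℝ := (gaussianReal 0 1).real {x : ℝ | t < |x|}

lemma meas_tail (t : ℝ) : MeasurableSet {x : ℝ | t < |x|} :=
  measurableSet_lt measurable_const (by fun_prop)

lemma tl_nonneg (t : ℝ) : 0 ≤ tl t := measureReal_nonneg

lemma tl_le_one (t : ℝ) : tl t ≤ 1 := measureReal_le_one

lemma tl_one_pos : 0 < tl 1 := by
  refine ENNReal.toReal_pos (fun h0 => ?_) (measure_ne_top _ _)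
  have h1 := gaussianReal_absolutelyContinuous' 0 (v := 1) one_ne_zero h0
  have h2 : Set.Ioi (1 : ℝ) ⊆ {x : ℝ | 1 < |x|} := fun x hx => lt_of_lt_of_le hx (le_abs_self x)
  have h3 := measure_mono_null h2 h1
  simp at h3

lemma tl_le (t : ℝ) : tl t ≤ 2 * Real.exp (1 / 2 - t) := by
  have h1 := measure_ge_le_exp_mul_mgf (μ := gaussianReal 0 1) (X := fun x => x) (t := 1) t
    zero_le_one (integrable_exp_mul_gaussianReal 1)
  have h2 := measure_le_le_exp_mul_mgf (μ := gaussianReal 0 1) (X := fun x => x) (t := -1) (-t)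
    (by norm_num) (integrable_exp_mul_gaussianReal (-1))
  rw [mgf_fun_id_gaussianReal, ← Real.exp_add] at h1 h2
  have h3 : {x : ℝ | t < |x|} ⊆ {x | t ≤ x} ∪ {x | x ≤ -t} := fun x hx => by
    rcases lt_abs.1 (show t < |x| from hx) with h | h
    · exact Or.inl h.le
    · exact Or.inr (show x ≤ -t by linarith)
  have h4 : tl t ≤ _ := (measureReal_mono h3).trans (measureReal_union_le _ _)
  have e1 : -1 * t + (0 * 1 + ((1 : NNReal) : ℝ) * 1 ^ 2 / 2) = 1 / 2 - t := by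
    simp; ring
  have e2 : - -1 * -t + (0 * -1 + ((1 : NNReal) : ℝ) * (-1) ^ 2 / 2) = 1 / 2 - t := by
    simp; ring
  rw [e1] at h1
  rw [e2] at h2
  linarith

lemma tl_level {k : ℕ} (hk : 0 < k) (l : ℕ) :
    tl (l * (Real.log k + 2)) * (k : ℝ) ^ l ≤ 1 := by
  rcases Nat.eq_zero_or_pos l with rfl | hl
  · simpa using tl_le_one _
  have hk' : (0 : ℝ) < k := Nat.cast_pos.2 hk
  have h1 : (k : ℝ) ^ l = Real.exp (l * Real.log k) := by
    rw [Real.exp_nat_mul, Real.exp_log hk']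
  have hl' : (1 : ℝ) ≤ l := Nat.one_le_cast.2 hl
  refine (mul_le_mul_of_nonneg_right (tl_le _) (by positivity)).trans ?_
  rw [h1, mul_assoc, ← Real.exp_add]
  have h2 : Real.exp (1 / 2 - l * (Real.log k + 2) + l * Real.log k) ≤ Real.exp (-1) :=
    Real.exp_le_exp.2 (by nlinarith)
  have h3 : 2 * Real.exp (-1) ≤ 1 := by
    have h4 := Real.add_one_le_exp 1
    rw [Real.exp_neg, ← div_eq_mul_inv, div_le_one (Real.exp_pos 1)]
    linarith
  linarith

omit [Fintype ι] [DecidableEq ι] in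
lemma meas_sel (t : ℝ) : Measurable fun (γ : ι → ℝ) (i : ι) => decide (t < |γ i|) := by
  refine measurable_pi_lambda _ fun i => ?_
  refine measurable_to_bool ?_
  have : (fun γ : ι → ℝ => decide (t < |γ i|)) ⁻¹' {true} = (fun γ => γ i) ⁻¹' {x | t < |x|} := by
    ext γ
    simp
  rw [this]
  exact measurable_pi_apply i (meas_tail t)

lemma transfer (t : ℝ) (g : (ι → Bool) → ℝ) (hg : ∀ a, 0 ≤ g a) :
    ∫⁻ γ : ι → ℝ, ENNReal.ofReal (g fun i => decide (t < |γ i|))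
      ∂(Measure.pi fun _ : ι => gaussianReal 0 1) =
      ENNReal.ofReal (∑ a : ι → Bool, (∏ i, wt (tl t) (a i)) * g a) := by
  have hw := wt_nonneg (tl_nonneg t) (tl_le_one t)
  rw [← lintegral_map (f := fun a => ENNReal.ofReal (g a)) (measurable_of_finite _) (meas_sel t),
    lintegral_fintype, ENNReal.ofReal_sum_of_nonneg fun a _ =>
      mul_nonneg (Finset.prod_nonneg fun i _ => hw _) (hg a)]
  refine Finset.sum_congr rfl fun a _ => ?_
  rw [Measure.map_apply (meas_sel t) (measurableSet_singleton a), mul_comm,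
    ENNReal.ofReal_mul (Finset.prod_nonneg fun i _ => hw _),
    ENNReal.ofReal_prod_of_nonneg fun i _ => hw _]
  congr 1
  have h1 : (fun (γ : ι → ℝ) (i : ι) => decide (t < |γ i|)) ⁻¹' {a} =
      Set.univ.pi fun i => if a i then {x : ℝ | t < |x|} else {x : ℝ | t < |x|}ᶜ := by
    ext γ
    simp only [Set.mem_preimage, Set.mem_singleton_iff, funext_iff, Set.mem_pi, Set.mem_univ,
      true_imp_iff]
    refine forall_congr' fun i => ?_
    cases a i <;> simp
  rw [h1, Measure.pi_pi]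
  refine Finset.prod_congr rfl fun i _ => ?_
  cases a i
  · simp only [wt, tl, Bool.false_eq_true, if_false]
    rw [← probReal_compl_eq_one_sub (meas_tail t), ofReal_measureReal]
  · simp only [wt, tl, if_true]
    rw [ofReal_measureReal]

variable [NormedSpace ℝ W]

lemma G2_eq (y : ι → W) : G2 y = ∫⁻ γ : ι → ℝ, ENNReal.ofReal (R2 fun i => γ i • y i)
    ∂(Measure.pi fun _ : ι => gaussianReal 0 1) := by
  have hm : Measurable fun γ : ι → ℝ => ‖∑ i, γ i • y i‖ₑ ^ 2 :=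
    (ENNReal.continuous_pow 2).measurable.comp
      (Continuous.enorm (by fun_prop : Continuous fun γ : ι → ℝ => ∑ i, γ i • y i)).measurable
  have hT : ∀ s : ι → ℤˣ, MeasurePreserving (fun (γ : ι → ℝ) (i : ι) => ((s i : ℤ) : ℝ) * γ i)
      (Measure.pi fun _ : ι => gaussianReal 0 1) (Measure.pi fun _ : ι => gaussianReal 0 1) :=
    fun s => measurePreserving_pi (fun _ : ι => gaussianReal 0 1) (fun _ : ι => gaussianReal 0 1)
      (f := fun i x => ((s i : ℤ) : ℝ) * x) fun i => ⟨by fun_prop, by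
        rcases Int.units_eq_one_or (s i) with h | h
        · simp [h]
        · simpa [h] using gaussianReal_map_neg (μ := 0) (v := 1)⟩
  have h1 : ∀ (s : ι → ℤˣ) (γ : ι → ℝ), ‖∑ i, (((s i : ℤ) : ℝ) * γ i) • y i‖ₑ ^ 2 =
      ENNReal.ofReal (‖rs (fun i => γ i • y i) s‖ ^ 2) := fun s γ => by
    rw [ENNReal.ofReal_pow (norm_nonneg _), ofReal_norm]
    congr 2
    exact Finset.sum_congr rfl fun i _ => by rw [mul_smul, Int.cast_smul_eq_zsmul]
  have h2 : ∀ s : ι → ℤˣ, ∫⁻ γ : ι → ℝ, ENNReal.ofReal (‖rs (fun i => γ i • y i) s‖ ^ 2)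
      ∂(Measure.pi fun _ : ι => gaussianReal 0 1) = G2 y := fun s => by
    simp only [← h1]
    exact (hT s).lintegral_comp hm
  have h3 : ∀ s : ι → ℤˣ, Measurable fun γ : ι → ℝ =>
      ENNReal.ofReal (‖rs (fun i => γ i • y i) s‖ ^ 2) := fun s => by
    simp only [← h1]
    exact hm.comp (hT s).measurable
  have hN : ((2 : ENNReal) ^ Fintype.card ι) ≠ 0 := by positivity
  have hN' : ((2 : ENNReal) ^ Fintype.card ι) ≠ ⊤ := by finiteness
  have h4 : ∀ γ : ι → ℝ, ENNReal.ofReal (R2 fun i => γ i • y i) =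
      ((2 : ENNReal) ^ Fintype.card ι)⁻¹ *
        ∑ s : ι → ℤˣ, ENNReal.ofReal (‖rs (fun i => γ i • y i) s‖ ^ 2) := fun γ => by
    rw [R2, expect_eq_div, ENNReal.ofReal_div_of_pos (by positivity),
      ENNReal.ofReal_sum_of_nonneg fun s _ => by positivity, ENNReal.ofReal_pow (by norm_num),
      ENNReal.ofReal_ofNat, ENNReal.div_eq_inv_mul]
  simp only [h4]
  rw [lintegral_const_mul' _ _ (ENNReal.inv_ne_top.2 hN), lintegral_finsetSum _ fun s _ => h3 s]
  simp only [h2, Finset.sum_const, Finset.card_univ, card_signs, nsmul_eq_mul, Nat.cast_pow,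
    Nat.cast_ofNat]
  rw [← mul_assoc, ENNReal.inv_mul_cancel hN hN', one_mul]

lemma lower (y : ι → W) : ENNReal.ofReal (tl 1 ^ 2 * R2 y) ≤ G2 y := by
  refine (ENNReal.ofReal_le_ofReal (le_F (tl_nonneg 1) (tl_le_one 1) y)).trans ?_
  rw [G2_eq, F, ← transfer 1 (fun a => R2 (cut y a)) fun a => R2_nonneg _]
  exact lintegral_mono fun γ => ENNReal.ofReal_le_ofReal (R2_cut_le_gauss γ y)

lemma upper {k : ℕ} (hk : 0 < k) (h : ∀ w : Fin k → W, ∑ l, ‖w l‖ ^ 2 ≤ (k : ℝ) / 4 * R2 w)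
    (y : ι → W) : G2 y ≤ ENNReal.ofReal (4 * (Real.log k + 2) ^ 2 * R2 y) := by
  set b := Real.log k + 2 with hb
  have hb0 : 0 < b := by
    have := Real.log_natCast_nonneg k
    linarith
  have hg : ∀ (l : ℕ) (a : ι → Bool), 0 ≤ 2 ^ (l + 1) * b ^ 2 * R2 (cut y a) := fun l a =>
    mul_nonneg (by positivity) (R2_nonneg _)
  have h1 : ∀ γ : ι → ℝ, ENNReal.ofReal (R2 fun i => γ i • y i) ≤ ∑' l : ℕ,
      ENNReal.ofReal (2 ^ (l + 1) * b ^ 2 * R2 (cut y fun i => decide (l * b < |γ i|))) :=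
    fun γ => by
      obtain ⟨L, hL⟩ := exists_levels hb0 γ y
      refine (ENNReal.ofReal_le_ofReal hL).trans ?_
      rw [ENNReal.ofReal_sum_of_nonneg fun l _ => hg l _]
      exact ENNReal.sum_le_tsum _
  rw [G2_eq]
  refine (lintegral_mono h1).trans ?_
  have hm : ∀ l : ℕ, Measurable fun γ : ι → ℝ =>
      ENNReal.ofReal (2 ^ (l + 1) * b ^ 2 * R2 (cut y fun i => decide (l * b < |γ i|))) :=
    fun l => (measurable_of_finite fun a : ι → Bool =>
      ENNReal.ofReal (2 ^ (l + 1) * b ^ 2 * R2 (cut y a))).comp (meas_sel (l * b))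
  rw [lintegral_tsum fun l => (hm l).aemeasurable]
  have hR := R2_nonneg y
  have h2 : ∀ l : ℕ, ∫⁻ γ : ι → ℝ,
      ENNReal.ofReal (2 ^ (l + 1) * b ^ 2 * R2 (cut y fun i => decide (l * b < |γ i|)))
      ∂(Measure.pi fun _ : ι => gaussianReal 0 1) ≤
      ENNReal.ofReal (2 * b ^ 2 * R2 y * (1 / 2) ^ l) := fun l => by
    rw [transfer (l * b) (fun a => 2 ^ (l + 1) * b ^ 2 * R2 (cut y a)) (hg l)]
    refine ENNReal.ofReal_le_ofReal ?_
    have h3 : ∑ a : ι → Bool, (∏ i, wt (tl (l * b)) (a i)) * (2 ^ (l + 1) * b ^ 2 * R2 (cut y a)) =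
        2 ^ (l + 1) * b ^ 2 * F (tl (l * b)) y := by
      rw [F, Finset.mul_sum]
      exact Finset.sum_congr rfl fun a _ => by ring
    rw [h3]
    refine (mul_le_mul_of_nonneg_left (F_pow hk h y l _ (tl_nonneg _) (tl_level hk l))
      (by positivity)).trans (le_of_eq ?_)
    have h4 : (4 : ℝ) ^ l = 2 ^ l * 2 ^ l := by rw [← mul_pow]; norm_num
    rw [h4, one_div_pow, pow_succ]
    field_simp
  refine (ENNReal.tsum_le_tsum h2).trans (ENNReal.tsum_le_of_sum_range_le fun n => ?_)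
  rw [← ENNReal.ofReal_sum_of_nonneg fun l _ => by positivity, ← Finset.mul_sum]
  refine ENNReal.ofReal_le_ofReal ?_
  have h5 := mul_le_mul_of_nonneg_left (sum_geometric_two_le n)
    (by positivity : 0 ≤ 2 * b ^ 2 * R2 y)
  linarith

end Gauss

end R2x

theorem rinv_real {W : Type*} [NormedAddCommGroup W] [NormedSpace ℝ W] {k : ℕ} (hk : 0 < k)
    (h : ∀ w : Fin k → W, ∑ l, ‖w l‖ ^ 2 ≤ (k : ℝ) / 4 * R2 w) :
    ∃ C, 0 ≤ C ∧ RInv ℝ W C := by
  have hp := R2x.tl_one_pos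
  have hb := Real.log_natCast_nonneg k
  refine ⟨2 * (Real.log k + 2) / R2x.tl 1, by positivity, fun α β _ _ _ _ c hc y => ?_⟩
  have h1 := (R2x.lower _).trans ((G2_contr c hc y).trans (R2x.upper hk h y))
  have hR := R2_nonneg y
  rw [ENNReal.ofReal_le_ofReal_iff (by positivity)] at h1
  rw [div_pow, div_mul_eq_mul_div, le_div_iff₀ (by positivity)]
  nlinarith

end Pool.Agent.Lib.MP_f92ad0_an.Mep

/-! Dvoretzky-Rogers: weakly bounded families with a large Rademacher mean. -/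

namespace Pool.Agent.Lib.MP_f92ad0_an.Mep

open Finset
open scoped BigOperators

namespace D0

variable {𝕜 : Type} [RCLike 𝕜] {X : Type*} [NormedAddCommGroup X] [NormedSpace 𝕜 X]

lemma norm_sum_sq {E κ : Type*} [NormedAddCommGroup E] [InnerProductSpace 𝕜 E] {v : κ → E}
    (hv : Orthonormal 𝕜 v) (s : Finset κ) (a : κ → 𝕜) :
    ‖∑ i ∈ s, a i • v i‖ ^ 2 = ∑ i ∈ s, ‖a i‖ ^ 2 := by
  have h := hv.inner_sum a a s
  rw [inner_self_eq_norm_sq_to_K] at h
  simp only [RCLike.conj_mul] at h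
  exact_mod_cast h

section Max

variable {E : Type*} [NormedAddCommGroup E] [InnerProductSpace 𝕜 E] [FiniteDimensional 𝕜 E]

/-- An admissible operator with maximal determinant. -/
lemma exists_max (B : E →ₗ[𝕜] X) (hB : LinearMap.ker B = ⊥) :
    ∃ M : E →L[𝕜] E, (∀ h, ‖B (M h)‖ ≤ ‖h‖) ∧
      ∀ D : E →L[𝕜] E, (∀ h, ‖B (M (D h))‖ ≤ ‖h‖) → ‖D.det‖ ≤ 1 := by
  have : ProperSpace (E →L[𝕜] E) := FiniteDimensional.proper_rclike 𝕜 _
  obtain ⟨K, -, hK⟩ := B.exists_antilipschitzWith hB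
  have Bc : Continuous B := B.continuous_of_finiteDimensional
  let S : Set (E →L[𝕜] E) := {M | ∀ h, ‖B (M h)‖ ≤ ‖h‖}
  have hc : IsClosed S := by
    have : S = ⋂ h, {M : E →L[𝕜] E | ‖B (M h)‖ ≤ ‖h‖} := by ext M; simp [S]
    rw [this]
    exact isClosed_iInter fun h => isClosed_le (by fun_prop) continuous_const
  have hb : S ⊆ Metric.closedBall 0 K := fun M hM => by
    rw [mem_closedBall_zero_iff]
    refine M.opNorm_le_bound K.2 fun h => ?_
    exact (ZeroHomClass.bound_of_antilipschitz B hK (M h)).trans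
      (mul_le_mul_of_nonneg_left (hM h) K.2)
  have hS : IsCompact S := (isCompact_closedBall 0 (K : ℝ)).of_isClosed_subset hc hb
  obtain ⟨c, hc0, hcB⟩ : ∃ c : ℝ, 0 < c ∧ ∀ h, ‖B h‖ ≤ c * ‖h‖ :=
    (LinearMap.toContinuousLinearMap B).bound
  have h0 : ((c⁻¹ : ℝ) : 𝕜) • ContinuousLinearMap.id 𝕜 E ∈ S := fun h => by
    simp only [_root_.smul_apply, ContinuousLinearMap.id_apply, map_smul, norm_smul,
      RCLike.norm_ofReal, abs_of_pos (inv_pos.2 hc0)]
    rw [inv_mul_le_iff₀ hc0]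
    exact hcB h
  obtain ⟨M, hM, hmax⟩ := hS.exists_isMaxOn ⟨_, h0⟩
    (ContinuousLinearMap.continuous_det (𝕜 := 𝕜) (E := E)).norm.continuousOn
  have hpos : 0 < ‖M.det‖ := by
    refine lt_of_lt_of_le ?_ (hmax h0)
    have : (((c⁻¹ : ℝ) : 𝕜) • ContinuousLinearMap.id 𝕜 E).det =
        ((c⁻¹ : ℝ) : 𝕜) ^ Module.finrank 𝕜 E := by
      simp [ContinuousLinearMap.det]
    simp only [this, norm_pow, RCLike.norm_ofReal]
    exact pow_pos (abs_pos.2 (inv_pos.2 hc0).ne') _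
  refine ⟨M, hM, fun D hD => ?_⟩
  have h1 : ‖(M.comp D).det‖ ≤ ‖M.det‖ := hmax (show M.comp D ∈ S from hD)
  have h2 : (M.comp D).det = M.det * D.det := LinearMap.det_comp _ _
  rw [h2, norm_mul] at h1
  exact (mul_le_iff_le_one_right hpos).1 h1

/-- One more vector of large image. -/
lemma exists_unit {ι : Type*} [Fintype ι] [DecidableEq ι] (T : E →ₗ[𝕜] X)
    (hT : ∀ h, ‖T h‖ ≤ ‖h‖)
    (hD : ∀ D : E →L[𝕜] E, (∀ h, ‖T (D h)‖ ≤ ‖h‖) → ‖D.det‖ ≤ 1)
    (b : OrthonormalBasis ι 𝕜 E) (s : Finset ι) (hs : s.card < sᶜ.card) :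
    ∃ u : E, (∀ i ∈ s, inner 𝕜 (b i) u = 0) ∧ ‖u‖ = 1 ∧ 1 / 4 ≤ ‖T u‖ := by
  by_contra hn
  push Not at hn
  have small : ∀ u : E, (∀ i ∈ s, inner 𝕜 (b i) u = 0) → ‖T u‖ ≤ ‖u‖ / 4 := by
    intro u hu
    rcases eq_or_ne u 0 with rfl | h0
    · simp
    have hp : 0 < ‖u‖ := norm_pos_iff.2 h0
    have := hn (((‖u‖⁻¹ : ℝ) : 𝕜) • u) (fun i hi => by rw [inner_smul_right, hu i hi, mul_zero])
      (by rw [norm_smul, RCLike.norm_ofReal, abs_of_pos (inv_pos.2 hp), inv_mul_cancel₀ hp.ne'])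
    rw [map_smul, norm_smul, RCLike.norm_ofReal, abs_of_pos (inv_pos.2 hp),
      inv_mul_lt_iff₀ hp] at this
    linarith
  let d : ι → ℝ := fun i => if i ∈ s then 3 / 4 else 2
  let D : E →ₗ[𝕜] E := b.toBasis.constr 𝕜 fun i => (d i : 𝕜) • b i
  have hdet : LinearMap.det D = ∏ i, (d i : 𝕜) := by
    rw [← LinearMap.det_toMatrix b.toBasis, ← Matrix.det_diagonal]
    congr 1
    ext i j
    rw [LinearMap.toMatrix_apply]
    simp only [D, Module.Basis.constr_basis, map_smul, Finsupp.smul_apply, smul_eq_mul]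
    rw [← b.coe_toBasis, Module.Basis.repr_self, Finsupp.single_apply, Matrix.diagonal_apply]
    by_cases h : i = j
    · subst h; simp
    · simp [h, Ne.symm h]
  have h1 := hD (LinearMap.toContinuousLinearMap D) fun h => by
    obtain ⟨c, hc⟩ : ∃ c : ι → 𝕜, h = ∑ i, c i • b i := ⟨_, (b.sum_repr h).symm⟩
    have e1 : D h = ((3 / 4 : ℝ) : 𝕜) • ∑ i ∈ s, c i • b i +
        ((2 : ℝ) : 𝕜) • ∑ i ∈ sᶜ, c i • b i := by
      have : ∀ i, D (b i) = (d i : 𝕜) • b i := fun i => by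
        simp only [D]; rw [← b.coe_toBasis, Module.Basis.constr_basis]
      rw [hc, map_sum, ← sum_add_sum_compl s, smul_sum, smul_sum]
      congr 1
      · refine sum_congr rfl fun i hi => ?_
        rw [map_smul, this, smul_comm]; simp only [d, if_pos hi]
      · refine sum_congr rfl fun i hi => ?_
        rw [map_smul, this, smul_comm]; simp only [d, if_neg (mem_compl.1 hi)]
    have e2 : ‖h‖ ^ 2 = ‖∑ i ∈ s, c i • b i‖ ^ 2 + ‖∑ i ∈ sᶜ, c i • b i‖ ^ 2 := by
      rw [norm_sum_sq b.orthonormal, norm_sum_sq b.orthonormal, sum_add_sum_compl, hc,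
        norm_sum_sq b.orthonormal]
    have e3 := small (∑ i ∈ sᶜ, c i • b i) fun i hi => by
      rw [inner_sum]
      refine sum_eq_zero fun j hj => ?_
      rw [inner_smul_right, b.orthonormal.2 (fun e : i = j => mem_compl.1 hj (e ▸ hi)), mul_zero]
    have e4 := hT (∑ i ∈ s, c i • b i)
    show ‖T (D h)‖ ≤ ‖h‖
    rw [e1, map_add, map_smul, map_smul]
    refine (norm_add_le _ _).trans ?_
    rw [norm_smul, norm_smul, RCLike.norm_ofReal, RCLike.norm_ofReal, abs_of_pos (by norm_num),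
      abs_of_pos (by norm_num)]
    generalize ‖∑ i ∈ s, c i • b i‖ = p at e2 e4
    generalize ‖∑ i ∈ sᶜ, c i • b i‖ = q at e2 e3
    have h5 : 3 / 4 * p + q / 2 ≤ ‖h‖ :=
      (abs_le_of_sq_le_sq' (by nlinarith [sq_nonneg (p / 2 - 3 / 4 * q), sq_nonneg p, sq_nonneg q])
        (norm_nonneg h)).2
    linarith
  have h2 : ‖(LinearMap.toContinuousLinearMap D).det‖ = (3 / 4) ^ s.card * 2 ^ sᶜ.card := by
    show ‖LinearMap.det D‖ = _
    rw [hdet, norm_prod, ← prod_mul_prod_compl s, ← prod_const, ← prod_const]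
    congr 1
    · refine prod_congr rfl fun i hi => ?_
      rw [RCLike.norm_ofReal]; simp only [d, if_pos hi]; norm_num
    · refine prod_congr rfl fun i hi => ?_
      rw [RCLike.norm_ofReal]; simp only [d, if_neg (mem_compl.1 hi)]; norm_num
  rw [h2] at h1
  have h3 : (2 : ℝ) ^ (s.card + 1) ≤ 2 ^ sᶜ.card := pow_le_pow_right₀ (by norm_num) hs
  have h4 : (1 : ℝ) ≤ (3 / 4) ^ s.card * 2 ^ s.card := by
    rw [← mul_pow]; exact one_le_pow₀ (by norm_num)
  have h5 : (0 : ℝ) < (3 / 4) ^ s.card := by positivity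
  rw [pow_succ] at h3
  nlinarith

lemma exists_basis {N : ℕ} (hE : Module.finrank 𝕜 E = 2 * N) (T : E →ₗ[𝕜] X)
    (hT : ∀ h, ‖T h‖ ≤ ‖h‖)
    (hD : ∀ D : E →L[𝕜] E, (∀ h, ‖T (D h)‖ ≤ ‖h‖) → ‖D.det‖ ≤ 1) :
    ∀ k ≤ N, ∃ (s : Finset (Fin (2 * N))) (b : OrthonormalBasis (Fin (2 * N)) 𝕜 E),
      s.card = k ∧ ∀ i ∈ s, 1 / 4 ≤ ‖T (b i)‖ := by
  have hc : Module.finrank 𝕜 E = Fintype.card (Fin (2 * N)) := by simpa using hE
  intro k
  induction k with
  | zero => exact fun _ => ⟨∅, (stdOrthonormalBasis 𝕜 E).reindex (finCongr hE), rfl, by simp⟩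
  | succ k ih =>
    intro hk
    obtain ⟨s, b, hs, hb⟩ := ih (by omega)
    have hlt : s.card < sᶜ.card := by rw [card_compl, Fintype.card_fin]; omega
    obtain ⟨u, u1, u2, u3⟩ := exists_unit T hT hD b s hlt
    obtain ⟨i0, hi0⟩ : sᶜ.Nonempty := card_pos.1 (by omega)
    rw [mem_compl] at hi0
    have hne : ∀ i ∈ s, i ≠ i0 := fun i hi e => hi0 (e ▸ hi)
    have ho : Orthonormal 𝕜 (((insert i0 s : Finset (Fin (2 * N))) : Set (Fin (2 * N))).domRestrict
        (Function.update (⇑b) i0 u)) := by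
      constructor
      · rintro ⟨i, hi⟩
        rcases eq_or_ne i i0 with rfl | h
        · simpa using u2
        · simp [Function.update_of_ne h]
      · rintro ⟨i, hi⟩ ⟨j, hj⟩ hij
        have hij' : i ≠ j := fun e => hij (Subtype.ext e)
        have hi' : i = i0 ∨ i ∈ s := mem_insert.1 hi
        have hj' : j = i0 ∨ j ∈ s := mem_insert.1 hj
        show inner 𝕜 (Function.update (⇑b) i0 u i) (Function.update (⇑b) i0 u j) = 0
        rcases hi' with hi' | hi'
        · have hj2 := hj'.resolve_left fun e => hij' (hi'.trans e.symm)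
          rw [hi', Function.update_self, Function.update_of_ne (hne j hj2), ← inner_conj_symm,
            u1 j hj2, map_zero]
        · rw [Function.update_of_ne (hne i hi')]
          rcases hj' with hj' | hj'
          · rw [hj', Function.update_self, u1 i hi']
          · rw [Function.update_of_ne (hne j hj')]
            exact b.orthonormal.2 hij'
    obtain ⟨b', hb'⟩ := ho.exists_orthonormalBasis_extension_of_card_eq hc
    refine ⟨insert i0 s, b', by rw [card_insert_of_notMem hi0, hs], fun i hi => ?_⟩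
    rw [hb' i (mem_coe.2 hi)]
    rcases mem_insert.1 hi with rfl | hi
    · rwa [Function.update_self]
    · rw [Function.update_of_ne (hne i hi)]; exact hb i hi

end Max

/-- The Dvoretzky-Rogers lemma. -/
lemma dr (X' : Submodule 𝕜 X) (hX' : ¬ FiniteDimensional 𝕜 X') (N : ℕ) :
    ∃ x : Fin N → X, (∀ i, x i ∈ X') ∧
      (∀ a : Fin N → 𝕜, ‖∑ i, a i • x i‖ ^ 2 ≤ ∑ i, ‖a i‖ ^ 2) ∧ ∀ i, 1 / 4 ≤ ‖x i‖ := by
  have hr : ((2 * N : ℕ) : Cardinal) ≤ Module.rank 𝕜 X' :=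
    (Cardinal.natCast_lt_aleph0).le.trans
      (not_lt.1 fun h => hX' (Module.rank_lt_aleph0_iff.1 h))
  obtain ⟨v, hv⟩ := Module.le_rank_iff.1 hr
  let B0 : EuclideanSpace 𝕜 (Fin (2 * N)) →ₗ[𝕜] X' :=
    Fintype.linearCombination 𝕜 v ∘ₗ (WithLp.linearEquiv 2 𝕜 (Fin (2 * N) → 𝕜)).toLinearMap
  have hB : LinearMap.ker (X'.subtype ∘ₗ B0) = ⊥ :=
    LinearMap.ker_eq_bot.2 (Subtype.val_injective.comp
      (hv.fintypeLinearCombination_injective.comp (WithLp.linearEquiv 2 𝕜 _).injective))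
  obtain ⟨M, hM, hD⟩ := exists_max (X'.subtype ∘ₗ B0) hB
  obtain ⟨s, b, hs, hb⟩ := exists_basis (N := N) (by simp)
    ((X'.subtype ∘ₗ B0) ∘ₗ M.toLinearMap) hM hD N le_rfl
  let e : Fin N ≃ s := (s.equivFinOfCardEq hs).symm
  refine ⟨fun i => ((X'.subtype ∘ₗ B0) ∘ₗ M.toLinearMap) (b (e i)), fun i => (B0 _).2,
    fun a => ?_, fun i => hb _ (e i).2⟩
  have ho : Orthonormal 𝕜 fun i => b (e i) :=
    b.orthonormal.comp _ (Subtype.val_injective.comp e.injective)
  simp only [← map_smul]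
  rw [← map_sum, ← norm_sum_sq ho]
  exact pow_le_pow_left₀ (norm_nonneg _) (hM _) 2

/-- Repeating the vectors increases the Rademacher mean. -/
lemma repeat_le (𝕜 : Type) [RCLike 𝕜] [NormedSpace 𝕜 X] {N N' : ℕ} (x : Fin N → X)
    (hx : ∀ i, 1 / 4 ≤ ‖x i‖) (hN : (1 - (1 / 2 : ℝ) ^ N') ^ N ≤ 1 / 2) :
    (N' : ℝ) ^ 2 / 32 ≤ R2 fun p : Fin N × Fin N' => x p.1 := by
  let σ : (Fin N × Fin N' → ℤˣ) → Fin N → ℤ := fun ε i => ∑ r, (ε (i, r) : ℤ)
  let g : (Fin N' → ℤˣ) → ℝ := fun ω => if ω = 1 then 0 else 1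
  have e1 : ∀ (s : Fin N → ℤˣ) (ε : Fin N × Fin N' → ℤˣ),
      rs (fun p : Fin N × Fin N' => x p.1) ((fun p => s p.1) * ε) =
        rs (fun i => σ ε i • x i) s := by
    intro s ε
    simp only [rs, σ, Fintype.sum_prod_type, Pi.mul_apply, Units.val_mul, mul_smul, sum_smul,
      smul_sum]
  have e2 : (R2 fun p : Fin N × Fin N' => x p.1) =
      𝔼 ε : Fin N × Fin N' → ℤˣ, R2 fun i => σ ε i • x i := by
    simp only [R2, ← e1]
    rw [Finset.expect_comm]
    simp only [expect_mul_left _ fun ε => ‖rs (fun p : Fin N × Fin N' => x p.1) ε‖ ^ 2]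
    rw [Finset.expect_const univ_nonempty]
  have e3 : ∀ ε : Fin N × Fin N' → ℤˣ,
      (N' : ℝ) ^ 2 / 16 * (1 - ∏ i, g fun r => ε (i, r)) ≤ R2 fun i => σ ε i • x i := by
    intro ε
    by_cases h : ∃ i, (fun r => ε (i, r)) = 1
    · obtain ⟨i, hi⟩ := h
      rw [prod_eq_zero (mem_univ i) (by simp only [g, if_pos hi])]
      refine le_trans ?_ (norm_sq_le_R2 𝕜 _ i)
      have : σ ε i = N' := by
        have h1 : ∀ r, ε (i, r) = 1 := fun r => congrFun hi r
        simp [σ, h1]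
      rw [this, natCast_zsmul, ← Nat.cast_smul_eq_nsmul 𝕜, norm_smul, RCLike.norm_natCast, mul_pow]
      have h2 : (1 / 4 : ℝ) ^ 2 ≤ ‖x i‖ ^ 2 := pow_le_pow_left₀ (by norm_num) (hx i) 2
      nlinarith [sq_nonneg (N' : ℝ)]
    · push Not at h
      rw [prod_eq_one fun i _ => by simp only [g, if_neg (h i)], sub_self, mul_zero]
      exact R2_nonneg _
  have e4 : 𝔼 ε : Fin N × Fin N' → ℤˣ, ∏ i, g (fun r => ε (i, r)) =
      (1 - (1 / 2 : ℝ) ^ N') ^ N := by
    have h1 : ∑ ω, g ω = 2 ^ N' - 1 := by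
      have : ∀ ω, g ω = 1 - if ω = 1 then 1 else 0 := fun ω => by
        simp only [g]; split_ifs <;> norm_num
      simp only [this, sum_sub_distrib, sum_const, card_univ, card_signs, Fintype.card_fin,
        sum_ite_eq', mem_univ, if_true]
      simp
    rw [expect_eq_div, Fintype.sum_equiv (Equiv.curry (Fin N) (Fin N') ℤˣ)
      (fun ε => ∏ i, g fun r => ε (i, r)) (fun η => ∏ i, g (η i)) fun ε => rfl, ← Fintype.sum_pow, h1, Fintype.card_prod,
      Fintype.card_fin, Fintype.card_fin, mul_comm N, pow_mul, ← div_pow]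
    congr 1
    rw [one_div, inv_pow]
    field_simp
  rw [e2]
  refine le_trans ?_ (Finset.expect_le_expect fun ε _ => e3 ε)
  rw [← Finset.mul_expect, Finset.expect_sub_distrib, e4, Finset.expect_const univ_nonempty]
  nlinarith [sq_nonneg (N' : ℝ)]

end D0

theorem exists_large {𝕜 : Type} [RCLike 𝕜] {X : Type*} [NormedAddCommGroup X] [NormedSpace 𝕜 X]
    {C : ℝ} (hR : RInv 𝕜 X C) (X' : Submodule 𝕜 X) (hX' : ¬ FiniteDimensional 𝕜 X') (Λ : ℝ) :
    ∃ (n : ℕ) (x : Fin n → X), (∀ i, x i ∈ X') ∧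
      (∀ a : Fin n → 𝕜, ‖∑ i, a i • x i‖ ^ 2 ≤ ∑ i, ‖a i‖ ^ 2) ∧ Λ ≤ R2 x := by
  obtain ⟨N', hN'⟩ := exists_nat_gt (32 * (C ^ 2 * |Λ|))
  have hp : (0 : ℝ) < N' := lt_of_le_of_lt (by positivity) hN'
  obtain ⟨N, hN⟩ := exists_pow_lt_of_lt_one (x := (1 / 2 : ℝ)) (y := 1 - (1 / 2 : ℝ) ^ N')
    (by norm_num) (sub_lt_self _ (by positivity))
  obtain ⟨x, x1, x2, x3⟩ := D0.dr X' hX' N
  refine ⟨N, x, x1, x2, ?_⟩
  have h1 := D0.repeat_le 𝕜 x x3 hN.le
  obtain ⟨t, ht⟩ : ∃ t : 𝕜, ‖t‖ ^ 2 = (N' : ℝ)⁻¹ :=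
    ⟨((√((N' : ℝ)⁻¹) : ℝ) : 𝕜), by
      rw [RCLike.norm_ofReal, sq_abs, Real.sq_sqrt (by positivity)]⟩
  have h2 := hR (Fin N) (Fin N × Fin N') (fun p i => if p.1 = i then t else 0) (fun v => by
    simp only [ite_mul, zero_mul, sum_ite_eq, mem_univ, if_true, norm_mul, mul_pow, ht,
      Fintype.sum_prod_type, sum_const, card_univ, Fintype.card_fin, nsmul_eq_mul]
    refine le_of_eq (sum_congr rfl fun i _ => ?_)
    field_simp) x
  simp only [ite_smul, zero_smul, sum_ite_eq, mem_univ, if_true] at h2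
  rw [R2_smul, ht] at h2
  have h3 : (N' : ℝ) / 32 ≤ C ^ 2 * R2 x := by
    refine le_trans ?_ h2
    rw [le_inv_mul_iff₀ hp]
    linarith
  have h4 : C ^ 2 * |Λ| < C ^ 2 * R2 x := by linarith
  exact (le_abs_self Λ).trans (lt_of_mul_lt_mul_left h4 (sq_nonneg C)).le

end Pool.Agent.Lib.MP_f92ad0_an.Mep

/-! Isomorphic Dvoretzky theorem. -/

namespace Pool.Agent.Lib.MP_f92ad0_an.Mep

open Finset
open scoped BigOperators

namespace D1

section Cube

variable {κ : Type*} [Fintype κ] [DecidableEq κ]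

omit [Fintype κ] in
lemma flip_flip (i : κ) (ε : κ → ℤˣ) : flip i * (flip i * ε) = ε := by
  funext j
  by_cases hj : j = i
  · subst hj; simp [flip_same]
  · simp [flip_ne hj]

/-- The energy of `F` in direction `i`. -/
noncomputable def en (F : (κ → ℤˣ) → ℝ) (i : κ) : ℝ :=
  𝔼 ε : κ → ℤˣ, (F ε - F (flip i * ε)) ^ 2

lemma en_av_le (F : (κ → ℤˣ) → ℝ) (i j : κ) :
    en (fun ε => (F ε + F (flip i * ε)) / 2) j ≤ en F j := by
  unfold en
  rw [expect_flip i (fun ε => (F ε - F (flip j * ε)) ^ 2)]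
  refine Finset.expect_le_expect fun ε _ => ?_
  have h : flip i * (flip j * ε) = flip j * (flip i * ε) := mul_left_comm _ _ _
  simp only [h]
  nlinarith [sq_nonneg ((F ε - F (flip j * ε)) - (F (flip i * ε) - F (flip j * (flip i * ε))))]

lemma poincare_aux (s : Finset κ) : ∀ F : (κ → ℤˣ) → ℝ,
    (∀ ε η : κ → ℤˣ, (∀ i ∈ s, ε i = η i) → F ε = F η) →
    𝔼 ε, F ε ^ 2 ≤ (𝔼 ε, F ε) ^ 2 + 1 / 4 * ∑ i ∈ s, en F i := by
  induction s using Finset.induction_on with
  | empty =>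
    intro F hF
    have h : ∀ ε, F ε = F 1 := fun ε => hF ε 1 (by simp)
    simp [h]
  | insert i s hi ih =>
    intro F hF
    set G : (κ → ℤˣ) → ℝ := fun ε => (F ε + F (flip i * ε)) / 2 with hG
    have hGs : ∀ ε η : κ → ℤˣ, (∀ j ∈ s, ε j = η j) → G ε = G η := by
      intro ε η h
      have hne : ∀ j ∈ s, j ≠ i := fun j hj e => hi (e ▸ hj)
      rcases Int.units_eq_one_or (ε i * η i) with h1 | h1
      · have h2 : ε i = η i := by
          rcases Int.units_eq_one_or (ε i) with a | a <;>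
            rcases Int.units_eq_one_or (η i) with b | b <;> simp_all
        have h3 : ∀ j ∈ insert i s, ε j = η j := by
          intro j hj
          rcases Finset.mem_insert.1 hj with rfl | hj
          · exact h2
          · exact h j hj
        have h4 : F ε = F η := hF _ _ h3
        have h5 : F (flip i * ε) = F (flip i * η) :=
          hF _ _ fun j hj => by simp only [Pi.mul_apply, h3 j hj]
        simp only [hG, h4, h5]
      · have h2 : ε i = - η i := by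
          rcases Int.units_eq_one_or (ε i) with a | a <;>
            rcases Int.units_eq_one_or (η i) with b | b <;> simp_all
        have h4 : F ε = F (flip i * η) := hF _ _ fun j hj => by
          rcases Finset.mem_insert.1 hj with rfl | hj
          · simp [flip_same, h2]
          · simp [flip_ne (hne j hj), h j hj]
        have h5 : F (flip i * ε) = F η := hF _ _ fun j hj => by
          rcases Finset.mem_insert.1 hj with rfl | hj
          · simp [flip_same, h2]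
          · simp [flip_ne (hne j hj), h j hj]
        simp only [hG, h4, h5, add_comm]
    have h1 := ih G hGs
    have h2 : 𝔼 ε, G ε = 𝔼 ε, F ε := (expect_flip i F).symm
    have h3 : 𝔼 ε, F ε ^ 2 = 𝔼 ε, G ε ^ 2 + 1 / 4 * en F i := by
      rw [expect_flip i (fun ε => F ε ^ 2)]
      unfold en
      rw [Finset.mul_expect, ← Finset.expect_add_distrib]
      refine Finset.expect_congr rfl fun ε _ => ?_
      simp only [hG]
      ring
    have h4 : ∑ j ∈ s, en G j ≤ ∑ j ∈ s, en F j :=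
      Finset.sum_le_sum fun j _ => en_av_le F i j
    rw [Finset.sum_insert hi, h3, ← h2]
    linarith

/-- The Poincare inequality on the discrete cube. -/
lemma poincare (F : (κ → ℤˣ) → ℝ) :
    𝔼 ε, F ε ^ 2 ≤ (𝔼 ε, F ε) ^ 2 + 1 / 4 * ∑ i, en F i :=
  poincare_aux univ F fun ε η h => by
    rw [show ε = η from funext fun i => h i (Finset.mem_univ i)]

end Cube

section Var

variable {𝕜 : Type*} [RCLike 𝕜] {X : Type*} [NormedAddCommGroup X] [NormedSpace 𝕜 X]
  {κ : Type*} [Fintype κ] [DecidableEq κ]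

/-- Variance of the norm of a Rademacher sum of a weakly bounded family. -/
lemma var_le (v : κ → X) (hv : ∀ ξ : StrongDual 𝕜 X, ‖ξ‖ ≤ 1 → ∑ k, ‖ξ (v k)‖ ^ 2 ≤ 1) :
    R2 v ≤ R1 v ^ 2 + 2 := by
  choose ξ hξ1 hξ2 using fun ε : κ → ℤˣ => exists_dual_vector'' 𝕜 (rs v ε)
  have h1 : ∀ (i : κ) (ε : κ → ℤˣ),
      ‖rs v ε‖ - ‖rs v (flip i * ε)‖ ≤ 2 * ‖ξ ε (v i)‖ := by
    intro i ε
    have a1 : ‖ξ ε (rs v ε)‖ = ‖rs v ε‖ := by rw [hξ2]; simp
    have a2 : ‖ξ ε (rs v (flip i * ε))‖ ≤ ‖rs v (flip i * ε)‖ :=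
      ((ξ ε).le_opNorm _).trans (mul_le_of_le_one_left (norm_nonneg _) (hξ1 ε))
    have a3 : ξ ε (rs v ε) - ξ ε (rs v (flip i * ε)) = 2 • ((ε i : ℤ) • ξ ε (v i)) := by
      rw [← map_sub, rs_flip, sub_sub_cancel, map_nsmul, map_zsmul]
    have a4 := norm_sub_norm_le (ξ ε (rs v ε)) (ξ ε (rs v (flip i * ε)))
    rw [a3, RCLike.norm_nsmul 𝕜, norm_units_smul] at a4
    simp only [nsmul_eq_mul, Nat.cast_ofNat] at a4
    linarith
  have h2 : ∀ i : κ, en (fun ε => ‖rs v ε‖) i ≤ 8 * 𝔼 ε, ‖ξ ε (v i)‖ ^ 2 := by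
    intro i
    unfold en
    rw [expect_flip i (fun ε => ‖ξ ε (v i)‖ ^ 2), Finset.mul_expect]
    refine Finset.expect_le_expect fun ε _ => ?_
    have b1 := h1 i ε
    have b2 := h1 i (flip i * ε)
    rw [flip_flip] at b2
    have p1 := norm_nonneg (ξ ε (v i))
    have p2 := norm_nonneg (ξ (flip i * ε) (v i))
    rcases le_total (‖rs v ε‖ - ‖rs v (flip i * ε)‖) 0 with c | c
    · nlinarith
    · nlinarith
  have h3 : ∑ i, en (fun ε => ‖rs v ε‖) i ≤ 8 := by
    refine (Finset.sum_le_sum fun i _ => h2 i).trans ?_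
    rw [← Finset.mul_sum, ← Finset.expect_sum_comm]
    have : 𝔼 ε : κ → ℤˣ, ∑ i, ‖ξ ε (v i)‖ ^ 2 ≤ 1 :=
      Finset.expect_le Finset.univ_nonempty fun ε _ => hv _ (hξ1 ε)
    linarith
  have h4 := poincare (fun ε : κ → ℤˣ => ‖rs v ε‖)
  unfold R2 R1
  linarith

omit [DecidableEq κ] in
lemma weak_of_bound (x : κ → X) (hx : ∀ a : κ → 𝕜, ‖∑ i, a i • x i‖ ^ 2 ≤ ∑ i, ‖a i‖ ^ 2)
    (ξ : StrongDual 𝕜 X) (hξ : ‖ξ‖ ≤ 1) : ∑ k, ‖ξ (x k)‖ ^ 2 ≤ 1 := by
  set S := ∑ k, ‖ξ (x k)‖ ^ 2 with hS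
  have hS0 : 0 ≤ S := by positivity
  have h1 := hx fun i => (starRingEnd 𝕜) (ξ (x i))
  simp only [RCLike.norm_conj] at h1
  have h2 : ξ (∑ i, (starRingEnd 𝕜) (ξ (x i)) • x i) = (S : 𝕜) := by
    simp only [map_sum, map_smul, smul_eq_mul, RCLike.conj_mul, hS]
    push_cast
    rfl
  have h3 : S ≤ ‖∑ i, (starRingEnd 𝕜) (ξ (x i)) • x i‖ := by
    have := (ξ.le_opNorm (∑ i, (starRingEnd 𝕜) (ξ (x i)) • x i)).trans
      (mul_le_of_le_one_left (norm_nonneg _) hξ)
    rwa [h2, RCLike.norm_ofReal, abs_of_nonneg hS0] at this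
  have h4 := pow_le_pow_left₀ hS0 h3 2
  nlinarith

lemma expect_dev (v : κ → X) :
    𝔼 ε : κ → ℤˣ, (‖rs v ε‖ - R1 v) ^ 2 = R2 v - R1 v ^ 2 := by
  have h : ∀ ε : κ → ℤˣ, (‖rs v ε‖ - R1 v) ^ 2 =
      ‖rs v ε‖ ^ 2 - 2 * R1 v * ‖rs v ε‖ + R1 v ^ 2 := fun ε => by ring
  simp only [h]
  rw [Finset.expect_add_distrib, Finset.expect_sub_distrib, ← Finset.mul_expect,
    Finset.expect_const Finset.univ_nonempty]
  have e1 : 𝔼 ε : κ → ℤˣ, ‖rs v ε‖ ^ 2 = R2 v := rfl
  have e2 : 𝔼 ε : κ → ℤˣ, ‖rs v ε‖ = R1 v := rfl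
  rw [e1, e2]
  ring

end Var

section Tensor

variable {𝕜 : Type} [RCLike 𝕜] {X : Type*} [NormedAddCommGroup X] [NormedSpace 𝕜 X]
  {d n : ℕ}

/-- The family `a j • x i`. -/
def tens (a : Fin d → 𝕜) (x : Fin n → X) : Fin d × Fin n → X := fun p => a p.1 • x p.2

lemma tens_upper {C : ℝ} (hR : RInv 𝕜 X C) (a : Fin d → 𝕜) (ha : ∑ j, ‖a j‖ ^ 2 = 1)
    (x : Fin n → X) : R2 (tens a x) ≤ C ^ 2 * R2 x := by
  have hc : Contr (fun (p : Fin d × Fin n) (i : Fin n) => if p.2 = i then a p.1 else 0) := by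
    intro v
    simp only [ite_mul, zero_mul, Finset.sum_ite_eq, Finset.mem_univ, if_true, norm_mul, mul_pow]
    rw [Fintype.sum_prod_type]
    simp only [← Finset.mul_sum, ← Finset.sum_mul, ha, one_mul, le_refl]
  have h := hR _ _ _ hc x
  simp only [ite_smul, zero_smul, Finset.sum_ite_eq, Finset.mem_univ, if_true] at h
  exact h

lemma tens_lower {C : ℝ} (hR : RInv 𝕜 X C) (a : Fin d → 𝕜) (ha : ∑ j, ‖a j‖ ^ 2 = 1)
    (x : Fin n → X) : R2 x ≤ C ^ 2 * R2 (tens a x) := by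
  have hc : Contr (fun (i : Fin n) (p : Fin d × Fin n) =>
      if i = p.2 then (starRingEnd 𝕜) (a p.1) else 0) := by
    intro v
    rw [Fintype.sum_prod_type_right]
    refine Finset.sum_le_sum fun i _ => ?_
    rw [Fintype.sum_prod_type]
    simp only [ite_mul, zero_mul, Finset.sum_ite_eq, Finset.mem_univ, if_true]
    have h1 : ‖∑ j, (starRingEnd 𝕜) (a j) * v (j, i)‖ ≤ ∑ j, ‖a j‖ * ‖v (j, i)‖ :=
      (norm_sum_le _ _).trans (le_of_eq (by simp))
    have h2 := Finset.sum_mul_sq_le_sq_mul_sq univ (fun j => ‖a j‖) (fun j => ‖v (j, i)‖)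
    rw [ha, one_mul] at h2
    exact (pow_le_pow_left₀ (norm_nonneg _) h1 2).trans h2
  have h := hR _ _ _ hc (tens a x)
  have e : (fun i : Fin n => ∑ p : Fin d × Fin n,
      (if i = p.2 then (starRingEnd 𝕜) (a p.1) else 0) • tens a x p) = x := by
    funext i
    rw [Fintype.sum_prod_type]
    simp only [ite_smul, zero_smul, Finset.sum_ite_eq, Finset.mem_univ, if_true]
    simp only [tens, smul_smul, RCLike.conj_mul, ← Finset.sum_smul]
    have : ∑ j, ((‖a j‖ : 𝕜)) ^ 2 = 1 := by exact_mod_cast congrArg (fun t : ℝ => (t : 𝕜)) ha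
    rw [this, one_smul]
  rwa [e] at h

lemma tens_weak (a : Fin d → 𝕜) (ha : ∑ j, ‖a j‖ ^ 2 = 1) (x : Fin n → X)
    (hx : ∀ b : Fin n → 𝕜, ‖∑ i, b i • x i‖ ^ 2 ≤ ∑ i, ‖b i‖ ^ 2)
    (ξ : StrongDual 𝕜 X) (hξ : ‖ξ‖ ≤ 1) : ∑ p, ‖ξ (tens a x p)‖ ^ 2 ≤ 1 := by
  have h := weak_of_bound x hx ξ hξ
  rw [Fintype.sum_prod_type]
  simp only [tens, map_smul, smul_eq_mul, norm_mul, mul_pow, ← Finset.mul_sum, ← Finset.sum_mul,
    ha, one_mul]
  exact h

lemma rs_tens (a : Fin d → 𝕜) (x : Fin n → X) (ε : Fin d × Fin n → ℤˣ) :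
    rs (tens a x) ε = ∑ j, a j • rs x (fun i => ε (j, i)) := by
  unfold rs
  rw [Fintype.sum_prod_type]
  refine Finset.sum_congr rfl fun j _ => ?_
  rw [Finset.smul_sum]
  exact Finset.sum_congr rfl fun i _ => smul_comm _ _ _

/-- The linear map `h ↦ ∑ h j • z j`. -/
def comb (z : Fin d → X) : EuclideanSpace 𝕜 (Fin d) →ₗ[𝕜] X where
  toFun h := ∑ j, h j • z j
  map_add' h k := by simp [add_smul, Finset.sum_add_distrib]
  map_smul' c h := by simp [Finset.smul_sum, smul_smul]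

end Tensor

section Net

variable {𝕜 : Type*} [RCLike 𝕜] {E X : Type*} [NormedAddCommGroup E] [NormedSpace 𝕜 E]
  [NormedAddCommGroup X] [NormedSpace 𝕜 X]

lemma net_bound (L : E →L[𝕜] X) (t : Set E) {K u : ℝ} (hK : 1 ≤ K) (hu : 0 ≤ u)
    (ht : Metric.sphere (0 : E) 1 ⊆ ⋃ b ∈ t, Metric.ball b (1 / (16 * K)))
    (hb : ∀ b ∈ t, u / 2 ≤ ‖L b‖ ∧ ‖L b‖ ≤ 2 * K * u) (h : E) :
    u / 4 * ‖h‖ ≤ ‖L h‖ ∧ ‖L h‖ ≤ 4 * K * u * ‖h‖ := by
  have hK0 : 0 < K := by linarith
  have hδ : 1 / (16 * K) ≤ 1 / 16 := one_div_le_one_div_of_le (by norm_num) (by linarith)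
  have h1 : ∀ a : E, ‖a‖ = 1 → ∃ b ∈ t, ‖L a - L b‖ ≤ ‖L‖ * (1 / (16 * K)) := by
    intro a ha
    obtain ⟨b, hbt, hab⟩ := Set.mem_iUnion₂.1 (ht (mem_sphere_zero_iff_norm.2 ha))
    rw [Metric.mem_ball, dist_eq_norm] at hab
    refine ⟨b, hbt, ?_⟩
    rw [← map_sub]
    exact (L.le_opNorm _).trans (mul_le_mul_of_nonneg_left hab.le (norm_nonneg _))
  have h2 : ‖L‖ ≤ 2 * K * u + ‖L‖ * (1 / 16) := by
    refine ContinuousLinearMap.opNorm_le_of_unit_norm (by positivity) fun a ha => ?_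
    obtain ⟨b, hbt, hab⟩ := h1 a ha
    have := norm_sub_norm_le (L a) (L b)
    have := mul_le_mul_of_nonneg_left hδ (norm_nonneg L)
    linarith [(hb b hbt).2]
  have h3 : ‖L‖ ≤ 4 * K * u := by
    have : 0 ≤ K * u := by positivity
    linarith
  refine ⟨?_, (L.le_opNorm _).trans (mul_le_mul_of_nonneg_right h3 (norm_nonneg _))⟩
  rcases eq_or_ne h 0 with rfl | h0
  · simp
  have hpos : 0 < ‖h‖ := norm_pos_iff.2 h0
  have ha : ‖((‖h‖⁻¹ : ℝ) : 𝕜) • h‖ = 1 := by
    rw [norm_smul, RCLike.norm_ofReal, abs_of_pos (inv_pos.2 hpos)]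
    exact inv_mul_cancel₀ hpos.ne'
  obtain ⟨b, hbt, hab⟩ := h1 _ ha
  have h4 : ‖L‖ * (1 / (16 * K)) ≤ u / 4 := by
    refine (mul_le_mul_of_nonneg_right h3 (by positivity)).trans (le_of_eq ?_)
    field_simp
    ring
  have h5 := norm_sub_norm_le (L b) (L (((‖h‖⁻¹ : ℝ) : 𝕜) • h))
  rw [norm_sub_rev] at h5
  have h6 : u / 4 ≤ ‖L (((‖h‖⁻¹ : ℝ) : 𝕜) • h)‖ := by linarith [(hb b hbt).1]
  rw [map_smul, norm_smul, RCLike.norm_ofReal, abs_of_pos (inv_pos.2 hpos), inv_mul_eq_div,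
    le_div_iff₀ hpos] at h6
  exact h6

end Net

end D1

open D1 in
theorem dvor {𝕜 : Type} [RCLike 𝕜] {X : Type*} [NormedAddCommGroup X] [NormedSpace 𝕜 X]
    {C : ℝ} (hR : RInv 𝕜 X C) : ∃ A, 0 ≤ A ∧ Dvor 𝕜 X A := by
  classical
  set K : ℝ := C ^ 2 + 1 with hKdef
  have hK : 1 ≤ K := by rw [hKdef]; nlinarith [sq_nonneg C]
  have hK0 : 0 < K := by linarith
  have hCK : C ^ 2 ≤ K := by rw [hKdef]; linarith
  refine ⟨16 * K, by positivity, fun X' hX' d => ?_⟩
  have : ProperSpace (EuclideanSpace 𝕜 (Fin d)) := FiniteDimensional.proper_rclike 𝕜 _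
  have hc : IsCompact (Metric.sphere (0 : EuclideanSpace 𝕜 (Fin d)) 1) := isCompact_sphere 0 1
  obtain ⟨t, hts, htf, ht⟩ := hc.finite_cover_balls (show (0 : ℝ) < 1 / (16 * K) by positivity)
  set T := htf.toFinset with hT
  obtain ⟨n, x, hxX, hxw, hxl⟩ := exists_large hR X' hX' (32 * ((T.card : ℝ) + 1) * K)
  set u : ℝ := √(R2 x / K) with hu
  have hu0 : 0 ≤ u := Real.sqrt_nonneg _
  have hu2 : u ^ 2 = R2 x / K := Real.sq_sqrt (div_nonneg (R2_nonneg x) hK0.le)
  have hu3 : K * u ^ 2 = R2 x := by rw [hu2]; field_simp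
  have hu4 : 32 * ((T.card : ℝ) + 1) ≤ u ^ 2 := by
    rw [hu2, le_div_iff₀ hK0]; exact hxl
  have hN : (0 : ℝ) ≤ T.card := Nat.cast_nonneg _
  have hupos : 0 < u := by
    rcases hu0.eq_or_lt with h | h
    · rw [← h] at hu4; nlinarith
    · exact h
  have hunit : ∀ b ∈ t, ∑ j, ‖b j‖ ^ 2 = 1 := by
    intro b hb
    have h1 : ‖b‖ = 1 := mem_sphere_zero_iff_norm.1 (hts hb)
    rw [← EuclideanSpace.norm_sq_eq, h1, one_pow]
  have hvar : ∀ b ∈ t, R2 (tens (fun j => b j) x) ≤ R1 (tens (fun j => b j) x) ^ 2 + 2 :=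
    fun b hb => var_le (𝕜 := 𝕜) _ (tens_weak _ (hunit b hb) x hxw)
  have hexp : 𝔼 ε : Fin d × Fin n → ℤˣ, ∑ b ∈ T,
      (‖rs (tens (fun j => b j) x) ε‖ - R1 (tens (fun j => b j) x)) ^ 2 ≤ 2 * T.card := by
    rw [Finset.expect_sum_comm]
    refine (Finset.sum_le_card_nsmul _ _ 2 fun b hb => ?_).trans (le_of_eq (by simp [mul_comm]))
    rw [expect_dev]
    linarith [hvar b (htf.mem_toFinset.1 hb)]
  obtain ⟨ε, -, hε⟩ := Finset.exists_le_of_expect_le Finset.univ_nonempty hexp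
  set z : Fin d → X := fun j => rs x (fun i => ε (j, i)) with hz
  set L : EuclideanSpace 𝕜 (Fin d) →L[𝕜] X := LinearMap.toContinuousLinearMap (comb z) with hL
  have hLb : ∀ b : EuclideanSpace 𝕜 (Fin d), L b = rs (tens (fun j => b j) x) ε := fun b => by
    rw [rs_tens]; rfl
  have hb : ∀ b ∈ t, u / 2 ≤ ‖L b‖ ∧ ‖L b‖ ≤ 2 * K * u := by
    intro b hbt
    rw [hLb]
    set F := ‖rs (tens (fun j => b j) x) ε‖
    set m := R1 (tens (fun j => b j) x) with hm
    have hm0 : 0 ≤ m := R1_nonneg _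
    have h1 : (F - m) ^ 2 ≤ 2 * T.card :=
      (Finset.single_le_sum (f := fun b : EuclideanSpace 𝕜 (Fin d) =>
        (‖rs (tens (fun j => b j) x) ε‖ - R1 (tens (fun j => b j) x)) ^ 2)
        (fun _ _ => sq_nonneg _) (htf.mem_toFinset.2 hbt)).trans hε
    have h2 : |F - m| ≤ u / 4 := abs_le_of_sq_le_sq' (by nlinarith) (by positivity) |> abs_le.2
    have h3 := tens_upper hR _ (hunit b hbt) x
    have h4 := tens_lower hR _ (hunit b hbt) x
    have h5 := hvar b hbt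
    have hR0 := R2_nonneg (tens (fun j => b j) x)
    have h6 : R2 (tens (fun j => b j) x) ≤ (K * u) ^ 2 := by
      have := mul_le_mul_of_nonneg_right hCK (R2_nonneg x)
      nlinarith
    have h7 : u ^ 2 ≤ R2 (tens (fun j => b j) x) := by
      have h8 := mul_le_mul_of_nonneg_right hCK hR0
      exact le_of_mul_le_mul_left (by linarith) hK0
    have h8 : m ≤ K * u := by
      refine (R1_le_sqrt_R2 _).trans ?_
      rw [Real.sqrt_le_left (by positivity)]
      exact h6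
    have h9 : 3 * u / 4 ≤ m := by
      refine le_of_sq_le_sq ?_ hm0
      nlinarith
    have h10 : u ≤ K * u := le_mul_of_one_le_left hu0 hK
    obtain ⟨a1, a2⟩ := abs_le.1 h2
    constructor <;> linarith
  have hnet := net_bound L t hK hu0 ht hb
  refine ⟨((4 / u : ℝ) : 𝕜) • comb z, fun h => ?_⟩
  obtain ⟨h1, h2⟩ := hnet h
  have hn : ‖(((4 / u : ℝ) : 𝕜) • comb z) h‖ = 4 / u * ‖L h‖ := by
    rw [LinearMap.smul_apply, norm_smul, RCLike.norm_ofReal, abs_of_pos (by positivity)]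
    rfl
  refine ⟨?_, ?_, ?_⟩
  · rw [LinearMap.smul_apply]
    refine X'.smul_mem _ ?_
    change ∑ j, h j • z j ∈ X'
    refine X'.sum_mem fun j _ => X'.smul_mem _ ?_
    exact X'.sum_mem fun i _ => zsmul_mem (hxX i) _
  · rw [hn]
    calc ‖h‖ = 4 / u * (u / 4 * ‖h‖) := by field_simp
      _ ≤ 4 / u * ‖L h‖ := mul_le_mul_of_nonneg_left h1 (by positivity)
  · rw [hn]
    calc 4 / u * ‖L h‖ ≤ 4 / u * (4 * K * u * ‖h‖) := mul_le_mul_of_nonneg_left h2 (by positivity)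
      _ = 16 * K * ‖h‖ := by field_simp; ring

end Pool.Agent.Lib.MP_f92ad0_an.Mep
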