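import Pool.Agent.Lib.MP_f92ad0_an.MepA

/-! Kato type argument: a bounded spectral projection. -/

namespace Pool.Agent.Lib.MP_f92ad0_an.Mep

open Finset
open scoped BigOperators

universe u

namespace K1

open Complex in
theorem norm_sin_le (z : ℂ) : ‖Complex.sin z‖ ≤ Real.exp |z.im| := by
  have h1 : ‖Complex.exp (-z * I)‖ ≤ Real.exp |z.im| := by
    rw [Complex.norm_exp]; apply Real.exp_le_exp.2; simp [le_abs_self]
  have h2 : ‖Complex.exp (z * I)‖ ≤ Real.exp |z.im| := by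
    rw [Complex.norm_exp]; apply Real.exp_le_exp.2; simp [neg_le_abs]
  have h3 := norm_sub_le (Complex.exp (-z * I)) (Complex.exp (z * I))
  rw [Complex.sin, norm_div, norm_mul, Complex.norm_I, Complex.norm_two]
  linarith

/-- The multiplier `1 / (1 + κ u)` is bounded. -/
theorem inv_bound {k : ℕ} {S : Type} {A : Type u} [NormedRing A] [NormedAlgebra ℝ A]
    (Φ : (S → ℝ) →ₐ[ℝ] A) (u : S → ℝ) (hu0 : ∀ s, 0 ≤ u s) (h1 : ‖Φ 1‖ ≤ 1) (hu : ‖Φ u‖ ≤ 1)
    (hv : ‖Φ fun s => (1 - u s) ^ k‖ ≤ 5 / 8 * 2 ^ k) {κ : ℝ} (hκ : 1 ≤ κ)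
    (hκk : κ ^ k ≤ 6 / 5) : ‖Φ fun s => 1 / (1 + κ * u s)‖ ≤ 5 * k := by
  set θ : ℝ := κ / (1 + κ) with hθ
  have hθ0 : 0 ≤ θ := by positivity
  have h2θ : 2 * θ ≤ κ := by
    rw [hθ, ← mul_div_assoc, div_le_iff₀ (by positivity)]; nlinarith
  set x : S → ℝ := θ • (1 - u) with hx
  set ρ : S → ℝ := fun s => 1 / (1 + κ * u s) with hρ
  have hxn : ‖Φ x‖ ≤ κ := by
    rw [hx, map_smul, map_sub, norm_smul, Real.norm_of_nonneg hθ0]
    have := norm_sub_le (Φ 1) (Φ u)
    nlinarith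
  have hpow : ∀ j, ‖Φ (x ^ j)‖ ≤ κ ^ j := by
    intro j
    induction j with
    | zero => simpa only [pow_zero] using h1
    | succ j ih =>
      rw [pow_succ, map_mul, pow_succ]
      exact (norm_mul_le _ _).trans (mul_le_mul ih hxn (norm_nonneg _) (by positivity))
  have hk : ‖Φ (x ^ k)‖ ≤ 3 / 4 := by
    have e : x ^ k = θ ^ k • fun s => (1 - u s) ^ k := by
      funext s; simp [hx, mul_pow]
    rw [e, map_smul, norm_smul, Real.norm_of_nonneg (by positivity)]
    have h3 : (2 * θ) ^ k ≤ 6 / 5 := (pow_le_pow_left₀ (by positivity) h2θ k).trans hκk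
    rw [mul_pow] at h3
    calc _ ≤ θ ^ k * (5 / 8 * 2 ^ k) := mul_le_mul_of_nonneg_left hv (by positivity)
      _ ≤ _ := by linarith
  have hinv : (1 - x) * ((1 + κ) • ρ) = 1 := by
    funext s
    have := hu0 s
    simp only [hx, hρ, hθ, Pi.mul_apply, Pi.sub_apply, Pi.one_apply, Pi.smul_apply, smul_eq_mul]
    field_simp
    ring
  have hw : (1 + κ) • ρ = ∑ j ∈ range k, x ^ j + x ^ k * ((1 + κ) • ρ) := by
    have := congrArg (· * ((1 + κ) • ρ)) (geom_sum_mul_neg x k)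
    simp only [mul_assoc, hinv, mul_one, sub_mul, one_mul] at this
    rw [this]; ring
  have hs : ‖Φ (∑ j ∈ range k, x ^ j)‖ ≤ k * (6 / 5) := by
    rw [map_sum]
    refine (norm_sum_le _ _).trans ?_
    have : ∀ j ∈ range k, ‖Φ (x ^ j)‖ ≤ 6 / 5 := fun j hj =>
      (hpow j).trans ((pow_le_pow_right₀ hκ (mem_range.1 hj).le).trans hκk)
    simpa using sum_le_card_nsmul _ _ _ this
  have hN : ‖Φ ((1 + κ) • ρ)‖ ≤ k * (6 / 5) + 3 / 4 * ‖Φ ((1 + κ) • ρ)‖ := by
    conv_lhs => rw [hw, map_add, map_mul]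
    refine (norm_add_le _ _).trans (add_le_add hs ((norm_mul_le _ _).trans ?_))
    exact mul_le_mul_of_nonneg_right hk (norm_nonneg _)
  rw [map_smul, norm_smul, Real.norm_of_nonneg (by positivity)] at hN
  have := norm_nonneg (Φ ρ)
  have : (0 : ℝ) ≤ k := Nat.cast_nonneg k
  nlinarith

/-- Resolvent bound on the two rays. -/
theorem ray_bound {S : Type} [Fintype S] (deg : S → ℕ) (a : S → ℝ) {c K : ℝ} (hc : 0 < c)
    (H : ∀ t σ : ℝ, 0 ≤ t → 0 ≤ σ → |∑ s, 1 / (1 + Real.exp (Real.pi * c) *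
      Real.exp (-(t * deg s))) * Real.exp (-(σ * deg s)) * a s| ≤ K)
    (z : ℂ) (hz : z.im ≠ 0) (hre : z.re = -(c * |z.im|)) :
    ‖∑ s, (a s : ℂ) / (z + deg s)‖ ≤ Real.exp (Real.pi * c) * K * Real.pi / |z.im| := by
  set κ := Real.exp (Real.pi * c) with hκ
  have hξ : 0 < |z.im| := abs_pos.2 hz
  set t : ℝ := Real.pi / |z.im| with ht
  have ht0 : 0 ≤ t := by positivity
  set ρ : S → ℝ := fun s => 1 / (1 + κ * Real.exp (-(t * deg s))) with hρ
  have hne : ∀ s, z + deg s ≠ 0 := fun s h => hz (by simpa using congrArg Complex.im h)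
  have hexp : Complex.exp (-(t * z)) = -κ := by
    have e1 : -((t : ℂ) * z) = ((Real.pi * c : ℝ) : ℂ) + ((-(t * z.im) : ℝ) : ℂ) * Complex.I := by
      apply Complex.ext
      · simp only [Complex.neg_re, Complex.re_ofReal_mul, Complex.add_re, Complex.ofReal_re,
          Complex.I_re, mul_zero, add_zero, hre, ht]
        field_simp
      · simp
    rw [e1, Complex.exp_add, ← Complex.ofReal_exp, ← hκ]
    rcases lt_or_gt_of_ne hz with h | h
    · have : -(t * z.im) = Real.pi := by rw [ht, abs_of_neg h]; field_simp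
      rw [this, Complex.exp_pi_mul_I]; ring
    · have : -(t * z.im) = -Real.pi := by rw [ht, abs_of_pos h]; field_simp
      rw [this, Complex.ofReal_neg, neg_mul, Complex.exp_neg, Complex.exp_pi_mul_I]; ring
  have key := norm_image_sub_le_of_norm_deriv_le_segment' (a := 0) (b := t)
    (f := fun σ : ℝ => ∑ s, (ρ s * a s : ℝ) / (z + deg s) * Complex.exp (-(σ * (z + deg s))))
    (f' := fun σ : ℝ => -(Complex.exp (-(σ * z)) *
      ((∑ s, ρ s * Real.exp (-(σ * deg s)) * a s : ℝ) : ℂ))) (C := κ * K) ?_ ?_ t ⟨ht0, le_rfl⟩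
  · rw [norm_sub_rev, ← sum_sub_distrib] at key
    have e : ∀ s, ((ρ s * a s : ℝ) : ℂ) / (z + deg s) * Complex.exp (-(((0 : ℝ) : ℂ) * (z + deg s)))
        - ((ρ s * a s : ℝ) : ℂ) / (z + deg s) * Complex.exp (-(t * (z + deg s)))
        = (a s : ℂ) / (z + deg s) := by
      intro s
      have e2 : Complex.exp (-(t * (z + deg s))) = -((κ * Real.exp (-(t * deg s)) : ℝ) : ℂ) := by
        rw [mul_add, neg_add, Complex.exp_add, hexp]; push_cast; ring
      have e3 : ρ s * (1 + κ * Real.exp (-(t * deg s))) = 1 := by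
        have : 0 < κ := Real.exp_pos _
        simp only [hρ]; field_simp
      have e4 : ((ρ s : ℝ) : ℂ) * (1 + ((κ * Real.exp (-(t * deg s)) : ℝ) : ℂ)) = 1 := by
        exact_mod_cast e3
      rw [e2, Complex.ofReal_zero, zero_mul, neg_zero, Complex.exp_zero, Complex.ofReal_mul]
      linear_combination (a s : ℂ) / (z + deg s) * e4
    simp only [e] at key
    rw [sub_zero, ht, ← mul_div_assoc] at key
    exact key
  · intro σ _
    refine HasDerivAt.hasDerivWithinAt ?_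
    have hd : ∀ s ∈ (univ : Finset S), HasDerivAt (fun σ : ℝ => ((ρ s * a s : ℝ) : ℂ) / (z + deg s) *
        Complex.exp (-(σ * (z + deg s)))) (-(Complex.exp (-(σ * z)) *
          ((ρ s * Real.exp (-(σ * deg s)) * a s : ℝ) : ℂ))) σ := by
      intro s _
      have h0 : HasDerivAt (fun w : ℂ => ((ρ s * a s : ℝ) : ℂ) / (z + deg s) *
          Complex.exp (-(w * (z + deg s)))) _ σ :=
        (((hasDerivAt_id (σ : ℂ)).mul_const (z + deg s)).neg.cexp).const_mul _
      convert h0.comp_ofReal using 1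
      have := hne s
      simp only [id, Pi.neg_apply, mul_add, neg_add, Complex.exp_add]
      push_cast
      field_simp
      ring
    convert HasDerivAt.fun_sum hd using 1
    rw [Complex.ofReal_sum, mul_sum, sum_neg_distrib]
  · intro σ hσ
    rw [norm_neg, norm_mul, Complex.norm_real, Real.norm_eq_abs, Complex.norm_exp]
    refine mul_le_mul ?_ (H t σ ht0 hσ.1) (abs_nonneg _) (by positivity)
    apply Real.exp_le_exp.2
    simp only [Complex.neg_re, Complex.re_ofReal_mul, hre]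
    have h1 : t * |z.im| = Real.pi := by rw [ht]; field_simp
    have h2 : σ * |z.im| ≤ t * |z.im| := mul_le_mul_of_nonneg_right hσ.2.le hξ.le
    nlinarith

/-- Maximum modulus on a triangle. -/
theorem maxmod {S : Type} [Fintype S] (deg : S → ℕ) (a : S → ℝ) {c B : ℝ} (hc : 0 < c)
    (hB : 0 ≤ B) (H : ∀ z : ℂ, z.im ≠ 0 → z.re = -(c * |z.im|) →
      ‖∑ s, (a s : ℂ) / (z + deg s)‖ ≤ B / |z.im|) :
    |∑ s, (if deg s = 1 then 1 else 0) * a s| ≤
      ((1 + c) * B + 1) * Real.exp (2 * Real.pi / c) / Real.pi := by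
  have hpi := Real.pi_pos
  set b : ℝ := Real.pi / c with hb
  have hb0 : 0 < b := by positivity
  have hbc : b * c = Real.pi := by rw [hb]; field_simp
  set f : ℂ → ℂ := fun z => Complex.sin (Real.pi * z) with hf
  have hfd : Differentiable ℂ f := by rw [hf]; fun_prop
  have hf0 : ∀ d : ℕ, f (-(d : ℂ)) = 0 := fun d => by
    simp only [hf]
    rw [mul_neg, Complex.sin_neg, mul_comm, Complex.sin_nat_mul_pi, neg_zero]
  have hfb : ∀ z : ℂ, ‖f z‖ ≤ Real.exp (Real.pi * |z.im|) := fun z => by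
    have := norm_sin_le (Real.pi * z)
    rwa [Complex.im_ofReal_mul, abs_mul, abs_of_pos hpi] at this
  set G : ℂ → ℂ := fun z => z * Complex.exp ((2 * b : ℝ) * z) *
    ∑ s, (a s : ℂ) * dslope f (-(deg s : ℂ)) z with hG
  have hds : ∀ w : ℂ, Differentiable ℂ (dslope f w) := fun w =>
    differentiableOn_univ.1 ((Complex.differentiableOn_dslope Filter.univ_mem).2
      hfd.differentiableOn)
  have hGd : Differentiable ℂ G := by
    refine Differentiable.mul (by fun_prop) ?_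
    exact Differentiable.fun_sum fun s _ => (hds _).const_mul _
  have hGe : ∀ z : ℂ, (∀ s, z + deg s ≠ 0) → ‖G z‖ ≤ ‖z‖ * Real.exp (2 * b * z.re +
      Real.pi * |z.im|) * ‖∑ s, (a s : ℂ) / (z + deg s)‖ := by
    intro z hz
    have e : ∑ s, (a s : ℂ) * dslope f (-(deg s : ℂ)) z = f z * ∑ s, (a s : ℂ) / (z + deg s) := by
      rw [mul_sum]
      refine sum_congr rfl fun s _ => ?_
      have h1 : z ≠ -(deg s : ℂ) := fun h => hz s (by rw [h]; ring)
      rw [dslope_of_ne _ h1, slope_def_field, hf0, sub_zero, sub_neg_eq_add]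
      ring
    simp only [hG]
    rw [e, norm_mul, norm_mul, norm_mul, Complex.norm_exp, Complex.re_ofReal_mul, Real.exp_add]
    have := hfb z
    rw [mul_assoc ‖z‖, mul_assoc ‖z‖, mul_assoc (Real.exp _)]
    gcongr
  set W : ℝ := 2 * (1 + 1 / c) * ∑ s, |a s| with hW
  have hW0 : 0 ≤ W := by positivity
  obtain ⟨n, hn⟩ := exists_nat_ge (2 * W / b ^ 2 + 1)
  have hn1 : (1 : ℝ) ≤ n := le_trans (le_add_of_nonneg_left (by positivity)) hn
  set L : ℝ := n + 1 / 2 with hL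
  have hWL : W * L ≤ Real.exp (b * L) := by
    have h1 := Real.quadratic_le_exp_of_nonneg (x := b * L) (by positivity)
    have h2 : 2 * W ≤ L * b ^ 2 := by
      rw [← div_le_iff₀ (by positivity)]; linarith
    have h3 : 0 ≤ b * L := by positivity
    have h4 : 2 * W * L ≤ L * b ^ 2 * L := mul_le_mul_of_nonneg_right h2 (by positivity)
    nlinarith
  have c1 : Continuous fun z : ℂ => -(c * |z.im|) := by fun_prop
  have c2 : Continuous fun _ : ℂ => -L := continuous_const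
  have hmax := Complex.norm_le_of_forall_mem_frontier_norm_le (f := G)
    (U := {z : ℂ | -L < z.re} ∩ {z : ℂ | z.re < -(c * |z.im|)}) ?_ hGd.diffContOnCl
    (C := (1 + c) * B + 1) ?_ (z := -1) (subset_closure ⟨by simp; linarith, by simp⟩)
  · have e : ∑ s, (a s : ℂ) * dslope f (-(deg s : ℂ)) (-1) =
        -Real.pi * ((∑ s, (if deg s = 1 then 1 else 0) * a s : ℝ) : ℂ) := by
      rw [Complex.ofReal_sum, mul_sum]
      refine sum_congr rfl fun s _ => ?_
      by_cases h : deg s = 1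
      · have hd : HasDerivAt f (Complex.cos (Real.pi * (-1)) * (Real.pi * 1)) (-1) :=
          ((hasDerivAt_id (-1 : ℂ)).const_mul (Real.pi : ℂ)).csin
        rw [h, Nat.cast_one, dslope_same, hd.deriv]
        simp; ring
      · have h1 : (-1 : ℂ) ≠ -(deg s : ℂ) := fun h' => h (by exact_mod_cast (neg_inj.1 h').symm)
        have h2 := hf0 1
        rw [Nat.cast_one] at h2
        rw [dslope_of_ne _ h1, slope_def_field, hf0, h2]
        simp [h]
    simp only [hG] at hmax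
    rw [e, norm_mul, norm_mul, norm_mul, Complex.norm_exp, Complex.re_ofReal_mul, norm_neg,
      norm_neg, norm_one, Complex.norm_real, Complex.norm_real, Real.norm_eq_abs,
      Real.norm_eq_abs, abs_of_pos hpi] at hmax
    rw [le_div_iff₀ hpi, mul_div_assoc, ← hb]
    have h3 : Real.exp (2 * b * (-1 : ℂ).re) * Real.exp (2 * b) = 1 := by
      rw [← Real.exp_add]; simp
    have h4 := mul_le_mul_of_nonneg_right hmax (Real.exp_pos (2 * b)).le
    calc _ = 1 * Real.exp (2 * b * (-1 : ℂ).re) *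
          (Real.pi * |∑ s, (if deg s = 1 then 1 else 0) * a s|) * Real.exp (2 * b) := by
            linear_combination (-Real.pi * |∑ s, (if deg s = 1 then 1 else 0) * a s|) * h3
      _ ≤ _ := h4
  · refine (Metric.isBounded_closedBall (x := (0 : ℂ)) (r := L + L / c)).subset ?_
    rintro z ⟨h1, h2⟩
    simp only [Set.mem_ofPred_eq] at h1 h2
    rw [mem_closedBall_zero_iff]
    have h3 : 0 ≤ c * |z.im| := by positivity
    have h4 : |z.im| ≤ L / c := by rw [le_div_iff₀ hc]; linarith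
    have h5 : |z.re| ≤ L := abs_le.2 ⟨by linarith, by linarith⟩
    linarith [Complex.norm_le_abs_re_add_abs_im z]
  · intro z hz
    have hcB : 0 ≤ (1 + c) * B := by positivity
    rcases frontier_inter_subset _ _ hz with ⟨h1, h2⟩ | ⟨-, h2⟩
    · have h3 : -L = z.re := frontier_lt_subset_eq c2 Complex.continuous_re h1
      have h4 : z.re ≤ -(c * |z.im|) := closure_lt_subset_le Complex.continuous_re c1 h2
      have h5 : ∀ s, 1 / 2 ≤ ‖z + deg s‖ := fun s => by
        refine le_trans ?_ (Complex.abs_re_le_norm _)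
        rw [Complex.add_re, Complex.natCast_re, ← h3, hL]
        rcases le_or_gt (deg s) n with h | h
        · have : (deg s : ℝ) ≤ n := by exact_mod_cast h
          exact le_abs.2 (Or.inr (by linarith))
        · have : (n : ℝ) + 1 ≤ deg s := by exact_mod_cast h
          exact le_abs.2 (Or.inl (by linarith))
      have h6 : ‖∑ s, (a s : ℂ) / (z + deg s)‖ ≤ 2 * ∑ s, |a s| := by
        rw [mul_sum]
        refine (norm_sum_le _ _).trans (sum_le_sum fun s _ => ?_)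
        rw [norm_div, Complex.norm_real, Real.norm_eq_abs, div_le_iff₀ (by linarith [h5 s])]
        nlinarith [h5 s, abs_nonneg (a s)]
      have h7 : |z.im| ≤ L / c := by rw [le_div_iff₀ hc]; linarith
      have h8 : ‖z‖ ≤ (1 + 1 / c) * L := by
        have := Complex.norm_le_abs_re_add_abs_im z
        rw [← h3, abs_neg, abs_of_pos (by positivity : 0 < L)] at this
        calc _ ≤ L + L / c := by linarith
          _ = _ := by ring
      have h9 : Real.exp (2 * b * z.re + Real.pi * |z.im|) ≤ Real.exp (-(b * L)) := by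
        apply Real.exp_le_exp.2
        have : b * (c * |z.im|) ≤ b * L := mul_le_mul_of_nonneg_left (by linarith) hb0.le
        rw [← h3, ← hbc]; nlinarith
      have h10 := hGe z fun s h => by have := h5 s; rw [h, norm_zero] at this; linarith
      have h11 : ‖G z‖ ≤ (1 + 1 / c) * L * Real.exp (-(b * L)) * (2 * ∑ s, |a s|) :=
        h10.trans (by gcongr)
      have h12 : W * L * Real.exp (-(b * L)) ≤ 1 := by
        rw [Real.exp_neg, ← div_eq_mul_inv, div_le_one (Real.exp_pos _)]; exact hWL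
      calc _ ≤ _ := h11
        _ = W * L * Real.exp (-(b * L)) := by rw [hW]; ring
        _ ≤ _ := by linarith
    · have h3 : z.re = -(c * |z.im|) := frontier_lt_subset_eq Complex.continuous_re c1 h2
      by_cases h0 : z.im = 0
      · have : z = 0 := Complex.ext (by simpa [h0] using h3) h0
        simp only [hG, this, zero_mul, norm_zero]
        linarith
      have hξ : 0 < |z.im| := abs_pos.2 h0
      have h10 := hGe z fun s h => h0 (by simpa using congrArg Complex.im h)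
      have h8 : ‖z‖ ≤ (1 + c) * |z.im| := by
        have := Complex.norm_le_abs_re_add_abs_im z
        rw [h3, abs_neg, abs_of_pos (by positivity : 0 < c * |z.im|)] at this
        linarith
      have h9 : Real.exp (2 * b * z.re + Real.pi * |z.im|) ≤ 1 := by
        apply Real.exp_le_one_iff.2
        have : 0 ≤ b * c * |z.im| := by positivity
        rw [h3, ← hbc]; nlinarith
      have h11 : ‖G z‖ ≤ (1 + c) * |z.im| * 1 * (B / |z.im|) :=
        h10.trans (by have := H z h0 h3; gcongr)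
      calc _ ≤ _ := h11
        _ = (1 + c) * B := by field_simp
        _ ≤ _ := by linarith

end K1

theorem kato (k : ℕ) (hk : 0 < k) : ∃ C : ℝ, 0 ≤ C ∧
    ∀ (S : Type) [Fintype S] (deg : S → ℕ) (A : Type u) [NormedRing A] [NormedAlgebra ℝ A]
      (Φ : (S → ℝ) →ₐ[ℝ] A),
      (∀ t : ℝ, 0 ≤ t → ‖Φ fun s => Real.exp (-(t * deg s))‖ ≤ 1) →
      (∀ t : ℝ, 0 ≤ t → ‖Φ fun s => (1 - Real.exp (-(t * deg s))) ^ k‖ ≤ 5 / 8 * 2 ^ k) →
      ‖Φ fun s => if deg s = 1 then 1 else 0‖ ≤ C := by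
  classical
  have hpi := Real.pi_pos
  have hk' : (0 : ℝ) < k := by exact_mod_cast hk
  have hlog : 0 < Real.log (6 / 5) := Real.log_pos (by norm_num)
  set c : ℝ := Real.log (6 / 5) / (Real.pi * k) with hc
  have hc0 : 0 < c := by positivity
  have hκ : 1 ≤ Real.exp (Real.pi * c) := Real.one_le_exp (by positivity)
  have hκk : Real.exp (Real.pi * c) ^ k ≤ 6 / 5 := by
    have : k * (Real.pi * c) = Real.log (6 / 5) := by rw [hc]; field_simp
    rw [← Real.exp_nat_mul, this, Real.exp_log (by norm_num)]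
  refine ⟨((1 + c) * (Real.exp (Real.pi * c) * (5 * k) * Real.pi) + 1) *
    Real.exp (2 * Real.pi / c) / Real.pi, by positivity, fun S _ deg A _ _ Φ h1 h2 => ?_⟩
  obtain ⟨l, hl, hlx⟩ := exists_dual_vector'' ℝ (Φ fun s => if deg s = 1 then 1 else 0)
  set a : S → ℝ := fun s => l (Φ fun j => if s = j then 1 else 0) with ha
  have hsum : ∀ m : S → ℝ, l (Φ m) = ∑ s, m s * a s := fun m =>
    LinearMap.pi_apply_eq_sum_univ (l.toLinearMap ∘ₗ Φ.toLinearMap) m
  have hle : ∀ m : S → ℝ, |∑ s, m s * a s| ≤ ‖Φ m‖ := fun m => by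
    rw [← hsum]
    exact (l.le_opNorm _).trans (mul_le_of_le_one_left (norm_nonneg _) hl)
  have hone : ‖Φ 1‖ ≤ 1 := by
    have := h1 0 le_rfl
    simp only [zero_mul, neg_zero, Real.exp_zero] at this
    exact this
  have := K1.maxmod deg a hc0 (by positivity) (K1.ray_bound deg a hc0 (K := 5 * k)
    fun t σ ht hσ => (hle ((fun s => 1 / (1 + Real.exp (Real.pi * c) * Real.exp (-(t * deg s)))) *
      fun s => Real.exp (-(σ * deg s)))).trans (by
        rw [map_mul]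
        refine (norm_mul_le _ _).trans ?_
        refine (mul_le_of_le_one_right (norm_nonneg _) (h1 σ hσ)).trans ?_
        exact K1.inv_bound Φ _ (fun s => (Real.exp_pos _).le) hone (h1 t ht) (h2 t ht) hκ hκk))
  rw [← hsum, hlx] at this
  exact (le_abs_self _).trans this

end Pool.Agent.Lib.MP_f92ad0_an.Mep

/-! Pisier's theorem: B-convexity gives K-convexity. -/

namespace Pool.Agent.Lib.MP_f92ad0_an.Mep

open Finset
open scoped BigOperators

namespace K2

section Idem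

variable {ι R : Type*} [Fintype ι] [DecidableEq ι] [CommRing R] [Algebra ℝ R]

/-- The atoms of a finite family of idempotents. -/
def P (e : ι → R) (B : Finset ι) : R := ∏ i, if i ∈ B then 1 - e i else e i

omit [Algebra ℝ R] in
lemma sum_P (e : ι → R) : ∑ B, P e B = 1 := by
  have h := Fintype.prod_add (fun i => 1 - e i) e
  simp only [sub_add_cancel, Finset.prod_const_one] at h
  rw [h]
  refine Finset.sum_congr rfl fun B _ => ?_
  rw [P, Finset.prod_ite]
  congr 2 <;> ext i <;> simp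

omit [Algebra ℝ R] in
lemma P_mul_P (e : ι → R) (he : ∀ i, e i * e i = e i) (B B' : Finset ι) :
    P e B * P e B' = if B = B' then P e B else 0 := by
  rw [P, P, ← Finset.prod_mul_distrib]
  split_ifs with h
  · subst h
    refine Finset.prod_congr rfl fun i _ => ?_
    split_ifs
    · linear_combination he i
    · exact he i
  · obtain ⟨i, hi⟩ : ∃ i, ¬ (i ∈ B ↔ i ∈ B') := by
      by_contra hc
      push Not at hc
      exact h (Finset.ext hc)
    refine Finset.prod_eq_zero (Finset.mem_univ i) ?_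
    by_cases h1 : i ∈ B <;> by_cases h2 : i ∈ B'
    · exact absurd (iff_of_true h1 h2) hi
    · simp only [h1, h2, if_true, if_false]; linear_combination -he i
    · simp only [h1, h2, if_true, if_false]; linear_combination -he i
    · exact absurd (iff_of_false h1 h2) hi

omit [Algebra ℝ R] in
lemma e_mul_P (e : ι → R) (he : ∀ i, e i * e i = e i) (i : ι) (B : Finset ι) :
    e i * P e B = if i ∈ B then 0 else P e B := by
  rw [P, ← Finset.mul_prod_erase _ _ (Finset.mem_univ i), ← mul_assoc]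
  split_ifs with h
  · rw [show e i * (1 - e i) = 0 by linear_combination -he i, zero_mul]
  · rw [he i]

/-- The functional calculus of a finite family of idempotents. -/
noncomputable def Psi (e : ι → R) (he : ∀ i, e i * e i = e i) : (Finset ι → ℝ) →ₐ[ℝ] R :=
  AlgHom.ofLinearMap
    { toFun := fun m => ∑ B, m B • P e B
      map_add' := fun m m' => by simp [add_smul, Finset.sum_add_distrib]
      map_smul' := fun c m => by simp [Finset.smul_sum, smul_smul] }
    (by simp [sum_P])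
    (fun m m' => by
      simp only [LinearMap.coe_mk, AddHom.coe_mk, Pi.mul_apply, Finset.sum_mul_sum,
        smul_mul_smul_comm, P_mul_P e he]
      refine Finset.sum_congr rfl fun B _ => ?_
      simp)

lemma Psi_apply (e : ι → R) (he : ∀ i, e i * e i = e i) (m : Finset ι → ℝ) :
    Psi e he m = ∑ B, m B • P e B := rfl

/-- The multiplier that keeps the sets not containing `i`. -/
def nn (i : ι) : Finset ι → ℝ := fun B => if i ∈ B then 0 else 1

lemma Psi_nn (e : ι → R) (he : ∀ i, e i * e i = e i) (i : ι) : Psi e he (nn i) = e i := by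
  rw [Psi_apply, ← mul_one (e i), ← sum_P e, Finset.mul_sum]
  refine Finset.sum_congr rfl fun B _ => ?_
  rw [e_mul_P e he, nn]
  split_ifs <;> simp

lemma Psi_one (e : ι → R) (he : ∀ i, e i * e i = e i) :
    Psi e he (fun B => if B.card = 1 then 1 else 0) = ∑ i, P e {i} := by
  rw [Psi_apply]
  simp only [ite_smul, one_smul, zero_smul]
  rw [← Finset.sum_filter]
  have : (univ.filter fun B : Finset ι => B.card = 1) =
      univ.map ⟨fun i : ι => ({i} : Finset ι), Finset.singleton_injective⟩ := by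
    ext B
    simp [Finset.card_eq_one, eq_comm]
  rw [this, Finset.sum_map]
  rfl

omit [DecidableEq ι] in
lemma prod_sum_smul {β : Type*} [Fintype β] [DecidableEq ι] (W : ι → β → ℝ) (x : ι → β → R) :
    ∏ j, ∑ b, W j b • x j b = ∑ c : ι → β, (∏ j, W j (c j)) • ∏ j, x j (c j) := by
  rw [Finset.prod_univ_sum, Fintype.piFinset_univ]
  exact Finset.sum_congr rfl fun c _ => Finset.prod_smul _ _ _

omit [DecidableEq ι] in
lemma sum_prod_weights {β : Type*} [Fintype β] [DecidableEq ι] (W : β → ℝ) (hW : ∑ b, W b = 1) :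
    ∑ c : ι → β, ∏ j, W (c j) = 1 := by
  have h := Finset.prod_univ_sum (fun _ : ι => (univ : Finset β)) (fun _ b => W b)
  rw [Fintype.piFinset_univ] at h
  rw [← h]
  simp [hW]

end Idem

section Key

variable {R Y : Type*} [CommRing R] [Algebra ℝ R] [NormedAddCommGroup Y] [NormedSpace ℝ Y]

lemma norm_prod_le (Φ : R →ₐ[ℝ] (Y →L[ℝ] Y)) {κ : Type*} (s : Finset κ) (f : κ → R)
    (hf : ∀ i ∈ s, ‖Φ (f i)‖ ≤ 1) : ‖Φ (∏ i ∈ s, f i)‖ ≤ 1 := by
  refine Finset.prod_induction f (fun r => ‖Φ r‖ ≤ 1) (fun a b ha hb => ?_) ?_ hf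
  · rw [map_mul]
    exact (norm_mul_le _ _).trans (mul_le_one₀ ha (norm_nonneg _) hb)
  · rw [map_one]
    exact ContinuousLinearMap.norm_id_le

omit [Algebra ℝ R] in
lemma sum_units (f : ℤˣ → R) : ∑ u, f u = f 1 + f (-1) := by
  rw [UnitsInt.univ, Finset.sum_pair (by decide)]

lemma key {k : ℕ} (hB : BConv Y k) (Φ : R →ₐ[ℝ] (Y →L[ℝ] Y)) (p : Fin k → R)
    (hp : ∀ j, p j * p j = p j) (hn : ∀ j, ‖Φ (p j)‖ ≤ 1) :
    ‖Φ (∏ j, (1 - p j))‖ ≤ 5 / 8 * 2 ^ k := by
  refine ContinuousLinearMap.opNorm_le_bound _ (by positivity) fun φ => ?_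
  obtain ⟨ℓ, hℓ1, hℓ2⟩ := exists_dual_vector'' ℝ (Φ (∏ j, (1 - p j)) φ)
  set q : (Fin k → ℤˣ) → R := fun η => ∏ j, if η j = 1 then -p j else 1 with hq
  have hqn : ∀ η, ‖Φ (q η)‖ ≤ 1 := fun η => norm_prod_le Φ _ _ fun j _ => by
    split_ifs
    · rw [map_neg, norm_neg]; exact hn j
    · rw [map_one]; exact ContinuousLinearMap.norm_id_le
  have hle : ∀ η (y : Y), ℓ (Φ (q η) y) ≤ ‖y‖ := fun η y => by
    refine (le_abs_self _).trans ?_
    have h1 := ℓ.le_opNorm (Φ (q η) y)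
    have h2 := (Φ (q η)).le_opNorm y
    have h3 : ‖Φ (q η) y‖ ≤ ‖y‖ := h2.trans (mul_le_of_le_one_left (norm_nonneg _) (hqn η))
    rw [Real.norm_eq_abs] at h1
    exact h1.trans ((mul_le_of_le_one_left (norm_nonneg _) hℓ1).trans h3)
  have hsum : ∑ η, q η = ∏ j, (1 - p j) := by
    have h := Finset.prod_univ_sum (fun _ : Fin k => (univ : Finset ℤˣ))
      (fun j u => if u = 1 then -p j else 1)
    rw [Fintype.piFinset_univ] at h
    rw [← h]
    refine Finset.prod_congr rfl fun j _ => ?_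
    rw [sum_units, if_pos rfl, if_neg (by decide)]
    ring
  set a : (Fin k → ℤˣ) → ℝ := fun η => ℓ (Φ (q η) φ) with ha
  have hQ : ‖Φ (∏ j, (1 - p j)) φ‖ = ∑ η, a η := by
    have : ℓ (Φ (∏ j, (1 - p j)) φ) = ‖Φ (∏ j, (1 - p j)) φ‖ := by simpa using hℓ2
    rw [← this, ← hsum, map_sum, _root_.sum_apply, map_sum]
  have hstep : ∀ j η, a η + a (flip j * η) ≤ ℓ (Φ (q η) ((η j : ℤ) • Φ (p j) φ)) + ‖φ‖ := by
    intro j η
    have hr : ∏ i ∈ univ.erase j, (if (flip j * η) i = 1 then -p i else 1) =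
        ∏ i ∈ univ.erase j, (if η i = 1 then -p i else 1) :=
      Finset.prod_congr rfl fun i hi => by simp [flip_ne (Finset.ne_of_mem_erase hi)]
    have e1 : q η = (if η j = 1 then -p j else 1) *
        ∏ i ∈ univ.erase j, (if η i = 1 then -p i else 1) :=
      (Finset.mul_prod_erase _ (fun i => if η i = 1 then -p i else 1) (Finset.mem_univ j)).symm
    have e2 : q (flip j * η) = (if (flip j * η) j = 1 then -p j else 1) *
        ∏ i ∈ univ.erase j, (if η i = 1 then -p i else 1) := by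
      rw [← hr]
      exact (Finset.mul_prod_erase _ (fun i => if (flip j * η) i = 1 then -p i else 1)
        (Finset.mem_univ j)).symm
    rcases Int.units_eq_one_or (η j) with h | h
    · have h1 : q η * p j = q η := by
        rw [e1, if_pos h]
        linear_combination (-∏ i ∈ univ.erase j, (if η i = 1 then -p i else 1)) * hp j
      have h2 : Φ (q η) ((η j : ℤ) • Φ (p j) φ) = Φ (q η) φ := by
        rw [h, Units.val_one, one_smul, ← mul_apply_eq_comp, ← map_mul, h1]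
      rw [h2]
      exact add_le_add le_rfl (hle _ _)
    · have h1 : q η * (-p j) = q (flip j * η) := by
        have : (flip j * η) j = 1 := by simp [flip_same, h]
        rw [e1, e2, if_pos this, if_neg (by rw [h]; decide)]
        ring
      have h2 : Φ (q η) ((η j : ℤ) • Φ (p j) φ) = Φ (q (flip j * η)) φ := by
        rw [← h1, map_mul, map_neg, mul_apply_eq_comp, h]
        simp
      rw [h2, add_comm]
      exact add_le_add le_rfl (hle _ _)
  have hj : ∀ j, 2 * 𝔼 η, a η ≤ 𝔼 η : Fin k → ℤˣ, ℓ (Φ (q η) ((η j : ℤ) • Φ (p j) φ)) + ‖φ‖ := by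
    intro j
    rw [expect_flip j a, Finset.mul_expect,
      ← Finset.expect_const (s := (univ : Finset (Fin k → ℤˣ))) Finset.univ_nonempty ‖φ‖,
      ← Finset.expect_add_distrib]
    refine Finset.expect_le_expect fun η _ => ?_
    linarith [hstep j η]
  have hR : ∑ j, 𝔼 η : Fin k → ℤˣ, ℓ (Φ (q η) ((η j : ℤ) • Φ (p j) φ)) ≤
      R1 fun j => Φ (p j) φ := by
    rw [← Finset.expect_sum_comm]
    refine Finset.expect_le_expect fun η _ => ?_
    rw [← map_sum, ← map_sum]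
    exact hle η _
  have hk : (0 : ℝ) < k := by exact_mod_cast hB.1
  have hR1 : R1 (fun j => Φ (p j) φ) ≤ k / 4 * ‖φ‖ := by
    refine (R1_le_sqrt_R2 _).trans (Real.sqrt_le_iff.2 ⟨by positivity, (hB.2 _).trans ?_⟩)
    have : ∑ j, ‖Φ (p j) φ‖ ^ 2 ≤ ∑ _j : Fin k, ‖φ‖ ^ 2 := Finset.sum_le_sum fun j _ =>
      pow_le_pow_left₀ (norm_nonneg _) (((Φ (p j)).le_opNorm φ).trans
        (mul_le_of_le_one_left (norm_nonneg _) (hn j))) 2
    rw [Finset.sum_const, Finset.card_univ, Fintype.card_fin, nsmul_eq_mul] at this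
    nlinarith
  have htot := Finset.sum_le_sum fun j (_ : j ∈ univ) => hj j
  rw [Finset.sum_add_distrib, Finset.sum_const, Finset.sum_const, Finset.card_univ,
    Fintype.card_fin, nsmul_eq_mul, nsmul_eq_mul, expect_eq_div, Fintype.card_fin, ← hQ] at htot
  have h5 : ‖Φ (∏ j, (1 - p j)) φ‖ / 2 ^ k ≤ 5 / 8 * ‖φ‖ := by
    refine le_of_mul_le_mul_left ?_ hk
    linarith
  rw [div_le_iff₀ (by positivity)] at h5
  linarith

end Key

section Semigroup

variable {ι Y : Type*} [Fintype ι] [DecidableEq ι] [NormedAddCommGroup Y] [NormedSpace ℝ Y]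

lemma exp_eq (t : ℝ) : (fun B : Finset ι => Real.exp (-(t * (B.card : ℕ)))) =
    ∏ i, ∑ b : Bool, (if b then 1 - Real.exp (-t) else Real.exp (-t)) •
      (if b then nn i else 1) := by
  funext B
  have h : Real.exp (-(t * (B.card : ℕ))) = ∏ i, if i ∈ B then Real.exp (-t) else 1 := by
    rw [Finset.prod_ite_mem, Finset.univ_inter, Finset.prod_const, ← Real.exp_nat_mul]
    congr 1; ring
  rw [h, Finset.prod_apply]
  refine Finset.prod_congr rfl fun i _ => ?_
  by_cases hi : i ∈ B <;> simp [nn, hi]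

lemma semi_one (Φ : (Finset ι → ℝ) →ₐ[ℝ] (Y →L[ℝ] Y)) (hn : ∀ i, ‖Φ (nn i)‖ ≤ 1) (t : ℝ)
    (ht : 0 ≤ t) : ‖Φ fun B => Real.exp (-(t * (B.card : ℕ)))‖ ≤ 1 := by
  rw [exp_eq]
  refine norm_prod_le Φ _ _ fun i _ => ?_
  have h0 : 0 ≤ Real.exp (-t) := (Real.exp_pos _).le
  have h1 : 0 ≤ 1 - Real.exp (-t) := sub_nonneg.2 (Real.exp_le_one_iff.2 (by linarith))
  simp only [Fintype.univ_bool, Finset.mem_singleton, Bool.true_eq_false, not_false_eq_true,
    Finset.sum_insert, Finset.sum_singleton, if_true, Bool.false_eq_true, if_false, map_add,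
    map_smul, map_one]
  refine (norm_add_le _ _).trans ?_
  rw [norm_smul, norm_smul, Real.norm_of_nonneg h0, Real.norm_of_nonneg h1]
  have h2 : ‖(1 : Y →L[ℝ] Y)‖ ≤ 1 := ContinuousLinearMap.norm_id_le
  nlinarith [hn i]

lemma semi_two {k : ℕ} (hB : BConv Y k) (Φ : (Finset ι → ℝ) →ₐ[ℝ] (Y →L[ℝ] Y))
    (hn : ∀ i, ‖Φ (nn i)‖ ≤ 1) (t : ℝ) (ht : 0 ≤ t) :
    ‖Φ fun B => (1 - Real.exp (-(t * (B.card : ℕ)))) ^ k‖ ≤ 5 / 8 * 2 ^ k := by
  have h0 : 0 ≤ Real.exp (-t) := (Real.exp_pos _).le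
  have h1 : 0 ≤ 1 - Real.exp (-t) := sub_nonneg.2 (Real.exp_le_one_iff.2 (by linarith))
  set W : Bool → ℝ := fun b => if b then 1 - Real.exp (-t) else Real.exp (-t) with hW
  have hW0 : ∀ b, 0 ≤ W b := fun b => by cases b <;> simp only [hW] <;> simpa
  have hW1 : ∑ b, W b = 1 := by simp [hW]
  set w : (ι → Bool) → ℝ := fun c => ∏ i, W (c i) with hw
  have hw0 : ∀ c, 0 ≤ w c := fun c => Finset.prod_nonneg fun i _ => hW0 _
  have hw1 : ∑ c, w c = 1 := sum_prod_weights W hW1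
  set E : (ι → Bool) → Finset ι → ℝ := fun c => ∏ i, if c i then nn i else 1 with hE
  have hu : (fun B : Finset ι => Real.exp (-(t * (B.card : ℕ)))) = ∑ c, w c • E c := by
    rw [exp_eq]
    exact prod_sum_smul (fun _ b => W b) fun i b => if b then nn i else 1
  have hv : (fun B : Finset ι => (1 - Real.exp (-(t * (B.card : ℕ)))) ^ k) =
      ∏ _j : Fin k, ∑ c, w c • (1 - E c) := by
    have : ∑ c, w c • (1 - E c) = 1 - fun B : Finset ι => Real.exp (-(t * (B.card : ℕ))) := by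
      rw [hu]
      simp only [smul_sub, Finset.sum_sub_distrib, ← Finset.sum_smul, hw1, one_smul]
    rw [this, Finset.prod_const, Finset.card_univ, Fintype.card_fin]
    rfl
  rw [hv, prod_sum_smul (fun _ c => w c) fun _ c => 1 - E c, map_sum]
  refine (norm_sum_le _ _).trans ?_
  have hb : ∀ C : Fin k → ι → Bool, ‖Φ ((∏ j, w (C j)) • ∏ j, (1 - E (C j)))‖ ≤
      (∏ j, w (C j)) * (5 / 8 * 2 ^ k) := fun C => by
    have h2 : 0 ≤ ∏ j, w (C j) := Finset.prod_nonneg fun j _ => hw0 _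
    rw [map_smul, norm_smul, Real.norm_of_nonneg h2]
    refine mul_le_mul_of_nonneg_left (key hB Φ (fun j => E (C j)) (fun j => ?_) fun j => ?_) h2
    · simp only [hE]
      rw [← Finset.prod_mul_distrib]
      refine Finset.prod_congr rfl fun i _ => ?_
      split_ifs
      · funext B
        by_cases hi : i ∈ B <;> simp [nn, hi]
      · simp
    · refine norm_prod_le Φ _ _ fun i _ => ?_
      split_ifs
      · exact hn i
      · rw [map_one]; exact ContinuousLinearMap.norm_id_le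
  refine (Finset.sum_le_sum fun C _ => hb C).trans ?_
  rw [← Finset.sum_mul, sum_prod_weights w hw1, one_mul]

end Semigroup

section Cube

variable {ι : Type} (X : Type*) [Fintype ι] [DecidableEq ι] [NormedAddCommGroup X]
  [NormedSpace ℝ X]

omit [NormedSpace ℝ X] in
lemma bconv_pi {G : Type*} [Fintype G] {k : ℕ} (h : BConv X k) :
    BConv (PiLp 2 fun _ : G => X) k := by
  refine ⟨h.1, fun x => ?_⟩
  have h1 : ∀ ε : Fin k → ℤˣ, ‖rs x ε‖ ^ 2 = ∑ g, ‖rs (fun i => x i g) ε‖ ^ 2 := fun ε => by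
    rw [PiLp.norm_sq_eq_of_L2]
    refine Finset.sum_congr rfl fun g _ => ?_
    have := map_rs (AddMonoidHom.mk' (fun z : PiLp 2 fun _ : G => X => z g) fun _ _ => rfl) x ε
    simp only [AddMonoidHom.mk'_apply] at this
    rw [this]
  simp only [R2, h1, PiLp.norm_sq_eq_of_L2]
  rw [Finset.expect_sum_comm, Finset.sum_comm, Finset.mul_sum]
  exact Finset.sum_le_sum fun g _ => h.2 fun i => x i g

/-- Translation operators. -/
noncomputable def tr (g : ι → ℤˣ) :
    (PiLp 2 fun _ : ι → ℤˣ => X) →L[ℝ] (PiLp 2 fun _ : ι → ℤˣ => X) :=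
  (LinearIsometryEquiv.piLpCongrLeft 2 ℝ X
    (Equiv.mulLeft g).symm).toLinearIsometry.toContinuousLinearMap

lemma tr_apply (g : ι → ℤˣ) (φ : PiLp 2 fun _ : ι → ℤˣ => X) (ε : ι → ℤˣ) :
    tr X g φ ε = φ (g * ε) := rfl

lemma norm_tr (g : ι → ℤˣ) : ‖tr X g‖ ≤ 1 := LinearIsometry.norm_toContinuousLinearMap_le _

/-- The translation representation. -/
noncomputable def tau : (ι → ℤˣ) →*
    ((PiLp 2 fun _ : ι → ℤˣ => X) →L[ℝ] (PiLp 2 fun _ : ι → ℤˣ => X)) where
  toFun := tr X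
  map_one' := by
    ext φ ε
    simp [tr_apply]
  map_mul' g g' := by
    ext φ ε
    simp [tr_apply, mul_left_comm, mul_assoc]

/-- The averaging idempotents of the group algebra. -/
noncomputable def ee (i : ι) : MonoidAlgebra ℝ (ι → ℤˣ) :=
  (1 / 2 : ℝ) • (1 + MonoidAlgebra.of ℝ (ι → ℤˣ) (flip i))

omit [Fintype ι] in
lemma ee_mul (i : ι) : ee i * ee i = ee i := by
  have hff : (flip i : ι → ℤˣ) * flip i = 1 := by
    funext j
    by_cases hj : j = i
    · subst hj; simp [flip_same]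
    · simp [flip_ne hj]
  have h : MonoidAlgebra.of ℝ (ι → ℤˣ) (flip i) * MonoidAlgebra.of ℝ (ι → ℤˣ) (flip i) = 1 := by
    rw [← map_mul, hff, map_one]
  rw [ee, smul_mul_smul_comm, add_mul, mul_add, mul_add, h, one_mul, one_mul, mul_one]
  module

lemma P_ee (i : ι) : P ee {i} = ∑ η : ι → ℤˣ, ((1 / 2 : ℝ) ^ Fintype.card ι * ((η i : ℤ) : ℝ)) •
    MonoidAlgebra.of ℝ (ι → ℤˣ) η := by
  have h := prod_sum_smul
    (fun (j : ι) (u : ℤˣ) => (1 / 2 : ℝ) * if j = i then ((u : ℤ) : ℝ) else 1)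
    (fun j u => MonoidAlgebra.of ℝ (ι → ℤˣ) (Pi.mulSingle j u))
  have h1 : ∀ η : ι → ℤˣ, ∏ j, MonoidAlgebra.of ℝ (ι → ℤˣ) (Pi.mulSingle j (η j)) =
      MonoidAlgebra.of ℝ (ι → ℤˣ) η := fun η => by
    rw [← map_prod, Finset.univ_prod_mulSingle]
  have h2 : ∀ η : ι → ℤˣ, ∏ j, ((1 / 2 : ℝ) * if j = i then ((η j : ℤ) : ℝ) else 1) =
      (1 / 2 : ℝ) ^ Fintype.card ι * ((η i : ℤ) : ℝ) := fun η => by
    rw [Finset.prod_mul_distrib, Finset.prod_const, Finset.card_univ, Finset.prod_ite_eq']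
    simp
  simp only [h1, h2] at h
  rw [← h, P]
  refine Finset.prod_congr rfl fun j _ => ?_
  rw [sum_units, Pi.mulSingle_one, map_one, ee, flip]
  by_cases hj : j = i
  · simp only [hj, Finset.mem_singleton, if_true, Units.val_one, Int.cast_one, Units.val_neg,
      Int.cast_neg]
    module
  · simp only [hj, Finset.mem_singleton, if_false]
    module

end Cube

end K2

theorem kconv {X : Type*} [NormedAddCommGroup X] [NormedSpace ℝ X] {k : ℕ} (h : BConv X k) :
    ∃ K, 0 ≤ K ∧ KConv X K := by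
  obtain ⟨C, hC0, hC⟩ := kato k h.1
  refine ⟨C, hC0, fun ι _ _ φ => ?_⟩
  set ρ := MonoidAlgebra.lift ℝ _ (ι → ℤˣ) (K2.tau X) with hρ
  set Φ := ρ.comp (K2.Psi K2.ee K2.ee_mul) with hΦ
  have hof : ∀ g, ρ (MonoidAlgebra.of ℝ (ι → ℤˣ) g) = K2.tr X g := fun g =>
    MonoidAlgebra.lift_of _ g
  have hn : ∀ i, ‖Φ (K2.nn i)‖ ≤ 1 := fun i => by
    rw [hΦ, AlgHom.comp_apply, K2.Psi_nn, K2.ee, map_smul, map_add, map_one, hof, norm_smul]
    have h1 : ‖(1 : (PiLp 2 fun _ : ι → ℤˣ => X) →L[ℝ] (PiLp 2 fun _ : ι → ℤˣ => X))‖ ≤ 1 :=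
      ContinuousLinearMap.norm_id_le
    have h2 := norm_add_le (1 : (PiLp 2 fun _ : ι → ℤˣ => X) →L[ℝ] (PiLp 2 fun _ : ι → ℤˣ => X))
      (K2.tr X (flip i))
    have h3 := K2.norm_tr X (flip i)
    rw [Real.norm_of_nonneg (by norm_num)]
    linarith
  have hQ := hC (Finset ι) Finset.card _ Φ (K2.semi_one Φ hn)
    (K2.semi_two (K2.bconv_pi X h) Φ hn)
  set ψ : PiLp 2 fun _ : ι → ℤˣ => X := WithLp.toLp 2 φ with hψ
  have hval : ∀ ε, (Φ fun B => if B.card = 1 then 1 else 0) ψ ε =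
      ((1 / 2 : ℝ) ^ Fintype.card ι) • rs (fun i => ∑ η : ι → ℤˣ, (η i : ℤ) • φ η) ε := fun ε => by
    rw [hΦ, AlgHom.comp_apply, K2.Psi_one]
    simp only [K2.P_ee, map_sum, map_smul, hof, _root_.sum_apply,
      smul_apply, WithLp.ofLp_sum, WithLp.ofLp_smul, Finset.sum_apply,
      Pi.smul_apply, K2.tr_apply, rs, Finset.smul_sum]
    refine Finset.sum_congr rfl fun i _ => ?_
    refine Fintype.sum_equiv (Equiv.mulRight ε) _ _ fun η => ?_
    simp only [Equiv.coe_mulRight, Pi.mul_apply, hψ, mul_smul]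
    congr 1
    rcases Int.units_eq_one_or (η i) with h1 | h1 <;>
      rcases Int.units_eq_one_or (ε i) with h2 | h2 <;> simp [h1, h2]
  have h1 := pow_le_pow_left₀ (norm_nonneg _) (((Φ fun B => if B.card = 1 then 1 else 0).le_opNorm
    ψ).trans (mul_le_mul_of_nonneg_right hQ (norm_nonneg _))) 2
  rw [mul_pow, PiLp.norm_sq_eq_of_L2, PiLp.norm_sq_eq_of_L2] at h1
  simp only [hval, norm_smul, mul_pow, ← Finset.mul_sum] at h1
  rw [Real.norm_of_nonneg (by positivity)] at h1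
  rw [R2, expect_eq_div, div_le_iff₀ (by positivity)]
  have h2 : ((1 / 2 : ℝ) ^ Fintype.card ι) * 2 ^ Fintype.card ι = 1 := by
    rw [← mul_pow]; simp
  have h3 := mul_le_mul_of_nonneg_left h1 (show (0 : ℝ) ≤ (2 ^ Fintype.card ι) ^ 2 by positivity)
  rw [← mul_assoc, ← mul_pow, mul_comm (2 ^ Fintype.card ι : ℝ), h2, one_pow, one_mul] at h3
  refine h3.trans (le_of_eq ?_)
  simp only [hψ]
  ring

end Pool.Agent.Lib.MP_f92ad0_an.Mep

/-! Low M* estimate for several blocks (symmetrization and contraction). -/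

namespace Pool.Agent.Lib.MP_f92ad0_an.Mep

open Finset
open scoped BigOperators

namespace LM

variable {B Ω : Type*} [Fintype Ω] [Nonempty Ω]

lemma one_step [Nonempty B] (ν : Ω ≃ Ω) (t : Ω → B → ℝ) (ht : ∀ ω b, t (ν ω) b = -t ω b)
    (h : B → ℝ) (F : Ω → ℝ) (hF : ∀ ω b, h b + 2 * t ω b ≤ F ω) :
    ∃ F' : Ω → ℝ, (∀ ω b, h b + ((𝔼 ω', |t ω' b|) - |t ω b|) ≤ F' ω) ∧ 𝔼 ω, F' ω ≤ 𝔼 ω, F ω := by
  have hF' : ∀ ω b, h b - 2 * t ω b ≤ F (ν ω) := fun ω b => by
    have := hF (ν ω) b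
    rw [ht] at this
    linarith
  have hpair : ∀ ω b b', h b + h b' + 2 * |t ω b - t ω b'| ≤ F ω + F (ν ω) := fun ω b b' => by
    rcases abs_cases (t ω b - t ω b') with ⟨h1, -⟩ | ⟨h1, -⟩
    · linarith [hF ω b, hF' ω b']
    · linarith [hF ω b', hF' ω b]
  have hbdd : ∀ ω ω', BddAbove (Set.range fun b => h b + (|t ω' b| - |t ω b|)) := fun ω ω' => by
    refine ⟨|F ω'| + |F (ν ω')|, ?_⟩
    rintro _ ⟨b, rfl⟩
    have h1 := abs_nonneg (t ω b)
    have h2 := le_abs_self (F ω')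
    have h3 := le_abs_self (F (ν ω'))
    have h4 := abs_nonneg (F ω')
    have h5 := abs_nonneg (F (ν ω'))
    rcases abs_cases (t ω' b) with ⟨h6, h7⟩ | ⟨h6, h7⟩
    · simp only; linarith [hF ω' b]
    · simp only; linarith [hF' ω' b]
  set G : Ω → Ω → ℝ := fun ω ω' => ⨆ b, h b + (|t ω' b| - |t ω b|) with hG
  have hGG : ∀ ω ω', G ω ω' + G ω' ω ≤ (F ω + F (ν ω) + (F ω' + F (ν ω'))) / 2 := fun ω ω' => by
    have : G ω ω' ≤ (F ω + F (ν ω) + (F ω' + F (ν ω'))) / 2 - G ω' ω := by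
      refine ciSup_le fun b => ?_
      have : G ω' ω ≤ (F ω + F (ν ω) + (F ω' + F (ν ω'))) / 2 - (h b + (|t ω' b| - |t ω b|)) := by
        refine ciSup_le fun b' => ?_
        have h1 := abs_sub_abs_le_abs_sub (t ω' b) (t ω' b')
        have h2 := abs_sub_abs_le_abs_sub (t ω b') (t ω b)
        linarith [hpair ω b' b, hpair ω' b b']
      linarith
    linarith
  refine ⟨fun ω => 𝔼 ω', G ω ω', fun ω b => ?_, ?_⟩
  · have h1 : h b + ((𝔼 ω', |t ω' b|) - |t ω b|) = 𝔼 ω', (h b + (|t ω' b| - |t ω b|)) := by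
      rw [Finset.expect_add_distrib, Finset.expect_sub_distrib,
        Finset.expect_const Finset.univ_nonempty, Finset.expect_const Finset.univ_nonempty]
    rw [h1]
    exact Finset.expect_le_expect fun ω' _ => le_ciSup (hbdd ω ω') b
  · have h1 : 𝔼 ω, 𝔼 ω', G ω' ω = 𝔼 ω, 𝔼 ω', G ω ω' := Finset.expect_comm _ _ _
    have h2 : 𝔼 ω, F (ν ω) = 𝔼 ω, F ω := Finset.expect_equiv ν (by simp) (by simp)
    have h3 : 𝔼 ω, 𝔼 ω', (G ω ω' + G ω' ω) ≤
        𝔼 ω, 𝔼 ω', (F ω + F (ν ω) + (F ω' + F (ν ω'))) / 2 :=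
      Finset.expect_le_expect fun ω _ => Finset.expect_le_expect fun ω' _ => hGG ω ω'
    simp only [← Finset.expect_div, Finset.expect_add_distrib,
      Finset.expect_const Finset.univ_nonempty, h1, h2] at h3
    linarith

omit [Nonempty Ω] in
lemma expect_cons {m : ℕ} (F : (Fin (m + 1) → Ω) → ℝ) :
    𝔼 ω, F ω = 𝔼 a : Ω, 𝔼 ω : Fin m → Ω, F (Fin.cons a ω) := by
  rw [← Finset.expect_product', Finset.univ_product_univ]
  exact (Finset.expect_equiv (Fin.consEquiv fun _ => Ω) (by simp) fun p _ => rfl).symm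

lemma multi_step [Nonempty B] (ν : Ω ≃ Ω) (m : ℕ) :
    ∀ (t : Fin m → Ω → B → ℝ) (_ : ∀ j ω b, t j (ν ω) b = -t j ω b) (h : B → ℝ)
      (F : (Fin m → Ω) → ℝ) (_ : ∀ ω b, h b + 2 * ∑ j, t j (ω j) b ≤ F ω),
      ∃ F' : (Fin m → Ω) → ℝ,
        (∀ ω b, h b + ∑ j, ((𝔼 ω', |t j ω' b|) - |t j (ω j) b|) ≤ F' ω) ∧
          𝔼 ω, F' ω ≤ 𝔼 ω, F ω := by
  induction m with
  | zero => exact fun t _ h F hF => ⟨F, by simpa using hF, le_rfl⟩
  | succ m ih =>
    intro t ht h F hF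
    choose F1 hF1 hF1' using fun a : Ω => ih (fun j => t j.succ) (fun j => ht j.succ)
      (fun b => h b + 2 * t 0 a b) (fun ω => F (Fin.cons a ω)) fun ω b => by
        have := hF (Fin.cons a ω) b
        simp only [Fin.sum_univ_succ, Fin.cons_zero, Fin.cons_succ] at this
        linarith
    choose F2 hF2 hF2' using fun ω : Fin m → Ω => one_step ν (t 0) (ht 0)
      (fun b => h b + ∑ j : Fin m, ((𝔼 ω', |t j.succ ω' b|) - |t j.succ (ω j) b|))
      (fun a => F1 a ω) fun a b => by linarith [hF1 a ω b]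
    refine ⟨fun ω => F2 (Fin.tail ω) (ω 0), fun ω b => ?_, ?_⟩
    · have := hF2 (Fin.tail ω) (ω 0) b
      simp only [Fin.sum_univ_succ, Fin.tail] at this ⊢
      linarith
    · rw [expect_cons, expect_cons F]
      simp only [Fin.tail_cons, Fin.cons_zero]
      calc 𝔼 a : Ω, 𝔼 ω : Fin m → Ω, F2 ω a = 𝔼 ω : Fin m → Ω, 𝔼 a : Ω, F2 ω a :=
            Finset.expect_comm _ _ _
        _ ≤ 𝔼 ω : Fin m → Ω, 𝔼 a : Ω, F1 a ω := Finset.expect_le_expect fun ω _ => hF2' ω
        _ = 𝔼 a : Ω, 𝔼 ω : Fin m → Ω, F1 a ω := Finset.expect_comm _ _ _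
        _ ≤ _ := Finset.expect_le_expect fun a _ => hF1' a

end LM

theorem lowM {𝕜 : Type*} [RCLike 𝕜] {X : Type*} [NormedAddCommGroup X] [NormedSpace 𝕜 X]
    {J ι : Type} [Fintype J] [DecidableEq J] [Fintype ι] [DecidableEq ι]
    (a : J → ι → StrongDual 𝕜 X) :
    ∃ ω : J → ι → ℤˣ, ∀ ξ : X, (∀ j, rs (a j) (ω j) ξ = 0) →
      ∑ j, √(∑ i, ‖a j i ξ‖ ^ 2) ≤ 8 * R1 (fun p : J × ι => a p.1 p.2) * ‖ξ‖ := by
  set ρ := R1 (fun p : J × ι => a p.1 p.2) with hρ
  set e := Fintype.equivFin J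
  haveI : Nonempty (Metric.closedBall (0 : X) 1) := ⟨⟨0, by simp⟩⟩
  obtain ⟨F', hF', hE⟩ := LM.multi_step (B := Metric.closedBall (0 : X) 1)
    (Equiv.neg (ι → ℤˣ)) (Fintype.card J)
    (fun j ω b => RCLike.re (rs (a (e.symm j)) ω b.1))
    (fun j ω b => by simp [rs]) (fun _ => 0)
    (fun ω => 2 * ‖∑ j, rs (a (e.symm j)) (ω j)‖) (fun ω b => by
      rw [zero_add, ← map_sum, ← _root_.sum_apply]
      refine mul_le_mul_of_nonneg_left ((RCLike.re_le_norm _).trans
        ((ContinuousLinearMap.le_opNorm _ _).trans ?_)) (by norm_num)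
      exact mul_le_of_le_one_right (norm_nonneg _) (mem_closedBall_zero_iff.1 b.2))
  have hE2 : 𝔼 ω : Fin (Fintype.card J) → ι → ℤˣ, 2 * ‖∑ j, rs (a (e.symm j)) (ω j)‖ = 2 * ρ := by
    rw [← Finset.mul_expect, hρ, R1]
    congr 1
    refine Finset.expect_equiv ((Equiv.arrowCongr e.symm (Equiv.refl _)).trans
      (Equiv.curry J ι ℤˣ).symm) (by simp) fun ω _ => ?_
    congr 1
    rw [rs, Fintype.sum_prod_type]
    exact Fintype.sum_equiv e.symm _ _ fun j => by simp [rs]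
  obtain ⟨ω, -, hω⟩ := Finset.exists_le_of_expect_le Finset.univ_nonempty (hE.trans hE2.le)
  refine ⟨fun j => ω (e j), fun ξ hξ => ?_⟩
  have key : ∀ η : X, ‖η‖ ≤ 1 → (∀ j, rs (a j) (ω (e j)) η = 0) →
      ∑ j, 𝔼 ε : ι → ℤˣ, |RCLike.re (rs (a j) ε η)| ≤ 2 * ρ := fun η hη h0 => by
    have h1 := (hF' ω ⟨η, mem_closedBall_zero_iff.2 hη⟩).trans hω
    rw [zero_add] at h1
    refine le_trans (le_of_eq ?_) h1
    refine Fintype.sum_equiv e _ _ fun j => ?_
    simp [h0]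
  have key2 : ∀ η : X, ‖η‖ ≤ 1 → (∀ j, rs (a j) (ω (e j)) η = 0) →
      ∑ j, √(∑ i, ‖a j i η‖ ^ 2) ≤ 8 * ρ := fun η hη h0 => by
    have hI : ‖(RCLike.I : 𝕜)‖ ≤ 1 := by
      rcases RCLike.I_eq_zero_or_im_I_eq_one (K := 𝕜) with h | h
      · simp [h]
      · exact (RCLike.norm_I_of_ne_zero fun h' => by simp [h'] at h).le
    have h1 := key η hη h0
    have h2 := key ((RCLike.I : 𝕜) • η)
      (by rw [norm_smul]; exact mul_le_one₀ hI (norm_nonneg _) hη) fun j => by
        rw [map_smul, h0, smul_zero]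
    simp only [map_smul, smul_eq_mul, RCLike.I_mul_re, abs_neg] at h2
    have h3 : ∀ j, √(∑ i, ‖a j i η‖ ^ 2) ≤ 2 * (𝔼 ε : ι → ℤˣ, |RCLike.re (rs (a j) ε η)|) +
        2 * 𝔼 ε : ι → ℤˣ, |RCLike.im (rs (a j) ε η)| := fun j => by
      refine (khintchine 𝕜 fun i => a j i η).trans ?_
      rw [← mul_add, ← Finset.expect_add_distrib]
      refine mul_le_mul_of_nonneg_left (Finset.expect_le_expect fun ε _ => ?_) (by norm_num)
      have h4 : rs (fun i => a j i η) ε = rs (a j) ε η := by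
        simp only [rs, FunLike.coe_sum, Finset.sum_apply, smul_apply]
      rw [h4]
      rw [← RCLike.sqrt_normSq_eq_norm, RCLike.normSq_apply]
      refine Real.sqrt_le_iff.2 ⟨by positivity, ?_⟩
      nlinarith [abs_mul_abs_self (RCLike.re (rs (a j) ε η)),
        abs_mul_abs_self (RCLike.im (rs (a j) ε η)),
        mul_nonneg (abs_nonneg (RCLike.re (rs (a j) ε η))) (abs_nonneg (RCLike.im (rs (a j) ε η)))]
    refine (Finset.sum_le_sum fun j _ => h3 j).trans ?_
    rw [Finset.sum_add_distrib, ← Finset.mul_sum, ← Finset.mul_sum]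
    linarith
  rcases eq_or_ne ξ 0 with rfl | h0
  · simp
  have hpos : 0 < ‖ξ‖ := norm_pos_iff.2 h0
  have h1 := key2 (((‖ξ‖⁻¹ : ℝ) : 𝕜) • ξ)
    (by rw [norm_smul, RCLike.norm_ofReal, abs_of_pos (inv_pos.2 hpos), inv_mul_cancel₀ hpos.ne'])
    fun j => by rw [map_smul, hξ, smul_zero]
  have h2 : ∀ j, √(∑ i, ‖a j i (((‖ξ‖⁻¹ : ℝ) : 𝕜) • ξ)‖ ^ 2) = ‖ξ‖⁻¹ * √(∑ i, ‖a j i ξ‖ ^ 2) :=
    fun j => by
      simp only [map_smul, norm_smul, RCLike.norm_ofReal, mul_pow, sq_abs, ← Finset.mul_sum]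
      rw [Real.sqrt_mul (by positivity), Real.sqrt_sq (inv_pos.2 hpos).le]
  simp only [h2, ← Finset.mul_sum] at h1
  rwa [inv_mul_le_iff₀ hpos, mul_comm] at h1

end Pool.Agent.Lib.MP_f92ad0_an.Mep

/-! Duality lemmas. -/

namespace Pool.Agent.Lib.MP_f92ad0_an.Mep

open Finset
open scoped BigOperators

section Dual

variable {𝕜 : Type*} [RCLike 𝕜] {X : Type*} [NormedAddCommGroup X] [NormedSpace 𝕜 X]

/-- Every Rademacher sum is normed by a Rademacher sum in the dual. -/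
def DualSel (𝕜 X : Type*) [RCLike 𝕜] [NormedAddCommGroup X] [NormedSpace 𝕜 X] (K : ℝ) : Prop :=
  ∀ (ι : Type) [Fintype ι] [DecidableEq ι] (x : ι → X), ∃ y : ι → StrongDual 𝕜 X,
    √(R2 y) ≤ K ∧ √(R2 x) ≤ ∑ i, RCLike.re (y i (x i))

lemma sum_hat_left {ι : Type*} [Fintype ι] [DecidableEq ι] (φ : (ι → ℤˣ) → StrongDual 𝕜 X)
    (x : ι → X) :
    ∑ i, (∑ ε : ι → ℤˣ, (ε i : ℤ) • φ ε) (x i) = ∑ ε : ι → ℤˣ, φ ε (rs x ε) := by
  simp only [rs, FunLike.coe_sum, Finset.sum_apply, smul_apply, map_sum, map_zsmul]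
  exact Finset.sum_comm

lemma sum_hat_right {ι : Type*} [Fintype ι] [DecidableEq ι] (y : ι → StrongDual 𝕜 X)
    (ψ : (ι → ℤˣ) → X) :
    ∑ i, y i (∑ ε : ι → ℤˣ, (ε i : ℤ) • ψ ε) = ∑ ε : ι → ℤˣ, rs y ε (ψ ε) := by
  simp only [rs, FunLike.coe_sum, Finset.sum_apply, smul_apply, map_sum, map_zsmul]
  exact Finset.sum_comm

lemma dualSel {K : ℝ} (hK0 : 0 ≤ K) (hK : KConv X K) : DualSel 𝕜 X (2 * K) := by
  intro ι _ _ x
  set ρ := √(R2 x) with hρ
  rcases (Real.sqrt_nonneg (R2 x)).eq_or_lt with h0 | h0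
  · refine ⟨0, ?_, ?_⟩
    · have : R2 (0 : ι → StrongDual 𝕜 X) = 0 := by
        have h1 : ∀ ε : ι → ℤˣ, rs (0 : ι → StrongDual 𝕜 X) ε = 0 := fun ε =>
          Finset.sum_eq_zero fun i _ => zsmul_zero _
        simp [R2, h1]
      rw [this, Real.sqrt_zero]; positivity
    · rw [hρ, ← h0]; simp
  have hρ2 : ρ ^ 2 = R2 x := Real.sq_sqrt (R2_nonneg x)
  set N : ℝ := 2 ^ Fintype.card ι with hN
  have hN0 : 0 < N := by positivity
  choose ξ hξ1 hξ2 using fun z : X => exists_dual_vector'' 𝕜 z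
  set φ : (ι → ℤˣ) → StrongDual 𝕜 X :=
    fun ε => ((‖rs x ε‖ / (ρ * N) : ℝ) : 𝕜) • ξ (rs x ε) with hφ
  have hφn : ∀ ε, ‖φ ε‖ ≤ ‖rs x ε‖ / (ρ * N) := fun ε => by
    rw [hφ, norm_smul, RCLike.norm_ofReal, abs_of_nonneg (by positivity)]
    exact mul_le_of_le_one_right (by positivity) (hξ1 _)
  have hsum : ∑ ε : ι → ℤˣ, ‖rs x ε‖ ^ 2 = ρ ^ 2 * N := by
    rw [hρ2, R2, expect_eq_div, div_mul_cancel₀ _ hN0.ne']
  set y : ι → StrongDual 𝕜 X := fun i => ∑ ε : ι → ℤˣ, (ε i : ℤ) • φ ε with hy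
  refine ⟨y, ?_, le_of_eq ?_⟩
  · choose ψ hψ1 hψ2 using fun η : ι → ℤˣ => exists_half_norming (rs y η)
    set τ := √(R2 y) with hτ
    have hτ0 : 0 ≤ τ := Real.sqrt_nonneg _
    have hτ2 : τ ^ 2 = R2 y := Real.sq_sqrt (R2_nonneg y)
    have hsy : ∑ η : ι → ℤˣ, ‖rs y η‖ ^ 2 = τ ^ 2 * N := by
      rw [hτ2, R2, expect_eq_div, div_mul_cancel₀ _ hN0.ne']
    set z : ι → X := fun i => ∑ ε : ι → ℤˣ, (ε i : ℤ) • ψ ε with hz
    have h1 : τ ^ 2 * N / 2 ≤ RCLike.re (∑ i, y i (z i)) := by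
      rw [hz, sum_hat_right, map_sum, ← hsy, Finset.sum_div]
      exact Finset.sum_le_sum fun η _ => hψ2 η
    have h2 : RCLike.re (∑ i, y i (z i)) ≤ ∑ ε : ι → ℤˣ, ‖rs x ε‖ / (ρ * N) * ‖rs z ε‖ := by
      rw [hy, sum_hat_left, map_sum]
      refine Finset.sum_le_sum fun ε _ => (RCLike.re_le_norm _).trans ?_
      exact ((φ ε).le_opNorm _).trans (mul_le_mul_of_nonneg_right (hφn ε) (norm_nonneg _))
    have h3 : ∑ ε : ι → ℤˣ, ‖rs x ε‖ / (ρ * N) * ‖rs z ε‖ ≤ √(R2 z) := by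
      have h4 := expect_mul_le_sqrt (fun ε : ι → ℤˣ => ‖rs x ε‖) (fun ε => ‖rs z ε‖)
      rw [expect_eq_div, ← hN] at h4
      change _ ≤ ρ * √(R2 z) at h4
      have h5 : ∑ ε : ι → ℤˣ, ‖rs x ε‖ / (ρ * N) * ‖rs z ε‖ =
          (∑ ε : ι → ℤˣ, ‖rs x ε‖ * ‖rs z ε‖) / N / ρ := by
        simp only [Finset.sum_div]
        exact Finset.sum_congr rfl fun ε _ => by field_simp
      rw [h5, div_le_iff₀ h0, mul_comm]
      exact h4
    have h6 : √(R2 z) ≤ K * N * τ := by
      refine Real.sqrt_le_iff.2 ⟨by positivity, (hK ι ψ).trans ?_⟩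
      have h7 : ∑ η : ι → ℤˣ, ‖ψ η‖ ^ 2 ≤ τ ^ 2 * N := by
        rw [← hsy]
        exact Finset.sum_le_sum fun η _ => pow_le_pow_left₀ (norm_nonneg _) (hψ1 η) 2
      rw [← hN]
      calc K ^ 2 * N * ∑ η : ι → ℤˣ, ‖ψ η‖ ^ 2 ≤ K ^ 2 * N * (τ ^ 2 * N) := by gcongr
        _ = (K * N * τ) ^ 2 := by ring
    have h8 : τ * (τ * N) ≤ 2 * K * (τ * N) := by nlinarith
    rcases hτ0.eq_or_lt with h9 | h9
    · rw [← h9]; positivity
    · exact le_of_mul_le_mul_right h8 (by positivity)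
  · rw [← map_sum, hy, sum_hat_left, map_sum]
    have : ∀ ε : ι → ℤˣ, RCLike.re (φ ε (rs x ε)) = ‖rs x ε‖ ^ 2 / (ρ * N) := fun ε => by
      rw [hφ]
      simp only [smul_apply, hξ2, smul_eq_mul, ← RCLike.ofReal_mul, RCLike.ofReal_re]
      ring
    simp only [this]
    rw [← Finset.sum_div, hsum]
    field_simp

lemma cot_dual {k : ℕ} (h : BConv X k) (w : Fin k → StrongDual 𝕜 X) :
    ∑ l, ‖w l‖ ^ 2 ≤ (k : ℝ) / 4 * R2 w := by
  choose x hx1 hx2 using fun l => exists_half_norming (w l)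
  set S := ∑ l, ‖w l‖ ^ 2 with hS
  have hS0 : 0 ≤ S := by positivity
  have h1 : S / 2 ≤ √(R2 w) * √(R2 x) := by
    refine le_trans ?_ (pair_le w x)
    rw [hS, Finset.sum_div]
    exact Finset.sum_le_sum fun l _ => hx2 l
  have h2 : R2 x ≤ (k : ℝ) / 16 * S := (h.2 x).trans (mul_le_mul_of_nonneg_left
    (Finset.sum_le_sum fun l _ => pow_le_pow_left₀ (norm_nonneg _) (hx1 l) 2) (by positivity))
  have h3 := pow_le_pow_left₀ (by positivity) h1 2
  rw [mul_pow, Real.sq_sqrt (R2_nonneg w), Real.sq_sqrt (R2_nonneg x)] at h3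
  have h4 : S * S ≤ (k : ℝ) / 4 * R2 w * S := by
    nlinarith [mul_le_mul_of_nonneg_left h2 (R2_nonneg w)]
  rcases hS0.eq_or_lt with h5 | h5
  · rw [← h5]; exact mul_nonneg (by positivity) (R2_nonneg w)
  · exact le_of_mul_le_mul_right h4 h5

lemma Contr.re {α β : Type*} [Fintype α] [Fintype β] {c : β → α → 𝕜} (hc : Contr c) :
    Contr fun b a => RCLike.re (c b a) := fun v => by
  refine le_trans (Finset.sum_le_sum fun b _ => ?_) ((hc fun a => (v a : 𝕜)).trans (by simp))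
  refine pow_le_pow_left₀ (norm_nonneg _) (le_trans (le_of_eq ?_) (RCLike.abs_re_le_norm _)) 2
  simp [map_sum]

lemma Contr.im {α β : Type*} [Fintype α] [Fintype β] {c : β → α → 𝕜} (hc : Contr c) :
    Contr fun b a => RCLike.im (c b a) := fun v => by
  refine le_trans (Finset.sum_le_sum fun b _ => ?_) ((hc fun a => (v a : 𝕜)).trans (by simp))
  refine pow_le_pow_left₀ (norm_nonneg _) (le_trans (le_of_eq ?_) (RCLike.abs_im_le_norm _)) 2
  simp [map_sum]

lemma Contr.transpose {α β : Type*} [Fintype α] [Fintype β] {c : β → α → 𝕜} (hc : Contr c) :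
    Contr fun a b => c b a := fun u => by
  set S := ∑ a, ‖∑ b, c b a * u b‖ ^ 2 with hS
  have hS0 : 0 ≤ S := by positivity
  set v : α → 𝕜 := fun a => (starRingEnd 𝕜) (∑ b, c b a * u b) with hv
  have hvS : ∑ a, ‖v a‖ ^ 2 = S := by simp only [hv, RCLike.norm_conj, hS]
  have h1 : (S : 𝕜) = ∑ b, u b * ∑ a, c b a * v a := by
    simp only [Finset.mul_sum]
    rw [Finset.sum_comm, hS]
    push_cast
    refine Finset.sum_congr rfl fun a _ => ?_
    rw [← RCLike.mul_conj, Finset.sum_mul]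
    exact Finset.sum_congr rfl fun b _ => by rw [hv]; ring
  have h2 : S ≤ ∑ b, ‖u b‖ * ‖∑ a, c b a * v a‖ := by
    have h3 : S = ‖(S : 𝕜)‖ := by rw [RCLike.norm_ofReal, abs_of_nonneg hS0]
    rw [h3, h1]
    exact (norm_sum_le _ _).trans (le_of_eq (by simp only [norm_mul]))
  have h4 := Finset.sum_mul_sq_le_sq_mul_sq univ (fun b => ‖u b‖) fun b => ‖∑ a, c b a * v a‖
  have h5 := hc v
  rw [hvS] at h5
  have h6 : S * S ≤ (∑ b, ‖u b‖ ^ 2) * S := by
    have h7 := pow_le_pow_left₀ hS0 h2 2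
    have h8 : 0 ≤ ∑ b, ‖u b‖ ^ 2 := by positivity
    nlinarith [mul_le_mul_of_nonneg_left h5 h8]
  rcases hS0.eq_or_lt with h9 | h9
  · rw [← h9]; positivity
  · exact le_of_mul_le_mul_right h6 h9

lemma rinv_of_real {W : Type*} [NormedAddCommGroup W] [NormedSpace 𝕜 W] [NormedSpace ℝ W]
    [IsScalarTower ℝ 𝕜 W] {C : ℝ} (h : RInv ℝ W C) : RInv 𝕜 W (2 * C) := by
  intro α β _ _ _ _ c hc y
  have h1 := h α β _ hc.re y
  have h2 := h α β _ hc.im y
  have h3 : (fun b => ∑ a, c b a • y a) = fun b => (∑ a, RCLike.re (c b a) • y a) +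
      (RCLike.I : 𝕜) • ∑ a, RCLike.im (c b a) • y a := by
    funext b
    rw [Finset.smul_sum, ← Finset.sum_add_distrib]
    refine Finset.sum_congr rfl fun a _ => ?_
    conv_lhs => rw [← RCLike.re_add_im (c b a)]
    rw [add_smul, mul_comm, mul_smul, RCLike.real_smul_eq_coe_smul (K := 𝕜),
      RCLike.real_smul_eq_coe_smul (K := 𝕜)]
  rw [h3]
  refine (R2_add_le _ _).trans ?_
  rw [R2_smul]
  have h4 : ‖(RCLike.I : 𝕜)‖ ^ 2 ≤ 1 := pow_le_one₀ (norm_nonneg _) (by
    rcases RCLike.I_eq_zero_or_im_I_eq_one (K := 𝕜) with h | h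
    · simp [h]
    · exact (RCLike.norm_I_of_ne_zero fun h' => by simp [h'] at h).le)
  nlinarith [mul_le_of_le_one_left (R2_nonneg fun b => ∑ a, RCLike.im (c b a) • y a) h4]

lemma rinv_dual {K C : ℝ} (hK : DualSel 𝕜 X K) (hC0 : 0 ≤ C)
    (hC : RInv 𝕜 (StrongDual 𝕜 X) C) : RInv 𝕜 X (C * K) := by
  intro α β _ _ _ _ c hc x
  obtain ⟨y, hy1, hy2⟩ := hK β fun b => ∑ a, c b a • x a
  have h1 : ∑ b, RCLike.re (y b (∑ a, c b a • x a)) =
      ∑ a, RCLike.re ((∑ b, c b a • y b) (x a)) := by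
    simp only [map_sum, map_smul, FunLike.coe_sum, Finset.sum_apply, smul_apply]
    exact Finset.sum_comm
  have h2 := pair_le (fun a => ∑ b, c b a • y b) x
  have h3 : √(R2 fun a => ∑ b, c b a • y b) ≤ C * K := by
    refine (Real.sqrt_le_sqrt (hC β α _ hc.transpose y)).trans ?_
    rw [Real.sqrt_mul (by positivity), Real.sqrt_sq hC0]
    gcongr
  have h4 : √(R2 fun b => ∑ a, c b a • x a) ≤ C * K * √(R2 x) :=
    hy2.trans (h1.le.trans (h2.trans (by gcongr)))
  have h5 := pow_le_pow_left₀ (Real.sqrt_nonneg _) h4 2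
  rwa [Real.sq_sqrt (R2_nonneg _), mul_pow, Real.sq_sqrt (R2_nonneg _)] at h5

end Dual

end Pool.Agent.Lib.MP_f92ad0_an.Mep
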