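import Pool.Agent.Lib.MP_f92ad0_an.MepK
import Pool.Agent.Lib.MP_f92ad0_an.MepG

/-! The block estimate. -/

namespace Pool.Agent.Lib.MP_f92ad0_an.Mep

open Finset
open scoped BigOperators

section Block

variable {𝕜 : Type} [RCLike 𝕜] {X : Type*} [NormedAddCommGroup X] [NormedSpace 𝕜 X]

/-- Operators into spaces with `C1` are dominated through Hilbert spaces. -/
def HFact (𝕜 : Type) (X : Type*) [RCLike 𝕜] [NormedAddCommGroup X] [NormedSpace 𝕜 X] (Γ : ℝ) :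
    Prop :=
  ∀ (Z : Type) [NormedAddCommGroup Z] [NormedSpace 𝕜 Z] [FiniteDimensional 𝕜 Z],
    C1 Z → ∀ (V : Type) [AddCommGroup V] [Module 𝕜 V] [FiniteDimensional 𝕜 V]
      (T : V →ₗ[𝕜] X) (g : V →ₗ[𝕜] Z) (G : ℝ), 0 ≤ G → (∀ v, ‖g v‖ ≤ G * ‖T v‖) →
      ∃ (d : ℕ) (β : X →L[𝕜] EuclideanSpace 𝕜 (Fin d)),
        ‖β‖ ≤ Γ * G ∧ ∀ v, ‖g v‖ ≤ ‖β (T v)‖

lemma hs_contr {α β κ : Type*} [Fintype α] [Fintype β] [Fintype κ] {c : β → α → 𝕜}
    (hc : Contr c) (z : α → EuclideanSpace 𝕜 κ) :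
    ∑ b, ‖∑ a, c b a • z a‖ ^ 2 ≤ ∑ a, ‖z a‖ ^ 2 := by
  simp only [EuclideanSpace.norm_sq_eq]
  rw [Finset.sum_comm, Finset.sum_comm (s := (univ : Finset α))]
  refine Finset.sum_le_sum fun k _ => le_trans (le_of_eq ?_) (hc fun a => z a k)
  simp

lemma contr_of_orthonormal {α β : Type*} [Fintype α] [Fintype β] {u : β → EuclideanSpace 𝕜 α}
    (hu : Orthonormal 𝕜 u) : Contr fun b a => u b a := fun v => by
  have h := hu.sum_inner_products_le (s := univ)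
    (WithLp.toLp 2 fun a => (starRingEnd 𝕜) (v a) : EuclideanSpace 𝕜 α)
  rw [EuclideanSpace.norm_sq_eq] at h
  simp only [RCLike.norm_conj] at h
  refine le_trans (le_of_eq (Finset.sum_congr rfl fun b _ => ?_)) h
  rw [← RCLike.norm_conj, PiLp.inner_apply]
  simp [mul_comm]

/-- The linear map with columns `x`. -/
def colMap {ι : Type*} [Fintype ι] (x : ι → X) : EuclideanSpace 𝕜 ι →ₗ[𝕜] X where
  toFun h := ∑ i, h i • x i
  map_add' u v := by simp [add_smul, Finset.sum_add_distrib]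
  map_smul' c u := by simp [Finset.smul_sum, smul_smul]

lemma colMap_apply {ι : Type*} [Fintype ι] (x : ι → X) (h : EuclideanSpace 𝕜 ι) :
    colMap x h = ∑ i, h i • x i := rfl

lemma min_le_avg {ι κ : Type*} [Fintype ι] [DecidableEq ι] [Fintype κ]
    (U : Submodule 𝕜 (EuclideanSpace 𝕜 ι)) (s : Finset ι) (hU : ∀ u ∈ U, ∀ i, i ∉ s → u i = 0)
    {k : ℕ} (hk : 0 < k) (hkU : k ≤ Module.finrank 𝕜 U) (z : ι → EuclideanSpace 𝕜 κ) :
    ∃ u ∈ U, ‖u‖ = 1 ∧ k * ‖∑ i, u i • z i‖ ^ 2 ≤ ∑ i ∈ s, ‖z i‖ ^ 2 := by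
  set b := stdOrthonormalBasis 𝕜 U
  have hb : Orthonormal 𝕜 fun j => (b j : EuclideanSpace 𝕜 ι) :=
    b.orthonormal.comp_linearIsometry U.subtypeₗᵢ
  have h1 := hs_contr (contr_of_orthonormal hb) fun i => if i ∈ s then z i else 0
  have h2 : ∑ i, ‖if i ∈ s then z i else 0‖ ^ 2 = ∑ i ∈ s, ‖z i‖ ^ 2 := by
    rw [← Finset.sum_subset (Finset.subset_univ s) (fun j _ hj => by simp [hj])]
    exact Finset.sum_congr rfl fun j hj => by simp [hj]
  have h3 : ∀ j, ∑ i, (b j : EuclideanSpace 𝕜 ι) i • (if i ∈ s then z i else 0) =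
      ∑ i, (b j : EuclideanSpace 𝕜 ι) i • z i := fun j =>
    Finset.sum_congr rfl fun i _ => by
      split_ifs with h
      · rfl
      · rw [hU _ (b j).2 i h]; simp
  simp only [h2, h3] at h1
  haveI : Nonempty (Fin (Module.finrank 𝕜 U)) := ⟨⟨0, by omega⟩⟩
  obtain ⟨j, -, hj⟩ := Finset.exists_min_image univ
    (fun j => ‖∑ i, (b j : EuclideanSpace 𝕜 ι) i • z i‖ ^ 2) Finset.univ_nonempty
  refine ⟨b j, (b j).2, hb.1 j, le_trans ?_ h1⟩
  have h4 := Finset.card_nsmul_le_sum univ _ _ fun j' h' => hj j' h'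
  rw [Finset.card_univ, Fintype.card_fin, nsmul_eq_mul] at h4
  refine le_trans ?_ h4
  gcongr

/-- The map into the `ℓ₁`-sum of the blocks. -/
noncomputable def blockMap {ι M : Type*} [Fintype ι] [DecidableEq ι] (I : M → Finset ι)
    (r : M → ℝ) (y : ι → StrongDual 𝕜 X) :
    X →ₗ[𝕜] PiLp 1 fun _ : M => EuclideanSpace 𝕜 ι where
  toFun ξ := WithLp.toLp 1 fun m => WithLp.toLp 2 fun i => if i ∈ I m then (r m : 𝕜) * y i ξ else 0
  map_add' u v := by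
    ext m i
    by_cases h : i ∈ I m <;> simp [h, mul_add]
  map_smul' c u := by
    ext m i
    by_cases h : i ∈ I m <;> simp [h, mul_left_comm]

lemma norm_blockMap {ι M : Type*} [Fintype ι] [DecidableEq ι] [Fintype M] (I : M → Finset ι)
    (r : M → ℝ) (hr : ∀ m, 0 ≤ r m) (y : ι → StrongDual 𝕜 X) (ξ : X) :
    ‖blockMap I r y ξ‖ = ∑ m, r m * √(∑ i ∈ I m, ‖y i ξ‖ ^ 2) := by
  rw [PiLp.norm_eq_of_L1]
  refine Finset.sum_congr rfl fun m _ => ?_
  rw [EuclideanSpace.norm_eq, ← Real.sqrt_sq (hr m), ← Real.sqrt_mul (by positivity),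
    Finset.mul_sum, ← Finset.sum_subset (Finset.subset_univ (I m))
      (fun j _ hj => by simp [blockMap, hj])]
  congr 1
  refine Finset.sum_congr rfl fun j hj => ?_
  simp [blockMap, hj, mul_pow]

theorem core_blocks {Γ C σ : ℝ} (hΓ0 : 0 ≤ Γ) (hΓ : HFact 𝕜 X Γ) (hC0 : 0 ≤ C)
    (hC : RInv 𝕜 (StrongDual 𝕜 X) C) (hσ0 : 0 ≤ σ)
    {ι M : Type} [Fintype ι] [DecidableEq ι] [Fintype M] [DecidableEq M]
    (x : ι → X) (y : ι → StrongDual 𝕜 X) (lam : ι → ℝ)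
    (hxy : ∀ i j, y i (x j) = if i = j then (lam i : 𝕜) else 0)
    (hσ : ∀ (d : ℕ) (β : X →L[𝕜] EuclideanSpace 𝕜 (Fin d)), ∑ i, ‖β (x i)‖ ^ 2 ≤ ‖β‖ ^ 2 * σ ^ 2)
    (I : M → Finset ι) (hI : ∀ m m', m ≠ m' → Disjoint (I m) (I m')) (k : M → ℕ)
    (hk : ∀ m, 0 < k m) (hkI : ∀ m, 2 * k m ≤ (I m).card) (μ : M → ℝ) (hμ0 : ∀ m, 0 ≤ μ m)
    (hμ : ∀ m, ∀ i ∈ I m, μ m ≤ lam i) :
    ∑ m, k m * μ m ≤ Γ * (8 * (C * √(R2 y))) * σ := by
  have hkr : ∀ m, (0 : ℝ) < k m := fun m => by exact_mod_cast hk m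
  have hsq : ∀ m, (0 : ℝ) < √(k m : ℝ) := fun m => Real.sqrt_pos.2 (hkr m)
  set a : (Σ m, Fin (k m)) → ι → StrongDual 𝕜 X :=
    fun j i => if i ∈ I j.1 then (((√(k j.1 : ℝ))⁻¹ : ℝ) : 𝕜) • y i else 0 with ha
  obtain ⟨ω, hω⟩ := lowM a
  -- the Rademacher mean of the frame
  have hR : R1 (fun p : (Σ m, Fin (k m)) × ι => a p.1 p.2) ≤ C * √(R2 y) := by
    refine (R1_le_sqrt_R2 _).trans ?_
    have hc : Contr fun (p : (Σ m, Fin (k m)) × ι) (l : ι) =>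
        if l = p.2 ∧ p.2 ∈ I p.1.1 then (((√(k p.1.1 : ℝ))⁻¹ : ℝ) : 𝕜) else 0 := fun v => by
      have e1 : ∀ p : (Σ m, Fin (k m)) × ι, ‖∑ l, (if l = p.2 ∧ p.2 ∈ I p.1.1 then
          (((√(k p.1.1 : ℝ))⁻¹ : ℝ) : 𝕜) else 0) * v l‖ ^ 2 =
          if p.2 ∈ I p.1.1 then (k p.1.1 : ℝ)⁻¹ * ‖v p.2‖ ^ 2 else 0 := fun p => by
        by_cases h : p.2 ∈ I p.1.1
        · simp [h, mul_pow, Real.sq_sqrt (hkr p.1.1).le]
        · simp [h]
      simp only [e1]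
      rw [Fintype.sum_prod_type, Finset.sum_comm]
      refine Finset.sum_le_sum fun i _ => ?_
      rw [Fintype.sum_sigma]
      simp only [Finset.sum_const, Finset.card_univ, Fintype.card_fin, nsmul_eq_mul]
      by_cases h : ∃ m, i ∈ I m
      · obtain ⟨m, hm⟩ := h
        rw [Finset.sum_eq_single m]
        · rw [if_pos hm, mul_inv_cancel_left₀ (hkr m).ne']
        · intro m' _ hm'
          rw [if_neg (Finset.disjoint_right.1 (hI m' m hm') hm), mul_zero]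
        · simp
      · push Not at h
        simp [h]
    have h1 := hC ι _ _ hc y
    have h2 : (fun p : (Σ m, Fin (k m)) × ι => ∑ l, (if l = p.2 ∧ p.2 ∈ I p.1.1 then
        (((√(k p.1.1 : ℝ))⁻¹ : ℝ) : 𝕜) else 0) • y l) = fun p => a p.1 p.2 := by
      ext p ξ
      simp only [FunLike.coe_sum, Finset.sum_apply, smul_apply, smul_eq_mul]
      by_cases h : p.2 ∈ I p.1.1 <;> simp [ha, h]
    rw [h2] at h1
    refine (Real.sqrt_le_sqrt h1).trans (le_of_eq ?_)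
    rw [Real.sqrt_mul (by positivity), Real.sqrt_sq hC0]
  set T : EuclideanSpace 𝕜 ι →ₗ[𝕜] X := colMap x with hT
  have hyT : ∀ i h, y i (T h) = lam i * h i := fun i h => by
    simp [hT, colMap_apply, hxy, mul_comm]
  set V : Submodule 𝕜 (EuclideanSpace 𝕜 ι) :=
    LinearMap.ker (LinearMap.pi fun j => (rs (a j) (ω j)).toLinearMap ∘ₗ T) with hV
  have hVm : ∀ h, h ∈ V ↔ ∀ j, rs (a j) (ω j) (T h) = 0 := fun h => by
    simp [hV, funext_iff]
  set g := blockMap I (fun m => √(k m : ℝ)) y with hg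
  have hgn : ∀ ξ : X, ‖g ξ‖ = ∑ j, √(∑ i, ‖a j i ξ‖ ^ 2) := fun ξ => by
    rw [hg, norm_blockMap _ _ (fun m => (hsq m).le), Fintype.sum_sigma]
    refine Finset.sum_congr rfl fun m _ => ?_
    have e1 : ∀ s : Fin (k m), √(∑ i, ‖a ⟨m, s⟩ i ξ‖ ^ 2) =
        (√(k m : ℝ))⁻¹ * √(∑ i ∈ I m, ‖y i ξ‖ ^ 2) := fun s => by
      rw [← Real.sqrt_inv, ← Real.sqrt_mul (inv_pos.2 (hkr m)).le, Finset.mul_sum,
        ← Finset.sum_subset (Finset.subset_univ (I m)) (fun j _ hj => by simp [ha, hj])]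
      congr 1
      refine Finset.sum_congr rfl fun j hj => ?_
      simp [ha, hj, mul_pow, Real.sq_sqrt (hkr m).le]
    simp only [e1, Finset.sum_const, Finset.card_univ, Fintype.card_fin, nsmul_eq_mul]
    rw [← mul_assoc]
    congr 1
    rw [← div_eq_mul_inv, Real.div_sqrt]
  obtain ⟨d, β, hβ, hβg⟩ := hΓ (PiLp 1 fun _ : M => EuclideanSpace 𝕜 ι)
    (C1_piLp fun _ => C1_inner 𝕜) V (T ∘ₗ V.subtype) (g ∘ₗ T ∘ₗ V.subtype) (8 * (C * √(R2 y)))
    (by positivity) fun v => by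
      simp only [LinearMap.comp_apply, Submodule.subtype_apply]
      rw [hgn]
      refine (hω _ ((hVm v).1 v.2)).trans ?_
      gcongr
  -- unit vectors in the blocks
  have hu : ∀ m, ∃ u ∈ V, (∀ i, i ∉ I m → u i = 0) ∧ ‖u‖ = 1 ∧
      k m * ‖β (T u)‖ ^ 2 ≤ ∑ i ∈ I m, ‖β (x i)‖ ^ 2 := fun m => by
    set Φ : EuclideanSpace 𝕜 ι →ₗ[𝕜] (Fin (k m) → 𝕜) × ({i // i ∉ I m} → 𝕜) :=
      LinearMap.prod (LinearMap.pi fun s => (rs (a ⟨m, s⟩) (ω ⟨m, s⟩)).toLinearMap ∘ₗ T)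
        (LinearMap.pi fun i => (EuclideanSpace.proj (𝕜 := 𝕜) i.1).toLinearMap) with hΦ
    have hΦm : ∀ h, h ∈ LinearMap.ker Φ ↔
        (∀ s, rs (a ⟨m, s⟩) (ω ⟨m, s⟩) (T h) = 0) ∧ ∀ i, i ∉ I m → h i = 0 := fun h => by
      simp [hΦ, funext_iff]
    have hdim : k m ≤ Module.finrank 𝕜 (LinearMap.ker Φ) := by
      have e1 := LinearMap.finrank_range_add_finrank_ker Φ
      have e2 := Submodule.finrank_le (LinearMap.range Φ)
      have e3 : Fintype.card {i // i ∉ I m} = Fintype.card ι - (I m).card := by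
        rw [Fintype.card_subtype_compl, Fintype.card_coe]
      have e4 : (I m).card ≤ Fintype.card ι := Finset.card_le_univ _
      simp only [Module.finrank_prod, Module.finrank_fintype_fun_eq_card, Fintype.card_fin, e3,
        finrank_euclideanSpace] at e1 e2
      have := hkI m
      omega
    obtain ⟨u, hu1, hu2, hu3⟩ := min_le_avg (LinearMap.ker Φ) (I m)
      (fun u hu => ((hΦm u).1 hu).2) (hk m) hdim fun i => β (x i)
    obtain ⟨hu4, hu5⟩ := (hΦm u).1 hu1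
    refine ⟨u, (hVm u).2 fun ⟨m', s⟩ => ?_, hu5, hu2, ?_⟩
    · by_cases hm : m' = m
      · subst hm; exact hu4 s
      · simp only [rs, FunLike.coe_sum, Finset.sum_apply, smul_apply]
        refine Finset.sum_eq_zero fun i _ => ?_
        by_cases hi : i ∈ I m'
        · simp [ha, hi, hyT, hu5 i (Finset.disjoint_left.1 (hI m' m hm) hi)]
        · simp [ha, hi]
    · simpa [hT, colMap_apply] using hu3
  choose u huV hus hu1 huβ using hu
  set w : M → EuclideanSpace 𝕜 ι := fun m => ((√(k m : ℝ) : ℝ) : 𝕜) • u m with hw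
  have hlow : ∀ ε : M → ℤˣ, ∑ m, k m * μ m ≤ ‖rs (fun m => β (T (w m))) ε‖ := fun ε => by
    have hmem : rs w ε ∈ V :=
      V.sum_mem fun m _ => V.toAddSubgroup.zsmul_mem (V.smul_mem _ (huV m)) _
    have e1 := hβg ⟨rs w ε, hmem⟩
    simp only [LinearMap.comp_apply, Submodule.subtype_apply] at e1
    have e0 : β (T (rs w ε)) = rs (fun m => β (T (w m))) ε := by
      simp only [rs, map_sum, map_zsmul]
    rw [← e0]
    refine le_trans ?_ e1
    rw [hg, norm_blockMap _ _ (fun m => (hsq m).le)]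
    refine Finset.sum_le_sum fun m _ => ?_
    have e2 : ∀ i ∈ I m, ‖rs w ε i‖ = √(k m : ℝ) * ‖u m i‖ := fun i hi => by
      have e3 : rs w ε i = (ε m : ℤ) • w m i := by
        simp only [rs, WithLp.ofLp_sum, Finset.sum_apply, WithLp.ofLp_smul, Pi.smul_apply]
        refine Finset.sum_eq_single m (fun m' _ hm' => ?_) (by simp)
        simp [hw, hus m' i (Finset.disjoint_right.1 (hI m' m hm') hi)]
      rw [e3, norm_units_smul]
      simp only [hw, WithLp.ofLp_smul, Pi.smul_apply, norm_smul, RCLike.norm_ofReal,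
        abs_of_pos (hsq m)]
    have e4 : ∑ i ∈ I m, ‖u m i‖ ^ 2 = 1 := by
      have := EuclideanSpace.norm_sq_eq (u m)
      rw [hu1, ← Finset.sum_subset (Finset.subset_univ (I m))
        (fun j _ hj => by simp [hus m j hj])] at this
      simpa using this.symm
    have e5 : √(k m : ℝ) * μ m ≤ √(∑ i ∈ I m, ‖y i (T (rs w ε))‖ ^ 2) := by
      refine Real.le_sqrt_of_sq_le ?_
      rw [← mul_one ((√(k m : ℝ) * μ m) ^ 2), ← e4, Finset.mul_sum]
      refine Finset.sum_le_sum fun i hi => ?_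
      rw [hyT, norm_mul, e2 i hi, RCLike.norm_ofReal, ← mul_pow,
        abs_of_nonneg ((hμ0 m).trans (hμ m i hi))]
      refine pow_le_pow_left₀ (by have := hμ0 m; positivity) ?_ 2
      have := mul_le_mul_of_nonneg_right (hμ m i hi)
        (mul_nonneg (hsq m).le (norm_nonneg (u m i)))
      linarith
    calc (k m : ℝ) * μ m = √(k m : ℝ) * (√(k m : ℝ) * μ m) := by
          rw [← mul_assoc, Real.mul_self_sqrt (hkr m).le]
      _ ≤ _ := by gcongr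
  have hup : R2 (fun m => β (T (w m))) ≤ ‖β‖ ^ 2 * σ ^ 2 := by
    rw [R2_inner 𝕜]
    refine le_trans ?_ (hσ d β)
    calc ∑ m, ‖β (T (w m))‖ ^ 2 ≤ ∑ m, ∑ i ∈ I m, ‖β (x i)‖ ^ 2 := by
          refine Finset.sum_le_sum fun m _ => le_trans (le_of_eq ?_) (huβ m)
          simp only [hw, map_smul, norm_smul, RCLike.norm_ofReal, mul_pow, sq_abs,
            Real.sq_sqrt (hkr m).le]
      _ = ∑ i ∈ univ.biUnion I, ‖β (x i)‖ ^ 2 :=
          (Finset.sum_biUnion fun m _ m' _ h => hI m m' h).symm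
      _ ≤ _ := Finset.sum_le_sum_of_subset_of_nonneg (Finset.subset_univ _) fun _ _ _ => by
          positivity
  calc ∑ m, k m * μ m ≤ R1 (fun m => β (T (w m))) :=
        Finset.le_expect Finset.univ_nonempty fun ε _ => hlow ε
    _ ≤ √(‖β‖ ^ 2 * σ ^ 2) := (R1_le_sqrt_R2 _).trans (Real.sqrt_le_sqrt hup)
    _ = ‖β‖ * σ := by rw [← mul_pow, Real.sqrt_sq (by positivity)]
    _ ≤ _ := by gcongr

end Block

end Pool.Agent.Lib.MP_f92ad0_an.Mep

/-! Singular values and the trace estimate. -/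

namespace Pool.Agent.Lib.MP_f92ad0_an.Mep

open Finset
open scoped BigOperators

section Trace

variable {𝕜 : Type} [RCLike 𝕜] {X : Type*} [NormedAddCommGroup X] [NormedSpace 𝕜 X]

theorem core_sorted {Γ C σ : ℝ} (hΓ0 : 0 ≤ Γ) (hΓ : HFact 𝕜 X Γ) (hC0 : 0 ≤ C)
    (hC : RInv 𝕜 (StrongDual 𝕜 X) C) (hσ0 : 0 ≤ σ) {n : ℕ}
    (x : Fin n → X) (y : Fin n → StrongDual 𝕜 X) (lam : Fin n → ℝ) (hlam : Antitone lam)
    (hlam0 : ∀ i, 0 ≤ lam i)
    (hxy : ∀ i j, y i (x j) = if i = j then (lam i : 𝕜) else 0) (hx : ∀ i, ‖x i‖ ≤ σ)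
    (hσ : ∀ (d : ℕ) (β : X →L[𝕜] EuclideanSpace 𝕜 (Fin d)),
      ∑ i, ‖β (x i)‖ ^ 2 ≤ ‖β‖ ^ 2 * σ ^ 2) :
    ∑ i, lam i ≤ (4 + 32 * Γ * C) * √(R2 y) * σ := by
  set f : ℕ → ℝ := fun j => if h : j < n then lam ⟨j, h⟩ else 0 with hf
  have hf0 : ∀ j, 0 ≤ f j := fun j => by
    simp only [hf]; split_ifs
    · exact hlam0 _
    · exact le_rfl
  have hfa : Antitone f := fun i j hij => by
    by_cases hj : j < n
    · simp only [hf, dif_pos hj, dif_pos (lt_of_le_of_lt hij hj)]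
      exact hlam hij
    · simp only [hf, dif_neg hj]
      exact hf0 i
  have hfb : ∀ j, f j ≤ √(R2 y) * σ := fun j => by
    simp only [hf]; split_ifs with h
    · have h1 : lam ⟨j, h⟩ = ‖y ⟨j, h⟩ (x ⟨j, h⟩)‖ := by
        rw [hxy, if_pos rfl, RCLike.norm_ofReal, abs_of_nonneg (hlam0 _)]
      rw [h1]
      refine (ContinuousLinearMap.le_opNorm _ _).trans (mul_le_mul ?_ (hx _) (norm_nonneg _)
        (Real.sqrt_nonneg _))
      exact Real.le_sqrt_of_sq_le (norm_sq_le_R2 𝕜 y _)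
    · positivity
  have h1 : ∑ i, lam i ≤ ∑ j ∈ range (2 ^ (n + 2)), f j := by
    have e1 : ∑ i, lam i = ∑ j ∈ range n, f j := by
      rw [Finset.sum_range]
      exact Finset.sum_congr rfl fun i _ => by simp [hf]
    rw [e1]
    refine Finset.sum_le_sum_of_subset_of_nonneg (Finset.range_mono ?_) fun j _ _ => hf0 j
    have := Nat.lt_two_pow_self (n := n + 2)
    omega
  have h2 := Finset.le_sum_condensed (f := f) (fun _ _ _ h => hfa h) (n + 2)
  rw [Finset.sum_range_succ', Finset.sum_range_succ'] at h2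
  have h3 := core_blocks hΓ0 hΓ hC0 hC hσ0 (M := {m : Fin n // 2 ^ (m + 2 : ℕ) ≤ n}) x y lam hxy hσ
    (fun m => univ.filter fun i : Fin n => 2 ^ (m.1 + 1 : ℕ) ≤ i.1 ∧ i.1 < 2 ^ (m.1 + 2 : ℕ))
    (fun m m' hmm => by
      rw [Finset.disjoint_filter]
      rintro i - ⟨a1, a2⟩ ⟨b1, b2⟩
      have c1 := (Nat.pow_lt_pow_iff_right (by norm_num : 1 < 2)).1 (lt_of_le_of_lt a1 b2)
      have c2 := (Nat.pow_lt_pow_iff_right (by norm_num : 1 < 2)).1 (lt_of_le_of_lt b1 a2)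
      exact hmm (Subtype.ext (Fin.ext (by omega))))
    (fun m => 2 ^ (m.1 : ℕ)) (fun m => by positivity)
    (fun m => by
      have e1 : (Finset.Ico (2 ^ (m.1 + 1 : ℕ)) (2 ^ (m.1 + 2 : ℕ))).card = 2 * 2 ^ (m.1 : ℕ) := by
        rw [Nat.card_Ico, pow_succ 2 (m.1 + 1), pow_succ]; omega
      rw [← e1]
      refine Finset.card_le_card_of_surjOn (fun i : Fin n => i.1) fun j hj => ?_
      have hj' := Finset.mem_Ico.1 (Finset.mem_coe.1 hj)
      exact ⟨⟨j, lt_of_lt_of_le hj'.2 m.2⟩, by simpa using hj', rfl⟩)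
    (fun m => f (2 ^ (m.1 + 2 : ℕ))) (fun m => hf0 _)
    (fun m i hi => by
      have e1 : lam i = f i := by simp [hf]
      rw [e1]
      exact hfa (Finset.mem_filter.1 hi).2.2.le)
  have h4 : ∑ j ∈ range n, 2 ^ (j + 1 + 1) • f (2 ^ (j + 1 + 1)) =
      4 * ∑ m : {m : Fin n // 2 ^ (m + 2 : ℕ) ≤ n},
        ((2 ^ (m.1 : ℕ) : ℕ) : ℝ) * f (2 ^ (m.1 + 2 : ℕ)) := by
    rw [Finset.sum_range, Finset.mul_sum,
      ← Finset.sum_subtype (univ.filter fun m : Fin n => 2 ^ (m + 2 : ℕ) ≤ n) (by simp)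
        fun m : Fin n => 4 * (((2 ^ (m : ℕ) : ℕ) : ℝ) * f (2 ^ (m + 2 : ℕ))), Finset.sum_filter]
    refine Finset.sum_congr rfl fun m _ => ?_
    split_ifs with h
    · simp only [nsmul_eq_mul]; push_cast; ring
    · have : ¬ 2 ^ (m + 1 + 1 : ℕ) < n := fun h' => h h'.le
      simp only [hf, dif_neg this, smul_zero]
  rw [h4] at h2
  simp only [nsmul_eq_mul] at h2
  push_cast at h2 h3
  norm_num at h2
  nlinarith [hfb 0, hfb 1, hfb 2]

/-- The analysis map of a family of functionals. -/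
def rowMap {ι : Type*} (y : ι → StrongDual 𝕜 X) : X →ₗ[𝕜] EuclideanSpace 𝕜 ι where
  toFun ξ := WithLp.toLp 2 fun i => y i ξ
  map_add' u v := by ext i; simp
  map_smul' c u := by ext i; simp

theorem trace_le {Γ C : ℝ} (hΓ0 : 0 ≤ Γ) (hΓ : HFact 𝕜 X Γ) (hC0 : 0 ≤ C)
    (hC : RInv 𝕜 (StrongDual 𝕜 X) C) {n : ℕ} (x : Fin n → X) (y : Fin n → StrongDual 𝕜 X) :
    ∑ i, RCLike.re (y i (x i)) ≤
      (4 + 32 * Γ * C) * (C * √(R2 y)) * √(∑ i, ‖x i‖ ^ 2) := by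
  set σ := √(∑ i, ‖x i‖ ^ 2) with hσ
  have hσ2 : σ ^ 2 = ∑ i, ‖x i‖ ^ 2 := Real.sq_sqrt (by positivity)
  set L : EuclideanSpace 𝕜 (Fin n) →ₗ[𝕜] EuclideanSpace 𝕜 (Fin n) := rowMap y ∘ₗ colMap x with hL
  have hS := LinearMap.isSymmetric_adjoint_comp_self L
  have hn : Module.finrank 𝕜 (EuclideanSpace 𝕜 (Fin n)) = n := finrank_euclideanSpace_fin
  set u := hS.eigenvectorBasis hn with hu
  set μ := hS.eigenvalues hn with hμ
  have hLL : ∀ l l', inner 𝕜 (L (u l)) (L (u l')) = if l = l' then (μ l : 𝕜) else 0 := by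
    intro l l'
    rw [← LinearMap.adjoint_inner_right, ← LinearMap.comp_apply, hu, hS.apply_eigenvectorBasis,
      inner_smul_right, orthonormal_iff_ite.1 (hS.eigenvectorBasis hn).orthonormal]
    split_ifs with h
    · rw [h, mul_one]
    · rw [mul_zero]
  set s : Fin n → ℝ := fun l => ‖L (u l)‖ with hs
  have hsμ : ∀ l, s l ^ 2 = μ l := fun l => by
    have := hLL l l
    rw [if_pos rfl, inner_self_eq_norm_sq_to_K] at this
    exact_mod_cast this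
  have hsa : Antitone s := fun i j hij => by
    refine (pow_le_pow_iff_left₀ (norm_nonneg _) (norm_nonneg _) two_ne_zero).1 ?_
    have := hS.eigenvalues_antitone hn hij
    change s j ^ 2 ≤ s i ^ 2
    rw [hsμ, hsμ]; exact this
  set w : Fin n → EuclideanSpace 𝕜 (Fin n) := fun l => (((s l)⁻¹ : ℝ) : 𝕜) • L (u l) with hw
  have hwL : ∀ l l', inner 𝕜 (w l) (L (u l')) = if l = l' then (s l : 𝕜) else 0 := by
    intro l l'
    rw [hw, inner_smul_left, hLL, RCLike.conj_ofReal]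
    split_ifs with h
    · rw [← hsμ, ← RCLike.ofReal_mul]
      congr 1
      rcases eq_or_ne (s l) 0 with h0 | h0
      · simp [h0]
      · field_simp
    · rw [mul_zero]
  have hwo : Orthonormal 𝕜 fun l : {l // s l ≠ 0} => w l := by
    rw [orthonormal_iff_ite]
    intro l l'
    conv_lhs => rw [show w l' = (((s l')⁻¹ : ℝ) : 𝕜) • L (u l') from rfl]
    rw [inner_smul_right, hwL]
    by_cases h : l = l'
    · subst h
      rw [if_pos rfl, if_pos rfl, ← RCLike.ofReal_mul, inv_mul_cancel₀ l.2, RCLike.ofReal_one]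
    · rw [if_neg h, if_neg (fun h' => h (Subtype.ext h')), mul_zero]
  have hwc : Contr fun l i => (starRingEnd 𝕜) (w l i) := fun v => by
    have h1 := hwo.sum_inner_products_le (s := univ) (WithLp.toLp 2 v : EuclideanSpace 𝕜 (Fin n))
    rw [EuclideanSpace.norm_sq_eq] at h1
    refine le_trans (le_of_eq ?_) h1
    rw [← Finset.sum_subtype (univ.filter fun l => s l ≠ 0) (by simp)
      fun l => ‖inner 𝕜 (w l) (WithLp.toLp 2 v : EuclideanSpace 𝕜 (Fin n))‖ ^ 2, Finset.sum_filter]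
    refine Finset.sum_congr rfl fun l _ => ?_
    split_ifs with h
    · rw [PiLp.inner_apply]; simp [mul_comm]
    · simp [hw, not_not.1 h]
  set y' : Fin n → StrongDual 𝕜 X := fun l => ∑ i, (starRingEnd 𝕜) (w l i) • y i with hy'
  have hy'a : ∀ l ξ, y' l ξ = inner 𝕜 (w l) (rowMap y ξ) := fun l ξ => by
    rw [hy', PiLp.inner_apply]
    simp [rowMap, mul_comm]
  have huc : Contr fun l i => u l i := contr_of_orthonormal u.orthonormal
  have hβ : ∀ (d : ℕ) (β : X →L[𝕜] EuclideanSpace 𝕜 (Fin d)),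
      ∑ l, ‖β (colMap x (u l))‖ ^ 2 ≤ ‖β‖ ^ 2 * σ ^ 2 := fun d β => by
    have h1 := hs_contr huc fun i => β (x i)
    simp only [colMap_apply, map_sum, map_smul]
    refine h1.trans ?_
    rw [hσ2, Finset.mul_sum]
    refine Finset.sum_le_sum fun i _ => ?_
    rw [← mul_pow]
    exact pow_le_pow_left₀ (norm_nonneg _) (β.le_opNorm _) 2
  have hx' : ∀ l, ‖colMap x (u l)‖ ≤ σ := fun l => by
    rw [colMap_apply]
    refine (norm_sum_le _ _).trans ?_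
    simp only [norm_smul]
    refine Real.le_sqrt_of_sq_le ((Finset.sum_mul_sq_le_sq_mul_sq _ _ _).trans ?_)
    rw [← EuclideanSpace.norm_sq_eq, u.orthonormal.1 l, one_pow, one_mul]
  have h1 := core_sorted hΓ0 hΓ hC0 hC (Real.sqrt_nonneg _) (fun l => colMap x (u l)) y' s hsa
    (fun l => norm_nonneg _) (fun l l' => by rw [hy'a]; exact hwL l l') hx' hβ
  have h2 : √(R2 y') ≤ C * √(R2 y) := by
    refine (Real.sqrt_le_sqrt (hC _ _ _ hwc y)).trans (le_of_eq ?_)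
    rw [Real.sqrt_mul (by positivity), Real.sqrt_sq hC0]
  have h3 : ∑ i, RCLike.re (y i (x i)) ≤ ∑ l, s l := by
    have e1 := LinearMap.trace_eq_sum_inner L u
    have e2 := LinearMap.trace_eq_sum_inner L (EuclideanSpace.basisFun (Fin n) 𝕜)
    have e3 : ∑ i, y i (x i) = ∑ l, inner 𝕜 (u l) (L (u l)) := by
      rw [← e1, e2]
      refine Finset.sum_congr rfl fun i _ => ?_
      simp [hL, rowMap, colMap_apply, EuclideanSpace.inner_single_left]
    rw [← map_sum, e3, map_sum]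
    refine Finset.sum_le_sum fun l _ => (RCLike.re_le_norm _).trans ?_
    refine (norm_inner_le_norm _ _).trans (le_of_eq ?_)
    rw [u.orthonormal.1 l, one_mul]
  refine h3.trans (h1.trans ?_)
  gcongr

theorem type2_of {Γ C K : ℝ} (hΓ0 : 0 ≤ Γ) (hΓ : HFact 𝕜 X Γ) (hC0 : 0 ≤ C)
    (hC : RInv 𝕜 (StrongDual 𝕜 X) C) (hK : DualSel 𝕜 X K) (n : ℕ) (x : Fin n → X) :
    √(R2 x) ≤ (4 + 32 * Γ * C) * (C * K) * √(∑ i, ‖x i‖ ^ 2) := by
  obtain ⟨y, hy1, hy2⟩ := hK (Fin n) x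
  refine hy2.trans ((trace_le hΓ0 hΓ hC0 hC x y).trans ?_)
  gcongr

theorem type2_of_finite [FiniteDimensional 𝕜 X] :
    ∃ C : ℝ, ∀ (n : ℕ) (x : Fin n → X), √(R2 x) ≤ C * √(∑ i, ‖x i‖ ^ 2) := by
  obtain ⟨e⟩ : Nonempty (X ≃L[𝕜] EuclideanSpace 𝕜 (Fin (Module.finrank 𝕜 X))) :=
    ⟨ContinuousLinearEquiv.ofFinrankEq finrank_euclideanSpace_fin.symm⟩
  set a := ‖(e : X →L[𝕜] EuclideanSpace 𝕜 (Fin (Module.finrank 𝕜 X)))‖
  set b := ‖(e.symm : EuclideanSpace 𝕜 (Fin (Module.finrank 𝕜 X)) →L[𝕜] X)‖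
  refine ⟨b * a, fun n x => ?_⟩
  have h1 : R2 x ≤ b ^ 2 * R2 fun i => e (x i) := by
    simp only [R2, Finset.mul_expect]
    refine Finset.expect_le_expect fun ε _ => ?_
    rw [← mul_pow, ← map_rs]
    refine pow_le_pow_left₀ (norm_nonneg _) ?_ 2
    simpa using (e.symm : EuclideanSpace 𝕜 (Fin (Module.finrank 𝕜 X)) →L[𝕜] X).le_opNorm
      (e (rs x ε))
  have h2 : ∑ i, ‖e (x i)‖ ^ 2 ≤ a ^ 2 * ∑ i, ‖x i‖ ^ 2 := by
    rw [Finset.mul_sum]
    refine Finset.sum_le_sum fun i _ => ?_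
    rw [← mul_pow]
    exact pow_le_pow_left₀ (norm_nonneg _)
      ((e : X →L[𝕜] EuclideanSpace 𝕜 (Fin (Module.finrank 𝕜 X))).le_opNorm _) 2
  rw [R2_inner 𝕜 fun i => e (x i)] at h1
  refine Real.sqrt_le_iff.2 ⟨by positivity, h1.trans ?_⟩
  rw [mul_pow, mul_pow, Real.sq_sqrt (by positivity), mul_assoc]
  gcongr

end Trace

end Pool.Agent.Lib.MP_f92ad0_an.Mep

/-! Assembly. -/

namespace Pool.Agent.Lib.MP_f92ad0_an.Mep

open Finset
open scoped BigOperators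

theorem main {𝕜 : Type} [RCLike 𝕜] {X : Type*} [NormedAddCommGroup X] [NormedSpace 𝕜 X]
    (h : ∀ (Z : Type) [NormedAddCommGroup Z] [NormedSpace 𝕜 Z] [CompleteSpace Z], C1 Z →
      ∀ Y : Submodule 𝕜 X, IsClosed (Y : Set X) → ∀ g : Y →L[𝕜] Z,
        ∃ f : X →L[𝕜] Z, ∀ y : Y, f y = g y) :
    ∃ C : ℝ, ∀ (n : ℕ) (x : Fin n → X), √(R2 x) ≤ C * √(∑ i, ‖x i‖ ^ 2) := by
  by_cases hX : FiniteDimensional 𝕜 X
  · exact type2_of_finite (𝕜 := 𝕜)
  obtain ⟨K, hK0, hK⟩ := uext h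
  obtain ⟨k, hk⟩ := bconv hK
  obtain ⟨K1, hK10, hK1⟩ : ∃ K1, 0 ≤ K1 ∧ KConv X K1 := by
    letI : NormedSpace ℝ X := NormedSpace.restrictScalars ℝ 𝕜 X
    exact kconv hk
  have hD := dualSel (𝕜 := 𝕜) hK10 hK1
  obtain ⟨C, hC0, hC⟩ := rinv_real (W := StrongDual 𝕜 X) hk.1 (cot_dual hk)
  have hC' : RInv 𝕜 (StrongDual 𝕜 X) (2 * C) := rinv_of_real hC
  obtain ⟨A, hA0, hA⟩ := dvor (rinv_dual hD (by positivity) hC')
  obtain ⟨Γ, hΓ0, hΓ⟩ := lt_factor hK0 hK hA0 hA hX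
  exact ⟨_, type2_of hΓ0 hΓ (by positivity) hC' hD⟩

end Pool.Agent.Lib.MP_f92ad0_an.Mep
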